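import Pool.Agent.SQ34.Defs
import Pool.Agent.TFC.JumpJS

/-!
Elementary facts on short cycles.
-/

set_option autoImplicit false
set_option linter.unusedSectionVars false

namespace Pool.Agent.TFC.SH

open Finset

variable {V : Type*} [DecidableEq V]

lemma mem_vs {Z : Finset (Sym2 V)} {u : V} : u ∈ vs Z ↔ ∃ w, s(u, w) ∈ Z := by
  unfold vs
  simp only [mem_biUnion, Sym2.mem_toFinset]
  constructor
  · rintro ⟨e, he, hu⟩
    obtain ⟨w, rfl⟩ := hu
    exact ⟨w, he⟩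
  · rintro ⟨w, hw⟩
    exact ⟨_, hw, by simp⟩

lemma mem_vs' {Z : Finset (Sym2 V)} {u w : V} (h : s(u, w) ∈ Z) : u ∈ vs Z ∧ w ∈ vs Z :=
  ⟨mem_vs.2 ⟨w, h⟩, mem_vs.2 ⟨u, msw h⟩⟩

lemma tr_rot (a b c : V) : tr a b c = tr b c a := by
  ext e
  simp only [tr, mem_insert, mem_singleton]
  tauto

lemma tr_swap (a b c : V) : tr a b c = tr b a c := by
  ext e
  simp only [tr, mem_insert, mem_singleton]
  rw [Sym2.eq_swap (a := b) (b := a), Sym2.eq_swap (a := a) (b := c), Sym2.eq_swap (a := c) (b := b)]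
  tauto

lemma sq_rot (a b c d : V) : sq a b c d = sq b c d a := by
  ext e
  simp only [sq, mem_insert, mem_singleton]
  tauto

lemma sq_ref (a b c d : V) : sq a b c d = sq d c b a := by
  ext e
  simp only [sq, mem_insert, mem_singleton]
  rw [Sym2.eq_swap (a := d) (b := c), Sym2.eq_swap (a := c) (b := b), Sym2.eq_swap (a := b) (b := a),
    Sym2.eq_swap (a := a) (b := d)]
  tauto

lemma Dist4.rot {a b c d : V} (h : Dist4 a b c d) : Dist4 b c d a := by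
  obtain ⟨h1, h2, h3, h4, h5, h6⟩ := h
  exact ⟨h4, h5, h1.symm, h6, h2.symm, h3.symm⟩

lemma Dist4.ref {a b c d : V} (h : Dist4 a b c d) : Dist4 d c b a := by
  obtain ⟨h1, h2, h3, h4, h5, h6⟩ := h
  exact ⟨h6.symm, h5.symm, h3.symm, h4.symm, h2.symm, h1.symm⟩

/-- writing a triangle with a given edge first -/
lemma isTr_first {Q : Finset (Sym2 V)} (hQ : IsTr Q) {x y : V} (he : s(x, y) ∈ Q) :
    ∃ p, x ≠ y ∧ x ≠ p ∧ y ≠ p ∧ Q = tr x y p := by
  obtain ⟨a, b, c, hab, hac, hbc, rfl⟩ := hQ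
  simp only [tr, mem_insert, mem_singleton, Sym2.eq_iff] at he
  rcases he with (⟨rfl, rfl⟩ | ⟨rfl, rfl⟩) | (⟨rfl, rfl⟩ | ⟨rfl, rfl⟩) | (⟨rfl, rfl⟩ | ⟨rfl, rfl⟩)
  · exact ⟨c, hab, hac, hbc, rfl⟩
  · exact ⟨c, hab.symm, hbc, hac, tr_swap _ _ _⟩
  · exact ⟨a, hbc, hab.symm, hac.symm, tr_rot _ _ _⟩
  · exact ⟨a, hbc.symm, hac.symm, hab.symm, by rw [tr_rot, tr_swap]⟩
  · exact ⟨b, hac.symm, hbc.symm, hab, by rw [tr_rot, tr_rot]⟩
  · exact ⟨b, hac, hab, hbc.symm, by rw [tr_rot, tr_rot, tr_swap]⟩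

/-- writing a square with a given edge first -/
lemma isSq_first {Q : Finset (Sym2 V)} (hQ : IsSq Q) {x y : V} (he : s(x, y) ∈ Q) :
    ∃ q p, Dist4 x y q p ∧ Q = sq x y q p := by
  obtain ⟨a, b, c, d, h, rfl⟩ := hQ
  simp only [sq, mem_insert, mem_singleton, Sym2.eq_iff] at he
  rcases he with (⟨rfl, rfl⟩ | ⟨rfl, rfl⟩) | (⟨rfl, rfl⟩ | ⟨rfl, rfl⟩) | (⟨rfl, rfl⟩ | ⟨rfl, rfl⟩) |
    (⟨rfl, rfl⟩ | ⟨rfl, rfl⟩)
  · exact ⟨c, d, h, rfl⟩
  · exact ⟨d, c, (Dist4.rot (Dist4.rot (Dist4.ref h))), by rw [sq_ref, sq_rot, sq_rot]⟩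
  · exact ⟨d, a, Dist4.rot h, by rw [sq_rot]⟩
  · exact ⟨a, d, Dist4.rot (Dist4.ref h), by rw [sq_ref, sq_rot]⟩
  · exact ⟨a, b, Dist4.rot (Dist4.rot h), by rw [sq_rot, sq_rot]⟩
  · exact ⟨b, a, Dist4.ref h, by rw [sq_ref]⟩
  · exact ⟨b, c, Dist4.rot (Dist4.rot (Dist4.rot h)), by rw [sq_rot, sq_rot, sq_rot]⟩
  · exact ⟨c, b, Dist4.rot (Dist4.rot (Dist4.rot (Dist4.ref h))), by rw [sq_ref, sq_rot, sq_rot, sq_rot]⟩

/-- writing a short cycle with a given edge first -/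
lemma isSh_first {Q : Finset (Sym2 V)} (hQ : IsSh Q) {x y : V} (he : s(x, y) ∈ Q) :
    (∃ p, x ≠ y ∧ x ≠ p ∧ y ≠ p ∧ Q = tr x y p) ∨ (∃ q p, Dist4 x y q p ∧ Q = sq x y q p) :=
  hQ.imp (fun h => isTr_first h he) (fun h => isSq_first h he)

lemma vs_tr (a b c : V) : vs (tr a b c) = {a, b, c} := by
  ext u
  rw [mem_vs]
  simp only [tr, mem_insert, mem_singleton, Sym2.eq_iff]
  constructor
  · rintro ⟨w, h⟩; tauto
  · rintro (rfl | rfl | rfl)
    · exact ⟨b, by simp⟩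
    · exact ⟨c, by simp⟩
    · exact ⟨a, by simp⟩

lemma vs_sq (a b c d : V) : vs (sq a b c d) = {a, b, c, d} := by
  ext u
  rw [mem_vs]
  simp only [sq, mem_insert, mem_singleton, Sym2.eq_iff]
  constructor
  · rintro ⟨w, h⟩; tauto
  · rintro (rfl | rfl | rfl | rfl)
    · exact ⟨b, by simp⟩
    · exact ⟨c, by simp⟩
    · exact ⟨d, by simp⟩
    · exact ⟨a, by simp⟩

/-- a short cycle has at most four vertices -/
lemma IsSh.card_le {Z : Finset (Sym2 V)} (h : IsSh Z) : #(vs Z) ≤ 4 := by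
  rcases h with ⟨a, b, c, -, -, -, rfl⟩ | ⟨a, b, c, d, -, rfl⟩
  · rw [vs_tr]
    have h1 := card_insert_le a ({b, c} : Finset V)
    have h2 := card_insert_le b ({c} : Finset V)
    rw [card_singleton] at h2
    omega
  · rw [vs_sq]
    have h1 := card_insert_le a ({b, c, d} : Finset V)
    have h2 := card_insert_le b ({c, d} : Finset V)
    have h3 := card_insert_le c ({d} : Finset V)
    rw [card_singleton] at h3
    omega

/-- each vertex of a short cycle has two neighbours in it -/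
lemma IsSh.two {Z : Finset (Sym2 V)} (h : IsSh Z) {u : V} (hu : u ∈ vs Z) :
    ∃ v w, v ≠ w ∧ s(u, v) ∈ Z ∧ s(u, w) ∈ Z := by
  obtain ⟨v, hv⟩ := mem_vs.1 hu
  rcases isSh_first h hv with ⟨p, h1, h2, h3, rfl⟩ | ⟨q, p, ⟨h1, h2, h3, h4, h5, h6⟩, rfl⟩
  · exact ⟨v, p, h3, by simp [tr], by rw [Sym2.eq_swap]; simp [tr]⟩
  · exact ⟨v, p, h5, by simp [sq], by rw [Sym2.eq_swap]; simp [sq]⟩

/-- a short cycle contained in a 2-matching contains all edges of the 2-matching at its vertices -/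
lemma IsSh.closed {M Z : Finset (Sym2 V)} (hM : M2 M) (h : IsSh Z) (hZ : Z ⊆ M) {u w : V}
    (hu : u ∈ vs Z) (huw : s(u, w) ∈ M) : s(u, w) ∈ Z := by
  obtain ⟨a, b, hab, ha, hb⟩ := h.two hu
  rcases nbr_two (hM.le u) (hZ ha) (hZ hb) hab huw with rfl | rfl
  · exact ha
  · exact hb

lemma IsSh.closed' {M Z : Finset (Sym2 V)} (hM : M2 M) (h : IsSh Z) (hZ : Z ⊆ M) {u w : V}
    (hu : u ∈ vs Z) (huw : s(u, w) ∈ M) : w ∈ vs Z :=
  (mem_vs' (h.closed hM hZ hu huw)).2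

/-- five different vertices do not fit in a short cycle -/
lemma IsSh.five_false {Z : Finset (Sym2 V)} (h : IsSh Z) {v : Fin 5 → V} (hv : Function.Injective v)
    (hm : ∀ i, v i ∈ vs Z) : False := by
  have h1 : (Finset.univ.image v) ⊆ vs Z := by
    intro u hu
    obtain ⟨i, -, rfl⟩ := mem_image.mp hu
    exact hm i
  have h2 := card_le_card h1
  rw [card_image_of_injective _ hv] at h2
  have h3 := h.card_le
  simp at h2
  omega

lemma Good.mono {al : Finset (Sym2 V) → Prop} {z z' : Finset (Sym2 V)} (hz : Good al z') (h : z ⊆ z') :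
    Good al z := fun Z hZ hs => hz Z hZ (hs.trans h)

/-- adding an edge -/
lemma good_insert {al : Finset (Sym2 V) → Prop} {z : Finset (Sym2 V)} {e : Sym2 V} (hz : Good al z)
    (h : ∀ Z, IsSh Z → Z ⊆ insert e z → e ∈ Z → al Z) : Good al (insert e z) := by
  intro Z hZ hs
  by_cases he : e ∈ Z
  · exact h Z hZ hs he
  · refine hz Z hZ fun f hf => ?_
    rcases mem_insert.1 (hs hf) with rfl | h'
    · exact absurd hf he
    · exact h'

lemma tr_card {a b c : V} (h1 : a ≠ b) (h2 : a ≠ c) (h3 : b ≠ c) : #(tr a b c) = 3 := by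
  unfold tr
  rw [card_insert_of_notMem, card_insert_of_notMem, card_singleton]
  · simp [h2.symm, h3, h1.symm]
  · simp [h1, h1.symm, h2, h3]

/-- the exceptional pairs of `D`: the triangles `x y p`, `x y r` where `D` contains the square `x p y r` -/
def Exc (D : Finset (Finset (Sym2 V))) (Q R : Finset (Sym2 V)) : Prop :=
  ∃ x y p r, Dist4 x p y r ∧ Q = tr x y p ∧ R = tr x y r ∧ sq x p y r ∈ D

/-- the hypothesis on a family of short cycles in the cluster theorem -/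
structure Fam (D : Finset (Finset (Sym2 V))) : Prop where
  sh : ∀ Q ∈ D, IsSh Q
  ex : ∀ Q ∈ D, ∀ R ∈ D, Q ≠ R → #(Q ∩ R) = 1 → Exc D Q R

/-- one step of the cluster theorem: a cluster and the members of `D` in it; the other members do not meet it -/
def Step (D : Finset (Finset (Sym2 V))) : Prop :=
  ∃ (c : Clu V) (D' : Finset (Finset (Sym2 V))), D' ⊆ D ∧ D'.Nonempty ∧ c.Valid ∧ (∀ S ∈ D', S ⊆ c.edges) ∧
    c.edges ⊆ D'.biUnion id ∧ ∀ T ∈ D, T ∉ D' → ∀ e ∈ T, e ∉ c.edges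

end Pool.Agent.TFC.SH
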