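import Pool.Agent.SQ34.Base

set_option autoImplicit false
set_option linter.unusedSectionVars false

/-! [SQ34-W] Theorem 1': degree vectors of the 2-matchings all of whose short cycles (triangles, squares) are allowed form a jump
set. Adapt Pool/Agent/TFC/LemW.lean (381 lines, the same theorem for squares only: `caseA`, `lemW_aux`) and
Pool/Agent/TFC/JumpJS.lean (copy, with `Good`, `JS` of this namespace; no `AlSym` needed now). `card_dist_insert`,
`card_dist_erase`, `card_dist_erase'`, `M2.of_tau`, `single_one`, `single_neg_one` of those files can be used directly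
(they are in the parent namespace `Pool.Agent.TFC`).

PROOF of Lemma W'. Statement: L, K al-good 2-matchings, τ ≤ 2, dv L = τ - ev z; then there is an al-good 2-matching M ⊆ L ∪ K with
dv M = τ - ev w, dv K w < τ w for some w, or dv M = τ + ev c, τ c < dv K c for some c. Strong induction on |L \ K| + |K \ L|.
If dv K z < τ z take M = L. Else there is zc ∈ K \ L. L1 := L + zc, dv L1 = τ + ev c.
 A (`caseA`). L1 is good: as in LemW.lean.
 B. L1 has a short cycle X which is not allowed; X contains zc (`good_insert` of Base.lean), so (`isSh_first`) X = tr z c t or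
 X = sq z c c2 t. In both cases t is the only L-neighbour of z, τ z = 2 = dg K z. X is the only short cycle of L1 with the edge zc
 (use `IsSh.closed`: any short cycle Z ⊆ L1 containing zc contains the L1-edges at its vertices, so it contains X; and a short cycle
 containing a short cycle is equal to it; or do it by hand as in LemW.lean).
 TRIANGLE X = z c t (ct, tz ∈ L; N_L(t) = {z, c}):
  (Ta) ct ∉ K: L2 = L1 - ct is good (L2 ⊆ L1 and X ⊄ L2), dv L2 = τ - ev t, the distance drops by 2; induction.
  (Tb) ct ∈ K. Then tz ∉ K (otherwise X ⊆ K, so X is allowed). dg K z = 2: there is zc' ∈ K, c' ≠ c; c' ≠ t; zc' ∉ L.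
     If L + zc' is good: case A with c'. Otherwise there is a non-allowed short cycle Z of L + zc' containing zc', hence t (the only
     L-neighbour of z), hence c (ct ∈ L): so Z = sq z c' c t and cc' ∈ L (Z has 4 vertices z, c', t, c and is not a triangle; z-c is
     not an edge of L + zc'). cc' ∉ K: N_K(c) = {z, t} and c' ≠ z, t. L2 = L + zc' - c'c: it is good (the component of z is
     a path c' z t c; a short cycle of L2 containing zc' would contain c', z, t, c and all L2-edges there), dv L2 = τ - ev c, the
     distance drops by 2; induction.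
 SQUARE X = z c c2 t (cc2, c2t, tz ∈ L; N_L(t) = {z, c2}, N_L(c2) = {t, c}, N_L(c) = {c2}):
  (Sa) cc2 ∉ K: L2 = L1 - cc2, dv L2 = τ - ev c2; induction (as case (a) in LemW.lean).
  (Sb) cc2 ∈ K, tz ∉ K: there is zc' ∈ K, c' ≠ c; c' ≠ t; zc' ∉ L.
     c' ≠ c2: a short cycle of L + zc' through zc' would contain z, t, c2, c and c': five vertices (`IsSh.five_false`). Case A with c'.
     c' = c2: L2 := L + zc + zc2 - cc2 - zt. (zc, zc2 ∈ K \ L; zt ∈ L \ K; cc2 ∈ L ∩ K: the distance drops by 3 - 1 = 2.)
       dv L2 = τ - ev t. L2 is good: the component of z in L2 is the path c z c2 t (N_{L2}(z) = {c, c2}, N_{L2}(c) = {z},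
       N_{L2}(c2) = {z, t}, N_{L2}(t) = {c2}); a short cycle of L2 containing zc or zc2 would contain all of c, z, c2, t, but c has
       degree 1 (`IsSh.two`); other short cycles of L2 are contained in L. Induction.
  (Sc) cc2, tz ∈ K. Then tc2 ∉ K. As case (c) in LemW.lean: L^ := L1 - cc2, good, dv = τ - ev c2, same distance. If τ c2 > dv K c2:
     M = L^. Else (τ c2 = 2) there is c2y ∈ K, y ≠ c; y ≠ t; y ≠ z as N_K(z) = {c, t}. L^ has the path c2 t z c, so c2y ∉ L^ and a short
     cycle of L^ + c2y through c2y would contain the five vertices c2, t, z, c, y. Then `caseA` for L^, c2, y. -/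

namespace Pool.Agent.TFC.SH

open Finset

variable {V : Type*} [DecidableEq V]

/-- the conclusion of Lemma W' -/
def W_Conc (al : Finset (Sym2 V) → Prop) (K : Finset (Sym2 V)) (τ : V → ℤ)
    (L : Finset (Sym2 V)) : Prop :=
  ∃ M ⊆ L ∪ K, M2 M ∧ Good al M ∧
    ((∃ w, dv M = τ - ev w ∧ dv K w < τ w) ∨ (∃ c, dv M = τ + ev c ∧ τ c < dv K c))

lemma W_Conc.mono {al : Finset (Sym2 V) → Prop} {K : Finset (Sym2 V)} {τ : V → ℤ}
    {L L' : Finset (Sym2 V)} (h : W_Conc al K τ L') (hL : L' ⊆ L ∪ K) : W_Conc al K τ L := by
  obtain ⟨M, hM, h2⟩ := h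
  refine ⟨M, hM.trans ?_, h2⟩
  exact union_subset hL subset_union_right

variable {al : Finset (Sym2 V) → Prop}

/-- Case A: the edge `zc` can be added without creating a bad short cycle. -/
private lemma W_caseA {K : Finset (Sym2 V)} (hK : M2 K) {τ : V → ℤ} (hτ : ∀ v, τ v ≤ 2)
    {n : ℕ} (ih : ∀ (L : Finset (Sym2 V)) (z : V), #(L \ K) + #(K \ L) < n → M2 L → Good al L →
      dv L = τ - ev z → W_Conc al K τ L)
    {L : Finset (Sym2 V)} {z c : V} (hn : #(L \ K) + #(K \ L) ≤ n) (hL : M2 L)
    (hd : dv L = τ - ev z) (hzK : s(z, c) ∈ K) (hzL : s(z, c) ∉ L)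
    (hg : Good al (insert s(z, c) L)) : W_Conc al K τ L := by
  have hzc : z ≠ c := hK.nl.ne hzK
  have hd1 : dv (insert s(z, c) L) = τ + ev c := by
    rw [dv_insert hzc hzL, hd]; abel
  have hnl : NoLoop (insert s(z, c) L) := hL.nl.insert hzc
  have hsub : insert s(z, c) L ⊆ L ∪ K := by
    intro e he
    rw [mem_insert] at he
    rcases he with rfl | he
    · exact mem_union_right _ hzK
    · exact mem_union_left _ he
  by_cases h1 : τ c < dv K c
  · refine ⟨insert s(z, c) L, hsub, ?_, hg, Or.inr ⟨c, hd1, h1⟩⟩
    refine M2.of_dv hnl fun v => ?_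
    rw [hd1, Pi.add_apply, ev_apply]
    have hKc := hK.le c
    rw [dv_apply] at h1
    split_ifs with hv
    · subst hv; omega
    · have := hτ v; omega
  · push Not at h1
    have h2 : dg K c < dg (insert s(z, c) L) c := by
      have h3 : dv (insert s(z, c) L) c = τ c + 1 := by rw [hd1, Pi.add_apply, ev_self]
      rw [dv_apply] at h1 h3
      omega
    obtain ⟨w, hw1, hw2⟩ := exists_nbr_notMem h2
    have hcw : c ≠ w := hnl.ne hw1
    have hwz : w ≠ z := by
      rintro rfl
      rw [Sym2.eq_swap] at hw2
      exact hw2 hzK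
    have hd2 : dv ((insert s(z, c) L).erase s(c, w)) = τ - ev w := by
      rw [dv_erase hcw hw1, hd1]; abel
    have hsub2 : (insert s(z, c) L).erase s(c, w) ⊆ L ∪ K := (erase_subset _ _).trans hsub
    have hnl2 : NoLoop ((insert s(z, c) L).erase s(c, w)) := hnl.mono (erase_subset _ _)
    refine W_Conc.mono (ih _ w ?_ (M2.of_tau hnl2 hτ hd2) (hg.mono (erase_subset _ _)) hd2) hsub2
    have e1 := card_dist_insert hzK hzL
    have e2 := card_dist_erase hw2 hw1
    omega

/-- a short cycle through `u` uses both possible edges at `u` -/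
private lemma W_nb {Z M : Finset (Sym2 V)} (hZ : IsSh Z) (hs : Z ⊆ M) {u a b : V}
    (hu : u ∈ vs Z) (hn : ∀ w, s(u, w) ∈ M → w = a ∨ w = b) : s(u, a) ∈ Z ∧ s(u, b) ∈ Z := by
  obtain ⟨v, w, hvw, hv, hw⟩ := hZ.two hu
  rcases hn v (hs hv) with rfl | rfl
  · rcases hn w (hs hw) with rfl | rfl
    · exact absurd rfl hvw
    · exact ⟨hv, hw⟩
  · rcases hn w (hs hw) with rfl | rfl
    · exact ⟨hw, hv⟩
    · exact absurd rfl hvw

/-- no short cycle passes through a vertex with only one neighbour -/
private lemma W_nb1 {Z M : Finset (Sym2 V)} (hZ : IsSh Z) (hs : Z ⊆ M) {u a : V}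
    (hu : u ∈ vs Z) (hn : ∀ w, s(u, w) ∈ M → w = a) : False := by
  obtain ⟨v, w, hvw, hv, hw⟩ := hZ.two hu
  exact hvw ((hn v (hs hv)).trans (hn w (hs hw)).symm)

private lemma W_five {Z : Finset (Sym2 V)} (h : IsSh Z) {a b c d e : V} (hab : a ≠ b) (hac : a ≠ c)
    (had : a ≠ d) (hae : a ≠ e) (hbc : b ≠ c) (hbd : b ≠ d) (hbe : b ≠ e) (hcd : c ≠ d)
    (hce : c ≠ e) (hde : d ≠ e) (ha : a ∈ vs Z) (hb : b ∈ vs Z) (hc : c ∈ vs Z) (hd : d ∈ vs Z)
    (he : e ∈ vs Z) : False := by
  have h1 : ({a, b, c, d, e} : Finset V) ⊆ vs Z := by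
    intro u hu
    simp only [mem_insert, mem_singleton] at hu
    rcases hu with rfl | rfl | rfl | rfl | rfl <;> assumption
  have h2 := card_le_card h1
  have h3 : #({a, b, c, d, e} : Finset V) = 5 := by
    rw [card_insert_of_notMem, card_insert_of_notMem, card_insert_of_notMem,
      card_insert_of_notMem, card_singleton]
    · simp [hde]
    · simp [hcd, hce]
    · simp [hbc, hbd, hbe]
    · simp [hab, hac, had, hae]
  have := h.card_le
  omega

private theorem W_aux {K : Finset (Sym2 V)} (hK : M2 K) (hKg : Good al K)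
    {τ : V → ℤ} (hτ : ∀ v, τ v ≤ 2) (n : ℕ) :
    ∀ (L : Finset (Sym2 V)) (z : V), #(L \ K) + #(K \ L) ≤ n → M2 L → Good al L →
      dv L = τ - ev z → W_Conc al K τ L := by
  induction n using Nat.strong_induction_on with
  | _ n ih =>
  intro L z hn hL hLg hd
  have ih' : ∀ (L : Finset (Sym2 V)) (z : V), #(L \ K) + #(K \ L) < n → M2 L → Good al L →
      dv L = τ - ev z → W_Conc al K τ L := fun L z h => ih _ h L z le_rfl
  by_cases h0 : dv K z < τ z
  · exact ⟨L, subset_union_left, hL, hLg, Or.inl ⟨z, hd, h0⟩⟩
  push Not at h0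
  have hdz : dv L z = τ z - 1 := by rw [hd, Pi.sub_apply, ev_self]
  have hlt : dg L z < dg K z := by
    rw [dv_apply] at hdz h0
    omega
  obtain ⟨c, hcK, hcL⟩ := exists_nbr_notMem hlt
  have hzc : z ≠ c := hK.nl.ne hcK
  by_cases hB : ∀ Z, IsSh Z → Z ⊆ insert s(z, c) L → s(z, c) ∈ Z → al Z
  · exact W_caseA hK hτ ih' hn hL hd hcK hcL (good_insert hLg hB)
  push Not at hB
  obtain ⟨X, hXs, hXsub, hXe, hbad⟩ := hB
  have hnl1 : NoLoop (insert s(z, c) L) := hL.nl.insert hzc
  have hzle : dg L z ≤ 1 := by
    have := hτ z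
    rw [dv_apply] at hdz
    omega
  have hd1 : dv (insert s(z, c) L) = τ + ev c := by
    rw [dv_insert hzc hcL, hd]; abel
  have hsub1 : insert s(z, c) L ⊆ L ∪ K := by
    intro e he
    rw [mem_insert] at he
    rcases he with rfl | he
    · exact mem_union_right _ hcK
    · exact mem_union_left _ he
  rcases isSh_first hXs hXe with ⟨t, -, hzt, hct, rfl⟩ | ⟨c2, t, hD4, rfl⟩
  · -- triangle `z c t`
    have m1 : s(c, t) ∈ L := by
      refine (mem_insert.mp (hXsub (by simp [tr]))).resolve_left fun h => ?_
      rw [Sym2.eq_iff] at h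
      rcases h with ⟨h, -⟩ | ⟨-, h⟩
      · exact hzc h.symm
      · exact hzt h.symm
    have m3 : s(t, z) ∈ L := by
      refine (mem_insert.mp (hXsub (by simp [tr]))).resolve_left fun h => ?_
      rw [Sym2.eq_iff] at h
      rcases h with ⟨h, -⟩ | ⟨h, -⟩
      · exact hzt h.symm
      · exact hct h.symm
    have m1' : s(t, c) ∈ L := msw m1
    have m3' : s(z, t) ∈ L := msw m3
    have hτz : τ z = 2 := by
      have h1 := dg_pos m3'
      have := hτ z
      rw [dv_apply] at hdz
      omega
    have nz : ∀ u, s(z, u) ∈ L → u = t := fun u hu => nbr_unique hzle hu m3'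
    have nt : ∀ u, s(t, u) ∈ L → u = z ∨ u = c := fun u hu =>
      nbr_two (hL.le t) m3 m1' hzc hu
    have hzK2 : dg K z = 2 := by
      have := hK.le z
      rw [dv_apply] at h0
      omega
    by_cases hctK : s(c, t) ∈ K
    swap
    · -- (Ta)
      have hmem : s(c, t) ∈ insert s(z, c) L := mem_insert_of_mem m1
      have hne : s(z, c) ≠ s(c, t) := by
        intro h
        rw [Sym2.eq_iff] at h
        rcases h with ⟨h, -⟩ | ⟨h, -⟩
        · exact hzc h
        · exact hzt h
      have hg2 : Good al ((insert s(z, c) L).erase s(c, t)) := by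
        rw [erase_insert_of_ne hne]
        refine good_insert (hLg.mono (erase_subset _ _)) ?_
        intro Z hZ hZs hZe
        exfalso
        have a1 : s(z, t) ∈ Z := by
          refine (W_nb hZ hZs (mem_vs' hZe).1 (a := t) (b := c) ?_).1
          intro w hw
          rcases mem_insert.1 hw with h | h
          · exact Or.inr (sym2_inj_left h)
          · exact Or.inl (nz w (mem_of_mem_erase h))
        have a2 : s(t, c) ∈ Z := by
          refine (W_nb hZ hZs (mem_vs' a1).2 (a := z) (b := c) ?_).2
          intro w hw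
          rcases mem_insert.1 hw with h | h
          · rw [Sym2.eq_iff] at h
            rcases h with ⟨h, -⟩ | ⟨h, -⟩
            · exact absurd h.symm hzt
            · exact absurd h.symm hct
          · exact nt w (mem_of_mem_erase h)
        have a3 := hZs (msw a2)
        rcases mem_insert.1 a3 with h | h
        · exact hne h.symm
        · exact notMem_erase _ _ h
      have hd2 : dv ((insert s(z, c) L).erase s(c, t)) = τ - ev t := by
        rw [dv_erase hct hmem, hd1]; abel
      have hnl2 : NoLoop ((insert s(z, c) L).erase s(c, t)) := hnl1.mono (erase_subset _ _)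
      refine W_Conc.mono (ih' _ t ?_ (M2.of_tau hnl2 hτ hd2) hg2 hd2)
        ((erase_subset _ _).trans hsub1)
      have e1 := card_dist_insert hcK hcL
      have e2 := card_dist_erase hctK hmem
      omega
    · -- (Tb)
      have htzK : s(t, z) ∉ K := by
        intro h
        refine hbad (hKg _ hXs ?_)
        intro e he
        simp only [tr, mem_insert, mem_singleton] at he
        rcases he with rfl | rfl | rfl <;> assumption
      obtain ⟨c', hc'c, hc'K⟩ := exists_nbr_ne (z := K) (v := z) (by omega) c
      have hc't : c' ≠ t := by rintro rfl; exact htzK (msw hc'K)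
      have hc'L : s(z, c') ∉ L := fun h => hc't (nz c' h)
      have hzc' : z ≠ c' := hK.nl.ne hc'K
      by_cases hB' : ∀ Z, IsSh Z → Z ⊆ insert s(z, c') L → s(z, c') ∈ Z → al Z
      · exact W_caseA hK hτ ih' hn hL hd hc'K hc'L (good_insert hLg hB')
      push Not at hB'
      obtain ⟨Y, hYs, hYsub, hYe, -⟩ := hB'
      have nz' : ∀ w, s(z, w) ∈ insert s(z, c') L → w = t ∨ w = c' := by
        intro w hw
        rcases mem_insert.1 hw with h | h
        · exact Or.inr (sym2_inj_left h)
        · exact Or.inl (nz w h)
      have nt' : ∀ w, s(t, w) ∈ insert s(z, c') L → w = z ∨ w = c := by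
        intro w hw
        rcases mem_insert.1 hw with h | h
        · rw [Sym2.eq_iff] at h
          rcases h with ⟨h, -⟩ | ⟨h, -⟩
          · exact absurd h.symm hzt
          · exact absurd h.symm hc't
        · exact nt w h
      have a1 : s(z, t) ∈ Y := (W_nb hYs hYsub (mem_vs' hYe).1 nz').1
      have a2 : s(t, c) ∈ Y := (W_nb hYs hYsub (mem_vs' a1).2 nt').2
      have a3 : s(c, c') ∈ Y := by
        rcases isSh_first hYs a1 with ⟨p, h1, h2, h3, rfl⟩ | ⟨q, p, ⟨h1, h2, h3, h4, h5, h6⟩, rfl⟩
        · exfalso
          have b1 : c' = p := by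
            have := hYe
            simp only [tr, mem_insert, mem_singleton, Sym2.eq_iff] at this
            rcases this with (⟨-, h⟩ | ⟨h, -⟩) | (⟨h, -⟩ | ⟨h, -⟩) | (⟨h, -⟩ | ⟨-, h⟩)
            · exact absurd h hc't
            · exact absurd h hzt
            · exact absurd h hzt
            · exact absurd h h2
            · exact absurd h h2
            · exact h
          have b2 : c = p := by
            have := a2
            simp only [tr, mem_insert, mem_singleton, Sym2.eq_iff] at this
            rcases this with (⟨h, -⟩ | ⟨-, h⟩) | (⟨-, h⟩ | ⟨h, -⟩) | (⟨-, h⟩ | ⟨h, -⟩)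
            · exact absurd h.symm hzt
            · exact absurd h.symm hzc
            · exact h
            · exact absurd h h3
            · exact absurd h.symm hzc
            · exact absurd h.symm hzt
          exact hc'c (b1.trans b2.symm)
        · have b1 : c' = p := by
            have := hYe
            simp only [sq, mem_insert, mem_singleton, Sym2.eq_iff] at this
            rcases this with (⟨-, h⟩ | ⟨h, -⟩) | (⟨h, -⟩ | ⟨h, -⟩) | (⟨h, -⟩ | ⟨h, -⟩) |
              (⟨h, -⟩ | ⟨-, h⟩)
            · exact absurd h hc't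
            · exact absurd h hzt
            · exact absurd h hzt
            · exact absurd h h2
            · exact absurd h h2
            · exact absurd h h3
            · exact absurd h h3
            · exact h
          have b2 : c = q := by
            have := a2
            simp only [sq, mem_insert, mem_singleton, Sym2.eq_iff] at this
            rcases this with (⟨h, -⟩ | ⟨-, h⟩) | (⟨-, h⟩ | ⟨h, -⟩) | (⟨h, -⟩ | ⟨h, -⟩) |
              (⟨h, -⟩ | ⟨h, -⟩)
            · exact absurd h.symm hzt
            · exact absurd h.symm hzc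
            · exact h
            · exact absurd h h4
            · exact absurd h h4
            · exact absurd h h5
            · exact absurd h h5
            · exact absurd h.symm hzt
          rw [b1, b2]
          simp [sq]
      have a3L : s(c, c') ∈ L := by
        refine (mem_insert.mp (hYsub a3)).resolve_left fun h => ?_
        rw [Sym2.eq_iff] at h
        rcases h with ⟨h, -⟩ | ⟨h, -⟩
        · exact hzc h.symm
        · exact hc'c h.symm
      have a3K : s(c, c') ∉ K := by
        intro h
        rcases nbr_two (hK.le c) (msw hcK) hctK hzt h with h | h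
        · exact hzc' h.symm
        · exact hc't h
      have hmem : s(c, c') ∈ insert s(z, c') L := mem_insert_of_mem a3L
      have hne : s(z, c') ≠ s(c, c') := by
        intro h
        rw [Sym2.eq_iff] at h
        rcases h with ⟨h, -⟩ | ⟨h, -⟩
        · exact hzc h
        · exact hzc' h
      have hg2 : Good al ((insert s(z, c') L).erase s(c, c')) := by
        rw [erase_insert_of_ne hne]
        refine good_insert (hLg.mono (erase_subset _ _)) ?_
        intro Z hZ hZs hZe
        exfalso
        have hZs' : Z ⊆ insert s(z, c') L := hZs.trans (insert_subset_insert _ (erase_subset _ _))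
        have b1 : s(z, t) ∈ Z := (W_nb hZ hZs' (mem_vs' hZe).1 nz').1
        have b2 : s(t, c) ∈ Z := (W_nb hZ hZs' (mem_vs' b1).2 nt').2
        refine W_nb1 hZ hZs (mem_vs' b2).2 (a := t) ?_
        intro w hw
        rcases mem_insert.1 hw with h | h
        · rw [Sym2.eq_iff] at h
          rcases h with ⟨h, -⟩ | ⟨h, -⟩
          · exact absurd h.symm hzc
          · exact absurd h.symm hc'c
        · rw [mem_erase] at h
          rcases nbr_two (hL.le c) m1 a3L (Ne.symm hc't) h.2 with h' | h'
          · exact h'
          · exact absurd (by rw [h']) h.1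
      have hd1' : dv (insert s(z, c') L) = τ + ev c' := by
        rw [dv_insert hzc' hc'L, hd]; abel
      have hd2 : dv ((insert s(z, c') L).erase s(c, c')) = τ - ev c := by
        rw [dv_erase (Ne.symm hc'c) hmem, hd1']; abel
      have hnl2 : NoLoop ((insert s(z, c') L).erase s(c, c')) :=
        (hL.nl.insert hzc').mono (erase_subset _ _)
      have hsub1' : insert s(z, c') L ⊆ L ∪ K := by
        intro e he
        rw [mem_insert] at he
        rcases he with rfl | he
        · exact mem_union_right _ hc'K
        · exact mem_union_left _ he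
      refine W_Conc.mono (ih' _ c ?_ (M2.of_tau hnl2 hτ hd2) hg2 hd2)
        ((erase_subset _ _).trans hsub1')
      have e1 := card_dist_insert hc'K hc'L
      have e2 := card_dist_erase a3K hmem
      omega
  · -- square `z c c2 t`
    obtain ⟨-, hzc2, hzt, hcc2, hct, hc2t⟩ := hD4
    have m1 : s(c, c2) ∈ L := by
      refine (mem_insert.mp (hXsub (by simp [sq]))).resolve_left fun h => ?_
      rw [Sym2.eq_iff] at h
      rcases h with ⟨h, -⟩ | ⟨-, h⟩
      · exact hzc h.symm
      · exact hzc2 h.symm
    have m2 : s(c2, t) ∈ L := by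
      refine (mem_insert.mp (hXsub (by simp [sq]))).resolve_left fun h => ?_
      rw [Sym2.eq_iff] at h
      rcases h with ⟨h, -⟩ | ⟨h, -⟩
      · exact hzc2 h.symm
      · exact hcc2 h.symm
    have m3 : s(t, z) ∈ L := by
      refine (mem_insert.mp (hXsub (by simp [sq]))).resolve_left fun h => ?_
      rw [Sym2.eq_iff] at h
      rcases h with ⟨h, -⟩ | ⟨h, -⟩
      · exact hzt h.symm
      · exact hct h.symm
    have m1' : s(c2, c) ∈ L := msw m1
    have m2' : s(t, c2) ∈ L := msw m2
    have m3' : s(z, t) ∈ L := msw m3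
    have hτz : τ z = 2 := by
      have h1 := dg_pos m3'
      have := hτ z
      rw [dv_apply] at hdz
      omega
    have nz : ∀ u, s(z, u) ∈ L → u = t := fun u hu => nbr_unique hzle hu m3'
    have nt : ∀ u, s(t, u) ∈ L → u = z ∨ u = c2 := fun u hu =>
      nbr_two (hL.le t) m3 m2' hzc2 hu
    have nc2 : ∀ u, s(c2, u) ∈ L → u = t ∨ u = c := fun u hu =>
      nbr_two (hL.le c2) m2 m1' (Ne.symm hct) hu
    have hzK2 : dg K z = 2 := by
      have := hK.le z
      rw [dv_apply] at h0
      omega
    have hc2mem : s(c, c2) ∈ insert s(z, c) L := mem_insert_of_mem m1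
    have hne : s(z, c) ≠ s(c, c2) := by
      intro h
      rw [Sym2.eq_iff] at h
      rcases h with ⟨h, -⟩ | ⟨h, -⟩
      · exact hzc h
      · exact hzc2 h
    -- the neighbours in the new set
    set L2 := (insert s(z, c) L).erase s(c, c2) with hL2
    have inL2 : ∀ e, e ∈ L2 → e = s(z, c) ∨ (e ∈ L ∧ e ≠ s(c, c2)) := by
      intro e he
      rw [hL2, mem_erase, mem_insert] at he
      rcases he with ⟨h1, h2 | h2⟩
      · exact Or.inl h2
      · exact Or.inr ⟨h2, h1⟩
    have n2c2 : ∀ u, s(c2, u) ∈ L2 → u = t := by
      intro u hu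
      rcases inL2 _ hu with h | ⟨h, h'⟩
      · rw [Sym2.eq_iff] at h
        rcases h with ⟨h, -⟩ | ⟨h, -⟩
        · exact absurd h.symm hzc2
        · exact absurd h.symm hcc2
      · rcases nc2 u h with h1 | h1
        · exact h1
        · subst h1
          exact absurd Sym2.eq_swap h'
    have n2t : ∀ u, s(t, u) ∈ L2 → u = z ∨ u = c2 := by
      intro u hu
      rcases inL2 _ hu with h | ⟨h, -⟩
      · rw [Sym2.eq_iff] at h
        rcases h with ⟨h, -⟩ | ⟨h, -⟩
        · exact absurd h.symm hzt
        · exact absurd h.symm hct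
      · exact nt u h
    have n2z : ∀ u, s(z, u) ∈ L2 → u = t ∨ u = c := by
      intro u hu
      rcases inL2 _ hu with h | ⟨h, -⟩
      · exact Or.inr (sym2_inj_left h)
      · exact Or.inl (nz u h)
    have hg2 : Good al L2 := by
      have e : L2 = insert s(z, c) (L.erase s(c, c2)) := by
        rw [hL2, erase_insert_of_ne hne]
      rw [e]
      refine good_insert (hLg.mono (erase_subset _ _)) ?_
      rw [← e]
      intro Z hZ hZs hZe
      exfalso
      have b1 : s(z, t) ∈ Z := (W_nb hZ hZs (mem_vs' hZe).1 n2z).1
      have b2 : s(t, c2) ∈ Z := (W_nb hZ hZs (mem_vs' b1).2 n2t).2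
      exact W_nb1 hZ hZs (mem_vs' b2).2 n2c2
    have hd2 : dv L2 = τ - ev c2 := by
      rw [hL2, dv_erase hcc2 hc2mem, hd1]; abel
    have hsub2 : L2 ⊆ L ∪ K := (erase_subset _ _).trans hsub1
    have hnl2 : NoLoop L2 := hnl1.mono (erase_subset _ _)
    have hM2 : M2 L2 := M2.of_tau hnl2 hτ hd2
    by_cases hcK2 : s(c, c2) ∈ K
    swap
    · -- (Sa)
      refine W_Conc.mono (ih' _ c2 ?_ hM2 hg2 hd2) hsub2
      have e1 := card_dist_insert hcK hcL
      have e2 := card_dist_erase hcK2 hc2mem
      rw [← hL2] at e2
      omega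
    by_cases htK : s(z, t) ∈ K
    swap
    · -- (Sb)
      obtain ⟨c', hc'c, hc'K⟩ := exists_nbr_ne (z := K) (v := z) (by omega) c
      have hc't : c' ≠ t := by rintro rfl; exact htK hc'K
      have hc'L : s(z, c') ∉ L := fun h => hc't (nz c' h)
      have hzc' : z ≠ c' := hK.nl.ne hc'K
      by_cases hc'c2 : c' = c2
      swap
      · refine W_caseA hK hτ ih' hn hL hd hc'K hc'L (good_insert hLg ?_)
        intro Z hZ hZs hZe
        exfalso
        have b1 : s(z, t) ∈ Z := by
          refine (W_nb hZ hZs (mem_vs' hZe).1 (a := t) (b := c') ?_).1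
          intro w hw
          rcases mem_insert.1 hw with h | h
          · exact Or.inr (sym2_inj_left h)
          · exact Or.inl (nz w h)
        have b2 : s(t, c2) ∈ Z := by
          refine (W_nb hZ hZs (mem_vs' b1).2 (a := z) (b := c2) ?_).2
          intro w hw
          rcases mem_insert.1 hw with h | h
          · rw [Sym2.eq_iff] at h
            rcases h with ⟨h, -⟩ | ⟨h, -⟩
            · exact absurd h.symm hzt
            · exact absurd h.symm hc't
          · exact nt w h
        have b3 : s(c2, c) ∈ Z := by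
          refine (W_nb hZ hZs (mem_vs' b2).2 (a := t) (b := c) ?_).2
          intro w hw
          rcases mem_insert.1 hw with h | h
          · rw [Sym2.eq_iff] at h
            rcases h with ⟨h, -⟩ | ⟨h, -⟩
            · exact absurd h.symm hzc2
            · exact absurd h.symm hc'c2
          · exact nc2 w h
        exact W_five hZ hzc' hzt hzc2 hzc hc't hc'c2 hc'c hc2t.symm hct.symm hcc2.symm
          (mem_vs' hZe).1 (mem_vs' hZe).2 (mem_vs' b1).2 (mem_vs' b3).1 (mem_vs' b3).2
      · subst hc'c2
        -- L3 = L2 + z c2 - z t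
        have hzc2L2 : s(z, c') ∉ L2 := by
          intro h
          rcases n2z _ h with h' | h'
          · exact hc't h'
          · exact hc'c h'
        have hztL2 : s(z, t) ∈ L2 := by
          rw [hL2, mem_erase, mem_insert]
          refine ⟨?_, Or.inr m3'⟩
          intro h
          rw [Sym2.eq_iff] at h
          rcases h with ⟨h, -⟩ | ⟨h, -⟩
          · exact hzc h
          · exact hzc' h
        have hne3 : s(z, c') ≠ s(z, t) := fun h => hc't (sym2_inj_left h)
        have hmem3 : s(z, t) ∈ insert s(z, c') L2 := mem_insert_of_mem hztL2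
        have hd3 : dv ((insert s(z, c') L2).erase s(z, t)) = τ - ev t := by
          rw [dv_erase hzt hmem3, dv_insert hzc' hzc2L2, hd2]; abel
        have hnl3 : NoLoop ((insert s(z, c') L2).erase s(z, t)) :=
          (hnl2.insert hzc').mono (erase_subset _ _)
        have hg3 : Good al ((insert s(z, c') L2).erase s(z, t)) := by
          rw [erase_insert_of_ne hne3]
          refine good_insert (hg2.mono (erase_subset _ _)) ?_
          intro Z hZ hZs hZe
          exfalso
          have b1 : s(c', t) ∈ Z := by
            refine (W_nb hZ hZs (mem_vs' hZe).2 (a := t) (b := z) ?_).1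
            intro w hw
            rcases mem_insert.1 hw with h | h
            · rw [Sym2.eq_iff] at h
              rcases h with ⟨h, -⟩ | ⟨-, h⟩
              · exact absurd h.symm hzc'
              · exact Or.inr h
            · exact Or.inl (n2c2 w (mem_of_mem_erase h))
          refine W_nb1 hZ hZs (mem_vs' b1).2 (a := c') ?_
          intro w hw
          rcases mem_insert.1 hw with h | h
          · rw [Sym2.eq_iff] at h
            rcases h with ⟨h, -⟩ | ⟨h, -⟩
            · exact absurd h.symm hzt
            · exact absurd h.symm hc't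
          · rw [mem_erase] at h
            rcases n2t w h.2 with h' | h'
            · exact absurd (by rw [h', Sym2.eq_swap]) h.1
            · exact h'
        have hsub3 : (insert s(z, c') L2).erase s(z, t) ⊆ L ∪ K := by
          refine (erase_subset _ _).trans ?_
          intro e he
          rw [mem_insert] at he
          rcases he with rfl | he
          · exact mem_union_right _ hc'K
          · exact hsub2 he
        refine W_Conc.mono (ih' _ t ?_ (M2.of_tau hnl3 hτ hd3) hg3 hd3) hsub3
        have e1 := card_dist_insert hcK hcL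
        have e2 := card_dist_erase' hcK2 hc2mem
        rw [← hL2] at e2
        have e3 := card_dist_insert hc'K hzc2L2
        have e4 := card_dist_erase htK hmem3
        omega
    -- (Sc)
    have htc2 : s(t, c2) ∉ K := by
      intro h
      refine hbad (hKg _ hXs ?_)
      intro e he
      simp only [sq, mem_insert, mem_singleton] at he
      rcases he with rfl | rfl | rfl | rfl
      · exact hcK
      · exact hcK2
      · exact msw h
      · exact msw htK
    by_cases h5 : dv K c2 < τ c2
    · exact ⟨_, hsub2, hM2, hg2, Or.inl ⟨c2, hd2, h5⟩⟩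
    push Not at h5
    have hLc2 : dg L c2 = 2 := le_antisymm (hL.le c2) (dg_ge_two m2 m1' (Ne.symm hct))
    have hτc2 : τ c2 = 2 := by
      have : dv L c2 = τ c2 - 0 := by rw [hd, Pi.sub_apply, ev_ne hzc2.symm]
      rw [dv_apply, hLc2] at this
      push_cast at this
      omega
    have hKc2 : 2 ≤ dg K c2 := by
      rw [dv_apply, hτc2] at h5
      exact_mod_cast h5
    obtain ⟨y, hyc, hyK⟩ := exists_nbr_ne hKc2 c
    have hyt : y ≠ t := by
      rintro rfl
      exact htc2 (msw hyK)
    have hyz : y ≠ z := by
      rintro rfl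
      rcases nbr_two (hK.le y) hcK htK hct (msw hyK) with h | h
      · exact hcc2 h.symm
      · exact hc2t h
    have hyc2 : c2 ≠ y := hK.nl.ne hyK
    have hyL2 : s(c2, y) ∉ L2 := fun h => hyt (n2c2 y h)
    have hg3 : Good al (insert s(c2, y) L2) := by
      refine good_insert hg2 ?_
      intro Z hZ hZs hZe
      exfalso
      have b1 : s(c2, t) ∈ Z := by
        refine (W_nb hZ hZs (mem_vs' hZe).1 (a := t) (b := y) ?_).1
        intro w hw
        rcases mem_insert.1 hw with h | h
        · exact Or.inr (sym2_inj_left h)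
        · exact Or.inl (n2c2 w h)
      have b2 : s(t, z) ∈ Z := by
        refine (W_nb hZ hZs (mem_vs' b1).2 (a := z) (b := c2) ?_).1
        intro w hw
        rcases mem_insert.1 hw with h | h
        · rw [Sym2.eq_iff] at h
          rcases h with ⟨h, -⟩ | ⟨h, -⟩
          · exact absurd h.symm hc2t
          · exact absurd h.symm hyt
        · exact n2t w h
      have b3 : s(z, c) ∈ Z := by
        refine (W_nb hZ hZs (mem_vs' b2).2 (a := t) (b := c) ?_).2
        intro w hw
        rcases mem_insert.1 hw with h | h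
        · rw [Sym2.eq_iff] at h
          rcases h with ⟨h, -⟩ | ⟨h, -⟩
          · exact absurd h hzc2
          · exact absurd h.symm hyz
        · exact n2z w h
      exact W_five hZ hyc2 hc2t hzc2.symm hcc2.symm hyt hyz hyc hzt.symm hct.symm hzc
        (mem_vs' hZe).1 (mem_vs' hZe).2 (mem_vs' b1).2 (mem_vs' b3).1 (mem_vs' b3).2
    have e1 := card_dist_insert hcK hcL
    have e2 := card_dist_erase' hcK2 hc2mem
    rw [← hL2] at e2
    exact W_Conc.mono (W_caseA hK hτ ih' (by omega) hM2 hd2 hyK hyL2 hg3) hsub2

/-- **Theorem 1'** -/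
theorem jump_JS (al : Finset (Sym2 V) → Prop) (E : Finset (Sym2 V)) : Jump (JS E al) := by
  rintro x ⟨A, hAE, hA, hAg, rfl⟩ y ⟨B, hBE, hB, hBg, rfl⟩ i ε hε hpos
  have fin : ∀ (τ : V → ℤ) (L : Finset (Sym2 V)), L ⊆ E → W_Conc al B τ L →
      ∃ (j : V) (δ : ℤ), (δ = 1 ∨ δ = -1) ∧ 0 < δ * (dv B j - τ j) ∧
        τ + Pi.single j δ ∈ JS E al := by
    rintro τ L hL ⟨M, hM, hM2, hMg, h⟩
    have hME : M ⊆ E := hM.trans (union_subset hL hBE)
    rcases h with ⟨w, h1, h2⟩ | ⟨c, h1, h2⟩
    · refine ⟨w, -1, Or.inr rfl, by linarith, M, hME, hM2, hMg, ?_⟩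
      rw [h1, single_neg_one]; abel
    · refine ⟨c, 1, Or.inl rfl, by linarith, M, hME, hM2, hMg, ?_⟩
      rw [h1, single_one]
  rcases hε with rfl | rfl
  · -- step up
    have hlt : dv A i < dv B i := by linarith
    refine fin (dv A + Pi.single i 1) A hAE ?_
    refine W_aux hB hBg (fun v => ?_) _ A i le_rfl hA hAg ?_
    · rw [single_one, Pi.add_apply, ev_apply]
      have h1 := hA.le v
      have h2 := hB.le v
      simp only [dv_apply] at hlt ⊢
      split_ifs with hv
      · subst hv; omega
      · omega
    · rw [single_one]; abel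
  · -- step down
    have hlt : dg B i < dg A i := by
      have : dv B i < dv A i := by linarith
      simp only [dv_apply] at this
      exact_mod_cast this
    obtain ⟨u, hu1, hu2⟩ := exists_nbr_notMem hlt
    have hiu : i ≠ u := hA.nl.ne hu1
    refine fin (dv A + Pi.single i (-1)) (A.erase s(i, u)) ((erase_subset _ _).trans hAE) ?_
    refine W_aux hB hBg (fun v => ?_) _ (A.erase s(i, u)) u le_rfl
      (hA.mono (erase_subset _ _)) (hAg.mono (erase_subset _ _)) ?_
    · rw [single_neg_one, Pi.add_apply, Pi.neg_apply, ev_apply]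
      have h1 := hA.le v
      simp only [dv_apply]
      split_ifs <;> omega
    · rw [single_neg_one, dv_erase hiu hu1]; abel

end Pool.Agent.TFC.SH
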