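import Pool.Agent.SQ34.CE0
import Pool.Agent.SQ34.W

set_option autoImplicit false
set_option linter.unusedSectionVars false
set_option linter.unusedTactic false
set_option linter.unreachableTactic false
set_option linter.unusedSimpArgs false

/-! [SQ34-CE5] conflict elimination for two squares whose union has five vertices. Adapt `ce5` in Pool/Agent/TFC/CE3.lean
(the same for squares only; `finish`, `fin5`, `dv_sq`, `put2`, `alFN`, `good_of_subset` are in CE0.lean, `jump_JS` in W.lean).
DIFFERENCE: the completion by a triangle is not allowed any more, so step from N towards F: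
Q = x y q p ⊆ F, R = x y r q ⊆ N, H = Q ∪ R. J := JS ((F ∪ N) \ H) (alFN F N), pulled back to the coordinates (p, r) (base vector: 2 outside
H, 0 at x, y, q, p, r): F \ H gives ![0, 2], N \ H gives ![2, 0]. Jump axiom from ![2, 0] towards ![0, 2], first step -1 at p
(index 0): second step -1 at index 0: ![0, 0] ∈ J, or +1 at index 1: ![1, 1] ∈ J.
 ![0, 0]: P = {pq, qr, ry, yx, xp} (5-cycle p q r y x; pq, xp ∈ Q, qr, ry ∈ R), degrees 2 at all five vertices. `fin5`.
 ![1, 1]: P = {px, xy, yq, qr} (path p x y q r), as in TFC/CE3.lean. `fin5`. -/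

namespace Pool.Agent.TFC.SH

open Finset

variable {V : Type*} [DecidableEq V]

/-- five different vertices -/
structure CE5_Five (x y p q r : V) : Prop where
  xy : x ≠ y
  xp : x ≠ p
  xq : x ≠ q
  xr : x ≠ r
  yp : y ≠ p
  yq : y ≠ q
  yr : y ≠ r
  pq : p ≠ q
  pr : p ≠ r
  qr : q ≠ r

/-- **conflict elimination, two squares, five vertices** -/
theorem ce5 {F N : Finset (Sym2 V)} (hF : TF F) (hN : TF N) {x y p q r : V} (h1 : Dist4 x y q p)
    (h2 : Dist4 x y r q) (hpr : p ≠ r) (hQF : sq x y q p ⊆ F) (hRN : sq x y r q ⊆ N) :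
    CEConc F N (sq x y q p) (sq x y r q) := by
  obtain ⟨hxy, hxq, hxp, hyq, hyp, hqp⟩ := h1
  obtain ⟨-, hxr, -, hyr, -, hrq⟩ := h2
  have s5 : CE5_Five x y p q r := ⟨hxy, hxp, hxq, hxr, hyp, hyq, hyr, hqp.symm, hpr, hrq.symm⟩
  have hdQ : Dist4 x y q p := ⟨s5.xy, s5.xq, s5.xp, s5.yq, s5.yp, s5.pq.symm⟩
  have hdR : Dist4 x y r q := ⟨s5.xy, s5.xr, s5.xq, s5.yr, s5.yq, s5.qr.symm⟩
  have f1 : s(x, y) ∈ F := hQF (by simp [sq])
  have f2 : s(y, q) ∈ F := hQF (by simp [sq])
  have f3 : s(q, p) ∈ F := hQF (by simp [sq])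
  have f4 : s(p, x) ∈ F := hQF (by simp [sq])
  have n1 : s(x, y) ∈ N := hRN (by simp [sq])
  have n2 : s(y, r) ∈ N := hRN (by simp [sq])
  have n3 : s(r, q) ∈ N := hRN (by simp [sq])
  have n4 : s(q, x) ∈ N := hRN (by simp [sq])
  have mF : M2 F := TF.m2 hF
  have mN : M2 N := TF.m2 hN
  have hnl : NoLoop (F ∪ N) := by
    intro e he
    rcases mem_union.mp he with h | h
    · exact hF.nl e h
    · exact hN.nl e h
  set H := sq x y q p ∪ sq x y r q with hH
  have hHFN : H ⊆ F ∪ N := union_subset (hQF.trans subset_union_left) (hRN.trans subset_union_right)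
  have eF : F \ H = F \ sq x y q p := by
    ext e
    simp only [mem_sdiff]
    constructor
    · rintro ⟨h1, h2⟩
      exact ⟨h1, fun h3 => h2 (mem_union_left _ h3)⟩
    · rintro ⟨h1, h2⟩
      refine ⟨h1, fun h3 => ?_⟩
      rcases mem_union.mp h3 with h3 | h3
      · exact h2 h3
      · simp only [sq, mem_insert, mem_singleton] at h3
        rcases h3 with rfl | rfl | rfl | rfl
        · exact h2 (by simp [sq])
        · rcases nbr_two (mF.le y) (msw f1) f2 s5.xq h1 with h | h
          · exact s5.xr h.symm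
          · exact s5.qr h.symm
        · rcases nbr_two (mF.le q) (msw f2) f3 s5.yp (msw h1) with h | h
          · exact s5.yr h.symm
          · exact s5.pr h.symm
        · rcases nbr_two (mF.le x) f1 (msw f4) s5.yp (msw h1) with h | h
          · exact s5.yq h.symm
          · exact s5.pq h.symm
  have eN : N \ H = N \ sq x y r q := by
    ext e
    simp only [mem_sdiff]
    constructor
    · rintro ⟨h1, h2⟩
      exact ⟨h1, fun h3 => h2 (mem_union_right _ h3)⟩
    · rintro ⟨h1, h2⟩
      refine ⟨h1, fun h3 => ?_⟩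
      rcases mem_union.mp h3 with h3 | h3
      · simp only [sq, mem_insert, mem_singleton] at h3
        rcases h3 with rfl | rfl | rfl | rfl
        · exact h2 (by simp [sq])
        · rcases nbr_two (mN.le y) (msw n1) n2 s5.xr h1 with h | h
          · exact s5.xq h.symm
          · exact s5.qr h
        · rcases nbr_two (mN.le q) (msw n3) n4 s5.xr.symm h1 with h | h
          · exact s5.pr h
          · exact s5.xp h.symm
        · rcases nbr_two (mN.le x) n1 (msw n4) s5.yq (msw h1) with h | h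
          · exact s5.yp h.symm
          · exact s5.pq h
      · exact h2 h3
  let base : V → ℤ := fun v => 2 - 2 * ev x v - 2 * ev y v - 2 * ev q v - 2 * ev p v - 2 * ev r v
  have hf : Function.Injective ![p, r] := by
    intro i j hij
    fin_cases i <;> fin_cases j <;> first | rfl | (exfalso; revert hij; simp [Sym2.eq_iff, s5.xy, s5.xp, s5.xq, s5.xr, s5.yp, s5.yq, s5.yr, s5.pq, s5.pr, s5.qr,
          s5.xy.symm, s5.xp.symm, s5.xq.symm, s5.xr.symm, s5.yp.symm, s5.yq.symm, s5.yr.symm, s5.pq.symm,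
          s5.pr.symm, s5.qr.symm])
  have hJ := Jump.pull hf base (jump_JS (alFN F N) ((F ∪ N) \ H))
  have m1 : (![0, 2] : Fin 2 → ℤ) ∈ {k : Fin 2 → ℤ | base + put ![p, r] k ∈ JS ((F ∪ N) \ H) (alFN F N)} := by
    refine ⟨F \ H, sdiff_subset_sdiff subset_union_left le_rfl, mF.mono sdiff_subset,
      good_of_subset (Or.inl sdiff_subset), ?_⟩
    funext v
    rw [eF, dv_sdiff hF.nl hQF, Pi.sub_apply, dv_sq hdQ, Pi.add_apply, put2]
    simp only [dv_apply, hF.eq, base]
    simp
    ring
  have m2 : (![2, 0] : Fin 2 → ℤ) ∈ {k : Fin 2 → ℤ | base + put ![p, r] k ∈ JS ((F ∪ N) \ H) (alFN F N)} := by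
    refine ⟨N \ H, sdiff_subset_sdiff subset_union_right le_rfl, mN.mono sdiff_subset,
      good_of_subset (Or.inr sdiff_subset), ?_⟩
    funext v
    rw [eN, dv_sdiff hN.nl hRN, Pi.sub_apply, dv_sq hdR, Pi.add_apply, put2]
    simp only [dv_apply, hN.eq, base]
    simp
    ring
  obtain ⟨j, δ, hδ, hpos, hmem⟩ := hJ _ m2 _ m1 0 (-1) (Or.inr rfl) (by simp)
  have hQs : IsSh (sq x y q p) := Or.inr ⟨x, y, q, p, hdQ, rfl⟩
  have hRs : IsSh (sq x y r q) := Or.inr ⟨x, y, r, q, hdR, rfl⟩
  fin_cases j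
  · -- (0,0): a 5-cycle
    have hδ1 : δ = -1 := by
      rcases hδ with h | h
      · subst h
        simp at hpos
      · exact h
    subst hδ1
    have e00 : (![2, 0] + Pi.single 0 (-1) + Pi.single (0 : Fin 2) (-1 : ℤ) : Fin 2 → ℤ) = ![0, 0] := by
      funext i
      fin_cases i <;> simp [Matrix.vecHead, Matrix.vecTail]
    have hmem' : base + put ![p, r] ![0, 0] ∈ JS ((F ∪ N) \ H) (alFN F N) := by
      rw [← e00]; exact hmem
    obtain ⟨O, hO, -, hOg, hdv⟩ := hmem'
    refine finish (O := O) (P := [s(p, q), s(q, r), s(r, y), s(y, x), s(x, p)].toFinset) (H := H) hO ?_ hHFN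
      hnl hOg ?_ subset_union_left subset_union_right hQs hRs ?_
    · intro e he
      rw [List.mem_toFinset] at he
      simp only [List.mem_cons, List.not_mem_nil, or_false] at he
      rcases he with he | he | he | he | he <;> subst he <;> simp [hH, sq]
    · funext v
      have h1 := congrFun hdv v
      rw [Pi.add_apply, put2] at h1
      rw [Pi.add_apply, ← h1, dv_list]
      · simp [base, two]
        ring
      · simp [Sym2.eq_iff, s5.xy, s5.xp, s5.xq, s5.xr, s5.yp, s5.yq, s5.yr, s5.pq, s5.pr, s5.qr,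
          s5.xy.symm, s5.xp.symm, s5.xq.symm, s5.xr.symm, s5.yp.symm, s5.yq.symm, s5.yr.symm, s5.pq.symm,
          s5.pr.symm, s5.qr.symm]
      · simp [Sym2.eq_iff, s5.xy, s5.xp, s5.xq, s5.xr, s5.yp, s5.yq, s5.yr, s5.pq, s5.pr, s5.qr,
          s5.xy.symm, s5.xp.symm, s5.xq.symm, s5.xr.symm, s5.yp.symm, s5.yq.symm, s5.yr.symm, s5.pq.symm,
          s5.pr.symm, s5.qr.symm]
    · intro hTF
      have hM := TF.m2 hTF
      refine fin5 hM (v := ![p, q, r, y, x]) ?_ ?_ ?_ ?_ ?_ ?_
      · intro i j hij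
        fin_cases i <;> fin_cases j <;> first | rfl | (exfalso; revert hij; simp [Sym2.eq_iff, s5.xy, s5.xp, s5.xq, s5.xr, s5.yp, s5.yq, s5.yr, s5.pq, s5.pr, s5.qr,
          s5.xy.symm, s5.xp.symm, s5.xq.symm, s5.xr.symm, s5.yp.symm, s5.yq.symm, s5.yr.symm, s5.pq.symm,
          s5.pr.symm, s5.qr.symm])
      · simp
      · simp
      · simp
      · simp
      · intro e he
        rw [List.mem_toFinset] at he
        simp only [List.mem_cons, List.not_mem_nil, or_false] at he
        rcases he with he | he | he | he | he <;> subst he <;>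
          first | (refine ⟨0, ?_⟩; simp; done) | (refine ⟨1, ?_⟩; simp; done) | (refine ⟨2, ?_⟩; simp; done) |
            (refine ⟨3, ?_⟩; simp; done) | (refine ⟨4, ?_⟩; simp; done)
  · -- (1,1): a path
    have hδ1 : δ = 1 := by
      rcases hδ with h | h
      · exact h
      · subst h
        simp at hpos
    subst hδ1
    have e11 : (![2, 0] + Pi.single 0 (-1) + Pi.single (1 : Fin 2) (1 : ℤ) : Fin 2 → ℤ) = ![1, 1] := by
      funext i
      fin_cases i <;> simp [Matrix.vecHead, Matrix.vecTail]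
    have hmem' : base + put ![p, r] ![1, 1] ∈ JS ((F ∪ N) \ H) (alFN F N) := by
      rw [← e11]; exact hmem
    obtain ⟨O, hO, -, hOg, hdv⟩ := hmem'
    refine finish (O := O) (P := [s(p, x), s(x, y), s(y, q), s(q, r)].toFinset) (H := H) hO ?_ hHFN hnl hOg ?_
      subset_union_left subset_union_right hQs hRs ?_
    · intro e he
      rw [List.mem_toFinset] at he
      simp only [List.mem_cons, List.not_mem_nil, or_false] at he
      rcases he with he | he | he | he <;> subst he <;> simp [hH, sq]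
    · funext v
      have h1 := congrFun hdv v
      rw [Pi.add_apply, put2] at h1
      rw [Pi.add_apply, ← h1, dv_list]
      · simp [base, two]
        ring
      · simp [Sym2.eq_iff, s5.xy, s5.xp, s5.xq, s5.xr, s5.yp, s5.yq, s5.yr, s5.pq, s5.pr, s5.qr,
          s5.xy.symm, s5.xp.symm, s5.xq.symm, s5.xr.symm, s5.yp.symm, s5.yq.symm, s5.yr.symm, s5.pq.symm,
          s5.pr.symm, s5.qr.symm]
      · simp [Sym2.eq_iff, s5.xy, s5.xp, s5.xq, s5.xr, s5.yp, s5.yq, s5.yr, s5.pq, s5.pr, s5.qr,
          s5.xy.symm, s5.xp.symm, s5.xq.symm, s5.xr.symm, s5.yp.symm, s5.yq.symm, s5.yr.symm, s5.pq.symm,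
          s5.pr.symm, s5.qr.symm]
    · intro hTF
      have hM := TF.m2 hTF
      refine fin5 hM (v := ![p, x, y, q, r]) ?_ ?_ ?_ ?_ ?_ ?_
      · intro i j hij
        fin_cases i <;> fin_cases j <;> first | rfl | (exfalso; revert hij; simp [Sym2.eq_iff, s5.xy, s5.xp, s5.xq, s5.xr, s5.yp, s5.yq, s5.yr, s5.pq, s5.pr, s5.qr,
          s5.xy.symm, s5.xp.symm, s5.xq.symm, s5.xr.symm, s5.yp.symm, s5.yq.symm, s5.yr.symm, s5.pq.symm,
          s5.pr.symm, s5.qr.symm])
      · simp
      · simp
      · simp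
      · simp
      · intro e he
        rw [List.mem_toFinset] at he
        simp only [List.mem_cons, List.not_mem_nil, or_false] at he
        rcases he with he | he | he | he <;> subst he <;>
          first | (refine ⟨0, ?_⟩; simp; done) | (refine ⟨1, ?_⟩; simp; done) | (refine ⟨2, ?_⟩; simp; done) |
            (refine ⟨3, ?_⟩; simp; done) | (refine ⟨4, ?_⟩; simp; done)

end Pool.Agent.TFC.SH
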