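import Pool.Agent.SQ34.CE0
import Pool.Agent.SQ34.W

set_option autoImplicit false
set_option linter.unusedSectionVars false
set_option linter.unusedTactic false
set_option linter.unreachableTactic false
set_option linter.unusedSimpArgs false

/-! [SQ34-CETS] conflict elimination for a triangle and a square. See `ce5` in Pool/Agent/TFC/CE3.lean for the pattern
(`finish`, `fin5`, `dv_sq`, `dv_tr`, `put3`, `alFN`, `good_of_subset` are in CE0.lean, `jump_JS` in W.lean, `Jump.pull` in
Pool/Agent/TFC/Mink.lean).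

PROOF of `ceTS`. Q = x y p (triangle of F), R = x y r t (square of N), H = Q ∪ R; x, y, p, r, t are five different vertices.
F \ H: at x, y, p the two F-edges are in Q, so the edges of F in H are those of Q and possibly rt. N \ H: at x, y, r, t the two N-edges are in
R, so N ∩ H = R. J := JS ((F ∪ N) \ H) (alFN F N), pulled back to the coordinates (p, r, t) (base vector: 2 outside {x, y, p, r, t}, 0 on it).
F \ H gives ![0, 2, 2] (if rt ∉ F) or ![0, 1, 1] (if rt ∈ F); N \ H gives ![2, 0, 0]. Jump axiom from ![2, 0, 0] towards the vector of F,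
first step -1 at index 0; second step: -1 at index 0, or +1 at index 1, or +1 at index 2:
 ![0, 0, 0]: P = {px, xt, tr, ry, yp} (5-cycle p x t r y).
 ![1, 1, 0]: P = {rt, tx, xy, yp} (path r t x y p).
 ![1, 0, 1]: P = {tr, ry, yx, xp} (path t r y x p).
In all cases `finish` with `fin5`. (Degrees: P has degree 2 - (entry) at p, r, t and 2 at x, y.)
`ceST` is `ceTS` with F, N exchanged: a short cycle in N or F is one in F or N, F ∪ N = N ∪ F. -/

namespace Pool.Agent.TFC.SH

open Finset

variable {V : Type*} [DecidableEq V]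

/-- **conflict elimination, triangle and square** -/
theorem ceTS {F N : Finset (Sym2 V)} (hF : TF F) (hN : TF N) {x y p r t : V} (h1 : Dist4 x y r t) (hxp : x ≠ p)
    (hyp : y ≠ p) (hpr : p ≠ r) (hpt : p ≠ t) (hQF : tr x y p ⊆ F) (hRN : sq x y r t ⊆ N) :
    CEConc F N (tr x y p) (sq x y r t) := by
  obtain ⟨hxy, hxr, hxt, hyr, hyt, hrt⟩ := h1
  have hdR : Dist4 x y r t := ⟨hxy, hxr, hxt, hyr, hyt, hrt⟩
  have mF : M2 F := TF.m2 hF
  have mN : M2 N := TF.m2 hN
  have f1 : s(x, y) ∈ F := hQF (by simp [tr])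
  have f2 : s(y, p) ∈ F := hQF (by simp [tr])
  have f3 : s(p, x) ∈ F := hQF (by simp [tr])
  have n1 : s(x, y) ∈ N := hRN (by simp [sq])
  have n2 : s(y, r) ∈ N := hRN (by simp [sq])
  have n3 : s(r, t) ∈ N := hRN (by simp [sq])
  have n4 : s(t, x) ∈ N := hRN (by simp [sq])
  have hnl : NoLoop (F ∪ N) := by
    intro e he
    rcases mem_union.mp he with h | h
    · exact hF.nl e h
    · exact hN.nl e h
  set H := tr x y p ∪ sq x y r t with hH
  have hHFN : H ⊆ F ∪ N := union_subset (hQF.trans subset_union_left) (hRN.trans subset_union_right)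
  -- the edges of `F` in `H`
  have hFH : ∀ e, e ∈ F → e ∈ H → e ∈ tr x y p ∨ e = s(r, t) := by
    intro e h1 h3
    rcases mem_union.mp h3 with h3 | h3
    · exact Or.inl h3
    · simp only [sq, mem_insert, mem_singleton] at h3
      rcases h3 with rfl | rfl | rfl | rfl
      · exact Or.inl (by simp [tr])
      · exfalso
        rcases nbr_two (mF.le y) (msw f1) f2 hxp h1 with h | h
        · exact hxr h.symm
        · exact hpr h.symm
      · exact Or.inr rfl
      · exfalso
        rcases nbr_two (mF.le x) f1 (msw f3) hyp (msw h1) with h | h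
        · exact hyt h.symm
        · exact hpt h.symm
  have eN : N \ H = N \ sq x y r t := by
    ext e
    simp only [mem_sdiff]
    constructor
    · rintro ⟨h1, h2⟩
      exact ⟨h1, fun h3 => h2 (mem_union_right _ h3)⟩
    · rintro ⟨h1, h2⟩
      refine ⟨h1, fun h3 => ?_⟩
      rcases mem_union.mp h3 with h3 | h3
      · simp only [tr, mem_insert, mem_singleton] at h3
        rcases h3 with rfl | rfl | rfl
        · exact h2 (by simp [sq])
        · rcases nbr_two (mN.le y) (msw n1) n2 hxr h1 with h | h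
          · exact hxp h.symm
          · exact hpr h
        · rcases nbr_two (mN.le x) n1 (msw n4) hyt (msw h1) with h | h
          · exact hyp h.symm
          · exact hpt h
      · exact h2 h3
  let base : V → ℤ := fun v => 2 - 2 * ev x v - 2 * ev y v - 2 * ev p v - 2 * ev r v - 2 * ev t v
  have hf : Function.Injective ![p, r, t] := by
    intro i j hij
    fin_cases i <;> fin_cases j <;> first | rfl | (exfalso; revert hij; simp [Sym2.eq_iff, hxy, hxp, hxr, hxt, hyp, hyr, hyt, hpr, hpt, hrt, hxy.symm, hxp.symm, hxr.symm,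
          hxt.symm, hyp.symm, hyr.symm, hyt.symm, hpr.symm, hpt.symm, hrt.symm])
  have hJ := Jump.pull hf base (jump_JS (alFN F N) ((F ∪ N) \ H))
  obtain ⟨c, hc, m1⟩ : ∃ c : ℤ, (c = 1 ∨ c = 2) ∧
      (![0, c, c] : Fin 3 → ℤ) ∈ {k : Fin 3 → ℤ | base + put ![p, r, t] k ∈ JS ((F ∪ N) \ H) (alFN F N)} := by
    by_cases hrtF : s(r, t) ∈ F
    · refine ⟨1, Or.inl rfl, F \ H, sdiff_subset_sdiff subset_union_left le_rfl, mF.mono sdiff_subset,
        good_of_subset (Or.inl sdiff_subset), ?_⟩
      have hrtQ : s(r, t) ∉ tr x y p := by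
        simp [tr, Sym2.eq_iff, hxy, hxp, hxr, hxt, hyp, hyr, hyt, hpr, hpt, hrt, hxy.symm, hxp.symm, hxr.symm,
          hxt.symm, hyp.symm, hyr.symm, hyt.symm, hpr.symm, hpt.symm, hrt.symm]
      have hQ' : insert s(r, t) (tr x y p) ⊆ F := insert_subset hrtF hQF
      have eF : F \ H = F \ insert s(r, t) (tr x y p) := by
        ext e
        simp only [mem_sdiff]
        constructor
        · rintro ⟨h1, h2⟩
          refine ⟨h1, fun h3 => h2 ?_⟩
          rcases mem_insert.1 h3 with rfl | h3
          · exact mem_union_right _ (by simp [sq])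
          · exact mem_union_left _ h3
        · rintro ⟨h1, h2⟩
          refine ⟨h1, fun h3 => h2 ?_⟩
          rcases hFH e h1 h3 with h | h
          · exact mem_insert_of_mem h
          · rw [h]; exact mem_insert_self _ _
      funext v
      rw [eF, dv_sdiff hF.nl hQ', Pi.sub_apply, dv_insert hrt hrtQ, Pi.add_apply, put3]
      simp only [Pi.add_apply, dv_tr hxy hxp hyp, dv_apply, hF.eq, base]
      simp
      ring
    · refine ⟨2, Or.inr rfl, F \ H, sdiff_subset_sdiff subset_union_left le_rfl, mF.mono sdiff_subset,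
        good_of_subset (Or.inl sdiff_subset), ?_⟩
      have eF : F \ H = F \ tr x y p := by
        ext e
        simp only [mem_sdiff]
        constructor
        · rintro ⟨h1, h2⟩
          exact ⟨h1, fun h3 => h2 (mem_union_left _ h3)⟩
        · rintro ⟨h1, h2⟩
          refine ⟨h1, fun h3 => h2 ?_⟩
          rcases hFH e h1 h3 with h | h
          · exact h
          · rw [h] at h1
            exact absurd h1 hrtF
      funext v
      rw [eF, dv_sdiff hF.nl hQF, Pi.sub_apply, dv_tr hxy hxp hyp, Pi.add_apply, put3]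
      simp only [dv_apply, hF.eq, base]
      simp
      ring
  have m2 : (![2, 0, 0] : Fin 3 → ℤ) ∈
      {k : Fin 3 → ℤ | base + put ![p, r, t] k ∈ JS ((F ∪ N) \ H) (alFN F N)} := by
    refine ⟨N \ H, sdiff_subset_sdiff subset_union_right le_rfl, mN.mono sdiff_subset,
      good_of_subset (Or.inr sdiff_subset), ?_⟩
    funext v
    rw [eN, dv_sdiff hN.nl hRN, Pi.sub_apply, dv_sq hdR, Pi.add_apply, put3]
    simp only [dv_apply, hN.eq, base]
    simp
    ring
  obtain ⟨j, δ, hδ, hpos, hmem⟩ := hJ _ m2 _ m1 0 (-1) (Or.inr rfl) (by simp)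
  have hQs : IsSh (tr x y p) := Or.inl ⟨x, y, p, hxy, hxp, hyp, rfl⟩
  have hRs : IsSh (sq x y r t) := Or.inr ⟨x, y, r, t, hdR, rfl⟩
  fin_cases j
  · -- (0,0,0): a 5-cycle
    have hδ1 : δ = -1 := by
      rcases hδ with h | h
      · subst h
        exfalso
        revert hpos
        rcases hc with h | h <;> subst h <;> simp
      · exact h
    subst hδ1
    have e00 : (![2, 0, 0] + Pi.single 0 (-1) + Pi.single (0 : Fin 3) (-1 : ℤ) : Fin 3 → ℤ) = ![0, 0, 0] := by
      funext i
      fin_cases i <;> simp [Matrix.vecHead, Matrix.vecTail]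
    have hmem' : base + put ![p, r, t] ![0, 0, 0] ∈ JS ((F ∪ N) \ H) (alFN F N) := by
      rw [← e00]; exact hmem
    obtain ⟨O, hO, -, hOg, hdv⟩ := hmem'
    refine finish (O := O) (P := [s(p, x), s(x, t), s(t, r), s(r, y), s(y, p)].toFinset) (H := H) hO ?_ hHFN
      hnl hOg ?_ subset_union_left subset_union_right hQs hRs ?_
    · intro e he
      rw [List.mem_toFinset] at he
      simp only [List.mem_cons, List.not_mem_nil, or_false] at he
      rcases he with he | he | he | he | he <;> subst he <;> simp [hH, tr, sq]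
    · funext v
      have h1 := congrFun hdv v
      rw [Pi.add_apply, put3] at h1
      rw [Pi.add_apply, ← h1, dv_list]
      · simp [base, two]
        ring
      · simp [Sym2.eq_iff, hxy, hxp, hxr, hxt, hyp, hyr, hyt, hpr, hpt, hrt, hxy.symm, hxp.symm, hxr.symm,
          hxt.symm, hyp.symm, hyr.symm, hyt.symm, hpr.symm, hpt.symm, hrt.symm]
      · simp [Sym2.eq_iff, hxy, hxp, hxr, hxt, hyp, hyr, hyt, hpr, hpt, hrt, hxy.symm, hxp.symm, hxr.symm,
          hxt.symm, hyp.symm, hyr.symm, hyt.symm, hpr.symm, hpt.symm, hrt.symm]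
    · intro hTF
      have hM := TF.m2 hTF
      refine fin5 hM (v := ![p, x, t, r, y]) ?_ ?_ ?_ ?_ ?_ ?_
      · intro i j hij
        fin_cases i <;> fin_cases j <;> first | rfl | (exfalso; revert hij; simp [Sym2.eq_iff, hxy, hxp, hxr, hxt, hyp, hyr, hyt, hpr, hpt, hrt, hxy.symm, hxp.symm, hxr.symm,
          hxt.symm, hyp.symm, hyr.symm, hyt.symm, hpr.symm, hpt.symm, hrt.symm])
      · simp
      · simp
      · simp
      · simp
      · intro e he
        rw [List.mem_toFinset] at he
        simp only [List.mem_cons, List.not_mem_nil, or_false] at he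
        rcases he with he | he | he | he | he <;> subst he <;>
          first | (refine ⟨0, ?_⟩; simp; done) | (refine ⟨1, ?_⟩; simp; done) | (refine ⟨2, ?_⟩; simp; done) |
            (refine ⟨3, ?_⟩; simp; done) | (refine ⟨4, ?_⟩; simp; done)
  · -- (1,1,0): a path
    have hδ1 : δ = 1 := by
      rcases hδ with h | h
      · exact h
      · subst h
        exfalso
        revert hpos
        rcases hc with h | h <;> subst h <;> simp
    subst hδ1
    have e00 : (![2, 0, 0] + Pi.single 0 (-1) + Pi.single (1 : Fin 3) (1 : ℤ) : Fin 3 → ℤ) = ![1, 1, 0] := by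
      funext i
      fin_cases i <;> simp [Matrix.vecHead, Matrix.vecTail]
    have hmem' : base + put ![p, r, t] ![1, 1, 0] ∈ JS ((F ∪ N) \ H) (alFN F N) := by
      rw [← e00]; exact hmem
    obtain ⟨O, hO, -, hOg, hdv⟩ := hmem'
    refine finish (O := O) (P := [s(r, t), s(t, x), s(x, y), s(y, p)].toFinset) (H := H) hO ?_ hHFN
      hnl hOg ?_ subset_union_left subset_union_right hQs hRs ?_
    · intro e he
      rw [List.mem_toFinset] at he
      simp only [List.mem_cons, List.not_mem_nil, or_false] at he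
      rcases he with he | he | he | he <;> subst he <;> simp [hH, tr, sq]
    · funext v
      have h1 := congrFun hdv v
      rw [Pi.add_apply, put3] at h1
      rw [Pi.add_apply, ← h1, dv_list]
      · simp [base, two]
        ring
      · simp [Sym2.eq_iff, hxy, hxp, hxr, hxt, hyp, hyr, hyt, hpr, hpt, hrt, hxy.symm, hxp.symm, hxr.symm,
          hxt.symm, hyp.symm, hyr.symm, hyt.symm, hpr.symm, hpt.symm, hrt.symm]
      · simp [Sym2.eq_iff, hxy, hxp, hxr, hxt, hyp, hyr, hyt, hpr, hpt, hrt, hxy.symm, hxp.symm, hxr.symm,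
          hxt.symm, hyp.symm, hyr.symm, hyt.symm, hpr.symm, hpt.symm, hrt.symm]
    · intro hTF
      have hM := TF.m2 hTF
      refine fin5 hM (v := ![r, t, x, y, p]) ?_ ?_ ?_ ?_ ?_ ?_
      · intro i j hij
        fin_cases i <;> fin_cases j <;> first | rfl | (exfalso; revert hij; simp [Sym2.eq_iff, hxy, hxp, hxr, hxt, hyp, hyr, hyt, hpr, hpt, hrt, hxy.symm, hxp.symm, hxr.symm,
          hxt.symm, hyp.symm, hyr.symm, hyt.symm, hpr.symm, hpt.symm, hrt.symm])
      · simp
      · simp
      · simp
      · simp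
      · intro e he
        rw [List.mem_toFinset] at he
        simp only [List.mem_cons, List.not_mem_nil, or_false] at he
        rcases he with he | he | he | he <;> subst he <;>
          first | (refine ⟨0, ?_⟩; simp; done) | (refine ⟨1, ?_⟩; simp; done) | (refine ⟨2, ?_⟩; simp; done) |
            (refine ⟨3, ?_⟩; simp; done) | (refine ⟨4, ?_⟩; simp; done)
  · -- (1,0,1): a path
    have hδ1 : δ = 1 := by
      rcases hδ with h | h
      · exact h
      · subst h
        exfalso
        revert hpos
        rcases hc with h | h <;> subst h <;> simp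
    subst hδ1
    have e00 : (![2, 0, 0] + Pi.single 0 (-1) + Pi.single (2 : Fin 3) (1 : ℤ) : Fin 3 → ℤ) = ![1, 0, 1] := by
      funext i
      fin_cases i <;> simp [Matrix.vecHead, Matrix.vecTail]
    have hmem' : base + put ![p, r, t] ![1, 0, 1] ∈ JS ((F ∪ N) \ H) (alFN F N) := by
      rw [← e00]; exact hmem
    obtain ⟨O, hO, -, hOg, hdv⟩ := hmem'
    refine finish (O := O) (P := [s(t, r), s(r, y), s(y, x), s(x, p)].toFinset) (H := H) hO ?_ hHFN
      hnl hOg ?_ subset_union_left subset_union_right hQs hRs ?_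
    · intro e he
      rw [List.mem_toFinset] at he
      simp only [List.mem_cons, List.not_mem_nil, or_false] at he
      rcases he with he | he | he | he <;> subst he <;> simp [hH, tr, sq]
    · funext v
      have h1 := congrFun hdv v
      rw [Pi.add_apply, put3] at h1
      rw [Pi.add_apply, ← h1, dv_list]
      · simp [base, two]
        ring
      · simp [Sym2.eq_iff, hxy, hxp, hxr, hxt, hyp, hyr, hyt, hpr, hpt, hrt, hxy.symm, hxp.symm, hxr.symm,
          hxt.symm, hyp.symm, hyr.symm, hyt.symm, hpr.symm, hpt.symm, hrt.symm]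
      · simp [Sym2.eq_iff, hxy, hxp, hxr, hxt, hyp, hyr, hyt, hpr, hpt, hrt, hxy.symm, hxp.symm, hxr.symm,
          hxt.symm, hyp.symm, hyr.symm, hyt.symm, hpr.symm, hpt.symm, hrt.symm]
    · intro hTF
      have hM := TF.m2 hTF
      refine fin5 hM (v := ![t, r, y, x, p]) ?_ ?_ ?_ ?_ ?_ ?_
      · intro i j hij
        fin_cases i <;> fin_cases j <;> first | rfl | (exfalso; revert hij; simp [Sym2.eq_iff, hxy, hxp, hxr, hxt, hyp, hyr, hyt, hpr, hpt, hrt, hxy.symm, hxp.symm, hxr.symm,
          hxt.symm, hyp.symm, hyr.symm, hyt.symm, hpr.symm, hpt.symm, hrt.symm])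
      · simp
      · simp
      · simp
      · simp
      · intro e he
        rw [List.mem_toFinset] at he
        simp only [List.mem_cons, List.not_mem_nil, or_false] at he
        rcases he with he | he | he | he <;> subst he <;>
          first | (refine ⟨0, ?_⟩; simp; done) | (refine ⟨1, ?_⟩; simp; done) | (refine ⟨2, ?_⟩; simp; done) |
            (refine ⟨3, ?_⟩; simp; done) | (refine ⟨4, ?_⟩; simp; done)

theorem ceST {F N : Finset (Sym2 V)} (hF : TF F) (hN : TF N) {x y p r t : V} (h1 : Dist4 x y r t) (hxp : x ≠ p)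
    (hyp : y ≠ p) (hpr : p ≠ r) (hpt : p ≠ t) (hQF : sq x y r t ⊆ F) (hRN : tr x y p ⊆ N) :
    CEConc F N (sq x y r t) (tr x y p) := by
  obtain ⟨M, hM, hTF, h2, h3, h4⟩ := ceTS hN hF h1 hxp hyp hpr hpt hRN hQF
  refine ⟨M, ?_, hTF, h3, h2, fun Z hZ hZM => (h4 Z hZ hZM).symm⟩
  rw [union_comm]
  exact hM

end Pool.Agent.TFC.SH
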