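import Pool.Agent.SQ34.CE0
import Pool.Agent.SQ34.W

set_option autoImplicit false
set_option linter.unusedSectionVars false
set_option linter.unusedTactic false
set_option linter.unreachableTactic false
set_option linter.unusedSimpArgs false

/-! [SQ34-CETT] conflict elimination for two triangles. See `ce5` in Pool/Agent/TFC/CE3.lean for the pattern.

PROOF. Q = x y p ⊆ F, R = x y r ⊆ N, H = Q ∪ R, four different vertices x, y, p, r. F ∩ H = Q (at x and y the two F-edges are in Q), N ∩ H = R.
pr ∉ F (the two F-edges at p are px, py), pr ∉ N (the two N-edges at r are rx, ry). J := JS ((F ∪ N) \ H) (alFN F N), pulled back to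
(p, r): F \ H gives ![0, 2], N \ H gives ![2, 0]. From ![2, 0] towards ![0, 2], first step -1 at index 0; then:
 ![1, 1] (+1 at index 1): P = {px, xy, yr} (path p x y r; pr ∉ F ∪ N): `finish` with `fin4` (v = ![p, x, y, r]); first alternative.
 ![0, 0] (-1 at index 0): P = sq x p y r, O the outer part. M := O ∪ P ⊆ F ∪ N is a 2-factor. M does not contain Q, R: xy ∉ M (xy ∈ H so xy ∉ O;
 xy ∉ P). A short cycle Z ⊆ M: if Z contains an edge of P, then it contains x, p, y, r and all M-edges there (`IsSh.closed`), so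
 sq x p y r ⊆ Z and Z = sq x p y r (Z has at most four edges, `Finset.eq_of_subset_of_card_le`); otherwise Z ⊆ O, so Z ⊆ F or Z ⊆ N as O is good.
 The second alternative. -/

namespace Pool.Agent.TFC.SH

open Finset

variable {V : Type*} [DecidableEq V]

lemma CETT_card_le (a b c d : V) : #(sq a b c d) ≤ 4 := by
  have h1 := card_insert_le s(a, b) ({s(b, c), s(c, d), s(d, a)} : Finset (Sym2 V))
  have h2 := card_insert_le s(b, c) ({s(c, d), s(d, a)} : Finset (Sym2 V))
  have h3 := card_insert_le s(c, d) ({s(d, a)} : Finset (Sym2 V))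
  rw [card_singleton] at h3
  unfold sq
  omega

lemma CETT_card {a b c d : V} (h : Dist4 a b c d) : #(sq a b c d) = 4 := by
  obtain ⟨h1, h2, h3, h4, h5, h6⟩ := h
  unfold sq
  rw [card_insert_of_notMem, card_insert_of_notMem, card_insert_of_notMem, card_singleton]
  · simp [Sym2.eq_iff, h1, h2, h3, h4, h5, h6, h1.symm, h2.symm, h3.symm, h4.symm, h5.symm, h6.symm]
  · simp [Sym2.eq_iff, h1, h2, h3, h4, h5, h6, h1.symm, h2.symm, h3.symm, h4.symm, h5.symm, h6.symm]
  · simp [Sym2.eq_iff, h1, h2, h3, h4, h5, h6, h1.symm, h2.symm, h3.symm, h4.symm, h5.symm, h6.symm]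

lemma CETT_sh_card {Z : Finset (Sym2 V)} (h : IsSh Z) : #Z ≤ 4 := by
  rcases h with ⟨a, b, c, h1, h2, h3, rfl⟩ | ⟨a, b, c, d, -, rfl⟩
  · rw [tr_card h1 h2 h3]
    omega
  · exact CETT_card_le a b c d

/-- **conflict elimination, two triangles** -/
theorem ceTT {F N : Finset (Sym2 V)} (hF : TF F) (hN : TF N) {x y p r : V} (h1 : Dist4 x p y r)
    (hQF : tr x y p ⊆ F) (hRN : tr x y r ⊆ N) : CEConc F N (tr x y p) (tr x y r) ∨
    ∃ M ⊆ F ∪ N, TF M ∧ ¬ tr x y p ⊆ M ∧ ¬ tr x y r ⊆ M ∧
      ∀ Z, IsSh Z → Z ⊆ M → Z ⊆ F ∨ Z ⊆ N ∨ Z = sq x p y r := by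
  obtain ⟨hxp, hxy, hxr, hpy, hpr, hyr⟩ := h1
  have hyp : y ≠ p := hpy.symm
  have hdS : Dist4 x p y r := ⟨hxp, hxy, hxr, hpy, hpr, hyr⟩
  have mF : M2 F := TF.m2 hF
  have mN : M2 N := TF.m2 hN
  have f1 : s(x, y) ∈ F := hQF (by simp [tr])
  have f2 : s(y, p) ∈ F := hQF (by simp [tr])
  have f3 : s(p, x) ∈ F := hQF (by simp [tr])
  have n1 : s(x, y) ∈ N := hRN (by simp [tr])
  have n2 : s(y, r) ∈ N := hRN (by simp [tr])
  have n3 : s(r, x) ∈ N := hRN (by simp [tr])
  have hnl : NoLoop (F ∪ N) := by
    intro e he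
    rcases mem_union.mp he with h | h
    · exact hF.nl e h
    · exact hN.nl e h
  set H := tr x y p ∪ tr x y r with hH
  have hHFN : H ⊆ F ∪ N := union_subset (hQF.trans subset_union_left) (hRN.trans subset_union_right)
  have eF : F \ H = F \ tr x y p := by
    ext e
    simp only [mem_sdiff]
    constructor
    · rintro ⟨h1, h2⟩
      exact ⟨h1, fun h3 => h2 (mem_union_left _ h3)⟩
    · rintro ⟨h1, h2⟩
      refine ⟨h1, fun h3 => ?_⟩
      rcases mem_union.mp h3 with h3 | h3
      · exact h2 h3
      · simp only [tr, mem_insert, mem_singleton] at h3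
        rcases h3 with rfl | rfl | rfl
        · exact h2 (by simp [tr])
        · rcases nbr_two (mF.le y) (msw f1) f2 hxp h1 with h | h
          · exact hxr h.symm
          · exact hpr h.symm
        · rcases nbr_two (mF.le x) f1 (msw f3) hyp (msw h1) with h | h
          · exact hyr h.symm
          · exact hpr h.symm
  have eN : N \ H = N \ tr x y r := by
    ext e
    simp only [mem_sdiff]
    constructor
    · rintro ⟨h1, h2⟩
      exact ⟨h1, fun h3 => h2 (mem_union_right _ h3)⟩
    · rintro ⟨h1, h2⟩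
      refine ⟨h1, fun h3 => ?_⟩
      rcases mem_union.mp h3 with h3 | h3
      · simp only [tr, mem_insert, mem_singleton] at h3
        rcases h3 with rfl | rfl | rfl
        · exact h2 (by simp [tr])
        · rcases nbr_two (mN.le y) (msw n1) n2 hxr h1 with h | h
          · exact hxp h.symm
          · exact hpr h
        · rcases nbr_two (mN.le x) n1 (msw n3) hyr (msw h1) with h | h
          · exact hyp h.symm
          · exact hpr h
      · exact h2 h3
  have hprF : s(p, r) ∉ F ∪ N := by
    intro h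
    rcases mem_union.mp h with h | h
    · rcases nbr_two (mF.le p) f3 (msw f2) hxy h with h | h
      · exact hxr h.symm
      · exact hyr h.symm
    · rcases nbr_two (mN.le r) n3 (msw n2) hxy (msw h) with h | h
      · exact hxp h.symm
      · exact hyp h.symm
  let base : V → ℤ := fun v => 2 - 2 * ev x v - 2 * ev y v - 2 * ev p v - 2 * ev r v
  have hf : Function.Injective ![p, r] := by
    intro i j hij
    fin_cases i <;> fin_cases j <;> first | rfl | (exfalso; revert hij; simp [Sym2.eq_iff, hxy, hxp, hxr, hyp, hyr, hpr, hxy.symm, hxp.symm, hxr.symm, hyp.symm, hyr.symm, hpr.symm])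
  have hJ := Jump.pull hf base (jump_JS (alFN F N) ((F ∪ N) \ H))
  have m1 : (![0, 2] : Fin 2 → ℤ) ∈ {k : Fin 2 → ℤ | base + put ![p, r] k ∈ JS ((F ∪ N) \ H) (alFN F N)} := by
    refine ⟨F \ H, sdiff_subset_sdiff subset_union_left le_rfl, mF.mono sdiff_subset,
      good_of_subset (Or.inl sdiff_subset), ?_⟩
    funext v
    rw [eF, dv_sdiff hF.nl hQF, Pi.sub_apply, dv_tr hxy hxp hyp, Pi.add_apply, put2]
    simp only [dv_apply, hF.eq, base]
    simp
    ring
  have m2 : (![2, 0] : Fin 2 → ℤ) ∈ {k : Fin 2 → ℤ | base + put ![p, r] k ∈ JS ((F ∪ N) \ H) (alFN F N)} := by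
    refine ⟨N \ H, sdiff_subset_sdiff subset_union_right le_rfl, mN.mono sdiff_subset,
      good_of_subset (Or.inr sdiff_subset), ?_⟩
    funext v
    rw [eN, dv_sdiff hN.nl hRN, Pi.sub_apply, dv_tr hxy hxr hyr, Pi.add_apply, put2]
    simp only [dv_apply, hN.eq, base]
    simp
    ring
  obtain ⟨j, δ, hδ, hpos, hmem⟩ := hJ _ m2 _ m1 0 (-1) (Or.inr rfl) (by simp)
  have hQs : IsSh (tr x y p) := Or.inl ⟨x, y, p, hxy, hxp, hyp, rfl⟩
  have hRs : IsSh (tr x y r) := Or.inl ⟨x, y, r, hxy, hxr, hyr, rfl⟩
  fin_cases j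
  · -- (0,0): the square
    have hδ1 : δ = -1 := by
      rcases hδ with h | h
      · subst h
        simp at hpos
      · exact h
    subst hδ1
    have e00 : (![2, 0] + Pi.single 0 (-1) + Pi.single (0 : Fin 2) (-1 : ℤ) : Fin 2 → ℤ) = ![0, 0] := by
      funext i
      fin_cases i <;> simp [Matrix.vecHead, Matrix.vecTail]
    have hmem' : base + put ![p, r] ![0, 0] ∈ JS ((F ∪ N) \ H) (alFN F N) := by
      rw [← e00]; exact hmem
    obtain ⟨O, hO, -, hOg, hdv⟩ := hmem'
    right
    set P := sq x p y r with hP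
    have hPH : P ⊆ H := by
      intro e he
      rw [hP] at he
      simp only [sq, mem_insert, mem_singleton] at he
      rcases he with he | he | he | he <;> subst he <;> simp [hH, tr, Sym2.eq_iff, hxy, hxp, hxr, hyp, hyr, hpr, hxy.symm, hxp.symm, hxr.symm, hyp.symm, hyr.symm, hpr.symm]
    have hdeg : dv O + dv P = two := by
      funext v
      have h1 := congrFun hdv v
      rw [Pi.add_apply, put2] at h1
      rw [Pi.add_apply, ← h1, hP, dv_sq hdS]
      simp [base, two]
      ring
    have hOFN : O ⊆ F ∪ N := hO.trans sdiff_subset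
    have hPFN : P ⊆ F ∪ N := hPH.trans hHFN
    have hM : O ∪ P ⊆ F ∪ N := union_subset hOFN hPFN
    have hOH : ∀ e ∈ O, e ∉ H := fun e he => (mem_sdiff.mp (hO he)).2
    have hdis : Disjoint O P := by
      rw [disjoint_left]
      intro e he he'
      exact hOH e he (hPH he')
    have hTF : TF (O ∪ P) := by
      refine ⟨hnl.mono hM, fun v => ?_⟩
      have := congrFun (dv_union (hnl.mono hOFN) (hnl.mono hPFN) hdis) v
      rw [hdeg] at this
      simp only [dv_apply, two] at this
      exact_mod_cast this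
    have hM2 := TF.m2 hTF
    have hxyM : s(x, y) ∉ O ∪ P := by
      intro h
      rcases mem_union.mp h with h | h
      · exact hOH _ h (mem_union_left _ (by simp [tr]))
      · revert h
        rw [hP]
        simp [sq, Sym2.eq_iff, hxy, hxp, hxr, hyp, hyr, hpr, hxy.symm, hxp.symm, hxr.symm, hyp.symm, hyr.symm, hpr.symm]
    refine ⟨O ∪ P, hM, hTF, fun h => hxyM (h (by simp [tr])), fun h => hxyM (h (by simp [tr])), ?_⟩
    intro Z hZ hZM
    by_cases hex : ∃ e ∈ Z, e ∈ P
    · right
      right
      obtain ⟨e, heZ, heP⟩ := hex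
      have p1 : s(x, p) ∈ O ∪ P := mem_union_right _ (by rw [hP]; simp [sq])
      have p2 : s(p, y) ∈ O ∪ P := mem_union_right _ (by rw [hP]; simp [sq])
      have p3 : s(y, r) ∈ O ∪ P := mem_union_right _ (by rw [hP]; simp [sq])
      have p4 : s(r, x) ∈ O ∪ P := mem_union_right _ (by rw [hP]; simp [sq])
      have cl : ∀ u w, s(u, w) ∈ O ∪ P → u ∈ vs Z → w ∈ vs Z := fun u w h hu =>
        hZ.closed' hM2 hZM hu h
      have hx : x ∈ vs Z := by
        rw [hP] at heP
        simp only [sq, mem_insert, mem_singleton] at heP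
        rcases heP with he | he | he | he <;> subst he
        · exact (mem_vs' heZ).1
        · exact cl p x (msw p1) (mem_vs' heZ).1
        · exact cl r x p4 (mem_vs' heZ).2
        · exact (mem_vs' heZ).2
      have hp := cl x p p1 hx
      have hy := cl p y p2 hp
      have hr := cl y r p3 hy
      have hsub : P ⊆ Z := by
        intro e he
        rw [hP] at he
        simp only [sq, mem_insert, mem_singleton] at he
        rcases he with he | he | he | he <;> subst he
        · exact hZ.closed hM2 hZM hx p1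
        · exact hZ.closed hM2 hZM hp p2
        · exact hZ.closed hM2 hZM hy p3
        · exact hZ.closed hM2 hZM hr p4
      refine (eq_of_subset_of_card_le hsub ?_).symm
      rw [hP, CETT_card hdS]
      exact CETT_sh_card hZ
    · push Not at hex
      have hZO : Z ⊆ O := fun e he => (mem_union.mp (hZM he)).resolve_right (hex e he)
      rcases hOg Z hZ hZO with h | h
      · exact Or.inl h
      · exact Or.inr (Or.inl h)
  · -- (1,1): a path
    have hδ1 : δ = 1 := by
      rcases hδ with h | h
      · exact h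
      · subst h
        simp at hpos
    subst hδ1
    have e11 : (![2, 0] + Pi.single 0 (-1) + Pi.single (1 : Fin 2) (1 : ℤ) : Fin 2 → ℤ) = ![1, 1] := by
      funext i
      fin_cases i <;> simp [Matrix.vecHead, Matrix.vecTail]
    have hmem' : base + put ![p, r] ![1, 1] ∈ JS ((F ∪ N) \ H) (alFN F N) := by
      rw [← e11]; exact hmem
    obtain ⟨O, hO, -, hOg, hdv⟩ := hmem'
    left
    refine finish (O := O) (P := [s(p, x), s(x, y), s(y, r)].toFinset) (H := H) hO ?_ hHFN hnl hOg ?_
      subset_union_left subset_union_right hQs hRs ?_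
    · intro e he
      rw [List.mem_toFinset] at he
      simp only [List.mem_cons, List.not_mem_nil, or_false] at he
      rcases he with he | he | he <;> subst he <;> simp [hH, tr]
    · funext v
      have h1 := congrFun hdv v
      rw [Pi.add_apply, put2] at h1
      rw [Pi.add_apply, ← h1, dv_list]
      · simp [base, two]
        ring
      · simp [Sym2.eq_iff, hxy, hxp, hxr, hyp, hyr, hpr, hxy.symm, hxp.symm, hxr.symm, hyp.symm, hyr.symm, hpr.symm]
      · simp [Sym2.eq_iff, hxy, hxp, hxr, hyp, hyr, hpr, hxy.symm, hxp.symm, hxr.symm, hyp.symm, hyr.symm, hpr.symm]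
    · intro hTF
      have hM := TF.m2 hTF
      refine fin4 hM (v := ![p, x, y, r]) ?_ ?_ ?_ ?_ ?_ ?_
      · intro i j hij
        fin_cases i <;> fin_cases j <;> first | rfl | (exfalso; revert hij; simp [Sym2.eq_iff, hxy, hxp, hxr, hyp, hyr, hpr, hxy.symm, hxp.symm, hxr.symm, hyp.symm, hyr.symm, hpr.symm])
      · simp
      · simp
      · simp
      · show s(p, r) ∉ O ∪ [s(p, x), s(x, y), s(y, r)].toFinset
        intro h
        rcases mem_union.mp h with h | h
        · exact hprF (mem_sdiff.mp (hO h)).1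
        · revert h
          simp [Sym2.eq_iff, hxy, hxp, hxr, hyp, hyr, hpr, hxy.symm, hxp.symm, hxr.symm, hyp.symm, hyr.symm, hpr.symm]
      · intro e he
        rw [List.mem_toFinset] at he
        simp only [List.mem_cons, List.not_mem_nil, or_false] at he
        rcases he with he | he | he <;> subst he <;>
          first | (refine ⟨0, ?_⟩; simp; done) | (refine ⟨1, ?_⟩; simp; done) | (refine ⟨2, ?_⟩; simp; done) |
            (refine ⟨3, ?_⟩; simp; done)

end Pool.Agent.TFC.SH
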