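import Pool.Agent.SQ34.CE6
import Pool.Agent.SQ34.CE5
import Pool.Agent.SQ34.CETS
import Pool.Agent.SQ34.CETT

set_option autoImplicit false
set_option linter.unusedSectionVars false

/-! [SQ34-CE] conflict elimination, assembly. See the end of Pool/Agent/TFC/CE3.lean for the pattern (two squares).

PROOF. Q ∩ R = {e}, e = s(x, y). `isTr_first`, `isSq_first` (Base.lean): Q = tr x y p or sq x y q p, R = tr x y r or sq x y r t.
 Two squares: q ≠ r, p ≠ t (otherwise a second common edge). q = t and p = r is impossible as well (then pq is common). q = t: `ce5`; p = r: `ce5` after exchanging x and y (`sq_ref`,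
 `sq_rot`: sq x y q p = sq y x p q, sq x y p t = sq y x t p); else `ce6`.
 Q = tr x y p, R = sq x y r t: p ≠ r (otherwise s(y, p) is common) and p ≠ t: `ceTS`. Q square, R triangle: `ceST`.
 Two triangles: p ≠ r (otherwise Q = R): `ceTT`. Its first alternative gives the statement directly, the second one is the exceptional one. -/

namespace Pool.Agent.TFC.SH

open Finset

variable {V : Type*} [DecidableEq V]

/-- **Theorem 2'** (conflict elimination) -/
theorem conflict_elim {F N : Finset (Sym2 V)} (hF : TF F) (hN : TF N) {Q R : Finset (Sym2 V)}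
    (hQ : IsSh Q) (hR : IsSh R) (hQF : Q ⊆ F) (hRN : R ⊆ N) (h1 : #(Q ∩ R) = 1) :
    ∃ M ⊆ F ∪ N, TF M ∧ ¬ Q ⊆ M ∧ ¬ R ⊆ M ∧ ∀ Z, IsSh Z → Z ⊆ M → Z ⊆ F ∨ Z ⊆ N ∨
      ∃ x y p r, Dist4 x p y r ∧ Q = tr x y p ∧ R = tr x y r ∧ Z = sq x p y r := by
  obtain ⟨e, he⟩ := card_eq_one.mp h1
  induction e using Sym2.ind with
  | _ x y =>
  have hmem : ∀ e', e' ∈ Q → e' ∈ R → e' = s(x, y) := by
    intro e' h h'
    have : e' ∈ Q ∩ R := mem_inter.mpr ⟨h, h'⟩
    rw [he, mem_singleton] at this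
    exact this
  have hxy : s(x, y) ∈ Q ∩ R := by rw [he]; exact mem_singleton_self _
  have wrap : CEConc F N Q R → ∃ M ⊆ F ∪ N, TF M ∧ ¬ Q ⊆ M ∧ ¬ R ⊆ M ∧ ∀ Z, IsSh Z → Z ⊆ M →
      Z ⊆ F ∨ Z ⊆ N ∨ ∃ x y p r, Dist4 x p y r ∧ Q = tr x y p ∧ R = tr x y r ∧ Z = sq x p y r := by
    rintro ⟨M, h1, h2, h3, h4, h5⟩
    refine ⟨M, h1, h2, h3, h4, fun Z hZ hZM => ?_⟩
    rcases h5 Z hZ hZM with h | h
    · exact Or.inl h
    · exact Or.inr (Or.inl h)
  -- a common edge at `y` or `x` other than `s(x, y)`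
  have ney : ∀ u, x ≠ y → x ≠ u → s(y, u) ∈ Q → s(y, u) ∈ R → False := by
    intro u xy xu hQ hR
    have := hmem _ hQ hR
    rw [Sym2.eq_iff] at this
    rcases this with ⟨h1, -⟩ | ⟨-, h2⟩
    · exact xy h1.symm
    · exact xu h2.symm
  have nex : ∀ u, x ≠ y → y ≠ u → s(u, x) ∈ Q → s(u, x) ∈ R → False := by
    intro u xy yu hQ hR
    have := hmem _ hQ hR
    rw [Sym2.eq_iff] at this
    rcases this with ⟨-, h1⟩ | ⟨h2, -⟩
    · exact xy h1
    · exact yu h2.symm
  rcases isSh_first hQ (mem_inter.mp hxy).1 with ⟨p, xy, xp, yp, rfl⟩ | ⟨q, p, dQ, rfl⟩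
  · rcases isSh_first hR (mem_inter.mp hxy).2 with ⟨r, -, xr, yr, rfl⟩ | ⟨r, t, dR, rfl⟩
    · have hpr : p ≠ r := by
        rintro rfl
        exact ney p xy xp (by simp [tr]) (by simp [tr])
      have d : Dist4 x p y r := ⟨xp, xy, xr, yp.symm, hpr, yr⟩
      rcases ceTT hF hN d hQF hRN with h | ⟨M, h1, h2, h3, h4, h5⟩
      · exact wrap h
      · refine ⟨M, h1, h2, h3, h4, fun Z hZ hZM => ?_⟩
        rcases h5 Z hZ hZM with h | h | h
        · exact Or.inl h
        · exact Or.inr (Or.inl h)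
        · exact Or.inr (Or.inr ⟨x, y, p, r, d, rfl, rfl, h⟩)
    · have hpr : p ≠ r := by
        rintro rfl
        exact ney p xy xp (by simp [tr]) (by simp [sq])
      have hpt : p ≠ t := by
        rintro rfl
        exact nex p xy yp (by simp [tr]) (by simp [sq])
      exact wrap (ceTS hF hN dR xp yp hpr hpt hQF hRN)
  · rcases isSh_first hR (mem_inter.mp hxy).2 with ⟨r, xy, xr, yr, rfl⟩ | ⟨r, t, dR, rfl⟩
    · have hpr : r ≠ q := by
        rintro rfl
        exact ney r xy xr (by simp [sq]) (by simp [tr])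
      have hpt : r ≠ p := by
        rintro rfl
        exact nex r xy yr (by simp [sq]) (by simp [tr])
      exact wrap (ceST hF hN dQ xr yr hpr hpt hQF hRN)
    · obtain ⟨xy, xq, xp, yq, yp, qp⟩ := id dQ
      obtain ⟨-, xr, xt, yr, yt, rt⟩ := id dR
      have hqr : q ≠ r := by
        rintro rfl
        exact ney q xy xq (by simp [sq]) (by simp [sq])
      have hpt : p ≠ t := by
        rintro rfl
        exact nex p xy yp (by simp [sq]) (by simp [sq])
      by_cases hqt : q = t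
      · subst hqt
        have hpr : p ≠ r := by
          rintro rfl
          have := hmem s(q, p) (by simp [sq]) (by rw [Sym2.eq_swap]; simp [sq])
          rw [Sym2.eq_iff] at this
          rcases this with ⟨h1, -⟩ | ⟨h2, -⟩
          · exact xq h1.symm
          · exact yq h2.symm
        exact wrap (ce5 hF hN dQ dR hpr hQF hRN)
      by_cases hpr : p = r
      · subst hpr
        have e1 : sq x y q p = sq y x p q := by rw [sq_ref, sq_rot, sq_rot]
        have e2 : sq x y p t = sq y x t p := by rw [sq_ref, sq_rot, sq_rot]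
        rw [e1] at hQF wrap ⊢
        rw [e2] at hRN wrap ⊢
        exact wrap (ce5 hF hN ⟨xy.symm, yp, yq, xp, xq, qp.symm⟩ ⟨xy.symm, yt, yp, xt, xp, rt.symm⟩ hqt hQF hRN)
      · exact wrap (ce6 hF hN dQ dR hpr hpt hqr hqt hQF hRN)

end Pool.Agent.TFC.SH
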