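import Pool.Agent.SQ34.Base
import Pool.Agent.TFC.Mink

/-!
Preparations for conflict elimination with triangles and squares.
-/

set_option autoImplicit false
set_option linter.unusedSectionVars false

namespace Pool.Agent.TFC.SH

open Finset

variable {V : Type*} [DecidableEq V]

/-- a connected part with five vertices is disjoint from all short cycles -/
lemma fin5 {M P : Finset (Sym2 V)} (hM : M2 M) {v : Fin 5 → V} (hv : Function.Injective v)
    (h01 : s(v 0, v 1) ∈ M) (h12 : s(v 1, v 2) ∈ M) (h23 : s(v 2, v 3) ∈ M)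
    (h34 : s(v 3, v 4) ∈ M) (hcov : ∀ e ∈ P, ∃ i, v i ∈ e) :
    ∀ Z, IsSh Z → Z ⊆ M → ∀ e ∈ Z, e ∉ P := by
  intro Z hZ hZM e heZ heP
  obtain ⟨i, hi⟩ := hcov e heP
  have hi' : v i ∈ vs Z := by
    obtain ⟨w, rfl⟩ := hi
    exact mem_vs.2 ⟨w, heZ⟩
  have cl : ∀ u w, s(u, w) ∈ M → (u ∈ vs Z ↔ w ∈ vs Z) := fun u w h =>
    ⟨fun hu => hZ.closed' hM hZM hu h, fun hw => hZ.closed' hM hZM hw (msw h)⟩
  have e01 := cl _ _ h01
  have e12 := cl _ _ h12
  have e23 := cl _ _ h23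
  have e34 := cl _ _ h34
  refine hZ.five_false hv fun j => ?_
  fin_cases i <;> fin_cases j <;> simp_all

/-- a path with four vertices whose ends are not adjacent is disjoint from all short cycles -/
lemma fin4 {M P : Finset (Sym2 V)} (hM : M2 M) {v : Fin 4 → V} (hv : Function.Injective v)
    (h01 : s(v 0, v 1) ∈ M) (h12 : s(v 1, v 2) ∈ M) (h23 : s(v 2, v 3) ∈ M)
    (h03 : s(v 0, v 3) ∉ M) (hcov : ∀ e ∈ P, ∃ i, v i ∈ e) :
    ∀ Z, IsSh Z → Z ⊆ M → ∀ e ∈ Z, e ∉ P := by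
  intro Z hZ hZM e heZ heP
  obtain ⟨i, hi⟩ := hcov e heP
  have hi' : v i ∈ vs Z := by
    obtain ⟨w, rfl⟩ := hi
    exact mem_vs.2 ⟨w, heZ⟩
  have cl : ∀ u w, s(u, w) ∈ M → (u ∈ vs Z ↔ w ∈ vs Z) := fun u w h =>
    ⟨fun hu => hZ.closed' hM hZM hu h, fun hw => hZ.closed' hM hZM hw (msw h)⟩
  have e01 := cl _ _ h01
  have e12 := cl _ _ h12
  have e23 := cl _ _ h23
  have hall : ∀ j, v j ∈ vs Z := by
    intro j
    fin_cases i <;> fin_cases j <;> simp_all
  have hsub : (Finset.univ.image v) ⊆ vs Z := by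
    intro u hu
    obtain ⟨j, -, rfl⟩ := mem_image.mp hu
    exact hall j
  have hcard : #(Finset.univ.image v) = 4 := by
    rw [card_image_of_injective _ hv]; simp
  have heq : Finset.univ.image v = vs Z :=
    eq_of_subset_of_card_le hsub (by rw [hcard]; exact hZ.card_le)
  have key : ∀ w, s(v 0, w) ∈ Z → w = v 1 := by
    intro w hw
    have hw1 : w ∈ vs Z := (mem_vs' hw).2
    rw [← heq] at hw1
    obtain ⟨j, -, rfl⟩ := mem_image.mp hw1
    have hwM := hZM hw
    fin_cases j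
    · exact absurd rfl (hM.nl.ne hwM)
    · rfl
    · exfalso
      rcases nbr_two (hM.le (v 2)) (msw h12) h23 (hv.ne (by decide)) (msw hwM) with h | h
      · exact hv.ne (by decide) h
      · exact hv.ne (by decide) h
    · exact absurd hwM h03
  obtain ⟨a, b, hab, ha, hb⟩ := hZ.two (hall 0)
  exact hab ((key a ha).trans (key b hb).symm)

/-- the allowed short cycles: those of `F` or of `N` -/
def alFN (F N : Finset (Sym2 V)) : Finset (Sym2 V) → Prop := fun Z => Z ⊆ F ∨ Z ⊆ N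

lemma good_of_subset {F N O : Finset (Sym2 V)} (h : O ⊆ F ∨ O ⊆ N) : Good (alFN F N) O :=
  fun _ _ hZ => h.imp (fun h => hZ.trans h) (fun h => hZ.trans h)

/-- the conclusion of conflict elimination -/
def CEConc (F N Q R : Finset (Sym2 V)) : Prop :=
  ∃ M ⊆ F ∪ N, TF M ∧ ¬ Q ⊆ M ∧ ¬ R ⊆ M ∧ ∀ Z, IsSh Z → Z ⊆ M → Z ⊆ F ∨ Z ⊆ N

lemma TF.m2 {z : Finset (Sym2 V)} (h : TF z) : M2 z := ⟨h.nl, fun v => (h.eq v).le⟩

/-- the vector of an edge -/
def esum : Sym2 V → (V → ℤ) := Sym2.lift ⟨fun a b => ev a + ev b, fun _ _ => add_comm _ _⟩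

@[simp] lemma esum_mk (a b : V) : esum s(a, b) = ev a + ev b := rfl

lemma dv_empty : dv (∅ : Finset (Sym2 V)) = 0 := by
  funext v; simp [dv, dg]

lemma dv_eq_sum {z : Finset (Sym2 V)} (hz : NoLoop z) : dv z = ∑ e ∈ z, esum e := by
  induction z using Finset.induction_on with
  | empty => simp [dv_empty]
  | insert e z he ih =>
    induction e using Sym2.ind with
    | _ a b =>
      have hab : a ≠ b := hz.ne (mem_insert_self _ _)
      rw [dv_insert hab he, sum_insert he, ih (hz.mono (subset_insert _ _)), esum_mk]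
      abel

/-- degree vector of an explicit list of edges -/
lemma dv_list {l : List (Sym2 V)} (hn : l.Nodup) (hl : ∀ e ∈ l, ¬ e.IsDiag) :
    dv l.toFinset = (l.map esum).sum := by
  have h : NoLoop l.toFinset := fun e he => hl e (List.mem_toFinset.mp he)
  rw [dv_eq_sum h, List.sum_toFinset _ hn]

lemma dv_union {z w : Finset (Sym2 V)} (hz : NoLoop z) (hw : NoLoop w) (h : Disjoint z w) :
    dv (z ∪ w) = dv z + dv w := by
  have hzw : NoLoop (z ∪ w) := by
    intro e he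
    rcases mem_union.mp he with h | h
    · exact hz e h
    · exact hw e h
  rw [dv_eq_sum hzw, sum_union h, ← dv_eq_sum hz, ← dv_eq_sum hw]

lemma dv_sdiff {z w : Finset (Sym2 V)} (hz : NoLoop z) (h : w ⊆ z) :
    dv (z \ w) = dv z - dv w := by
  have h1 := dv_union (hz.mono (sdiff_subset (s := z) (t := w))) (hz.mono h) sdiff_disjoint
  rw [sdiff_union_of_subset h] at h1
  rw [h1]; abel

lemma dv_sq {a b c d : V} (h : Dist4 a b c d) (v : V) :
    dv (sq a b c d) v = 2 * ev a v + 2 * ev b v + 2 * ev c v + 2 * ev d v := by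
  obtain ⟨hab, hac, had, hbc, hbd, hcd⟩ := h
  have e : sq a b c d = [s(a, b), s(b, c), s(c, d), s(d, a)].toFinset := by
    simp [sq]
  rw [e, dv_list]
  · simp
    ring
  · simp [Sym2.eq_iff, hab, hac, had, hbc, hbd, hcd, hab.symm, hac.symm, had.symm, hbc.symm, hbd.symm,
      hcd.symm]
  · simp [hab, hbc, hcd, had.symm]

lemma dv_tr {a b c : V} (hab : a ≠ b) (hac : a ≠ c) (hbc : b ≠ c) (v : V) :
    dv (tr a b c) v = 2 * ev a v + 2 * ev b v + 2 * ev c v := by
  have e : tr a b c = [s(a, b), s(b, c), s(c, a)].toFinset := by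
    simp [tr]
  rw [e, dv_list]
  · simp
    ring
  · simp [Sym2.eq_iff, hab, hac, hbc, hab.symm, hac.symm, hbc.symm]
  · simp [hab, hbc, hac.symm]

/-- an outer part `O` together with a completion `P` inside `H` which meets no short cycle -/
lemma finish {F N Q R O P H : Finset (Sym2 V)} (hO : O ⊆ (F ∪ N) \ H) (hPH : P ⊆ H)
    (hH : H ⊆ F ∪ N) (hnl : NoLoop (F ∪ N)) (hOg : Good (alFN F N) O)
    (hdeg : dv O + dv P = two) (hQH : Q ⊆ H) (hRH : R ⊆ H) (hQ : IsSh Q) (hR : IsSh R)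
    (hno' : TF (O ∪ P) → ∀ Z, IsSh Z → Z ⊆ O ∪ P → ∀ e ∈ Z, e ∉ P) : CEConc F N Q R := by
  have hOFN : O ⊆ F ∪ N := hO.trans sdiff_subset
  have hPFN : P ⊆ F ∪ N := hPH.trans hH
  have hM : O ∪ P ⊆ F ∪ N := union_subset hOFN hPFN
  have hOH : ∀ e ∈ O, e ∉ H := fun e he => (mem_sdiff.mp (hO he)).2
  have hdis : Disjoint O P := by
    rw [disjoint_left]
    intro e he he'
    exact hOH e he (hPH he')
  have hTF : TF (O ∪ P) := by
    refine ⟨hnl.mono hM, fun v => ?_⟩
    have := congrFun (dv_union (hnl.mono hOFN) (hnl.mono hPFN) hdis) v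
    rw [hdeg] at this
    simp only [dv_apply, two] at this
    exact_mod_cast this
  have hno := hno' hTF
  -- a short cycle of `M` lies in `O`
  have key : ∀ Z, IsSh Z → Z ⊆ O ∪ P → Z ⊆ O := by
    intro Z hZ hZM e he
    exact (mem_union.mp (hZM he)).resolve_right (hno Z hZ hZM e he)
  have noH : ∀ Z, IsSh Z → Z ⊆ H → ¬ Z ⊆ O ∪ P := by
    intro Z hZ hZH hZM
    have h1 := key Z hZ hZM
    have hne : ∃ e, e ∈ Z := by
      rcases hZ with ⟨a, b, c, -, -, -, rfl⟩ | ⟨a, b, c, d, -, rfl⟩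
      · exact ⟨s(a, b), by simp [tr]⟩
      · exact ⟨s(a, b), by simp [sq]⟩
    obtain ⟨e, he⟩ := hne
    exact hOH e (h1 he) (hZH he)
  exact ⟨O ∪ P, hM, hTF, noH Q hQ hQH, noH R hR hRH, fun Z hZ hZM => hOg Z hZ (key Z hZ hZM)⟩

lemma put4 (f : Fin 4 → V) (k : Fin 4 → ℤ) (v : V) :
    put f k v = k 0 * ev (f 0) v + k 1 * ev (f 1) v + k 2 * ev (f 2) v + k 3 * ev (f 3) v := by
  have h : ∀ i, (if f i = v then k i else 0) = k i * ev (f i) v := by
    intro i
    rw [ev_apply]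
    by_cases hv : f i = v
    · simp [hv]
    · rw [if_neg hv, if_neg (fun h => hv h.symm)]; simp
  simp only [put, h, Fin.sum_univ_four]

lemma put3 (f : Fin 3 → V) (k : Fin 3 → ℤ) (v : V) :
    put f k v = k 0 * ev (f 0) v + k 1 * ev (f 1) v + k 2 * ev (f 2) v := by
  have h : ∀ i, (if f i = v then k i else 0) = k i * ev (f i) v := by
    intro i
    rw [ev_apply]
    by_cases hv : f i = v
    · simp [hv]
    · rw [if_neg hv, if_neg (fun h => hv h.symm)]; simp
  simp only [put, h, Fin.sum_univ_three]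

lemma put2 (f : Fin 2 → V) (k : Fin 2 → ℤ) (v : V) :
    put f k v = k 0 * ev (f 0) v + k 1 * ev (f 1) v := by
  have h : ∀ i, (if f i = v then k i else 0) = k i * ev (f i) v := by
    intro i
    rw [ev_apply]
    by_cases hv : f i = v
    · simp [hv]
    · rw [if_neg hv, if_neg (fun h => hv h.symm)]; simp
  simp only [put, h, Fin.sum_univ_two]

end Pool.Agent.TFC.SH
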