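import Pool.Agent.SQ34.CE0
import Pool.Agent.SQ34.W
import Pool.Agent.TFC.Four

set_option autoImplicit false
set_option linter.unusedSectionVars false
set_option linter.unusedSimpArgs false
set_option linter.unusedTactic false
set_option linter.unreachableTactic false

/-! [SQ34-CE6] conflict elimination for two squares whose union has six vertices. Adapt Pool/Agent/TFC/CE.lean and
Pool/Agent/TFC/CE2.lean (the same for squares only): `Good`, `alFN`, `CEConc`, `fin4`, `fin5`, `finish`, `good_of_subset`, `dv_sq`, `put4`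
are in CE0.lean now, in terms of short cycles `Z` (`IsSh Z → Z ⊆ M → ∀ e ∈ Z, e ∉ P`); `four_conflict` is in
Pool/Agent/TFC/Four.lean, `jump_JS` in W.lean. All completions except 1111 are connected with at least five vertices (`fin5`), or paths with
four vertices and non-adjacent ends (`fin4`), and work verbatim.

THE CASE 1111: O is the outer part, O-degrees 0 at x, y and 1 at p, q, r, t (t is called s in the note), 2 elsewhere; Q = x y q p, R = x y r t.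
P1 = {tx, xp, ry, yq}, P2 = {tx, xy, yr, pq}.
 (i) pt, qt, pr, qr ∉ O: such an edge e is in F or in N. If e ∈ F: e has an end u ∈ {p, q}, which has its two F-edges in Q; e ∈ Q is
 impossible (e.g. pt ∉ sq x y q p). If e ∈ N: it has an end in {r, t}, whose two N-edges are in R; e ∉ R. (Here F, N have all degrees 2.)
 (ii) Suppose a short cycle Z of O ∪ P1 contains an edge of P1. If Z contains t, x, p (tx or xp ∈ Z; `IsSh.closed`): Z is not the triangle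
 (pt ∉ O ∪ P1), so Z = sq x p m t with pm, tm ∈ O. If Z contains r, y, q: Z = sq y q m r with qm, rm ∈ O.
 (iii) So if there is no m with (pm, tm ∈ O) or (qm, rm ∈ O): P1 works. If there is one, P2 works: a short cycle Z of O ∪ P2 with an edge of
 P2: not one of tx, xy, yr (`fin4` for the path t x y r: tr ∈ R ⊆ H, so tr ∉ O, tr ∉ P2); so it contains pq, so it contains q, p, m, t, x (m: the
 O-neighbour of p, then t the other O-neighbour of m, then x) resp. p, q, m, r, y: five vertices (`fin5`). (As in TFC/CE.lean.) -/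

namespace Pool.Agent.TFC.SH

open Finset

variable {V : Type*} [DecidableEq V]

/-- six different vertices -/
structure CE6_Six (x y p q r t : V) : Prop where
  xy : x ≠ y
  xp : x ≠ p
  xq : x ≠ q
  xr : x ≠ r
  xt : x ≠ t
  yp : y ≠ p
  yq : y ≠ q
  yr : y ≠ r
  yt : y ≠ t
  pq : p ≠ q
  pr : p ≠ r
  pt : p ≠ t
  qr : q ≠ r
  qt : q ≠ t
  rt : r ≠ t

section six

variable {F N : Finset (Sym2 V)} {x y p q r t : V}

/-- the data used for a completion -/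
structure CE6_Dat (F N : Finset (Sym2 V)) (x y p q r t : V) : Prop where
  hF : TF F
  hN : TF N
  six : CE6_Six x y p q r t
  hQF : sq x y q p ⊆ F
  hRN : sq x y r t ⊆ N

/-- outer part with given degrees at `p, q, r, t` -/
def CE6_Outer (F N : Finset (Sym2 V)) (x y p q r t : V) (k : Fin 4 → ℤ) : Prop :=
  ∃ O ⊆ (F ∪ N) \ (sq x y q p ∪ sq x y r t), Good (alFN F N) O ∧
    ∀ v, dv O v = 2 - 2 * ev x v - 2 * ev y v + (k 0 - 2) * ev p v + (k 1 - 2) * ev q v +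
      (k 2 - 2) * ev r v + (k 3 - 2) * ev t v

lemma CE6_complete (D : CE6_Dat F N x y p q r t) {k : Fin 4 → ℤ} (h : CE6_Outer F N x y p q r t k)
    (l : List (Sym2 V)) (hn : l.Nodup) (hl : ∀ e ∈ l, ¬ e.IsDiag)
    (hlH : ∀ e ∈ l, e ∈ sq x y q p ∪ sq x y r t)
    (hsum : ∀ v, (l.map esum).sum v = 2 * ev x v + 2 * ev y v + (2 - k 0) * ev p v +
      (2 - k 1) * ev q v + (2 - k 2) * ev r v + (2 - k 3) * ev t v)
    (hno : ∀ O ⊆ (F ∪ N) \ (sq x y q p ∪ sq x y r t), M2 (O ∪ l.toFinset) →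
      (∀ v, dv O v = 2 - 2 * ev x v - 2 * ev y v + (k 0 - 2) * ev p v + (k 1 - 2) * ev q v +
      (k 2 - 2) * ev r v + (k 3 - 2) * ev t v) →
      ∀ Z, IsSh Z → Z ⊆ O ∪ l.toFinset → ∀ e ∈ Z, e ∉ l.toFinset) :
    CEConc F N (sq x y q p) (sq x y r t) := by
  obtain ⟨O, hO, hOg, hdv⟩ := h
  have hnl : NoLoop (F ∪ N) := by
    intro e he
    rcases mem_union.mp he with h | h
    · exact D.hF.nl e h
    · exact D.hN.nl e h
  have s6 := D.six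
  refine finish (O := O) (P := l.toFinset) (H := sq x y q p ∪ sq x y r t) hO ?_ ?_ hnl hOg ?_
    subset_union_left subset_union_right ?_ ?_ ?_
  · intro e he
    exact hlH e (List.mem_toFinset.mp he)
  · exact union_subset (D.hQF.trans subset_union_left) (D.hRN.trans subset_union_right)
  · funext v
    rw [Pi.add_apply, dv_list hn hl, hsum v, hdv v]
    simp only [two]
    ring
  · exact Or.inr ⟨x, y, q, p, ⟨s6.xy, s6.xq, s6.xp, s6.yq, s6.yp, s6.pq.symm⟩, rfl⟩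
  · exact Or.inr ⟨x, y, r, t, ⟨s6.xy, s6.xr, s6.xt, s6.yr, s6.yt, s6.rt⟩, rfl⟩
  · intro hTF
    exact hno O hO (TF.m2 hTF) hdv

/-- completion by a connected set with at least five vertices -/
lemma CE6_complete5 (D : CE6_Dat F N x y p q r t) {k : Fin 4 → ℤ} (h : CE6_Outer F N x y p q r t k)
    (l : List (Sym2 V)) (hn : l.Nodup) (hl : ∀ e ∈ l, ¬ e.IsDiag)
    (hlH : ∀ e ∈ l, e ∈ sq x y q p ∪ sq x y r t)
    (hsum : ∀ v, (l.map esum).sum v = 2 * ev x v + 2 * ev y v + (2 - k 0) * ev p v +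
      (2 - k 1) * ev q v + (2 - k 2) * ev r v + (2 - k 3) * ev t v)
    (v : Fin 5 → V) (hv : Function.Injective v) (h01 : s(v 0, v 1) ∈ l) (h12 : s(v 1, v 2) ∈ l)
    (h23 : s(v 2, v 3) ∈ l) (h34 : s(v 3, v 4) ∈ l) (hcov : ∀ e ∈ l, ∃ i, v i ∈ e) :
    CEConc F N (sq x y q p) (sq x y r t) := by
  refine CE6_complete D h l hn hl hlH hsum fun O _ hM _ => ?_
  have hm : ∀ {e}, e ∈ l → e ∈ O ∪ l.toFinset := fun he =>
    mem_union_right _ (List.mem_toFinset.mpr he)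
  exact fin5 hM hv (hm h01) (hm h12) (hm h23) (hm h34) fun e he => hcov e (List.mem_toFinset.mp he)



end six

/-- the neighbours of a vertex of a short cycle are adjacent or have another common neighbour -/
lemma CE6_opp {M Z : Finset (Sym2 V)} (hM : M2 M) (hZ : IsSh Z) (hZM : Z ⊆ M) {u v w : V}
    (hu : u ∈ vs Z) (hv : s(u, v) ∈ M) (hw : s(u, w) ∈ M) (hvw : v ≠ w) :
    s(v, w) ∈ Z ∨ ∃ m, m ≠ u ∧ s(v, m) ∈ Z ∧ s(w, m) ∈ Z := by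
  have a := hZ.closed hM hZM hu hv
  have b := hZ.closed hM hZM hu hw
  rcases isSh_first hZ (msw a) with ⟨p, h1, h2, h3, rfl⟩ | ⟨q, p, ⟨h1, h2, h3, h4, h5, h6⟩, rfl⟩
  · have hp : w = p := by
      simp only [tr, mem_insert, mem_singleton, Sym2.eq_iff] at b
      rcases b with (⟨g1, g2⟩ | ⟨g1, g2⟩) | (⟨g1, g2⟩ | ⟨g1, g2⟩) | (⟨g1, g2⟩ | ⟨g1, g2⟩)
      · exact absurd g1.symm h1
      · exact absurd g2.symm hvw
      · exact g2
      · exact absurd g1 h3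
      · exact absurd g1 h3
      · exact absurd g1.symm h1
    subst hp
    left
    rw [Sym2.eq_swap]
    simp [tr]
  · have hq : w = q := by
      simp only [sq, mem_insert, mem_singleton, Sym2.eq_iff] at b
      rcases b with (⟨g1, g2⟩ | ⟨g1, g2⟩) | (⟨g1, g2⟩ | ⟨g1, g2⟩) | (⟨g1, g2⟩ | ⟨g1, g2⟩) |
        (⟨g1, g2⟩ | ⟨g1, g2⟩)
      · exact absurd g1.symm h1
      · exact absurd g2.symm hvw
      · exact g2
      · exact absurd g1 h4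
      · exact absurd g1 h4
      · exact absurd g1 h5
      · exact absurd g1 h5
      · exact absurd g1.symm h1
    subst hq
    right
    exact ⟨p, h5.symm, by rw [Sym2.eq_swap]; simp [sq], by simp [sq]⟩

section six

variable {F N : Finset (Sym2 V)} {x y p q r t : V}

lemma CE6_c1100 (D : CE6_Dat F N x y p q r t) (h : CE6_Outer F N x y p q r t ![1, 1, 0, 0]) :
    CEConc F N (sq x y q p) (sq x y r t) := by
  have s6 := D.six
  refine CE6_complete5 D h [s(p, x), s(t, x), s(r, t), s(y, r), s(y, q)] ?_ ?_ ?_ ?_ ![p, x, t, r, y] ?_ ?_ ?_ ?_ ?_ ?_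
  · simp [Sym2.eq_iff, s6.xy, s6.xp, s6.xq, s6.xr, s6.xt, s6.yp, s6.yq, s6.yr, s6.yt, s6.pq, s6.pr, s6.pt, s6.qr, s6.qt, s6.rt, s6.xy.symm, s6.xp.symm, s6.xq.symm, s6.xr.symm, s6.xt.symm, s6.yp.symm, s6.yq.symm, s6.yr.symm, s6.yt.symm, s6.pq.symm, s6.pr.symm, s6.pt.symm, s6.qr.symm, s6.qt.symm, s6.rt.symm]
  · simp [Sym2.eq_iff, s6.xy, s6.xp, s6.xq, s6.xr, s6.xt, s6.yp, s6.yq, s6.yr, s6.yt, s6.pq, s6.pr, s6.pt, s6.qr, s6.qt, s6.rt, s6.xy.symm, s6.xp.symm, s6.xq.symm, s6.xr.symm, s6.xt.symm, s6.yp.symm, s6.yq.symm, s6.yr.symm, s6.yt.symm, s6.pq.symm, s6.pr.symm, s6.pt.symm, s6.qr.symm, s6.qt.symm, s6.rt.symm]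
  · intro e he
    simp only [List.mem_cons, List.not_mem_nil, or_false] at he
    rcases he with he | he | he | he | he <;> subst he <;> simp [sq]
  · intro v
    simp
    ring
  · (intro i j hij; fin_cases i <;> fin_cases j <;> first | rfl | (exfalso; revert hij; simp [Sym2.eq_iff, s6.xy, s6.xp, s6.xq, s6.xr, s6.xt, s6.yp, s6.yq, s6.yr, s6.yt, s6.pq, s6.pr, s6.pt, s6.qr, s6.qt, s6.rt, s6.xy.symm, s6.xp.symm, s6.xq.symm, s6.xr.symm, s6.xt.symm, s6.yp.symm, s6.yq.symm, s6.yr.symm, s6.yt.symm, s6.pq.symm, s6.pr.symm, s6.pt.symm, s6.qr.symm, s6.qt.symm, s6.rt.symm]))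
  · simp [Sym2.eq_iff, s6.xy, s6.xp, s6.xq, s6.xr, s6.xt, s6.yp, s6.yq, s6.yr, s6.yt, s6.pq, s6.pr, s6.pt, s6.qr, s6.qt, s6.rt, s6.xy.symm, s6.xp.symm, s6.xq.symm, s6.xr.symm, s6.xt.symm, s6.yp.symm, s6.yq.symm, s6.yr.symm, s6.yt.symm, s6.pq.symm, s6.pr.symm, s6.pt.symm, s6.qr.symm, s6.qt.symm, s6.rt.symm]
  · simp [Sym2.eq_iff, s6.xy, s6.xp, s6.xq, s6.xr, s6.xt, s6.yp, s6.yq, s6.yr, s6.yt, s6.pq, s6.pr, s6.pt, s6.qr, s6.qt, s6.rt, s6.xy.symm, s6.xp.symm, s6.xq.symm, s6.xr.symm, s6.xt.symm, s6.yp.symm, s6.yq.symm, s6.yr.symm, s6.yt.symm, s6.pq.symm, s6.pr.symm, s6.pt.symm, s6.qr.symm, s6.qt.symm, s6.rt.symm]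
  · simp [Sym2.eq_iff, s6.xy, s6.xp, s6.xq, s6.xr, s6.xt, s6.yp, s6.yq, s6.yr, s6.yt, s6.pq, s6.pr, s6.pt, s6.qr, s6.qt, s6.rt, s6.xy.symm, s6.xp.symm, s6.xq.symm, s6.xr.symm, s6.xt.symm, s6.yp.symm, s6.yq.symm, s6.yr.symm, s6.yt.symm, s6.pq.symm, s6.pr.symm, s6.pt.symm, s6.qr.symm, s6.qt.symm, s6.rt.symm]
  · simp [Sym2.eq_iff, s6.xy, s6.xp, s6.xq, s6.xr, s6.xt, s6.yp, s6.yq, s6.yr, s6.yt, s6.pq, s6.pr, s6.pt, s6.qr, s6.qt, s6.rt, s6.xy.symm, s6.xp.symm, s6.xq.symm, s6.xr.symm, s6.xt.symm, s6.yp.symm, s6.yq.symm, s6.yr.symm, s6.yt.symm, s6.pq.symm, s6.pr.symm, s6.pt.symm, s6.qr.symm, s6.qt.symm, s6.rt.symm]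
  · intro e he
    simp only [List.mem_cons, List.not_mem_nil, or_false] at he
    rcases he with he | he | he | he | he <;> subst he <;>
      first | (refine ⟨0, ?_⟩; simp; done) | (refine ⟨1, ?_⟩; simp; done) | (refine ⟨2, ?_⟩; simp; done) |
        (refine ⟨3, ?_⟩; simp; done) | (refine ⟨4, ?_⟩; simp; done)

lemma CE6_c0011 (D : CE6_Dat F N x y p q r t) (h : CE6_Outer F N x y p q r t ![0, 0, 1, 1]) :
    CEConc F N (sq x y q p) (sq x y r t) := by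
  have s6 := D.six
  refine CE6_complete5 D h [s(t, x), s(p, x), s(q, p), s(y, q), s(y, r)] ?_ ?_ ?_ ?_ ![t, x, p, q, y] ?_ ?_ ?_ ?_ ?_ ?_
  · simp [Sym2.eq_iff, s6.xy, s6.xp, s6.xq, s6.xr, s6.xt, s6.yp, s6.yq, s6.yr, s6.yt, s6.pq, s6.pr, s6.pt, s6.qr, s6.qt, s6.rt, s6.xy.symm, s6.xp.symm, s6.xq.symm, s6.xr.symm, s6.xt.symm, s6.yp.symm, s6.yq.symm, s6.yr.symm, s6.yt.symm, s6.pq.symm, s6.pr.symm, s6.pt.symm, s6.qr.symm, s6.qt.symm, s6.rt.symm]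
  · simp [Sym2.eq_iff, s6.xy, s6.xp, s6.xq, s6.xr, s6.xt, s6.yp, s6.yq, s6.yr, s6.yt, s6.pq, s6.pr, s6.pt, s6.qr, s6.qt, s6.rt, s6.xy.symm, s6.xp.symm, s6.xq.symm, s6.xr.symm, s6.xt.symm, s6.yp.symm, s6.yq.symm, s6.yr.symm, s6.yt.symm, s6.pq.symm, s6.pr.symm, s6.pt.symm, s6.qr.symm, s6.qt.symm, s6.rt.symm]
  · intro e he
    simp only [List.mem_cons, List.not_mem_nil, or_false] at he
    rcases he with he | he | he | he | he <;> subst he <;> simp [sq]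
  · intro v
    simp
    ring
  · (intro i j hij; fin_cases i <;> fin_cases j <;> first | rfl | (exfalso; revert hij; simp [Sym2.eq_iff, s6.xy, s6.xp, s6.xq, s6.xr, s6.xt, s6.yp, s6.yq, s6.yr, s6.yt, s6.pq, s6.pr, s6.pt, s6.qr, s6.qt, s6.rt, s6.xy.symm, s6.xp.symm, s6.xq.symm, s6.xr.symm, s6.xt.symm, s6.yp.symm, s6.yq.symm, s6.yr.symm, s6.yt.symm, s6.pq.symm, s6.pr.symm, s6.pt.symm, s6.qr.symm, s6.qt.symm, s6.rt.symm]))
  · simp [Sym2.eq_iff, s6.xy, s6.xp, s6.xq, s6.xr, s6.xt, s6.yp, s6.yq, s6.yr, s6.yt, s6.pq, s6.pr, s6.pt, s6.qr, s6.qt, s6.rt, s6.xy.symm, s6.xp.symm, s6.xq.symm, s6.xr.symm, s6.xt.symm, s6.yp.symm, s6.yq.symm, s6.yr.symm, s6.yt.symm, s6.pq.symm, s6.pr.symm, s6.pt.symm, s6.qr.symm, s6.qt.symm, s6.rt.symm]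
  · simp [Sym2.eq_iff, s6.xy, s6.xp, s6.xq, s6.xr, s6.xt, s6.yp, s6.yq, s6.yr, s6.yt, s6.pq, s6.pr, s6.pt, s6.qr, s6.qt, s6.rt, s6.xy.symm, s6.xp.symm, s6.xq.symm, s6.xr.symm, s6.xt.symm, s6.yp.symm, s6.yq.symm, s6.yr.symm, s6.yt.symm, s6.pq.symm, s6.pr.symm, s6.pt.symm, s6.qr.symm, s6.qt.symm, s6.rt.symm]
  · simp [Sym2.eq_iff, s6.xy, s6.xp, s6.xq, s6.xr, s6.xt, s6.yp, s6.yq, s6.yr, s6.yt, s6.pq, s6.pr, s6.pt, s6.qr, s6.qt, s6.rt, s6.xy.symm, s6.xp.symm, s6.xq.symm, s6.xr.symm, s6.xt.symm, s6.yp.symm, s6.yq.symm, s6.yr.symm, s6.yt.symm, s6.pq.symm, s6.pr.symm, s6.pt.symm, s6.qr.symm, s6.qt.symm, s6.rt.symm]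
  · simp [Sym2.eq_iff, s6.xy, s6.xp, s6.xq, s6.xr, s6.xt, s6.yp, s6.yq, s6.yr, s6.yt, s6.pq, s6.pr, s6.pt, s6.qr, s6.qt, s6.rt, s6.xy.symm, s6.xp.symm, s6.xq.symm, s6.xr.symm, s6.xt.symm, s6.yp.symm, s6.yq.symm, s6.yr.symm, s6.yt.symm, s6.pq.symm, s6.pr.symm, s6.pt.symm, s6.qr.symm, s6.qt.symm, s6.rt.symm]
  · intro e he
    simp only [List.mem_cons, List.not_mem_nil, or_false] at he
    rcases he with he | he | he | he | he <;> subst he <;>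
      first | (refine ⟨0, ?_⟩; simp; done) | (refine ⟨1, ?_⟩; simp; done) | (refine ⟨2, ?_⟩; simp; done) |
        (refine ⟨3, ?_⟩; simp; done) | (refine ⟨4, ?_⟩; simp; done)

lemma CE6_c0000 (D : CE6_Dat F N x y p q r t) (h : CE6_Outer F N x y p q r t ![0, 0, 0, 0]) :
    CEConc F N (sq x y q p) (sq x y r t) := by
  have s6 := D.six
  refine CE6_complete5 D h [s(p, x), s(t, x), s(r, t), s(y, r), s(y, q), s(q, p)] ?_ ?_ ?_ ?_ ![p, x, t, r, y] ?_ ?_ ?_ ?_ ?_ ?_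
  · simp [Sym2.eq_iff, s6.xy, s6.xp, s6.xq, s6.xr, s6.xt, s6.yp, s6.yq, s6.yr, s6.yt, s6.pq, s6.pr, s6.pt, s6.qr, s6.qt, s6.rt, s6.xy.symm, s6.xp.symm, s6.xq.symm, s6.xr.symm, s6.xt.symm, s6.yp.symm, s6.yq.symm, s6.yr.symm, s6.yt.symm, s6.pq.symm, s6.pr.symm, s6.pt.symm, s6.qr.symm, s6.qt.symm, s6.rt.symm]
  · simp [Sym2.eq_iff, s6.xy, s6.xp, s6.xq, s6.xr, s6.xt, s6.yp, s6.yq, s6.yr, s6.yt, s6.pq, s6.pr, s6.pt, s6.qr, s6.qt, s6.rt, s6.xy.symm, s6.xp.symm, s6.xq.symm, s6.xr.symm, s6.xt.symm, s6.yp.symm, s6.yq.symm, s6.yr.symm, s6.yt.symm, s6.pq.symm, s6.pr.symm, s6.pt.symm, s6.qr.symm, s6.qt.symm, s6.rt.symm]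
  · intro e he
    simp only [List.mem_cons, List.not_mem_nil, or_false] at he
    rcases he with he | he | he | he | he | he <;> subst he <;> simp [sq]
  · intro v
    simp
    ring
  · (intro i j hij; fin_cases i <;> fin_cases j <;> first | rfl | (exfalso; revert hij; simp [Sym2.eq_iff, s6.xy, s6.xp, s6.xq, s6.xr, s6.xt, s6.yp, s6.yq, s6.yr, s6.yt, s6.pq, s6.pr, s6.pt, s6.qr, s6.qt, s6.rt, s6.xy.symm, s6.xp.symm, s6.xq.symm, s6.xr.symm, s6.xt.symm, s6.yp.symm, s6.yq.symm, s6.yr.symm, s6.yt.symm, s6.pq.symm, s6.pr.symm, s6.pt.symm, s6.qr.symm, s6.qt.symm, s6.rt.symm]))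
  · simp [Sym2.eq_iff, s6.xy, s6.xp, s6.xq, s6.xr, s6.xt, s6.yp, s6.yq, s6.yr, s6.yt, s6.pq, s6.pr, s6.pt, s6.qr, s6.qt, s6.rt, s6.xy.symm, s6.xp.symm, s6.xq.symm, s6.xr.symm, s6.xt.symm, s6.yp.symm, s6.yq.symm, s6.yr.symm, s6.yt.symm, s6.pq.symm, s6.pr.symm, s6.pt.symm, s6.qr.symm, s6.qt.symm, s6.rt.symm]
  · simp [Sym2.eq_iff, s6.xy, s6.xp, s6.xq, s6.xr, s6.xt, s6.yp, s6.yq, s6.yr, s6.yt, s6.pq, s6.pr, s6.pt, s6.qr, s6.qt, s6.rt, s6.xy.symm, s6.xp.symm, s6.xq.symm, s6.xr.symm, s6.xt.symm, s6.yp.symm, s6.yq.symm, s6.yr.symm, s6.yt.symm, s6.pq.symm, s6.pr.symm, s6.pt.symm, s6.qr.symm, s6.qt.symm, s6.rt.symm]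
  · simp [Sym2.eq_iff, s6.xy, s6.xp, s6.xq, s6.xr, s6.xt, s6.yp, s6.yq, s6.yr, s6.yt, s6.pq, s6.pr, s6.pt, s6.qr, s6.qt, s6.rt, s6.xy.symm, s6.xp.symm, s6.xq.symm, s6.xr.symm, s6.xt.symm, s6.yp.symm, s6.yq.symm, s6.yr.symm, s6.yt.symm, s6.pq.symm, s6.pr.symm, s6.pt.symm, s6.qr.symm, s6.qt.symm, s6.rt.symm]
  · simp [Sym2.eq_iff, s6.xy, s6.xp, s6.xq, s6.xr, s6.xt, s6.yp, s6.yq, s6.yr, s6.yt, s6.pq, s6.pr, s6.pt, s6.qr, s6.qt, s6.rt, s6.xy.symm, s6.xp.symm, s6.xq.symm, s6.xr.symm, s6.xt.symm, s6.yp.symm, s6.yq.symm, s6.yr.symm, s6.yt.symm, s6.pq.symm, s6.pr.symm, s6.pt.symm, s6.qr.symm, s6.qt.symm, s6.rt.symm]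
  · intro e he
    simp only [List.mem_cons, List.not_mem_nil, or_false] at he
    rcases he with he | he | he | he | he | he <;> subst he <;>
      first | (refine ⟨0, ?_⟩; simp; done) | (refine ⟨1, ?_⟩; simp; done) | (refine ⟨2, ?_⟩; simp; done) |
        (refine ⟨3, ?_⟩; simp; done) | (refine ⟨4, ?_⟩; simp; done)

lemma CE6_c1201 (D : CE6_Dat F N x y p q r t) (h : CE6_Outer F N x y p q r t ![1, 2, 0, 1]) :
    CEConc F N (sq x y q p) (sq x y r t) := by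
  have s6 := D.six
  refine CE6_complete5 D h [s(r, t), s(y, r), s(x, y), s(p, x)] ?_ ?_ ?_ ?_ ![t, r, y, x, p] ?_ ?_ ?_ ?_ ?_ ?_
  · simp [Sym2.eq_iff, s6.xy, s6.xp, s6.xq, s6.xr, s6.xt, s6.yp, s6.yq, s6.yr, s6.yt, s6.pq, s6.pr, s6.pt, s6.qr, s6.qt, s6.rt, s6.xy.symm, s6.xp.symm, s6.xq.symm, s6.xr.symm, s6.xt.symm, s6.yp.symm, s6.yq.symm, s6.yr.symm, s6.yt.symm, s6.pq.symm, s6.pr.symm, s6.pt.symm, s6.qr.symm, s6.qt.symm, s6.rt.symm]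
  · simp [Sym2.eq_iff, s6.xy, s6.xp, s6.xq, s6.xr, s6.xt, s6.yp, s6.yq, s6.yr, s6.yt, s6.pq, s6.pr, s6.pt, s6.qr, s6.qt, s6.rt, s6.xy.symm, s6.xp.symm, s6.xq.symm, s6.xr.symm, s6.xt.symm, s6.yp.symm, s6.yq.symm, s6.yr.symm, s6.yt.symm, s6.pq.symm, s6.pr.symm, s6.pt.symm, s6.qr.symm, s6.qt.symm, s6.rt.symm]
  · intro e he
    simp only [List.mem_cons, List.not_mem_nil, or_false] at he
    rcases he with he | he | he | he <;> subst he <;> simp [sq]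
  · intro v
    simp
    ring
  · (intro i j hij; fin_cases i <;> fin_cases j <;> first | rfl | (exfalso; revert hij; simp [Sym2.eq_iff, s6.xy, s6.xp, s6.xq, s6.xr, s6.xt, s6.yp, s6.yq, s6.yr, s6.yt, s6.pq, s6.pr, s6.pt, s6.qr, s6.qt, s6.rt, s6.xy.symm, s6.xp.symm, s6.xq.symm, s6.xr.symm, s6.xt.symm, s6.yp.symm, s6.yq.symm, s6.yr.symm, s6.yt.symm, s6.pq.symm, s6.pr.symm, s6.pt.symm, s6.qr.symm, s6.qt.symm, s6.rt.symm]))
  · simp [Sym2.eq_iff, s6.xy, s6.xp, s6.xq, s6.xr, s6.xt, s6.yp, s6.yq, s6.yr, s6.yt, s6.pq, s6.pr, s6.pt, s6.qr, s6.qt, s6.rt, s6.xy.symm, s6.xp.symm, s6.xq.symm, s6.xr.symm, s6.xt.symm, s6.yp.symm, s6.yq.symm, s6.yr.symm, s6.yt.symm, s6.pq.symm, s6.pr.symm, s6.pt.symm, s6.qr.symm, s6.qt.symm, s6.rt.symm]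
  · simp [Sym2.eq_iff, s6.xy, s6.xp, s6.xq, s6.xr, s6.xt, s6.yp, s6.yq, s6.yr, s6.yt, s6.pq, s6.pr, s6.pt, s6.qr, s6.qt, s6.rt, s6.xy.symm, s6.xp.symm, s6.xq.symm, s6.xr.symm, s6.xt.symm, s6.yp.symm, s6.yq.symm, s6.yr.symm, s6.yt.symm, s6.pq.symm, s6.pr.symm, s6.pt.symm, s6.qr.symm, s6.qt.symm, s6.rt.symm]
  · simp [Sym2.eq_iff, s6.xy, s6.xp, s6.xq, s6.xr, s6.xt, s6.yp, s6.yq, s6.yr, s6.yt, s6.pq, s6.pr, s6.pt, s6.qr, s6.qt, s6.rt, s6.xy.symm, s6.xp.symm, s6.xq.symm, s6.xr.symm, s6.xt.symm, s6.yp.symm, s6.yq.symm, s6.yr.symm, s6.yt.symm, s6.pq.symm, s6.pr.symm, s6.pt.symm, s6.qr.symm, s6.qt.symm, s6.rt.symm]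
  · simp [Sym2.eq_iff, s6.xy, s6.xp, s6.xq, s6.xr, s6.xt, s6.yp, s6.yq, s6.yr, s6.yt, s6.pq, s6.pr, s6.pt, s6.qr, s6.qt, s6.rt, s6.xy.symm, s6.xp.symm, s6.xq.symm, s6.xr.symm, s6.xt.symm, s6.yp.symm, s6.yq.symm, s6.yr.symm, s6.yt.symm, s6.pq.symm, s6.pr.symm, s6.pt.symm, s6.qr.symm, s6.qt.symm, s6.rt.symm]
  · intro e he
    simp only [List.mem_cons, List.not_mem_nil, or_false] at he
    rcases he with he | he | he | he <;> subst he <;>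
      first | (refine ⟨0, ?_⟩; simp; done) | (refine ⟨1, ?_⟩; simp; done) | (refine ⟨2, ?_⟩; simp; done) |
        (refine ⟨3, ?_⟩; simp; done) | (refine ⟨4, ?_⟩; simp; done)

lemma CE6_c2110 (D : CE6_Dat F N x y p q r t) (h : CE6_Outer F N x y p q r t ![2, 1, 1, 0]) :
    CEConc F N (sq x y q p) (sq x y r t) := by
  have s6 := D.six
  refine CE6_complete5 D h [s(r, t), s(t, x), s(x, y), s(y, q)] ?_ ?_ ?_ ?_ ![r, t, x, y, q] ?_ ?_ ?_ ?_ ?_ ?_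
  · simp [Sym2.eq_iff, s6.xy, s6.xp, s6.xq, s6.xr, s6.xt, s6.yp, s6.yq, s6.yr, s6.yt, s6.pq, s6.pr, s6.pt, s6.qr, s6.qt, s6.rt, s6.xy.symm, s6.xp.symm, s6.xq.symm, s6.xr.symm, s6.xt.symm, s6.yp.symm, s6.yq.symm, s6.yr.symm, s6.yt.symm, s6.pq.symm, s6.pr.symm, s6.pt.symm, s6.qr.symm, s6.qt.symm, s6.rt.symm]
  · simp [Sym2.eq_iff, s6.xy, s6.xp, s6.xq, s6.xr, s6.xt, s6.yp, s6.yq, s6.yr, s6.yt, s6.pq, s6.pr, s6.pt, s6.qr, s6.qt, s6.rt, s6.xy.symm, s6.xp.symm, s6.xq.symm, s6.xr.symm, s6.xt.symm, s6.yp.symm, s6.yq.symm, s6.yr.symm, s6.yt.symm, s6.pq.symm, s6.pr.symm, s6.pt.symm, s6.qr.symm, s6.qt.symm, s6.rt.symm]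
  · intro e he
    simp only [List.mem_cons, List.not_mem_nil, or_false] at he
    rcases he with he | he | he | he <;> subst he <;> simp [sq]
  · intro v
    simp
    ring
  · (intro i j hij; fin_cases i <;> fin_cases j <;> first | rfl | (exfalso; revert hij; simp [Sym2.eq_iff, s6.xy, s6.xp, s6.xq, s6.xr, s6.xt, s6.yp, s6.yq, s6.yr, s6.yt, s6.pq, s6.pr, s6.pt, s6.qr, s6.qt, s6.rt, s6.xy.symm, s6.xp.symm, s6.xq.symm, s6.xr.symm, s6.xt.symm, s6.yp.symm, s6.yq.symm, s6.yr.symm, s6.yt.symm, s6.pq.symm, s6.pr.symm, s6.pt.symm, s6.qr.symm, s6.qt.symm, s6.rt.symm]))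
  · simp [Sym2.eq_iff, s6.xy, s6.xp, s6.xq, s6.xr, s6.xt, s6.yp, s6.yq, s6.yr, s6.yt, s6.pq, s6.pr, s6.pt, s6.qr, s6.qt, s6.rt, s6.xy.symm, s6.xp.symm, s6.xq.symm, s6.xr.symm, s6.xt.symm, s6.yp.symm, s6.yq.symm, s6.yr.symm, s6.yt.symm, s6.pq.symm, s6.pr.symm, s6.pt.symm, s6.qr.symm, s6.qt.symm, s6.rt.symm]
  · simp [Sym2.eq_iff, s6.xy, s6.xp, s6.xq, s6.xr, s6.xt, s6.yp, s6.yq, s6.yr, s6.yt, s6.pq, s6.pr, s6.pt, s6.qr, s6.qt, s6.rt, s6.xy.symm, s6.xp.symm, s6.xq.symm, s6.xr.symm, s6.xt.symm, s6.yp.symm, s6.yq.symm, s6.yr.symm, s6.yt.symm, s6.pq.symm, s6.pr.symm, s6.pt.symm, s6.qr.symm, s6.qt.symm, s6.rt.symm]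
  · simp [Sym2.eq_iff, s6.xy, s6.xp, s6.xq, s6.xr, s6.xt, s6.yp, s6.yq, s6.yr, s6.yt, s6.pq, s6.pr, s6.pt, s6.qr, s6.qt, s6.rt, s6.xy.symm, s6.xp.symm, s6.xq.symm, s6.xr.symm, s6.xt.symm, s6.yp.symm, s6.yq.symm, s6.yr.symm, s6.yt.symm, s6.pq.symm, s6.pr.symm, s6.pt.symm, s6.qr.symm, s6.qt.symm, s6.rt.symm]
  · simp [Sym2.eq_iff, s6.xy, s6.xp, s6.xq, s6.xr, s6.xt, s6.yp, s6.yq, s6.yr, s6.yt, s6.pq, s6.pr, s6.pt, s6.qr, s6.qt, s6.rt, s6.xy.symm, s6.xp.symm, s6.xq.symm, s6.xr.symm, s6.xt.symm, s6.yp.symm, s6.yq.symm, s6.yr.symm, s6.yt.symm, s6.pq.symm, s6.pr.symm, s6.pt.symm, s6.qr.symm, s6.qt.symm, s6.rt.symm]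
  · intro e he
    simp only [List.mem_cons, List.not_mem_nil, or_false] at he
    rcases he with he | he | he | he <;> subst he <;>
      first | (refine ⟨0, ?_⟩; simp; done) | (refine ⟨1, ?_⟩; simp; done) | (refine ⟨2, ?_⟩; simp; done) |
        (refine ⟨3, ?_⟩; simp; done) | (refine ⟨4, ?_⟩; simp; done)

lemma CE6_c1021 (D : CE6_Dat F N x y p q r t) (h : CE6_Outer F N x y p q r t ![1, 0, 2, 1]) :
    CEConc F N (sq x y q p) (sq x y r t) := by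
  have s6 := D.six
  refine CE6_complete5 D h [s(q, p), s(y, q), s(x, y), s(t, x)] ?_ ?_ ?_ ?_ ![p, q, y, x, t] ?_ ?_ ?_ ?_ ?_ ?_
  · simp [Sym2.eq_iff, s6.xy, s6.xp, s6.xq, s6.xr, s6.xt, s6.yp, s6.yq, s6.yr, s6.yt, s6.pq, s6.pr, s6.pt, s6.qr, s6.qt, s6.rt, s6.xy.symm, s6.xp.symm, s6.xq.symm, s6.xr.symm, s6.xt.symm, s6.yp.symm, s6.yq.symm, s6.yr.symm, s6.yt.symm, s6.pq.symm, s6.pr.symm, s6.pt.symm, s6.qr.symm, s6.qt.symm, s6.rt.symm]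
  · simp [Sym2.eq_iff, s6.xy, s6.xp, s6.xq, s6.xr, s6.xt, s6.yp, s6.yq, s6.yr, s6.yt, s6.pq, s6.pr, s6.pt, s6.qr, s6.qt, s6.rt, s6.xy.symm, s6.xp.symm, s6.xq.symm, s6.xr.symm, s6.xt.symm, s6.yp.symm, s6.yq.symm, s6.yr.symm, s6.yt.symm, s6.pq.symm, s6.pr.symm, s6.pt.symm, s6.qr.symm, s6.qt.symm, s6.rt.symm]
  · intro e he
    simp only [List.mem_cons, List.not_mem_nil, or_false] at he
    rcases he with he | he | he | he <;> subst he <;> simp [sq]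
  · intro v
    simp
    ring
  · (intro i j hij; fin_cases i <;> fin_cases j <;> first | rfl | (exfalso; revert hij; simp [Sym2.eq_iff, s6.xy, s6.xp, s6.xq, s6.xr, s6.xt, s6.yp, s6.yq, s6.yr, s6.yt, s6.pq, s6.pr, s6.pt, s6.qr, s6.qt, s6.rt, s6.xy.symm, s6.xp.symm, s6.xq.symm, s6.xr.symm, s6.xt.symm, s6.yp.symm, s6.yq.symm, s6.yr.symm, s6.yt.symm, s6.pq.symm, s6.pr.symm, s6.pt.symm, s6.qr.symm, s6.qt.symm, s6.rt.symm]))
  · simp [Sym2.eq_iff, s6.xy, s6.xp, s6.xq, s6.xr, s6.xt, s6.yp, s6.yq, s6.yr, s6.yt, s6.pq, s6.pr, s6.pt, s6.qr, s6.qt, s6.rt, s6.xy.symm, s6.xp.symm, s6.xq.symm, s6.xr.symm, s6.xt.symm, s6.yp.symm, s6.yq.symm, s6.yr.symm, s6.yt.symm, s6.pq.symm, s6.pr.symm, s6.pt.symm, s6.qr.symm, s6.qt.symm, s6.rt.symm]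
  · simp [Sym2.eq_iff, s6.xy, s6.xp, s6.xq, s6.xr, s6.xt, s6.yp, s6.yq, s6.yr, s6.yt, s6.pq, s6.pr, s6.pt, s6.qr, s6.qt, s6.rt, s6.xy.symm, s6.xp.symm, s6.xq.symm, s6.xr.symm, s6.xt.symm, s6.yp.symm, s6.yq.symm, s6.yr.symm, s6.yt.symm, s6.pq.symm, s6.pr.symm, s6.pt.symm, s6.qr.symm, s6.qt.symm, s6.rt.symm]
  · simp [Sym2.eq_iff, s6.xy, s6.xp, s6.xq, s6.xr, s6.xt, s6.yp, s6.yq, s6.yr, s6.yt, s6.pq, s6.pr, s6.pt, s6.qr, s6.qt, s6.rt, s6.xy.symm, s6.xp.symm, s6.xq.symm, s6.xr.symm, s6.xt.symm, s6.yp.symm, s6.yq.symm, s6.yr.symm, s6.yt.symm, s6.pq.symm, s6.pr.symm, s6.pt.symm, s6.qr.symm, s6.qt.symm, s6.rt.symm]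
  · simp [Sym2.eq_iff, s6.xy, s6.xp, s6.xq, s6.xr, s6.xt, s6.yp, s6.yq, s6.yr, s6.yt, s6.pq, s6.pr, s6.pt, s6.qr, s6.qt, s6.rt, s6.xy.symm, s6.xp.symm, s6.xq.symm, s6.xr.symm, s6.xt.symm, s6.yp.symm, s6.yq.symm, s6.yr.symm, s6.yt.symm, s6.pq.symm, s6.pr.symm, s6.pt.symm, s6.qr.symm, s6.qt.symm, s6.rt.symm]
  · intro e he
    simp only [List.mem_cons, List.not_mem_nil, or_false] at he
    rcases he with he | he | he | he <;> subst he <;>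
      first | (refine ⟨0, ?_⟩; simp; done) | (refine ⟨1, ?_⟩; simp; done) | (refine ⟨2, ?_⟩; simp; done) |
        (refine ⟨3, ?_⟩; simp; done) | (refine ⟨4, ?_⟩; simp; done)

lemma CE6_c0101 (D : CE6_Dat F N x y p q r t) (h : CE6_Outer F N x y p q r t ![0, 1, 0, 1]) :
    CEConc F N (sq x y q p) (sq x y r t) := by
  have s6 := D.six
  refine CE6_complete5 D h [s(q, p), s(p, x), s(x, y), s(y, r), s(r, t)] ?_ ?_ ?_ ?_ ![q, p, x, y, r] ?_ ?_ ?_ ?_ ?_ ?_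
  · simp [Sym2.eq_iff, s6.xy, s6.xp, s6.xq, s6.xr, s6.xt, s6.yp, s6.yq, s6.yr, s6.yt, s6.pq, s6.pr, s6.pt, s6.qr, s6.qt, s6.rt, s6.xy.symm, s6.xp.symm, s6.xq.symm, s6.xr.symm, s6.xt.symm, s6.yp.symm, s6.yq.symm, s6.yr.symm, s6.yt.symm, s6.pq.symm, s6.pr.symm, s6.pt.symm, s6.qr.symm, s6.qt.symm, s6.rt.symm]
  · simp [Sym2.eq_iff, s6.xy, s6.xp, s6.xq, s6.xr, s6.xt, s6.yp, s6.yq, s6.yr, s6.yt, s6.pq, s6.pr, s6.pt, s6.qr, s6.qt, s6.rt, s6.xy.symm, s6.xp.symm, s6.xq.symm, s6.xr.symm, s6.xt.symm, s6.yp.symm, s6.yq.symm, s6.yr.symm, s6.yt.symm, s6.pq.symm, s6.pr.symm, s6.pt.symm, s6.qr.symm, s6.qt.symm, s6.rt.symm]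
  · intro e he
    simp only [List.mem_cons, List.not_mem_nil, or_false] at he
    rcases he with he | he | he | he | he <;> subst he <;> simp [sq]
  · intro v
    simp
    ring
  · (intro i j hij; fin_cases i <;> fin_cases j <;> first | rfl | (exfalso; revert hij; simp [Sym2.eq_iff, s6.xy, s6.xp, s6.xq, s6.xr, s6.xt, s6.yp, s6.yq, s6.yr, s6.yt, s6.pq, s6.pr, s6.pt, s6.qr, s6.qt, s6.rt, s6.xy.symm, s6.xp.symm, s6.xq.symm, s6.xr.symm, s6.xt.symm, s6.yp.symm, s6.yq.symm, s6.yr.symm, s6.yt.symm, s6.pq.symm, s6.pr.symm, s6.pt.symm, s6.qr.symm, s6.qt.symm, s6.rt.symm]))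
  · simp [Sym2.eq_iff, s6.xy, s6.xp, s6.xq, s6.xr, s6.xt, s6.yp, s6.yq, s6.yr, s6.yt, s6.pq, s6.pr, s6.pt, s6.qr, s6.qt, s6.rt, s6.xy.symm, s6.xp.symm, s6.xq.symm, s6.xr.symm, s6.xt.symm, s6.yp.symm, s6.yq.symm, s6.yr.symm, s6.yt.symm, s6.pq.symm, s6.pr.symm, s6.pt.symm, s6.qr.symm, s6.qt.symm, s6.rt.symm]
  · simp [Sym2.eq_iff, s6.xy, s6.xp, s6.xq, s6.xr, s6.xt, s6.yp, s6.yq, s6.yr, s6.yt, s6.pq, s6.pr, s6.pt, s6.qr, s6.qt, s6.rt, s6.xy.symm, s6.xp.symm, s6.xq.symm, s6.xr.symm, s6.xt.symm, s6.yp.symm, s6.yq.symm, s6.yr.symm, s6.yt.symm, s6.pq.symm, s6.pr.symm, s6.pt.symm, s6.qr.symm, s6.qt.symm, s6.rt.symm]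
  · simp [Sym2.eq_iff, s6.xy, s6.xp, s6.xq, s6.xr, s6.xt, s6.yp, s6.yq, s6.yr, s6.yt, s6.pq, s6.pr, s6.pt, s6.qr, s6.qt, s6.rt, s6.xy.symm, s6.xp.symm, s6.xq.symm, s6.xr.symm, s6.xt.symm, s6.yp.symm, s6.yq.symm, s6.yr.symm, s6.yt.symm, s6.pq.symm, s6.pr.symm, s6.pt.symm, s6.qr.symm, s6.qt.symm, s6.rt.symm]
  · simp [Sym2.eq_iff, s6.xy, s6.xp, s6.xq, s6.xr, s6.xt, s6.yp, s6.yq, s6.yr, s6.yt, s6.pq, s6.pr, s6.pt, s6.qr, s6.qt, s6.rt, s6.xy.symm, s6.xp.symm, s6.xq.symm, s6.xr.symm, s6.xt.symm, s6.yp.symm, s6.yq.symm, s6.yr.symm, s6.yt.symm, s6.pq.symm, s6.pr.symm, s6.pt.symm, s6.qr.symm, s6.qt.symm, s6.rt.symm]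
  · intro e he
    simp only [List.mem_cons, List.not_mem_nil, or_false] at he
    rcases he with he | he | he | he | he <;> subst he <;>
      first | (refine ⟨0, ?_⟩; simp; done) | (refine ⟨1, ?_⟩; simp; done) | (refine ⟨2, ?_⟩; simp; done) |
        (refine ⟨3, ?_⟩; simp; done) | (refine ⟨4, ?_⟩; simp; done)

lemma CE6_c1010 (D : CE6_Dat F N x y p q r t) (h : CE6_Outer F N x y p q r t ![1, 0, 1, 0]) :
    CEConc F N (sq x y q p) (sq x y r t) := by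
  have s6 := D.six
  refine CE6_complete5 D h [s(q, p), s(y, q), s(x, y), s(t, x), s(r, t)] ?_ ?_ ?_ ?_ ![p, q, y, x, t] ?_ ?_ ?_ ?_ ?_ ?_
  · simp [Sym2.eq_iff, s6.xy, s6.xp, s6.xq, s6.xr, s6.xt, s6.yp, s6.yq, s6.yr, s6.yt, s6.pq, s6.pr, s6.pt, s6.qr, s6.qt, s6.rt, s6.xy.symm, s6.xp.symm, s6.xq.symm, s6.xr.symm, s6.xt.symm, s6.yp.symm, s6.yq.symm, s6.yr.symm, s6.yt.symm, s6.pq.symm, s6.pr.symm, s6.pt.symm, s6.qr.symm, s6.qt.symm, s6.rt.symm]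
  · simp [Sym2.eq_iff, s6.xy, s6.xp, s6.xq, s6.xr, s6.xt, s6.yp, s6.yq, s6.yr, s6.yt, s6.pq, s6.pr, s6.pt, s6.qr, s6.qt, s6.rt, s6.xy.symm, s6.xp.symm, s6.xq.symm, s6.xr.symm, s6.xt.symm, s6.yp.symm, s6.yq.symm, s6.yr.symm, s6.yt.symm, s6.pq.symm, s6.pr.symm, s6.pt.symm, s6.qr.symm, s6.qt.symm, s6.rt.symm]
  · intro e he
    simp only [List.mem_cons, List.not_mem_nil, or_false] at he
    rcases he with he | he | he | he | he <;> subst he <;> simp [sq]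
  · intro v
    simp
    ring
  · (intro i j hij; fin_cases i <;> fin_cases j <;> first | rfl | (exfalso; revert hij; simp [Sym2.eq_iff, s6.xy, s6.xp, s6.xq, s6.xr, s6.xt, s6.yp, s6.yq, s6.yr, s6.yt, s6.pq, s6.pr, s6.pt, s6.qr, s6.qt, s6.rt, s6.xy.symm, s6.xp.symm, s6.xq.symm, s6.xr.symm, s6.xt.symm, s6.yp.symm, s6.yq.symm, s6.yr.symm, s6.yt.symm, s6.pq.symm, s6.pr.symm, s6.pt.symm, s6.qr.symm, s6.qt.symm, s6.rt.symm]))
  · simp [Sym2.eq_iff, s6.xy, s6.xp, s6.xq, s6.xr, s6.xt, s6.yp, s6.yq, s6.yr, s6.yt, s6.pq, s6.pr, s6.pt, s6.qr, s6.qt, s6.rt, s6.xy.symm, s6.xp.symm, s6.xq.symm, s6.xr.symm, s6.xt.symm, s6.yp.symm, s6.yq.symm, s6.yr.symm, s6.yt.symm, s6.pq.symm, s6.pr.symm, s6.pt.symm, s6.qr.symm, s6.qt.symm, s6.rt.symm]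
  · simp [Sym2.eq_iff, s6.xy, s6.xp, s6.xq, s6.xr, s6.xt, s6.yp, s6.yq, s6.yr, s6.yt, s6.pq, s6.pr, s6.pt, s6.qr, s6.qt, s6.rt, s6.xy.symm, s6.xp.symm, s6.xq.symm, s6.xr.symm, s6.xt.symm, s6.yp.symm, s6.yq.symm, s6.yr.symm, s6.yt.symm, s6.pq.symm, s6.pr.symm, s6.pt.symm, s6.qr.symm, s6.qt.symm, s6.rt.symm]
  · simp [Sym2.eq_iff, s6.xy, s6.xp, s6.xq, s6.xr, s6.xt, s6.yp, s6.yq, s6.yr, s6.yt, s6.pq, s6.pr, s6.pt, s6.qr, s6.qt, s6.rt, s6.xy.symm, s6.xp.symm, s6.xq.symm, s6.xr.symm, s6.xt.symm, s6.yp.symm, s6.yq.symm, s6.yr.symm, s6.yt.symm, s6.pq.symm, s6.pr.symm, s6.pt.symm, s6.qr.symm, s6.qt.symm, s6.rt.symm]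
  · simp [Sym2.eq_iff, s6.xy, s6.xp, s6.xq, s6.xr, s6.xt, s6.yp, s6.yq, s6.yr, s6.yt, s6.pq, s6.pr, s6.pt, s6.qr, s6.qt, s6.rt, s6.xy.symm, s6.xp.symm, s6.xq.symm, s6.xr.symm, s6.xt.symm, s6.yp.symm, s6.yq.symm, s6.yr.symm, s6.yt.symm, s6.pq.symm, s6.pr.symm, s6.pt.symm, s6.qr.symm, s6.qt.symm, s6.rt.symm]
  · intro e he
    simp only [List.mem_cons, List.not_mem_nil, or_false] at he
    rcases he with he | he | he | he | he <;> subst he <;>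
      first | (refine ⟨0, ?_⟩; simp; done) | (refine ⟨1, ?_⟩; simp; done) | (refine ⟨2, ?_⟩; simp; done) |
        (refine ⟨3, ?_⟩; simp; done) | (refine ⟨4, ?_⟩; simp; done)

lemma CE6_c1122 (D : CE6_Dat F N x y p q r t) (h : CE6_Outer F N x y p q r t ![1, 1, 2, 2]) :
    CEConc F N (sq x y q p) (sq x y r t) := by
  have s6 := D.six
  refine CE6_complete D h [s(p, x), s(x, y), s(y, q)] ?_ ?_ ?_ ?_ ?_
  · simp [Sym2.eq_iff, s6.xy, s6.xp, s6.xq, s6.xr, s6.xt, s6.yp, s6.yq, s6.yr, s6.yt, s6.pq, s6.pr, s6.pt, s6.qr, s6.qt, s6.rt, s6.xy.symm, s6.xp.symm, s6.xq.symm, s6.xr.symm, s6.xt.symm, s6.yp.symm, s6.yq.symm, s6.yr.symm, s6.yt.symm, s6.pq.symm, s6.pr.symm, s6.pt.symm, s6.qr.symm, s6.qt.symm, s6.rt.symm]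
  · simp [Sym2.eq_iff, s6.xy, s6.xp, s6.xq, s6.xr, s6.xt, s6.yp, s6.yq, s6.yr, s6.yt, s6.pq, s6.pr, s6.pt, s6.qr, s6.qt, s6.rt, s6.xy.symm, s6.xp.symm, s6.xq.symm, s6.xr.symm, s6.xt.symm, s6.yp.symm, s6.yq.symm, s6.yr.symm, s6.yt.symm, s6.pq.symm, s6.pr.symm, s6.pt.symm, s6.qr.symm, s6.qt.symm, s6.rt.symm]
  · intro e he
    simp only [List.mem_cons, List.not_mem_nil, or_false] at he
    rcases he with he | he | he <;> subst he <;> simp [sq]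
  · intro v
    simp
    ring
  · intro O hO hM _
    refine fin4 hM (v := ![p, x, y, q]) ?_ ?_ ?_ ?_ ?_ ?_
    · (intro i j hij; fin_cases i <;> fin_cases j <;> first | rfl | (exfalso; revert hij; simp [Sym2.eq_iff, s6.xy, s6.xp, s6.xq, s6.xr, s6.xt, s6.yp, s6.yq, s6.yr, s6.yt, s6.pq, s6.pr, s6.pt, s6.qr, s6.qt, s6.rt, s6.xy.symm, s6.xp.symm, s6.xq.symm, s6.xr.symm, s6.xt.symm, s6.yp.symm, s6.yq.symm, s6.yr.symm, s6.yt.symm, s6.pq.symm, s6.pr.symm, s6.pt.symm, s6.qr.symm, s6.qt.symm, s6.rt.symm]))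
    · simp [Sym2.eq_iff, s6.xy, s6.xp, s6.xq, s6.xr, s6.xt, s6.yp, s6.yq, s6.yr, s6.yt, s6.pq, s6.pr, s6.pt, s6.qr, s6.qt, s6.rt, s6.xy.symm, s6.xp.symm, s6.xq.symm, s6.xr.symm, s6.xt.symm, s6.yp.symm, s6.yq.symm, s6.yr.symm, s6.yt.symm, s6.pq.symm, s6.pr.symm, s6.pt.symm, s6.qr.symm, s6.qt.symm, s6.rt.symm]
    · simp [Sym2.eq_iff, s6.xy, s6.xp, s6.xq, s6.xr, s6.xt, s6.yp, s6.yq, s6.yr, s6.yt, s6.pq, s6.pr, s6.pt, s6.qr, s6.qt, s6.rt, s6.xy.symm, s6.xp.symm, s6.xq.symm, s6.xr.symm, s6.xt.symm, s6.yp.symm, s6.yq.symm, s6.yr.symm, s6.yt.symm, s6.pq.symm, s6.pr.symm, s6.pt.symm, s6.qr.symm, s6.qt.symm, s6.rt.symm]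
    · simp [Sym2.eq_iff, s6.xy, s6.xp, s6.xq, s6.xr, s6.xt, s6.yp, s6.yq, s6.yr, s6.yt, s6.pq, s6.pr, s6.pt, s6.qr, s6.qt, s6.rt, s6.xy.symm, s6.xp.symm, s6.xq.symm, s6.xr.symm, s6.xt.symm, s6.yp.symm, s6.yq.symm, s6.yr.symm, s6.yt.symm, s6.pq.symm, s6.pr.symm, s6.pt.symm, s6.qr.symm, s6.qt.symm, s6.rt.symm]
    · intro h1
      rcases mem_union.mp h1 with h1 | h1
      · refine (mem_sdiff.mp (hO h1)).2 ?_
        simp [sq]
      · revert h1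
        simp [Sym2.eq_iff, s6.xy, s6.xp, s6.xq, s6.xr, s6.xt, s6.yp, s6.yq, s6.yr, s6.yt, s6.pq, s6.pr, s6.pt, s6.qr, s6.qt, s6.rt, s6.xy.symm, s6.xp.symm, s6.xq.symm, s6.xr.symm, s6.xt.symm, s6.yp.symm, s6.yq.symm, s6.yr.symm, s6.yt.symm, s6.pq.symm, s6.pr.symm, s6.pt.symm, s6.qr.symm, s6.qt.symm, s6.rt.symm]
    · intro e he
      rw [List.mem_toFinset] at he
      simp only [List.mem_cons, List.not_mem_nil, or_false] at he
      rcases he with he | he | he <;> subst he <;>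
        first | (refine ⟨0, ?_⟩; simp; done) | (refine ⟨1, ?_⟩; simp; done) | (refine ⟨2, ?_⟩; simp; done) |
          (refine ⟨3, ?_⟩; simp; done)

/-- completion for a given outer part -/
lemma CE6_completeO (D : CE6_Dat F N x y p q r t) {k : Fin 4 → ℤ} {O : Finset (Sym2 V)}
    (hO : O ⊆ (F ∪ N) \ (sq x y q p ∪ sq x y r t)) (hOg : Good (alFN F N) O)
    (hdv : ∀ v, dv O v = 2 - 2 * ev x v - 2 * ev y v + (k 0 - 2) * ev p v + (k 1 - 2) * ev q v +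
      (k 2 - 2) * ev r v + (k 3 - 2) * ev t v)
    (l : List (Sym2 V)) (hn : l.Nodup) (hl : ∀ e ∈ l, ¬ e.IsDiag)
    (hlH : ∀ e ∈ l, e ∈ sq x y q p ∪ sq x y r t)
    (hsum : ∀ v, (l.map esum).sum v = 2 * ev x v + 2 * ev y v + (2 - k 0) * ev p v +
      (2 - k 1) * ev q v + (2 - k 2) * ev r v + (2 - k 3) * ev t v)
    (hno : TF (O ∪ l.toFinset) → ∀ Z, IsSh Z → Z ⊆ O ∪ l.toFinset → ∀ e ∈ Z, e ∉ l.toFinset) :
    CEConc F N (sq x y q p) (sq x y r t) := by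
  have hnl : NoLoop (F ∪ N) := by
    intro e he
    rcases mem_union.mp he with h | h
    · exact D.hF.nl e h
    · exact D.hN.nl e h
  have s6 := D.six
  refine finish (O := O) (P := l.toFinset) (H := sq x y q p ∪ sq x y r t) hO ?_ ?_ hnl hOg ?_
    subset_union_left subset_union_right ?_ ?_ hno
  · intro e he
    exact hlH e (List.mem_toFinset.mp he)
  · exact union_subset (D.hQF.trans subset_union_left) (D.hRN.trans subset_union_right)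
  · funext v
    rw [Pi.add_apply, dv_list hn hl, hsum v, hdv v]
    simp only [two]
    ring
  · exact Or.inr ⟨x, y, q, p, ⟨s6.xy, s6.xq, s6.xp, s6.yq, s6.yp, s6.pq.symm⟩, rfl⟩
  · exact Or.inr ⟨x, y, r, t, ⟨s6.xy, s6.xr, s6.xt, s6.yr, s6.yt, s6.rt⟩, rfl⟩

lemma CE6_c1111 (D : CE6_Dat F N x y p q r t) (h : CE6_Outer F N x y p q r t ![1, 1, 1, 1]) :
    CEConc F N (sq x y q p) (sq x y r t) := by
  have s6 := D.six
  obtain ⟨O, hO, hOg, hdv⟩ := h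
  have hOH : ∀ e ∈ O, e ∉ sq x y q p ∪ sq x y r t := fun e he => (mem_sdiff.mp (hO he)).2
  obtain ⟨q1, q2, q3, q4⟩ : s(x, y) ∈ F ∧ s(y, q) ∈ F ∧ s(q, p) ∈ F ∧ s(p, x) ∈ F := by
    refine ⟨D.hQF ?_, D.hQF ?_, D.hQF ?_, D.hQF ?_⟩ <;> simp [sq]
  obtain ⟨r1, r2, r3, r4⟩ : s(x, y) ∈ N ∧ s(y, r) ∈ N ∧ s(r, t) ∈ N ∧ s(t, x) ∈ N := by
    refine ⟨D.hRN ?_, D.hRN ?_, D.hRN ?_, D.hRN ?_⟩ <;> simp [sq]
  -- the edges between `p, q` and `r, t` are not in `O`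
  have npt : s(p, t) ∉ O := by
    intro h
    rcases mem_union.mp (mem_sdiff.mp (hO h)).1 with h1 | h1
    · rcases nbr_two ((TF.m2 D.hF).le p) q4 (msw q3) s6.xq h1 with h2 | h2
      · exact s6.xt h2.symm
      · exact s6.qt h2.symm
    · rcases nbr_two ((TF.m2 D.hN).le t) r4 (msw r3) s6.xr (msw h1) with h2 | h2
      · exact s6.xp h2.symm
      · exact s6.pr h2
  have nqr : s(q, r) ∉ O := by
    intro h
    rcases mem_union.mp (mem_sdiff.mp (hO h)).1 with h1 | h1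
    · rcases nbr_two ((TF.m2 D.hF).le q) (msw q2) q3 s6.yp h1 with h2 | h2
      · exact s6.yr h2.symm
      · exact s6.pr h2.symm
    · rcases nbr_two ((TF.m2 D.hN).le r) (msw r2) r3 s6.yt (msw h1) with h2 | h2
      · exact s6.yq h2.symm
      · exact s6.qt h2
  -- no edge of the outer part at `x` or `y`
  have hx : ∀ m, s(x, m) ∉ O := by
    intro m hm
    have h1 := hdv x
    have h2 : 0 < dg O x := by
      rw [dg, card_pos]
      exact ⟨_, mem_filter.mpr ⟨hm, by simp⟩⟩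
    simp [dv_apply, ev_apply, s6.xy, s6.xp, s6.xq, s6.xr, s6.xt, s6.xy.symm, s6.xp.symm, s6.xq.symm,
      s6.xr.symm, s6.xt.symm] at h1
    omega
  have hy : ∀ m, s(y, m) ∉ O := by
    intro m hm
    have h1 := hdv y
    have h2 : 0 < dg O y := by
      rw [dg, card_pos]
      exact ⟨_, mem_filter.mpr ⟨hm, by simp⟩⟩
    simp [dv_apply, ev_apply, s6.xy, s6.yp, s6.yq, s6.yr, s6.yt, s6.xy.symm, s6.yp.symm, s6.yq.symm,
      s6.yr.symm, s6.yt.symm] at h1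
    omega
  -- the second completion
  have second : ∀ m, (s(p, m) ∈ O ∧ s(t, m) ∈ O) ∨ (s(q, m) ∈ O ∧ s(r, m) ∈ O) →
      CEConc F N (sq x y q p) (sq x y r t) := by
    intro m hm
    refine CE6_completeO (k := ![1, 1, 1, 1]) D hO hOg hdv [s(t, x), s(x, y), s(y, r), s(q, p)] ?_ ?_ ?_ ?_ ?_
    · simp [Sym2.eq_iff, s6.xy, s6.xp, s6.xq, s6.xr, s6.xt, s6.yp, s6.yq, s6.yr, s6.yt, s6.pq, s6.pr, s6.pt, s6.qr, s6.qt, s6.rt, s6.xy.symm, s6.xp.symm, s6.xq.symm, s6.xr.symm, s6.xt.symm, s6.yp.symm, s6.yq.symm, s6.yr.symm, s6.yt.symm, s6.pq.symm, s6.pr.symm, s6.pt.symm, s6.qr.symm, s6.qt.symm, s6.rt.symm]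
    · simp [Sym2.eq_iff, s6.xy, s6.xp, s6.xq, s6.xr, s6.xt, s6.yp, s6.yq, s6.yr, s6.yt, s6.pq, s6.pr, s6.pt, s6.qr, s6.qt, s6.rt, s6.xy.symm, s6.xp.symm, s6.xq.symm, s6.xr.symm, s6.xt.symm, s6.yp.symm, s6.yq.symm, s6.yr.symm, s6.yt.symm, s6.pq.symm, s6.pr.symm, s6.pt.symm, s6.qr.symm, s6.qt.symm, s6.rt.symm]
    · intro e he
      simp only [List.mem_cons, List.not_mem_nil, or_false] at he
      rcases he with he | he | he | he <;> subst he <;> simp [sq]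
    · intro v
      simp
      ring
    · intro hTF Z hZ hZM e heZ hab
      rw [List.mem_toFinset] at hab
      have hM := (TF.m2 hTF)
      have f4 := fin4 hM (v := ![t, x, y, r]) (P := {s(t, x), s(x, y), s(y, r)}) (by (intro i j hij; fin_cases i <;> fin_cases j <;> first | rfl | (exfalso; revert hij; simp [Sym2.eq_iff, s6.xy, s6.xp, s6.xq, s6.xr, s6.xt, s6.yp, s6.yq, s6.yr, s6.yt, s6.pq, s6.pr, s6.pt, s6.qr, s6.qt, s6.rt, s6.xy.symm, s6.xp.symm, s6.xq.symm, s6.xr.symm, s6.xt.symm, s6.yp.symm, s6.yq.symm, s6.yr.symm, s6.yt.symm, s6.pq.symm, s6.pr.symm, s6.pt.symm, s6.qr.symm, s6.qt.symm, s6.rt.symm])))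
        (by simp [Sym2.eq_iff, s6.xy, s6.xp, s6.xq, s6.xr, s6.xt, s6.yp, s6.yq, s6.yr, s6.yt, s6.pq, s6.pr, s6.pt, s6.qr, s6.qt, s6.rt, s6.xy.symm, s6.xp.symm, s6.xq.symm, s6.xr.symm, s6.xt.symm, s6.yp.symm, s6.yq.symm, s6.yr.symm, s6.yt.symm, s6.pq.symm, s6.pr.symm, s6.pt.symm, s6.qr.symm, s6.qt.symm, s6.rt.symm]) (by simp [Sym2.eq_iff, s6.xy, s6.xp, s6.xq, s6.xr, s6.xt, s6.yp, s6.yq, s6.yr, s6.yt, s6.pq, s6.pr, s6.pt, s6.qr, s6.qt, s6.rt, s6.xy.symm, s6.xp.symm, s6.xq.symm, s6.xr.symm, s6.xt.symm, s6.yp.symm, s6.yq.symm, s6.yr.symm, s6.yt.symm, s6.pq.symm, s6.pr.symm, s6.pt.symm, s6.qr.symm, s6.qt.symm, s6.rt.symm]) (by simp [Sym2.eq_iff, s6.xy, s6.xp, s6.xq, s6.xr, s6.xt, s6.yp, s6.yq, s6.yr, s6.yt, s6.pq, s6.pr, s6.pt, s6.qr, s6.qt, s6.rt, s6.xy.symm, s6.xp.symm, s6.xq.symm, s6.xr.symm, s6.xt.symm, s6.yp.symm, s6.yq.symm, s6.yr.symm, s6.yt.symm, s6.pq.symm,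 s6.pr.symm, s6.pt.symm, s6.qr.symm, s6.qt.symm, s6.rt.symm]) (by
          intro h1
          rcases mem_union.mp h1 with h1 | h1
          · refine (mem_sdiff.mp (hO h1)).2 ?_
            simp [sq]
          · revert h1
            simp [Sym2.eq_iff, s6.xy, s6.xp, s6.xq, s6.xr, s6.xt, s6.yp, s6.yq, s6.yr, s6.yt, s6.pq, s6.pr, s6.pt, s6.qr, s6.qt, s6.rt, s6.xy.symm, s6.xp.symm, s6.xq.symm, s6.xr.symm, s6.xt.symm, s6.yp.symm, s6.yq.symm, s6.yr.symm, s6.yt.symm, s6.pq.symm, s6.pr.symm, s6.pt.symm, s6.qr.symm, s6.qt.symm, s6.rt.symm]) (by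
          intro e he
          simp only [mem_insert, mem_singleton] at he
          rcases he with he | he | he <;> subst he <;>
            first | (refine ⟨0, ?_⟩; simp; done) | (refine ⟨1, ?_⟩; simp; done) | (refine ⟨2, ?_⟩; simp; done)) Z hZ hZM e heZ
      have hab2 : e = s(q, p) := by
        simp only [List.mem_cons, List.not_mem_nil, or_false] at hab
        simp only [mem_insert, mem_singleton, not_or] at f4
        tauto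
      rcases hm with ⟨h1, h2⟩ | ⟨h1, h2⟩
      · have mx : m ≠ x := by rintro rfl; exact hx p (msw h1)
        have mp : m ≠ p := by rintro rfl; exact (hM.nl.mono subset_union_left).ne h1 rfl
        have mt : m ≠ t := by rintro rfl; exact (hM.nl.mono subset_union_left).ne h2 rfl
        have mq : m ≠ q := by rintro rfl; exact hOH _ h1 (by simp [sq])
        refine fin5 hM (v := ![q, p, m, t, x]) (P := {s(q, p)}) ?_ ?_ ?_ ?_ ?_ ?_ Z hZ hZM e heZ ?_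
        · intro i j hij
          fin_cases i <;> fin_cases j <;> first | rfl | (exfalso; revert hij; simp [mx, mp, mt, mq, mx.symm, mp.symm, mt.symm, mq.symm, s6.xy, s6.xp, s6.xq, s6.xr, s6.xt, s6.yp, s6.yq, s6.yr, s6.yt, s6.pq, s6.pr, s6.pt, s6.qr, s6.qt, s6.rt, s6.xy.symm, s6.xp.symm, s6.xq.symm, s6.xr.symm, s6.xt.symm, s6.yp.symm, s6.yq.symm, s6.yr.symm, s6.yt.symm, s6.pq.symm, s6.pr.symm, s6.pt.symm, s6.qr.symm, s6.qt.symm, s6.rt.symm])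
        · simp [Sym2.eq_iff, s6.xy, s6.xp, s6.xq, s6.xr, s6.xt, s6.yp, s6.yq, s6.yr, s6.yt, s6.pq, s6.pr, s6.pt, s6.qr, s6.qt, s6.rt, s6.xy.symm, s6.xp.symm, s6.xq.symm, s6.xr.symm, s6.xt.symm, s6.yp.symm, s6.yq.symm, s6.yr.symm, s6.yt.symm, s6.pq.symm, s6.pr.symm, s6.pt.symm, s6.qr.symm, s6.qt.symm, s6.rt.symm]
        · exact mem_union_left _ h1
        · exact mem_union_left _ (msw h2)
        · simp [Sym2.eq_iff, s6.xy, s6.xp, s6.xq, s6.xr, s6.xt, s6.yp, s6.yq, s6.yr, s6.yt, s6.pq, s6.pr, s6.pt, s6.qr, s6.qt, s6.rt, s6.xy.symm, s6.xp.symm, s6.xq.symm, s6.xr.symm, s6.xt.symm, s6.yp.symm, s6.yq.symm, s6.yr.symm, s6.yt.symm, s6.pq.symm, s6.pr.symm, s6.pt.symm, s6.qr.symm, s6.qt.symm, s6.rt.symm]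
        · intro e he
          rw [mem_singleton] at he
          subst he
          exact ⟨0, by simp⟩
        · rw [hab2]; simp
      · have my : m ≠ y := by rintro rfl; exact hy q (msw h1)
        have mq : m ≠ q := by rintro rfl; exact (hM.nl.mono subset_union_left).ne h1 rfl
        have mr : m ≠ r := by rintro rfl; exact (hM.nl.mono subset_union_left).ne h2 rfl
        have mp : m ≠ p := by rintro rfl; exact hOH _ h1 (by simp [sq])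
        refine fin5 hM (v := ![p, q, m, r, y]) (P := {s(q, p)}) ?_ ?_ ?_ ?_ ?_ ?_ Z hZ hZM e heZ ?_
        · intro i j hij
          fin_cases i <;> fin_cases j <;> first | rfl | (exfalso; revert hij; simp [my, mp, mr, mq, my.symm, mp.symm, mr.symm, mq.symm, s6.xy, s6.xp, s6.xq, s6.xr, s6.xt, s6.yp, s6.yq, s6.yr, s6.yt, s6.pq, s6.pr, s6.pt, s6.qr, s6.qt, s6.rt, s6.xy.symm, s6.xp.symm, s6.xq.symm, s6.xr.symm, s6.xt.symm, s6.yp.symm, s6.yq.symm, s6.yr.symm, s6.yt.symm, s6.pq.symm, s6.pr.symm, s6.pt.symm, s6.qr.symm, s6.qt.symm, s6.rt.symm])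
        · simp [Sym2.eq_iff, s6.xy, s6.xp, s6.xq, s6.xr, s6.xt, s6.yp, s6.yq, s6.yr, s6.yt, s6.pq, s6.pr, s6.pt, s6.qr, s6.qt, s6.rt, s6.xy.symm, s6.xp.symm, s6.xq.symm, s6.xr.symm, s6.xt.symm, s6.yp.symm, s6.yq.symm, s6.yr.symm, s6.yt.symm, s6.pq.symm, s6.pr.symm, s6.pt.symm, s6.qr.symm, s6.qt.symm, s6.rt.symm]
        · exact mem_union_left _ h1
        · exact mem_union_left _ (msw h2)
        · simp [Sym2.eq_iff, s6.xy, s6.xp, s6.xq, s6.xr, s6.xt, s6.yp, s6.yq, s6.yr, s6.yt, s6.pq, s6.pr, s6.pt, s6.qr, s6.qt, s6.rt, s6.xy.symm, s6.xp.symm, s6.xq.symm, s6.xr.symm, s6.xt.symm, s6.yp.symm, s6.yq.symm, s6.yr.symm, s6.yt.symm, s6.pq.symm, s6.pr.symm, s6.pt.symm, s6.qr.symm, s6.qt.symm, s6.rt.symm]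
        · intro e he
          rw [mem_singleton] at he
          subst he
          exact ⟨0, by simp⟩
        · rw [hab2]; simp
  by_cases hsec : ∃ m, (s(p, m) ∈ O ∧ s(t, m) ∈ O) ∨ (s(q, m) ∈ O ∧ s(r, m) ∈ O)
  · obtain ⟨m, hm⟩ := hsec
    exact second m hm
  · refine CE6_completeO (k := ![1, 1, 1, 1]) D hO hOg hdv [s(t, x), s(p, x), s(y, r), s(y, q)] ?_ ?_ ?_ ?_ ?_
    · simp [Sym2.eq_iff, s6.xy, s6.xp, s6.xq, s6.xr, s6.xt, s6.yp, s6.yq, s6.yr, s6.yt, s6.pq, s6.pr, s6.pt, s6.qr, s6.qt, s6.rt, s6.xy.symm, s6.xp.symm, s6.xq.symm, s6.xr.symm, s6.xt.symm, s6.yp.symm, s6.yq.symm, s6.yr.symm, s6.yt.symm, s6.pq.symm, s6.pr.symm, s6.pt.symm, s6.qr.symm, s6.qt.symm, s6.rt.symm]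
    · simp [Sym2.eq_iff, s6.xy, s6.xp, s6.xq, s6.xr, s6.xt, s6.yp, s6.yq, s6.yr, s6.yt, s6.pq, s6.pr, s6.pt, s6.qr, s6.qt, s6.rt, s6.xy.symm, s6.xp.symm, s6.xq.symm, s6.xr.symm, s6.xt.symm, s6.yp.symm, s6.yq.symm, s6.yr.symm, s6.yt.symm, s6.pq.symm, s6.pr.symm, s6.pt.symm, s6.qr.symm, s6.qt.symm, s6.rt.symm]
    · intro e he
      simp only [List.mem_cons, List.not_mem_nil, or_false] at he
      rcases he with he | he | he | he <;> subst he <;> simp [sq]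
    · intro v
      simp
      ring
    · intro hTF Z hZ hZM e heZ hab
      rw [List.mem_toFinset] at hab
      have hM := (TF.m2 hTF)
      -- no short cycle contains `x`
      have nx : x ∉ vs Z := by
        intro hxm
        rcases CE6_opp hM hZ hZM (u := x) (v := p) (w := t) hxm (by simp [Sym2.eq_iff, s6.xy, s6.xp, s6.xq, s6.xr, s6.xt, s6.yp, s6.yq, s6.yr, s6.yt, s6.pq, s6.pr, s6.pt, s6.qr, s6.qt, s6.rt, s6.xy.symm, s6.xp.symm, s6.xq.symm, s6.xr.symm, s6.xt.symm, s6.yp.symm, s6.yq.symm, s6.yr.symm, s6.yt.symm, s6.pq.symm, s6.pr.symm, s6.pt.symm, s6.qr.symm, s6.qt.symm, s6.rt.symm]) (by simp [Sym2.eq_iff, s6.xy, s6.xp, s6.xq, s6.xr, s6.xt, s6.yp, s6.yq, s6.yr, s6.yt, s6.pq, s6.pr, s6.pt, s6.qr, s6.qt, s6.rt, s6.xy.symm, s6.xp.symm, s6.xq.symm, s6.xr.symm, s6.xt.symm, s6.yp.symm, s6.yq.symm, s6.yr.symm, s6.yt.symm, s6.pq.symm, s6.pr.symm, s6.pt.symm, s6.qr.symm,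 s6.qt.symm, s6.rt.symm]) s6.pt with h1 | ⟨m, hmx, h1, h2⟩
        · rcases mem_union.mp (hZM h1) with h3 | h3
          · exact npt h3
          · revert h3
            simp [Sym2.eq_iff, s6.xy, s6.xp, s6.xq, s6.xr, s6.xt, s6.yp, s6.yq, s6.yr, s6.yt, s6.pq, s6.pr, s6.pt, s6.qr, s6.qt, s6.rt, s6.xy.symm, s6.xp.symm, s6.xq.symm, s6.xr.symm, s6.xt.symm, s6.yp.symm, s6.yq.symm, s6.yr.symm, s6.yt.symm, s6.pq.symm, s6.pr.symm, s6.pt.symm, s6.qr.symm, s6.qt.symm, s6.rt.symm]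
        · refine hsec ⟨m, Or.inl ⟨?_, ?_⟩⟩
          · refine (mem_union.mp (hZM h1)).resolve_right fun h3 => ?_
            revert h3
            simp [Sym2.eq_iff, s6.xy, s6.xp, s6.xq, s6.xr, s6.xt, s6.yp, s6.yq, s6.yr, s6.yt, s6.pq, s6.pr, s6.pt, s6.qr, s6.qt, s6.rt, s6.xy.symm, s6.xp.symm, s6.xq.symm, s6.xr.symm, s6.xt.symm, s6.yp.symm, s6.yq.symm, s6.yr.symm, s6.yt.symm, s6.pq.symm, s6.pr.symm, s6.pt.symm, s6.qr.symm, s6.qt.symm, s6.rt.symm]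
            exact hmx
          · refine (mem_union.mp (hZM h2)).resolve_right fun h3 => ?_
            revert h3
            simp [Sym2.eq_iff, s6.xy, s6.xp, s6.xq, s6.xr, s6.xt, s6.yp, s6.yq, s6.yr, s6.yt, s6.pq, s6.pr, s6.pt, s6.qr, s6.qt, s6.rt, s6.xy.symm, s6.xp.symm, s6.xq.symm, s6.xr.symm, s6.xt.symm, s6.yp.symm, s6.yq.symm, s6.yr.symm, s6.yt.symm, s6.pq.symm, s6.pr.symm, s6.pt.symm, s6.qr.symm, s6.qt.symm, s6.rt.symm]
            exact hmx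
      have ny : y ∉ vs Z := by
        intro hym
        rcases CE6_opp hM hZ hZM (u := y) (v := q) (w := r) hym (by simp [Sym2.eq_iff, s6.xy, s6.xp, s6.xq, s6.xr, s6.xt, s6.yp, s6.yq, s6.yr, s6.yt, s6.pq, s6.pr, s6.pt, s6.qr, s6.qt, s6.rt, s6.xy.symm, s6.xp.symm, s6.xq.symm, s6.xr.symm, s6.xt.symm, s6.yp.symm, s6.yq.symm, s6.yr.symm, s6.yt.symm, s6.pq.symm, s6.pr.symm, s6.pt.symm, s6.qr.symm, s6.qt.symm, s6.rt.symm]) (by simp [Sym2.eq_iff, s6.xy, s6.xp, s6.xq, s6.xr, s6.xt, s6.yp, s6.yq, s6.yr, s6.yt, s6.pq, s6.pr, s6.pt, s6.qr, s6.qt, s6.rt, s6.xy.symm, s6.xp.symm, s6.xq.symm, s6.xr.symm, s6.xt.symm, s6.yp.symm, s6.yq.symm, s6.yr.symm, s6.yt.symm, s6.pq.symm, s6.pr.symm, s6.pt.symm, s6.qr.symm, s6.qt.symm, s6.rt.symm]) s6.qr with h1 | ⟨m, hmy, h1, h2⟩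
        · rcases mem_union.mp (hZM h1) with h3 | h3
          · exact nqr h3
          · revert h3
            simp [Sym2.eq_iff, s6.xy, s6.xp, s6.xq, s6.xr, s6.xt, s6.yp, s6.yq, s6.yr, s6.yt, s6.pq, s6.pr, s6.pt, s6.qr, s6.qt, s6.rt, s6.xy.symm, s6.xp.symm, s6.xq.symm, s6.xr.symm, s6.xt.symm, s6.yp.symm, s6.yq.symm, s6.yr.symm, s6.yt.symm, s6.pq.symm, s6.pr.symm, s6.pt.symm, s6.qr.symm, s6.qt.symm, s6.rt.symm]
        · refine hsec ⟨m, Or.inr ⟨?_, ?_⟩⟩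
          · refine (mem_union.mp (hZM h1)).resolve_right fun h3 => ?_
            revert h3
            simp [Sym2.eq_iff, s6.xy, s6.xp, s6.xq, s6.xr, s6.xt, s6.yp, s6.yq, s6.yr, s6.yt, s6.pq, s6.pr, s6.pt, s6.qr, s6.qt, s6.rt, s6.xy.symm, s6.xp.symm, s6.xq.symm, s6.xr.symm, s6.xt.symm, s6.yp.symm, s6.yq.symm, s6.yr.symm, s6.yt.symm, s6.pq.symm, s6.pr.symm, s6.pt.symm, s6.qr.symm, s6.qt.symm, s6.rt.symm]
            exact hmy
          · refine (mem_union.mp (hZM h2)).resolve_right fun h3 => ?_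
            revert h3
            simp [Sym2.eq_iff, s6.xy, s6.xp, s6.xq, s6.xr, s6.xt, s6.yp, s6.yq, s6.yr, s6.yt, s6.pq, s6.pr, s6.pt, s6.qr, s6.qt, s6.rt, s6.xy.symm, s6.xp.symm, s6.xq.symm, s6.xr.symm, s6.xt.symm, s6.yp.symm, s6.yq.symm, s6.yr.symm, s6.yt.symm, s6.pq.symm, s6.pr.symm, s6.pt.symm, s6.qr.symm, s6.qt.symm, s6.rt.symm]
            exact hmy
      simp only [List.mem_cons, List.not_mem_nil, or_false] at hab
      rcases hab with rfl | rfl | rfl | rfl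
      · exact nx (mem_vs' heZ).2
      · exact nx (mem_vs' heZ).2
      · exact ny (mem_vs' heZ).1
      · exact ny (mem_vs' heZ).1

lemma CE6_Dat.QM (D : CE6_Dat F N x y p q r t) :
    s(x, y) ∈ F ∧ s(y, q) ∈ F ∧ s(q, p) ∈ F ∧ s(p, x) ∈ F := by
  refine ⟨D.hQF ?_, D.hQF ?_, D.hQF ?_, D.hQF ?_⟩ <;> simp [sq]

lemma CE6_Dat.RM (D : CE6_Dat F N x y p q r t) :
    s(x, y) ∈ N ∧ s(y, r) ∈ N ∧ s(r, t) ∈ N ∧ s(t, x) ∈ N := by
  refine ⟨D.hRN ?_, D.hRN ?_, D.hRN ?_, D.hRN ?_⟩ <;> simp [sq]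

lemma CE6_interF (D : CE6_Dat F N x y p q r t) {e : Sym2 V} (h1 : e ∈ F)
    (h2 : e ∈ sq x y q p ∪ sq x y r t) : e ∈ sq x y q p ∨ e = s(r, t) := by
  have s6 := D.six
  obtain ⟨q1, q2, q3, q4⟩ := D.QM
  rcases mem_union.mp h2 with h2 | h2
  · exact Or.inl h2
  · simp only [sq, mem_insert, mem_singleton] at h2
    rcases h2 with rfl | rfl | rfl | rfl
    · left; simp [sq]
    · exfalso
      rcases nbr_two ((TF.m2 D.hF).le y) (msw q1) q2 s6.xq h1 with h | h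
      · exact s6.xr h.symm
      · exact s6.qr h.symm
    · right; rfl
    · exfalso
      rcases nbr_two ((TF.m2 D.hF).le x) q1 (msw q4) s6.yp (msw h1) with h | h
      · exact s6.yt h.symm
      · exact s6.pt h.symm

lemma CE6_interN (D : CE6_Dat F N x y p q r t) {e : Sym2 V} (h1 : e ∈ N)
    (h2 : e ∈ sq x y q p ∪ sq x y r t) : e ∈ sq x y r t ∨ e = s(q, p) := by
  have s6 := D.six
  obtain ⟨q1, q2, q3, q4⟩ := D.RM
  rcases mem_union.mp h2 with h2 | h2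
  · simp only [sq, mem_insert, mem_singleton] at h2
    rcases h2 with rfl | rfl | rfl | rfl
    · left; simp [sq]
    · exfalso
      rcases nbr_two ((TF.m2 D.hN).le y) (msw q1) q2 s6.xr h1 with h | h
      · exact s6.xq h.symm
      · exact s6.qr h
    · right; rfl
    · exfalso
      rcases nbr_two ((TF.m2 D.hN).le x) q1 (msw q4) s6.yt (msw h1) with h | h
      · exact s6.yp h.symm
      · exact s6.pt h
  · exact Or.inl h2

lemma CE6_outerF1 (D : CE6_Dat F N x y p q r t) (h : s(r, t) ∈ F) : CE6_Outer F N x y p q r t ![0, 0, 1, 1] := by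
  have s6 := D.six
  have hd : Dist4 x y q p := ⟨s6.xy, s6.xq, s6.xp, s6.yq, s6.yp, s6.pq.symm⟩
  have hrt : s(r, t) ∉ sq x y q p := by
    simp [sq, Sym2.eq_iff, s6.xr.symm, s6.xt.symm, s6.yr.symm, s6.yt.symm, s6.pr.symm, s6.pt.symm,
      s6.qr.symm, s6.qt.symm]
  refine ⟨F \ (sq x y q p ∪ sq x y r t), sdiff_subset_sdiff subset_union_left le_rfl,
    good_of_subset (Or.inl sdiff_subset), fun v => ?_⟩
  have e : F \ (sq x y q p ∪ sq x y r t) = F \ insert s(r, t) (sq x y q p) := by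
    ext e
    simp only [mem_sdiff]
    constructor
    · rintro ⟨h1, h2⟩
      refine ⟨h1, fun h3 => h2 ?_⟩
      rcases mem_insert.mp h3 with rfl | h3
      · exact mem_union_right _ (by simp [sq])
      · exact mem_union_left _ h3
    · rintro ⟨h1, h2⟩
      refine ⟨h1, fun h3 => h2 ?_⟩
      rcases CE6_interF D h1 h3 with h3 | h3
      · exact mem_insert_of_mem h3
      · rw [h3]; exact mem_insert_self _ _
  rw [e, dv_sdiff D.hF.nl (insert_subset h D.hQF), Pi.sub_apply, dv_insert s6.rt hrt, Pi.add_apply,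
    Pi.add_apply, dv_sq hd]
  simp only [dv_apply, D.hF.eq]
  simp
  ring

lemma CE6_outerF2 (D : CE6_Dat F N x y p q r t) (h : s(r, t) ∉ F) : CE6_Outer F N x y p q r t ![0, 0, 2, 2] := by
  have s6 := D.six
  have hd : Dist4 x y q p := ⟨s6.xy, s6.xq, s6.xp, s6.yq, s6.yp, s6.pq.symm⟩
  refine ⟨F \ (sq x y q p ∪ sq x y r t), sdiff_subset_sdiff subset_union_left le_rfl,
    good_of_subset (Or.inl sdiff_subset), fun v => ?_⟩
  have e : F \ (sq x y q p ∪ sq x y r t) = F \ sq x y q p := by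
    ext e
    simp only [mem_sdiff]
    constructor
    · rintro ⟨h1, h2⟩
      exact ⟨h1, fun h3 => h2 (mem_union_left _ h3)⟩
    · rintro ⟨h1, h2⟩
      refine ⟨h1, fun h3 => h2 ?_⟩
      rcases CE6_interF D h1 h3 with h3 | h3
      · exact h3
      · rw [h3] at h1; exact absurd h1 h
  rw [e, dv_sdiff D.hF.nl D.hQF, Pi.sub_apply, dv_sq hd]
  simp only [dv_apply, D.hF.eq]
  simp
  ring

lemma CE6_outerN1 (D : CE6_Dat F N x y p q r t) (h : s(q, p) ∈ N) : CE6_Outer F N x y p q r t ![1, 1, 0, 0] := by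
  have s6 := D.six
  have hd : Dist4 x y r t := ⟨s6.xy, s6.xr, s6.xt, s6.yr, s6.yt, s6.rt⟩
  have hrt : s(q, p) ∉ sq x y r t := by
    simp [sq, Sym2.eq_iff, s6.xq.symm, s6.xp.symm, s6.yq.symm, s6.yp.symm, s6.pr, s6.pt,
      s6.qr, s6.qt]
  refine ⟨N \ (sq x y q p ∪ sq x y r t), sdiff_subset_sdiff subset_union_right le_rfl,
    good_of_subset (Or.inr sdiff_subset), fun v => ?_⟩
  have e : N \ (sq x y q p ∪ sq x y r t) = N \ insert s(q, p) (sq x y r t) := by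
    ext e
    simp only [mem_sdiff]
    constructor
    · rintro ⟨h1, h2⟩
      refine ⟨h1, fun h3 => h2 ?_⟩
      rcases mem_insert.mp h3 with rfl | h3
      · exact mem_union_left _ (by simp [sq])
      · exact mem_union_right _ h3
    · rintro ⟨h1, h2⟩
      refine ⟨h1, fun h3 => h2 ?_⟩
      rcases CE6_interN D h1 h3 with h3 | h3
      · exact mem_insert_of_mem h3
      · rw [h3]; exact mem_insert_self _ _
  rw [e, dv_sdiff D.hN.nl (insert_subset h D.hRN), Pi.sub_apply, dv_insert s6.pq.symm hrt, Pi.add_apply,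
    Pi.add_apply, dv_sq hd]
  simp only [dv_apply, D.hN.eq]
  simp
  ring

lemma CE6_outerN2 (D : CE6_Dat F N x y p q r t) (h : s(q, p) ∉ N) : CE6_Outer F N x y p q r t ![2, 2, 0, 0] := by
  have s6 := D.six
  have hd : Dist4 x y r t := ⟨s6.xy, s6.xr, s6.xt, s6.yr, s6.yt, s6.rt⟩
  refine ⟨N \ (sq x y q p ∪ sq x y r t), sdiff_subset_sdiff subset_union_right le_rfl,
    good_of_subset (Or.inr sdiff_subset), fun v => ?_⟩
  have e : N \ (sq x y q p ∪ sq x y r t) = N \ sq x y r t := by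
    ext e
    simp only [mem_sdiff]
    constructor
    · rintro ⟨h1, h2⟩
      exact ⟨h1, fun h3 => h2 (mem_union_right _ h3)⟩
    · rintro ⟨h1, h2⟩
      refine ⟨h1, fun h3 => h2 ?_⟩
      rcases CE6_interN D h1 h3 with h3 | h3
      · exact h3
      · rw [h3] at h1; exact absurd h1 h
  rw [e, dv_sdiff D.hN.nl D.hRN, Pi.sub_apply, dv_sq hd]
  simp only [dv_apply, D.hN.eq]
  simp
  ring

/-- the base vector -/
def CE6_bas (x y p q r t : V) : V → ℤ := fun v => 2 - 2 * ev x v - 2 * ev y v - 2 * ev p v - 2 * ev q v -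
  2 * ev r v - 2 * ev t v

lemma CE6_outer_iff (D : CE6_Dat F N x y p q r t) {k : Fin 4 → ℤ} :
    CE6_bas x y p q r t + put ![p, q, r, t] k ∈ JS ((F ∪ N) \ (sq x y q p ∪ sq x y r t)) (alFN F N) →
    CE6_Outer F N x y p q r t k := by
  rintro ⟨O, hO, -, hOg, h⟩
  refine ⟨O, hO, hOg, fun v => ?_⟩
  have := congrFun h v
  rw [← this, Pi.add_apply, put4, CE6_bas]
  simp
  ring

lemma CE6_mem_of_outer {k : Fin 4 → ℤ} (h : CE6_Outer F N x y p q r t k) (hnl : NoLoop (F ∪ N))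
    (h2 : ∀ v, 2 - 2 * ev x v - 2 * ev y v + (k 0 - 2) * ev p v + (k 1 - 2) * ev q v +
      (k 2 - 2) * ev r v + (k 3 - 2) * ev t v ≤ 2) :
    CE6_bas x y p q r t + put ![p, q, r, t] k ∈ JS ((F ∪ N) \ (sq x y q p ∪ sq x y r t)) (alFN F N) := by
  obtain ⟨O, hO, hOg, h⟩ := h
  refine ⟨O, hO, ⟨hnl.mono (hO.trans sdiff_subset), fun v => ?_⟩, hOg, ?_⟩
  · have h3 := h v
    have h4 := h2 v
    rw [← h3] at h4
    simp only [dv_apply] at h4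
    exact_mod_cast h4
  · funext v
    rw [h v, Pi.add_apply, put4, CE6_bas]
    simp
    ring

theorem CE6_main (D : CE6_Dat F N x y p q r t) : CEConc F N (sq x y q p) (sq x y r t) := by
  have s6 := D.six
  by_cases h1 : s(r, t) ∈ F
  · exact CE6_c0011 D (CE6_outerF1 D h1)
  by_cases h2 : s(q, p) ∈ N
  · exact CE6_c1100 D (CE6_outerN1 D h2)
  have hnl : NoLoop (F ∪ N) := by
    intro e he
    rcases mem_union.mp he with h | h
    · exact D.hF.nl e h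
    · exact D.hN.nl e h
  have hf : Function.Injective ![p, q, r, t] := by (intro i j hij; fin_cases i <;> fin_cases j <;> first | rfl | (exfalso; revert hij; simp [Sym2.eq_iff, s6.xy, s6.xp, s6.xq, s6.xr, s6.xt, s6.yp, s6.yq, s6.yr, s6.yt, s6.pq, s6.pr, s6.pt, s6.qr, s6.qt, s6.rt, s6.xy.symm, s6.xp.symm, s6.xq.symm, s6.xr.symm, s6.xt.symm, s6.yp.symm, s6.yq.symm, s6.yr.symm, s6.yt.symm, s6.pq.symm, s6.pr.symm, s6.pt.symm, s6.qr.symm, s6.qt.symm, s6.rt.symm]))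
  have hJ := Jump.pull hf (CE6_bas x y p q r t)
    (jump_JS (alFN F N) ((F ∪ N) \ (sq x y q p ∪ sq x y r t)))
  have e0 : ∀ a v : V, 0 ≤ ev a v := by
    intro a v; rw [ev_apply]; split_ifs <;> norm_num
  have m1 := CE6_mem_of_outer (CE6_outerF2 D h1) hnl (by
    intro v
    have := e0 x v; have := e0 y v; have := e0 p v; have := e0 q v; have := e0 r v; have := e0 t v
    simp
    linarith)
  have m2 := CE6_mem_of_outer (CE6_outerN2 D h2) hnl (by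
    intro v
    have := e0 x v; have := e0 y v; have := e0 p v; have := e0 q v; have := e0 r v; have := e0 t v
    simp
    linarith)
  rcases four_conflict hJ m2 m1 with h | h | h | h | h | h | h | h | h
  · exact CE6_c1100 D (CE6_outer_iff D h)
  · exact CE6_c1201 D (CE6_outer_iff D h)
  · exact CE6_c0000 D (CE6_outer_iff D h)
  · exact CE6_c0101 D (CE6_outer_iff D h)
  · exact CE6_c2110 D (CE6_outer_iff D h)
  · exact CE6_c1122 D (CE6_outer_iff D h)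
  · exact CE6_c1021 D (CE6_outer_iff D h)
  · exact CE6_c1111 D (CE6_outer_iff D h)
  · exact CE6_c1010 D (CE6_outer_iff D h)

end six

/-- **conflict elimination, two squares, six vertices** -/
theorem ce6 {F N : Finset (Sym2 V)} (hF : TF F) (hN : TF N) {x y p q r t : V} (h1 : Dist4 x y q p)
    (h2 : Dist4 x y r t) (hpr : p ≠ r) (hpt : p ≠ t) (hqr : q ≠ r) (hqt : q ≠ t) (hQF : sq x y q p ⊆ F)
    (hRN : sq x y r t ⊆ N) : CEConc F N (sq x y q p) (sq x y r t) := by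
  obtain ⟨e1, e2, e3, e4, e5, e6⟩ := h1
  obtain ⟨f1, f2, f3, f4, f5, f6⟩ := h2
  exact CE6_main ⟨hF, hN, ⟨e1, e3, e2, f2, f3, e5, e4, f4, f5, e6.symm, hpr, hpt, hqr, hqt, f6⟩, hQF, hRN⟩

end Pool.Agent.TFC.SH
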