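import Pool.Agent.SQ34.Base
import Pool.Agent.TFC.Clus

set_option autoImplicit false
set_option linter.unusedSectionVars false
set_option linter.unusedSimpArgs false

/-! [SQ34-ClK2] the second step of the cluster theorem. `Fam`, `Exc`, `Step`, `vs` are in Base.lean; Pool/Agent/TFC/Clus.lean has the
version for squares only: `Clus_case2` (copy and adapt); `Clus_core`, `Clus_second`, `Clus_sq_leaf`, `Clus_sq_cen`, .. can be used
directly, with `D.filter IsSq` for their `D` (two different squares of D do not share exactly one edge: `Fam.ex` would say that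
the first one is a triangle, but #(sq ..) = 4, #(tr ..) = 3).

PROOF. D1 := {S ∈ D | ∃ l l' l'', Dist4 x l y l' ∧ Dist4 x l y l'' ∧ l' ≠ l'' ∧ S = sq x l y l' ∧ sq x l y l'' ∈ D} (as in `Clus_case2`),
L := the vertices ≠ x, y of members of D1, sq x a y b ∈ D1. For l ∈ L: there are S = sq x l y l' ∈ D1 and a partner
S' ∈ D, S' = sq x l y l'' (l'' ≠ l, l') or S' = sq x l' y l'' (l'' ≠ l, l')   (`ofL` in `Clus_case2`).
 (i) A square T ∈ D, T ∉ D1 has no edge xl, yl (l ∈ L): `Clus_core`.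
 (ii) A triangle T ∈ D with an edge wl (w ∈ {x, y}, w' the other one, l ∈ L) is T = tr x y l: write T = tr w l m. T and S share wl and not exactly
   one edge (`Fam.ex`, card), so m = w' (then T = tr x y l, up to order) or m = l' (T ∩ S ⊆ {wl, lm, mw}; lm ∈ S forces m = w', mw ∈ S
   forces m = l'). If m = l': T = {wl, ll', l'w}, S' = sq x l y l'' or sq x l' y l'' contains exactly one of wl, wl' and not ll', so
   #(T ∩ S') = 1, contradiction.
 CASE A: no triangle tr x y l with l ∈ L is in D. c := k2 x y L, D' := D1.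
 CASE B: tr x y l0 ∈ D with l0 ∈ L. c := k3 x y L, D' := D1 ∪ {T ∈ D | ∃ l ∈ L, T = tr x y l}. Then T ∈ D with the edge xy is in D':
   T a triangle, T = tr x y t: suppose t ∉ L. t ≠ l0. T ∩ tr x y l0 = {xy}, so Exc D T (tr x y l0): there are x' y' p r with Dist4 x' p y' r,
     T = tr x' y' p, tr x y l0 = tr x' y' r, sq x' p y' r ∈ D. The common edge is x'y' = xy, so {x', y'} = {x, y}, p = t, r = l0 and sq x t y l0 ∈ D
     (up to symmetry: `sq_rot`, `sq_ref`). Let S = sq x l0 y l' ∈ D1 for l0 (as in (ii)). l' ∈ L so l' ≠ t. So sq x l0 y t ∈ D is in D1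
     (partner sq x l0 y l'), t ∈ L, contradiction.
   T a square: #(T ∩ tr x y l0) ≠ 1 (`Fam.ex`, card), so T contains x l0 or y l0 as well; by (i) T ∈ D1; but no member sq x l y l' of D1 contains xy. -/

namespace Pool.Agent.TFC.SH

open Finset

variable {V : Type*} [DecidableEq V]

private lemma ClK2_card {a b c d : V} (h : Dist4 a b c d) : #(sq a b c d) = 4 := by
  obtain ⟨h1, h2, h3, h4, h5, h6⟩ := h
  unfold sq
  rw [card_insert_of_notMem, card_insert_of_notMem, card_insert_of_notMem, card_singleton]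
  · simp [h1, h2, h3, h4, h5, h6, h1.symm, h2.symm, h3.symm, h4.symm, h5.symm, h6.symm]
  · simp [h1, h2, h3, h4, h5, h6, h1.symm, h2.symm, h3.symm, h4.symm, h5.symm, h6.symm]
  · simp [h1, h2, h3, h4, h5, h6, h1.symm, h2.symm, h3.symm, h4.symm, h5.symm, h6.symm]

private lemma ClK2_cardS {Q : Finset (Sym2 V)} (h : IsSq Q) : #Q = 4 := by
  obtain ⟨a, b, c, d, h, rfl⟩ := h
  exact ClK2_card h

/-- an exceptional pair consists of triangles -/
private lemma ClK2_exc {D : Finset (Finset (Sym2 V))} {Q R : Finset (Sym2 V)} (h : Exc D Q R) : #Q = 3 ∧ #R = 3 := by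
  obtain ⟨x, y, p, r, ⟨h1, h2, h3, h4, h5, h6⟩, rfl, rfl, -⟩ := h
  exact ⟨tr_card h2 h1 h4.symm, tr_card h2 h3 h6⟩

/-- a member of `D` and a square of `D` do not share exactly one edge -/
private lemma ClK2_ne1 {D : Finset (Finset (Sym2 V))} (hD : Fam D) {T S : Finset (Sym2 V)} (hT : T ∈ D) (hS : S ∈ D)
    (hSq : IsSq S) (hne : T ≠ S) : #(T ∩ S) ≠ 1 := by
  intro h
  have h1 := ClK2_exc (hD.ex T hT S hS hne h)
  have h2 := ClK2_cardS hSq
  omega

private lemma ClK2_tri {D : Finset (Finset (Sym2 V))} (hD : Fam D) {x y l l' : V} {T : Finset (Sym2 V)} (hT : T ∈ D)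
    (hTr : IsTr T) (h4 : Dist4 x l y l') (hS : sq x l y l' ∈ D) (he : s(x, l) ∈ T)
    (hP : ∃ m m' m'', ((m = l ∧ m' = l') ∨ (m = l' ∧ m' = l)) ∧ Dist4 x m y m'' ∧ m'' ≠ m' ∧
      sq x m y m'' ∈ D) : T = tr x y l := by
  obtain ⟨p, g1, g2, g3, eT⟩ := isTr_first hTr he
  have hcardT : #T = 3 := by rw [eT]; exact tr_card g1 g2 g3
  have neS : ∀ S : Finset (Sym2 V), IsSq S → T ≠ S := by
    intro S hS h
    have := ClK2_cardS hS
    rw [← h] at this
    omega
  have isq : IsSq (sq x l y l') := ⟨_, _, _, _, h4, rfl⟩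
  obtain ⟨k1, k2, k3, k4, k5, k6⟩ := id h4
  obtain ⟨e', he1, he2, he3⟩ := Clus_second (ClK2_ne1 hD hT hS isq (neS _ isq)) he (by simp [sq])
  rw [eT] at he1
  simp only [tr, mem_insert, mem_singleton] at he1
  rcases he1 with rfl | rfl | rfl
  · exact absurd rfl he3
  · simp only [sq, mem_insert, mem_singleton, Sym2.eq_iff] at he2
    have hpy : p = y := by
      rcases he2 with (⟨e1, e2⟩ | ⟨e1, e2⟩) | (⟨e1, e2⟩ | ⟨e1, e2⟩) | (⟨e1, e2⟩ | ⟨e1, e2⟩) |
        (⟨e1, e2⟩ | ⟨e1, e2⟩)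
      · exact absurd e1 k1.symm
      · exact absurd e2.symm g2
      · exact e2
      · exact absurd e1 k4
      · exact absurd e1 k4
      · exact absurd e1 k5
      · exact absurd e1 k5
      · exact absurd e1 k1.symm
    subst hpy
    rw [eT, tr_rot, tr_rot, tr_swap]
  · exfalso
    simp only [sq, mem_insert, mem_singleton, Sym2.eq_iff] at he2
    have hp : p = l' := by
      rcases he2 with (⟨e1, e2⟩ | ⟨e1, e2⟩) | (⟨e1, e2⟩ | ⟨e1, e2⟩) | (⟨e1, e2⟩ | ⟨e1, e2⟩) |
        (⟨e1, e2⟩ | ⟨e1, e2⟩)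
      · exact absurd e2 k1
      · exact absurd e1.symm g3
      · exact absurd e2 k2
      · exact absurd e2 k1
      · exact absurd e2 k3
      · exact absurd e2 k2
      · exact e1
      · exact absurd e1.symm g2
    subst hp
    obtain ⟨m, m', m'', hm, ⟨n1, n2, n3, n4, n5, n6⟩, hmm, hSm⟩ := hP
    have isq' : IsSq (sq x m y m'') := ⟨_, _, _, _, ⟨n1, n2, n3, n4, n5, n6⟩, rfl⟩
    have hne1 := ClK2_ne1 hD hT hSm isq' (neS _ isq')
    rcases hm with ⟨rfl, rfl⟩ | ⟨rfl, rfl⟩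
    · obtain ⟨e2, f1, f2, f3⟩ := Clus_second hne1 (e := s(x, m)) he (by simp [sq])
      rw [eT] at f1
      simp only [tr, mem_insert, mem_singleton] at f1
      rcases f1 with rfl | rfl | rfl
      · exact f3 rfl
      all_goals
        simp [sq, n1, n2, n3, n4, n5, n6, n1.symm, n2.symm, n3.symm, n4.symm, n5.symm, n6.symm, k1, k2, k3, k4,
            k5, k6, k1.symm, k2.symm, k3.symm, k4.symm, k5.symm, k6.symm, hmm, hmm.symm] at f2
    · obtain ⟨e2, f1, f2, f3⟩ := Clus_second hne1 (e := s(m, x)) (by rw [eT]; simp [tr])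
        (by rw [Sym2.eq_swap]; simp [sq])
      rw [eT] at f1
      simp only [tr, mem_insert, mem_singleton] at f1
      rcases f1 with rfl | rfl | rfl
      · simp [sq, n1, n2, n3, n4, n5, n6, n1.symm, n2.symm, n3.symm, n4.symm, n5.symm, n6.symm, k1, k2, k3, k4,
            k5, k6, k1.symm, k2.symm, k3.symm, k4.symm, k5.symm, k6.symm, hmm, hmm.symm] at f2
      · simp [sq, n1, n2, n3, n4, n5, n6, n1.symm, n2.symm, n3.symm, n4.symm, n5.symm, n6.symm, k1, k2, k3, k4,
            k5, k6, k1.symm, k2.symm, k3.symm, k4.symm, k5.symm, k6.symm, hmm, hmm.symm] at f2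
      · exact f3 rfl

theorem k2_step {D : Finset (Finset (Sym2 V))} (hD : Fam D) {x a y b c : V} (dQ : Dist4 x a y b)
    (dR : Dist4 x a y c) (hbc : b ≠ c) (hQ : sq x a y b ∈ D) (hR : sq x a y c ∈ D) : Step D := by
  classical
  set Ds : Finset (Finset (Sym2 V)) := D.filter IsSq with hDs
  have hmDs : ∀ S, S ∈ Ds ↔ S ∈ D ∧ IsSq S := fun S => mem_filter
  have hDsq : ∀ Q ∈ Ds, IsSq Q := fun Q hQ => ((hmDs Q).1 hQ).2
  have hcs : ∀ Q ∈ Ds, ∀ R ∈ Ds, Q ≠ R → #(Q ∩ R) ≠ 1 := fun Q hQ R hR hne =>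
    ClK2_ne1 hD ((hmDs Q).1 hQ).1 ((hmDs R).1 hR).1 ((hmDs R).1 hR).2 hne
  have inDs : ∀ {a b c d : V}, Dist4 a b c d → sq a b c d ∈ D → sq a b c d ∈ Ds := fun h hS =>
    (hmDs _).2 ⟨hS, _, _, _, _, h, rfl⟩
  obtain ⟨Pr, hPr⟩ : ∃ Pr : Finset (Sym2 V) → Prop, ∀ S, Pr S ↔ ∃ l l' l'', Dist4 x l y l' ∧
      Dist4 x l y l'' ∧ l' ≠ l'' ∧ S = sq x l y l' ∧ sq x l y l'' ∈ D := ⟨_, fun _ => Iff.rfl⟩
  set D1 := D.filter Pr with hD1
  have hmD1 : ∀ S, S ∈ D1 ↔ S ∈ D ∧ Pr S := fun S => mem_filter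
  set L : Finset V := (D1.biUnion (fun S => S.biUnion Sym2.toFinset)).filter (fun l => l ≠ x ∧ l ≠ y) with hL
  have hmL : ∀ l, l ∈ L ↔ (∃ S ∈ D1, ∃ e ∈ S, l ∈ e) ∧ l ≠ x ∧ l ≠ y := by
    intro l
    rw [hL, mem_filter]
    simp only [mem_biUnion, Sym2.mem_toFinset]
  have leafL : ∀ l l', Dist4 x l y l' → sq x l y l' ∈ D1 → l ∈ L ∧ l' ∈ L := by
    rintro l l' ⟨h1, h2, h3, h4, h5, h6⟩ hS
    refine ⟨(hmL l).2 ⟨⟨_, hS, s(x, l), by simp [sq], by simp⟩, h1.symm, h4⟩,
      (hmL l').2 ⟨⟨_, hS, s(y, l'), by simp [sq], by simp⟩, h3.symm, h6.symm⟩⟩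
  have ofL : ∀ l ∈ L, ∃ l', Dist4 x l y l' ∧ sq x l y l' ∈ D1 ∧
      ∃ m m' m'', ((m = l ∧ m' = l') ∨ (m = l' ∧ m' = l)) ∧ Dist4 x m y m'' ∧ m'' ≠ m' ∧
      sq x m y m'' ∈ D := by
    intro l hl
    obtain ⟨⟨S, hS, e, he, hle⟩, hlx, hly⟩ := (hmL l).1 hl
    have hS' := hS
    obtain ⟨hSD, m, m', m'', d1, d2, hmm, rfl, hSm⟩ := (hmD1 S).1 hS |>.imp_right (hPr S).1
    have hl' : l = m ∨ l = m' := by
      simp only [sq, mem_insert, mem_singleton] at he
      rcases he with rfl | rfl | rfl | rfl <;> rw [Sym2.mem_iff] at hle <;> tauto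
    rcases hl' with rfl | rfl
    · exact ⟨m', d1, hS', l, m', m'', Or.inl ⟨rfl, rfl⟩, d2, hmm.symm, hSm⟩
    · obtain ⟨d3, e3⟩ := Clus_sq_leaf d1
      exact ⟨m, d3, by rw [← e3]; exact hS', m, l, m'', Or.inr ⟨rfl, rfl⟩, d2, hmm.symm, hSm⟩
  have hQ' : sq x a y b ∈ D1 := (hmD1 _).2 ⟨hQ, (hPr _).2 ⟨a, b, c, dQ, dR, hbc, rfl, hR⟩⟩
  have hxL : x ∉ L := fun h => ((hmL x).1 h).2.1 rfl
  have hyL : y ∉ L := fun h => ((hmL y).1 h).2.2 rfl
  have haL : a ∈ L ∧ b ∈ L := leafL a b dQ hQ'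
  -- (i) squares
  have keyS : ∀ T ∈ D, IsSq T → T ∉ D1 → ∀ l ∈ L, s(x, l) ∉ T ∧ s(y, l) ∉ T := by
    intro T hT hTs hTn l hl
    have hT' : T ∈ Ds := (hmDs T).2 ⟨hT, hTs⟩
    constructor
    · intro heT
      obtain ⟨l', d, hS, m, m', m'', hm, d2, hmm, hSm⟩ := ofL l hl
      have hSD := ((hmD1 _).1 hS).1
      refine Clus_core hDsq hcs hT' d (inDs d hSD) (fun h => hTn (by rw [h]; exact hS)) ?_ heT
        ⟨m, m', m'', hm, d2, hmm, inDs d2 hSm⟩
      intro k dk hk h
      apply hTn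
      rw [hmD1]
      exact ⟨hT, (hPr T).2 ⟨l, k, l', dk, d, hk, h, hSD⟩⟩
    · intro heT
      obtain ⟨l', d, hS, m, m', m'', hm, d2, hmm, hSm⟩ := ofL l hl
      obtain ⟨d', e'⟩ := Clus_sq_cen d
      obtain ⟨d2', e2'⟩ := Clus_sq_cen d2
      have hSD := ((hmD1 _).1 hS).1
      refine Clus_core hDsq hcs hT' d' (inDs d' (by rw [← e']; exact hSD)) (fun h => hTn (by rw [h, ← e']; exact hS)) ?_ heT
        ⟨m, m', m'', hm, d2', hmm, inDs d2' (by rw [← e2']; exact hSm)⟩
      intro k dk hk h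
      obtain ⟨dk', ek'⟩ := Clus_sq_cen dk
      apply hTn
      rw [hmD1]
      exact ⟨hT, (hPr T).2 ⟨l, k, l', dk', d, hk, by rw [h, ek'], hSD⟩⟩
  -- (ii) triangles
  have keyT : ∀ T ∈ D, IsTr T → ∀ l ∈ L, (s(x, l) ∈ T ∨ s(y, l) ∈ T) → T = tr x y l := by
    intro T hT hTr l hl he
    obtain ⟨l', d, hS, m, m', m'', hm, d2, hmm, hSm⟩ := ofL l hl
    have hSD := ((hmD1 _).1 hS).1
    rcases he with he | he
    · exact ClK2_tri hD hT hTr d hSD he ⟨m, m', m'', hm, d2, hmm, hSm⟩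
    · obtain ⟨d', e'⟩ := Clus_sq_cen d
      obtain ⟨d2', e2'⟩ := Clus_sq_cen d2
      rw [tr_swap]
      exact ClK2_tri hD hT hTr d' (by rw [← e']; exact hSD) he ⟨m, m', m'', hm, d2', hmm, by rw [← e2']; exact hSm⟩
  have hk2 : ∀ e, e ∈ (TFC.Clu.k2 x y L).edges ↔ (∃ l ∈ L, s(x, l) = e) ∨ (∃ l ∈ L, s(y, l) = e) := by
    intro e
    simp [TFC.Clu.edges]
  have hsubK : ∀ S ∈ D1, S ⊆ (TFC.Clu.k2 x y L).edges := by
    intro S hS
    have hS' := hS
    obtain ⟨hSD, m, m', m'', d1, d2, hmm, rfl, hSm⟩ := (hmD1 S).1 hS |>.imp_right (hPr S).1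
    obtain ⟨h1, h2⟩ := leafL m m' d1 hS'
    intro e he
    rw [hk2]
    simp only [sq, mem_insert, mem_singleton] at he
    rcases he with rfl | rfl | rfl | rfl
    · exact Or.inl ⟨m, h1, rfl⟩
    · exact Or.inr ⟨m, h1, Sym2.eq_swap⟩
    · exact Or.inr ⟨m', h2, rfl⟩
    · exact Or.inl ⟨m', h2, Sym2.eq_swap⟩
  have hcovK : ∀ e ∈ (TFC.Clu.k2 x y L).edges, ∃ S ∈ D1, e ∈ S := by
    intro e he
    rcases (hk2 e).1 he with ⟨l, hl, rfl⟩ | ⟨l, hl, rfl⟩
    · obtain ⟨l', d, hS, -⟩ := ofL l hl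
      exact ⟨_, hS, by simp [sq]⟩
    · obtain ⟨l', d, hS, -⟩ := ofL l hl
      exact ⟨_, hS, by rw [Sym2.eq_swap]; simp [sq]⟩
  by_cases hB : ∃ l0 ∈ L, tr x y l0 ∈ D
  · -- case B
    obtain ⟨l0, hl0, htr0⟩ := hB
    refine ⟨Clu.k3 x y L, D.filter (fun S => Pr S ∨ ∃ l ∈ L, S = tr x y l), filter_subset _ _,
      ⟨sq x a y b, mem_filter.2 ⟨hQ, Or.inl ((hmD1 _).1 hQ').2⟩⟩, ⟨dQ.2.1, hxL, hyL, ⟨l0, hl0⟩⟩, ?_, ?_, ?_⟩
    · intro S hS
      rw [mem_filter] at hS
      rcases hS with ⟨hSD, hS | ⟨l, hl, rfl⟩⟩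
      · exact (hsubK S ((hmD1 S).2 ⟨hSD, hS⟩)).trans (subset_insert _ _)
      · intro e he
        simp only [tr, mem_insert, mem_singleton] at he
        show e ∈ insert s(x, y) (TFC.Clu.k2 x y L).edges
        rw [mem_insert, hk2]
        rcases he with rfl | rfl | rfl
        · exact Or.inl rfl
        · exact Or.inr (Or.inr ⟨l, hl, rfl⟩)
        · exact Or.inr (Or.inl ⟨l, hl, Sym2.eq_swap⟩)
    · intro e he
      have he' : e ∈ insert s(x, y) (TFC.Clu.k2 x y L).edges := he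
      rw [mem_biUnion]
      rcases mem_insert.1 he' with rfl | he'
      · exact ⟨tr x y l0, mem_filter.2 ⟨htr0, Or.inr ⟨l0, hl0, rfl⟩⟩, by simp [tr]⟩
      · obtain ⟨S, hS, heS⟩ := hcovK e he'
        exact ⟨S, mem_filter.2 ⟨((hmD1 S).1 hS).1, Or.inl ((hmD1 S).1 hS).2⟩, heS⟩
    · intro T hT hTn e heT heK
      have hTn1 : T ∉ D1 := fun h => hTn (mem_filter.2 ⟨hT, Or.inl ((hmD1 T).1 h).2⟩)
      have hTn2 : ∀ l ∈ L, T ≠ tr x y l := fun l hl h => hTn (mem_filter.2 ⟨hT, Or.inr ⟨l, hl, h⟩⟩)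
      have leaf : ∀ l ∈ L, ¬ (s(x, l) ∈ T ∨ s(y, l) ∈ T) := by
        intro l hl h
        rcases hD.sh T hT with hTr | hTs
        · exact hTn2 l hl (keyT T hT hTr l hl h)
        · have := keyS T hT hTs hTn1 l hl
          tauto
      have he' : e ∈ insert s(x, y) (TFC.Clu.k2 x y L).edges := heK
      rcases mem_insert.1 he' with rfl | he'
      · -- the edge `x y`
        obtain ⟨l', d, hS, -⟩ := ofL l0 hl0
        have hl'L : l' ∈ L := (leafL l0 l' d hS).2
        have hSD := ((hmD1 _).1 hS).1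
        have hl0x : l0 ≠ x := ((hmL l0).1 hl0).2.1
        have hl0y : l0 ≠ y := ((hmL l0).1 hl0).2.2
        rcases hD.sh T hT with hTr | hTs
        · obtain ⟨t, g1, g2, g3, eT⟩ := isTr_first hTr heT
          have htL : t ∉ L := fun h => hTn2 t h eT
          have htl : t ≠ l0 := fun h => htL (h ▸ hl0)
          have hTne : T ≠ tr x y l0 := hTn2 l0 hl0
          have hcard : #(T ∩ tr x y l0) = 1 := by
            rw [card_eq_one]
            refine ⟨s(x, y), ?_⟩
            ext e'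
            rw [eT]
            simp only [mem_inter, mem_singleton]
            constructor
            · rintro ⟨q1, q2⟩
              simp only [tr, mem_insert, mem_singleton] at q1
              rcases q1 with rfl | rfl | rfl
              · rfl
              all_goals
                exfalso
                simp [tr, g1, g2, g3, g1.symm, g2.symm, g3.symm, htl, htl.symm, hl0x, hl0x.symm, hl0y, hl0y.symm] at q2
            · rintro rfl
              exact ⟨by simp [tr], by simp [tr]⟩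
          obtain ⟨x', y', p, r, ⟨k1, k2, k3, k4, k5, k6⟩, e1, e2, hsq⟩ := hD.ex T hT _ htr0 hTne hcard
          have v1 : ({x, y, t} : Finset V) = {x', y', p} := by rw [← vs_tr, ← vs_tr, ← eT, e1]
          have v2 : ({x, y, l0} : Finset V) = {x', y', r} := by rw [← vs_tr, ← vs_tr, e2]
          have hp : p = t := by
            have m1 : p ∈ ({x, y, t} : Finset V) := by rw [v1]; simp
            have m2 : p ∉ ({x, y, l0} : Finset V) := by
              rw [v2]
              simp [k1.symm, k4, k5]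
            simp only [mem_insert, mem_singleton] at m1 m2
            tauto
          have hr : r = l0 := by
            have m1 : r ∈ ({x, y, l0} : Finset V) := by rw [v2]; simp
            have m2 : r ∉ ({x, y, t} : Finset V) := by
              rw [v1]
              simp [k3.symm, k6.symm, k5.symm]
            simp only [mem_insert, mem_singleton] at m1 m2
            tauto
          subst hp hr
          have hx' : x' = x ∨ x' = y := by
            have m1 : x' ∈ ({x, y, p} : Finset V) := by rw [v1]; simp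
            simp only [mem_insert, mem_singleton] at m1
            tauto
          have hy' : y' = x ∨ y' = y := by
            have m1 : y' ∈ ({x, y, p} : Finset V) := by rw [v1]; simp
            simp only [mem_insert, mem_singleton] at m1
            rcases m1 with h | h | h
            · exact Or.inl h
            · exact Or.inr h
            · exact absurd h k4.symm
          have d4 : Dist4 x p y r := ⟨g2, g1, hl0x.symm, g3.symm, htl, hl0y.symm⟩
          have hsq2 : sq x p y r ∈ D := by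
            rcases hx' with rfl | rfl
            · rcases hy' with rfl | rfl
              · exact absurd rfl k2
              · exact hsq
            · rcases hy' with rfl | rfl
              · rw [(Clus_sq_cen d4).2]
                exact hsq
              · exact absurd rfl k2
          obtain ⟨d5, e5⟩ := Clus_sq_leaf d4
          have hin : sq x r y p ∈ D1 := (hmD1 _).2 ⟨by rw [← e5]; exact hsq2,
            (hPr _).2 ⟨r, p, l', d5, d, fun h => htL (h ▸ hl'L), rfl, hSD⟩⟩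
          exact htL (leafL r p d5 hin).2
        · have hTne : T ≠ tr x y l0 := hTn2 l0 hl0
          have hcard : #(T ∩ tr x y l0) ≠ 1 := by
            intro h
            have h1 := ClK2_exc (hD.ex T hT _ htr0 hTne h)
            have h2 := ClK2_cardS hTs
            omega
          obtain ⟨e', f1, f2, f3⟩ := Clus_second hcard heT (by simp [tr])
          simp only [tr, mem_insert, mem_singleton] at f2
          rcases f2 with rfl | rfl | rfl
          · exact f3 rfl
          · exact leaf l0 hl0 (Or.inr f1)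
          · exact leaf l0 hl0 (Or.inl (by rw [Sym2.eq_swap]; exact f1))
      · rcases (hk2 e).1 he' with ⟨l, hl, rfl⟩ | ⟨l, hl, rfl⟩
        · exact leaf l hl (Or.inl heT)
        · exact leaf l hl (Or.inr heT)
  · -- case A
    push Not at hB
    refine ⟨Clu.k2 x y L, D1, filter_subset _ _, ⟨_, hQ'⟩, ⟨dQ.2.1, hxL, hyL, ?_⟩, hsubK, ?_, ?_⟩
    · exact one_lt_card.2 ⟨a, haL.1, b, haL.2, dQ.2.2.2.2.1⟩
    · intro e he
      rw [mem_biUnion]
      exact hcovK e he
    · intro T hT hTn e heT heK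
      have leaf : ∀ l ∈ L, ¬ (s(x, l) ∈ T ∨ s(y, l) ∈ T) := by
        intro l hl h
        rcases hD.sh T hT with hTr | hTs
        · exact hB l hl (by rw [← keyT T hT hTr l hl h]; exact hT)
        · have := keyS T hT hTs hTn l hl
          tauto
      rcases (hk2 e).1 heK with ⟨l, hl, rfl⟩ | ⟨l, hl, rfl⟩
      · exact leaf l hl (Or.inl heT)
      · exact leaf l hl (Or.inr heT)

end Pool.Agent.TFC.SH
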