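import Pool.Agent.SQ34.Base
import Pool.Agent.TFC.Clus

set_option autoImplicit false
set_option linter.unusedSectionVars false

/-! [SQ34-ClK4] the first step of the cluster theorem. `Fam`, `Exc`, `Step`, `vs` are in Base.lean; Pool/Agent/TFC/Clus.lean has the
version for squares only: `Clus_case1` (copy and adapt), its lemmas `Clus_F`, `Clus_On`, `Clus_start`, `Clus_adj`, `Clus_eq`, `Clus_mem`,
`Clus_k4`, `Clus_second` can be used directly.

PROOF. X := vs Q = vs R, #X = 4, c := k4 X, D' := {T ∈ D | T ⊆ c.edges}. Q, R ∈ D'. Every edge of K4(X) is in Q or in R (`cov` in `Clus_case1`).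
Let T ∈ D have an edge e in K4(X). Claim: T ⊆ K4(X), so T ∈ D'.
 T a square: the argument of `Clus_case1`, which uses only that two different squares of D do not share exactly one edge (this holds: `Fam.ex`
 would give Exc, so the first square would be a triangle `tr x y p`; but #(sq ..) = 4, #(tr ..) = 3 (`tr_card`)). E.g. apply the argument to
 D.filter IsSq.
 T a triangle: T = tr u v w with s(u, v) ∈ K4(X) (`isTr_first`), u, v ∈ X. If w ∈ X then T ⊆ K4(X). If w ∉ X: s(u, v) ∈ Q or ∈ R, say Q (`cov`);
 then T ∩ Q = {s(u, v)} (the edges vw, wu have w ∉ X = vs Q), #(T ∩ Q) = 1, so `Fam.ex` makes Q (or T) ... : Exc D T Q says Q = tr ..,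
 contradiction to #Q = 4. -/

namespace Pool.Agent.TFC.SH

open Finset

variable {V : Type*} [DecidableEq V]

private lemma ClK4_sq {D : Finset (Finset (Sym2 V))} (hD : ∀ Q ∈ D, IsSq Q)
    (hc : ∀ Q ∈ D, ∀ R ∈ D, Q ≠ R → #(Q ∩ R) ≠ 1) {Q R : Finset (Sym2 V)} (hQ : Q ∈ D) (hR : R ∈ D)
    (hne : Q ≠ R) {X : Finset V} (oQ : Clus_On Q X) (oR : Clus_On R X) :
    (∀ u v, s(u, v) ∈ (TFC.Clu.k4 X).edges → s(u, v) ∈ Q ∨ s(u, v) ∈ R) ∧
    ∀ T ∈ D, ∀ e ∈ T, e ∈ (TFC.Clu.k4 X).edges → T ⊆ (TFC.Clu.k4 X).edges := by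
  classical
  have sub : ∀ Z, Clus_On Z X → Z ⊆ (TFC.Clu.k4 X).edges := by
    intro Z hZ e he
    induction e using Sym2.ind with
    | _ u v => exact Clus_k4.2 (Clus_mem hZ he)
  have cov : ∀ u v, s(u, v) ∈ (TFC.Clu.k4 X).edges → s(u, v) ∈ Q ∨ s(u, v) ∈ R := by
    intro u v huv
    by_contra hcon
    push Not at hcon
    obtain ⟨hu, hv, huv'⟩ := Clus_k4.1 huv
    have key : ∀ Z, Clus_On Z X → s(u, v) ∉ Z → ∃ b d, Clus_F Z X b u d v := by
      intro Z hZ hn
      obtain ⟨b, c, d, h⟩ := Clus_start hZ hu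
      obtain ⟨⟨h1, h2, h3, h4, h5, h6⟩, eQ, eX⟩ := id h
      have hv' := hv
      rw [eX] at hv'
      simp only [mem_insert, mem_singleton] at hv'
      rcases hv' with e | e | e | e
      · exact absurd e huv'.symm
      · exfalso
        apply hn
        rw [eQ, e]
        simp [sq]
      · subst e
        exact ⟨_, _, Clus_rot (Clus_ref (Clus_rot (Clus_ref (Clus_rot (Clus_rot (Clus_rot h))))))⟩
      · exfalso
        apply hn
        rw [eQ, e, Sym2.eq_swap]
        simp [sq]
    obtain ⟨b, d, ⟨a1, a2, a3, a4, a5, a6⟩, eQ, eX⟩ := key Q oQ hcon.1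
    obtain ⟨b', d', ⟨b1, b2, b3, b4, b5, b6⟩, eR, eX'⟩ := key R oR hcon.2
    have hbm : b ∈ X := by rw [eX]; simp
    have hdm : d ∈ X := by rw [eX]; simp
    rw [eX'] at hbm hdm
    simp only [mem_insert, mem_singleton] at hbm hdm
    apply hne
    have hb : b = b' ∨ b = d' := by
      rcases hbm with e | e | e | e
      · exact Or.inl e
      · exact absurd e a1
      · exact Or.inr e
      · exact absurd e a3
    have hd : d = b' ∨ d = d' := by
      rcases hdm with e | e | e | e
      · exact Or.inl e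
      · exact absurd e a4.symm
      · exact Or.inr e
      · exact absurd e a6
    rcases hb with rfl | rfl
    · rcases hd with rfl | rfl
      · exact absurd rfl a2
      · rw [eQ, eR]
    · rcases hd with rfl | rfl
      · rw [eQ, eR]
        have e1 : s(d, u) = s(u, d) := Sym2.eq_swap
        have e2 : s(u, b) = s(b, u) := Sym2.eq_swap
        have e3 : s(b, v) = s(v, b) := Sym2.eq_swap
        have e4 : s(v, d) = s(d, v) := Sym2.eq_swap
        ext e
        simp only [sq, mem_insert, mem_singleton, e1, e2, e3, e4]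
        tauto
      · exact absurd rfl a2
  refine ⟨cov, ?_⟩
  · intro T hT e heT heK
    by_contra hTn'
    obtain ⟨Y, oT⟩ := Clus_isSq (hD T hT)
    -- the main argument
    have main : ∀ p q r s, Clus_F T Y p q r s → p ∈ X → q ∈ X → s ∉ X → False := by
      intro p q r s h hp hq hs
      obtain ⟨⟨h1, h2, h3, h4, h5, h6⟩, eT, -⟩ := h
      have hiff : ∀ Z ∈ D, Clus_On Z X → (s(p, q) ∈ Z ↔ s(q, r) ∈ Z) := by
        intro Z hZ oZ
        have hTZ : T ≠ Z := by
          rintro rfl
          exact hTn' (sub _ oZ)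
        have hcard := hc T hT Z hZ hTZ
        have n1 : s(r, s) ∉ Z := fun h => hs (Clus_mem oZ h).2.1
        have n2 : s(s, p) ∉ Z := fun h => hs (Clus_mem oZ h).1
        constructor
        · intro h
          obtain ⟨e', he1, he2, he3⟩ := Clus_second hcard (e := s(p, q)) (by rw [eT]; simp [sq]) h
          rw [eT] at he1
          simp only [sq, mem_insert, mem_singleton] at he1
          rcases he1 with rfl | rfl | rfl | rfl
          · exact absurd rfl he3
          · exact he2
          · exact absurd he2 n1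
          · exact absurd he2 n2
        · intro h
          obtain ⟨e', he1, he2, he3⟩ := Clus_second hcard (e := s(q, r)) (by rw [eT]; simp [sq]) h
          rw [eT] at he1
          simp only [sq, mem_insert, mem_singleton] at he1
          rcases he1 with rfl | rfl | rfl | rfl
          · exact he2
          · exact absurd rfl he3
          · exact absurd he2 n1
          · exact absurd he2 n2
      have final : ∀ Z Z', Z ∈ D → Z' ∈ D → Clus_On Z X → Clus_On Z' X → Z ≠ Z' → s(p, q) ∈ Z → False := by
        intro Z Z' hZ hZ' oZ oZ' hZZ hpq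
        have hqr := (hiff Z hZ oZ).1 hpq
        by_cases hpq' : s(p, q) ∈ Z'
        · exact hZZ (Clus_eq oZ oZ' h2 hpq hqr hpq' ((hiff Z' hZ' oZ').1 hpq'))
        · have hqr' : s(q, r) ∉ Z' := fun h => hpq' ((hiff Z' hZ' oZ').2 h)
          have hr : r ∈ X := (Clus_mem oZ hqr).2.1
          obtain ⟨b, c, d, ⟨c1, c2, c3, c4, c5, c6⟩, eZ, eX⟩ := Clus_start oZ' hq
          have only : ∀ m, m ∈ X → m ≠ q → s(q, m) ∉ Z' → m = c := by
            intro m hm hmq hn
            rw [eX] at hm
            simp only [mem_insert, mem_singleton] at hm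
            rcases hm with e | e | e | e
            · exact absurd e hmq
            · exfalso
              apply hn
              rw [eZ, e]
              simp [sq]
            · exact e
            · exfalso
              apply hn
              rw [eZ, e, Sym2.eq_swap]
              simp [sq]
          have e1 := only p hp h1 (by rw [Sym2.eq_swap]; exact hpq')
          have e2 := only r hr h4.symm hqr'
          exact h2 (e1.trans e2.symm)
      rcases cov p q (Clus_k4.2 ⟨hp, hq, h1⟩) with h | h
      · exact final Q R hQ hR oQ oR hne h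
      · exact final R Q hR hQ oR oQ hne.symm h
    induction e using Sym2.ind with
    | _ p q =>
      obtain ⟨hp, hq, hpq⟩ := Clus_k4.1 heK
      obtain ⟨r, s, h⟩ := Clus_adj oT heT
      by_cases hs : s ∈ X
      · by_cases hr : r ∈ X
        · apply hTn'
          obtain ⟨⟨h1, h2, h3, h4, h5, h6⟩, eT, -⟩ := h
          rw [eT]
          intro e he
          simp only [sq, mem_insert, mem_singleton] at he
          rcases he with rfl | rfl | rfl | rfl
          · exact Clus_k4.2 ⟨hp, hq, h1⟩
          · exact Clus_k4.2 ⟨hq, hr, h4⟩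
          · exact Clus_k4.2 ⟨hr, hs, h6⟩
          · exact Clus_k4.2 ⟨hs, hp, h3.symm⟩
        · exact main q p s r (Clus_rot (Clus_rot (Clus_ref h))) hq hp hr
      · exact main p q r s h hp hq hs

lemma ClK4_on {Q : Finset (Sym2 V)} (h : IsSq Q) : Clus_On Q (vs Q) := by
  obtain ⟨a, b, c, d, h1, rfl⟩ := h
  exact ⟨a, b, c, d, h1, rfl, vs_sq a b c d⟩

lemma ClK4_card_sq {Q : Finset (Sym2 V)} (h : IsSq Q) : #Q = 4 := by
  obtain ⟨a, b, c, d, ⟨hab, hac, had, hbc, hbd, hcd⟩, rfl⟩ := h
  have n12 : s(a, b) ≠ s(b, c) := by simp [hab, hac]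
  have n13 : s(a, b) ≠ s(c, d) := by simp [hac, had]
  have n14 : s(a, b) ≠ s(d, a) := by simp [had, hbd]
  have n23 : s(b, c) ≠ s(c, d) := by simp [hbc, hbd]
  have n24 : s(b, c) ≠ s(d, a) := by simp [hbd, hab.symm]
  have n34 : s(c, d) ≠ s(d, a) := by simp [hcd, hac.symm]
  unfold sq
  rw [card_insert_of_notMem (by simp [n12, n13, n14]),
    card_insert_of_notMem (by simp [n23, n24]), card_insert_of_notMem (by simp [n34]),
    card_singleton]

lemma ClK4_card_tr {Q : Finset (Sym2 V)} (h : IsTr Q) : #Q = 3 := by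
  obtain ⟨a, b, c, h1, h2, h3, rfl⟩ := h
  exact tr_card h1 h2 h3

/-- a member of an exceptional pair is a triangle -/
lemma ClK4_exc {D : Finset (Finset (Sym2 V))} {Q R : Finset (Sym2 V)} (h : Exc D Q R) : #Q = 3 ∧ #R = 3 := by
  obtain ⟨x, y, p, r, ⟨h1, h2, h3, h4, h5, h6⟩, rfl, rfl, -⟩ := h
  exact ⟨tr_card h2 h1 h4.symm, tr_card h2 h3 h6⟩

theorem k4_step {D : Finset (Finset (Sym2 V))} (hD : Fam D) {Q R : Finset (Sym2 V)} (hQ : Q ∈ D) (hR : R ∈ D)
    (sQ : IsSq Q) (sR : IsSq R) (hne : Q ≠ R) (hv : vs Q = vs R) : Step D := by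
  classical
  have oQ := ClK4_on sQ
  have oR : Clus_On R (vs Q) := hv ▸ ClK4_on sR
  obtain ⟨cov, hsq⟩ := ClK4_sq (D := D.filter IsSq) (fun T hT => (mem_filter.1 hT).2)
    (fun S hS T hT hST h1 => by
      have := ClK4_exc (hD.ex S (mem_filter.1 hS).1 T (mem_filter.1 hT).1 hST h1)
      have h4 := ClK4_card_sq (mem_filter.1 hS).2
      omega) (mem_filter.2 ⟨hQ, sQ⟩) (mem_filter.2 ⟨hR, sR⟩) hne oQ oR
  have sub : ∀ Z, Clus_On Z (vs Q) → Z ⊆ (Clu.k4 (vs Q)).edges := by
    intro Z hZ e he
    induction e using Sym2.ind with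
    | _ u v => exact Clus_k4.2 (Clus_mem hZ he)
  refine ⟨Clu.k4 (vs Q), D.filter (fun S => S ⊆ (Clu.k4 (vs Q)).edges), filter_subset _ _,
    ⟨Q, mem_filter.2 ⟨hQ, sub Q oQ⟩⟩, Clus_card oQ, fun S hS => (mem_filter.1 hS).2, ?_, ?_⟩
  · intro e he
    rw [mem_biUnion]
    induction e using Sym2.ind with
    | _ u v =>
      rcases cov u v he with h | h
      · exact ⟨Q, mem_filter.2 ⟨hQ, sub Q oQ⟩, h⟩
      · exact ⟨R, mem_filter.2 ⟨hR, sub R oR⟩, h⟩
  · intro T hT hTn e heT heK
    apply hTn
    rw [mem_filter]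
    refine ⟨hT, ?_⟩
    rcases hD.sh T hT with tT | sT
    · induction e using Sym2.ind with
      | _ u v =>
        obtain ⟨w, huv, huw, hvw, rfl⟩ := isTr_first tT heT
        obtain ⟨hu, hv', -⟩ := Clus_k4.1 heK
        by_cases hw : w ∈ vs Q
        · intro e he
          simp only [tr, mem_insert, mem_singleton] at he
          rcases he with rfl | rfl | rfl
          · exact Clus_k4.2 ⟨hu, hv', huv⟩
          · exact Clus_k4.2 ⟨hv', hw, hvw⟩
          · exact Clus_k4.2 ⟨hw, hu, huw.symm⟩
        · exfalso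
          have fin : ∀ Z ∈ D, IsSq Z → Clus_On Z (vs Q) → s(u, v) ∈ Z → False := by
            intro Z hZ sZ oZ huvZ
            have h1 : tr u v w ∩ Z = {s(u, v)} := by
              ext e
              simp only [mem_inter, mem_singleton]
              constructor
              · rintro ⟨he, heZ⟩
                simp only [tr, mem_insert, mem_singleton] at he
                rcases he with rfl | rfl | rfl
                · rfl
                · exact absurd (Clus_mem oZ heZ).2.1 hw
                · exact absurd (Clus_mem oZ heZ).1 hw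
              · rintro rfl
                exact ⟨heT, huvZ⟩
            have h2 : tr u v w ≠ Z := by
              intro h
              have h3 := ClK4_card_sq sZ
              rw [← h, ClK4_card_tr tT] at h3
              omega
            have h3 := ClK4_exc (hD.ex _ hT Z hZ h2 (by rw [h1, card_singleton]))
            have h4 := ClK4_card_sq sZ
            omega
          rcases cov u v heK with h | h
          · exact fin Q hQ sQ oQ h
          · exact fin R hR sR oR h
    · exact hsq T (mem_filter.2 ⟨hT, sT⟩) e heT heK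

end Pool.Agent.TFC.SH
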