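import Pool.Agent.SQ34.Base
import Pool.Agent.TFC.Clus

set_option autoImplicit false
set_option linter.unusedSectionVars false
set_option linter.unusedSimpArgs false

/-! [SQ34-ClS] the last two steps of the cluster theorem. `Fam`, `Exc`, `Step`, `vs` are in Base.lean. #(sq ..) = 4, #(tr ..) = 3 (`tr_card`); a
triangle and a square of D do not share exactly one edge (`Fam.ex` would say that both are triangles).

PROOF of `sq_step`. Q = sq x a y b ∈ D. Let T ∈ D be a triangle sharing an edge with Q: it shares at least 2 edges with Q, so it is one of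
tr x y a, tr x y b (chord xy) or tr a b x, tr a b y (chord ab). (i) Both chords do not occur: say T1 = tr x y m (m ∈ {a, b}) and
T2 = tr a b n (n ∈ {x, y}) are in D: T1 ∩ T2 = {mn}, so Exc D T1 T2: the square on mn-diagonal ... : with m' the other one of a, b and n' the other
one of x, y: T1 = tr m n n', T2 = tr m n m', and Exc gives sq m n' n m' ∈ D. It is different from Q (it contains the edges n n' = xy) and shares the
edge m n' with Q: contradiction to h. (ii) If a triangle with chord xy is in D (else, if one with chord ab is in D, rotate Q): T0 = tr x y m, m ∈ {a, b}.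
 c := k3 x y {a, b}, D' := {Q} ∪ {T ∈ D | T = tr x y a ∨ T = tr x y b}. Let T ∈ D have an edge in c. If the edge is in Q: T is a square, T = Q by h,
 or T is a triangle with chord xy (by (i)), so T ∈ D'. If the edge is xy: T a triangle tr x y t with t ≠ a, b: T ∩ T0 = {xy}, Exc gives
 sq x t y m ∈ D, which shares xm with Q and is ≠ Q: contradiction. T a square: shares 2 edges with T0, so it contains xm or ym, so T = Q by h; but xy ∉ Q.
 (iii) No triangle of D shares an edge with Q: c := k2 x y {a, b}, D' := {Q} (see `Clus_case3` in Pool/Agent/TFC/Clus.lean).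

PROOF of `tr_step`. Q = tr x y p. By `Fam.ex` and h (Exc gives a square in D) no other member shares exactly one edge with Q; sharing two
edges means equal. c := k3 x y {p}, D' := {Q}; c.edges = Q. -/

namespace Pool.Agent.TFC.SH

open Finset

variable {V : Type*} [DecidableEq V]

private lemma ClS_card {a b c d : V} (h : Dist4 a b c d) : #(sq a b c d) = 4 := by
  obtain ⟨h1, h2, h3, h4, h5, h6⟩ := h
  unfold sq
  rw [card_insert_of_notMem, card_insert_of_notMem, card_insert_of_notMem, card_singleton]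
  · simp [h1, h2, h3, h4, h5, h6, h1.symm, h2.symm, h3.symm, h4.symm, h5.symm, h6.symm]
  · simp [h1, h2, h3, h4, h5, h6, h1.symm, h2.symm, h3.symm, h4.symm, h5.symm, h6.symm]
  · simp [h1, h2, h3, h4, h5, h6, h1.symm, h2.symm, h3.symm, h4.symm, h5.symm, h6.symm]

private lemma ClS_cardS {Q : Finset (Sym2 V)} (h : IsSq Q) : #Q = 4 := by
  obtain ⟨a, b, c, d, h, rfl⟩ := h
  exact ClS_card h

private lemma ClS_cardT {Q : Finset (Sym2 V)} (h : IsTr Q) : #Q = 3 := by
  obtain ⟨a, b, c, h1, h2, h3, rfl⟩ := h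
  exact tr_card h1 h2 h3

/-- an exceptional pair consists of triangles -/
private lemma ClS_exc {D : Finset (Finset (Sym2 V))} {Q R : Finset (Sym2 V)} (h : Exc D Q R) : #Q = 3 ∧ #R = 3 := by
  obtain ⟨x, y, p, r, ⟨h1, h2, h3, h4, h5, h6⟩, rfl, rfl, -⟩ := h
  exact ⟨tr_card h2 h1 h4.symm, tr_card h2 h3 h6⟩

private lemma ClS_ne1 {D : Finset (Finset (Sym2 V))} (hD : Fam D) {T S : Finset (Sym2 V)} (hT : T ∈ D) (hS : S ∈ D)
    (hTr : IsTr T) (hSq : IsSq S) : #(T ∩ S) ≠ 1 := by
  intro h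
  have h2 := ClS_cardS hSq
  have h3 := ClS_cardT hTr
  have hne : T ≠ S := by
    rintro rfl
    omega
  have h1 := ClS_exc (hD.ex T hT S hS hne h)
  omega

private lemma ClS_ne1' {D : Finset (Finset (Sym2 V))} (hD : Fam D) {T S : Finset (Sym2 V)} (hT : T ∈ D) (hS : S ∈ D)
    (hSq : IsSq T) (hTr : IsTr S) : #(T ∩ S) ≠ 1 := by
  rw [inter_comm]
  exact ClS_ne1 hD hS hT hTr hSq

private lemma ClS_tri0 {D : Finset (Finset (Sym2 V))} (hD : Fam D) {x a y b : V} {T : Finset (Sym2 V)} (hT : T ∈ D)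
    (hTr : IsTr T) (h4 : Dist4 x a y b) (hS : sq x a y b ∈ D) (he : s(x, a) ∈ T) : T = tr x a y ∨ T = tr x a b := by
  obtain ⟨r, g1, g2, g3, eT⟩ := isTr_first hTr he
  have isq : IsSq (sq x a y b) := ⟨_, _, _, _, h4, rfl⟩
  obtain ⟨k1, k2, k3, k4, k5, k6⟩ := id h4
  obtain ⟨e', he1, he2, he3⟩ := Clus_second (ClS_ne1 hD hT hS hTr isq) he (by simp [sq])
  rw [eT] at he1
  simp only [tr, mem_insert, mem_singleton] at he1
  rcases he1 with rfl | rfl | rfl
  · exact absurd rfl he3
  · simp only [sq, mem_insert, mem_singleton, Sym2.eq_iff] at he2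
    left
    rw [eT]
    congr 1
    rcases he2 with (⟨e1, e2⟩ | ⟨e1, e2⟩) | (⟨e1, e2⟩ | ⟨e1, e2⟩) | (⟨e1, e2⟩ | ⟨e1, e2⟩) |
      (⟨e1, e2⟩ | ⟨e1, e2⟩)
    · exact absurd e1 k1.symm
    · exact absurd e2.symm g2
    · exact e2
    · exact absurd e1 k4
    · exact absurd e1 k4
    · exact absurd e1 k5
    · exact absurd e1 k5
    · exact absurd e1 k1.symm
  · simp only [sq, mem_insert, mem_singleton, Sym2.eq_iff] at he2
    right
    rw [eT]
    congr 1
    rcases he2 with (⟨e1, e2⟩ | ⟨e1, e2⟩) | (⟨e1, e2⟩ | ⟨e1, e2⟩) | (⟨e1, e2⟩ | ⟨e1, e2⟩) |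
      (⟨e1, e2⟩ | ⟨e1, e2⟩)
    · exact absurd e2 k1
    · exact absurd e1.symm g3
    · exact absurd e2 k2
    · exact absurd e2 k1
    · exact absurd e2 k3
    · exact absurd e2 k2
    · exact e1
    · exact absurd e1.symm g2

private lemma ClS_tri {D : Finset (Finset (Sym2 V))} (hD : Fam D) {x a y b : V} {T : Finset (Sym2 V)} (hT : T ∈ D)
    (hTr : IsTr T) (h4 : Dist4 x a y b) (hS : sq x a y b ∈ D) {e : Sym2 V} (he : e ∈ T) (heS : e ∈ sq x a y b) :
    T = tr x y a ∨ T = tr x y b ∨ T = tr a b x ∨ T = tr a b y := by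
  simp only [sq, mem_insert, mem_singleton] at heS
  rcases heS with rfl | rfl | rfl | rfl
  · rcases ClS_tri0 hD hT hTr h4 hS he with h | h
    · left; rw [h, tr_swap, tr_rot]
    · right; right; left; rw [h, tr_rot]
  · rcases ClS_tri0 hD hT hTr (Dist4.rot h4) (by rw [← sq_rot]; exact hS) he with h | h
    · right; right; right; rw [h, tr_swap, tr_rot]
    · left; rw [h, tr_rot, tr_swap]
  · rcases ClS_tri0 hD hT hTr (Dist4.rot (Dist4.rot h4)) (by rw [← sq_rot, ← sq_rot]; exact hS) he with h | h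
    · right; left; rw [h, tr_swap, tr_rot, tr_swap]
    · right; right; right; rw [h, tr_rot, tr_swap]
  · rcases ClS_tri0 hD hT hTr (Dist4.rot (Dist4.rot (Dist4.rot h4))) (by rw [← sq_rot, ← sq_rot, ← sq_rot]; exact hS) he with h | h
    · right; right; left; rw [h, tr_rot, tr_rot]
    · right; left; rw [h, tr_rot]

/-- the square of an exceptional pair -/
private lemma ClS_excsq {D : Finset (Finset (Sym2 V))} {u v t m : V} (d : Dist4 u t v m)
    (h : Exc D (tr u v t) (tr u v m)) : sq u t v m ∈ D := by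
  obtain ⟨g1, g2, g3, g4, g5, g6⟩ := id d
  obtain ⟨x', y', p, r, ⟨k1, k2, k3, k4, k5, k6⟩, e1, e2, hsq⟩ := h
  have v1 : ({u, v, t} : Finset V) = {x', y', p} := by rw [← vs_tr, ← vs_tr, e1]
  have v2 : ({u, v, m} : Finset V) = {x', y', r} := by rw [← vs_tr, ← vs_tr, e2]
  have hp : p = t := by
    have m1 : p ∈ ({u, v, t} : Finset V) := by rw [v1]; simp
    have m2 : p ∉ ({u, v, m} : Finset V) := by
      rw [v2]
      simp [k1.symm, k4, k5]
    simp only [mem_insert, mem_singleton] at m1 m2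
    tauto
  have hr : r = m := by
    have m1 : r ∈ ({u, v, m} : Finset V) := by rw [v2]; simp
    have m2 : r ∉ ({u, v, t} : Finset V) := by
      rw [v1]
      simp [k3.symm, k6.symm, k5.symm]
    simp only [mem_insert, mem_singleton] at m1 m2
    tauto
  subst hp hr
  have hx' : x' = u ∨ x' = v := by
    have m1 : x' ∈ ({u, v, p} : Finset V) := by rw [v1]; simp
    simp only [mem_insert, mem_singleton] at m1
    tauto
  have hy' : y' = u ∨ y' = v := by
    have m1 : y' ∈ ({u, v, p} : Finset V) := by rw [v1]; simp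
    simp only [mem_insert, mem_singleton] at m1
    rcases m1 with h | h | h
    · exact Or.inl h
    · exact Or.inr h
    · exact absurd h k4.symm
  rcases hx' with rfl | rfl
  · rcases hy' with rfl | rfl
    · exact absurd rfl k2
    · exact hsq
  · rcases hy' with rfl | rfl
    · rw [(Clus_sq_cen d).2]
      exact hsq
    · exact absurd rfl k2

/-- two triangles with a common edge `u v` and different third vertices -/
private lemma ClS_one {u v t m : V} (h1 : u ≠ v) (h2 : u ≠ t) (h3 : v ≠ t) (h4 : u ≠ m) (h5 : v ≠ m) (h6 : t ≠ m) :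
    #(tr u v t ∩ tr u v m) = 1 := by
  rw [card_eq_one]
  refine ⟨s(u, v), ?_⟩
  ext e'
  simp only [mem_inter, mem_singleton]
  constructor
  · rintro ⟨q1, q2⟩
    simp only [tr, mem_insert, mem_singleton] at q1
    rcases q1 with rfl | rfl | rfl
    · rfl
    all_goals
      exfalso
      simp [tr, h1, h2, h3, h4, h5, h6, h1.symm, h2.symm, h3.symm, h4.symm, h5.symm, h6.symm] at q2
  · rintro rfl
    exact ⟨by simp [tr], by simp [tr]⟩

private lemma ClS_trne {u v t m : V} (h1 : u ≠ v) (h2 : u ≠ t) (h3 : v ≠ t) (h6 : t ≠ m) : tr u v t ≠ tr u v m := by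
  intro h
  have v1 : t ∈ vs (tr u v m) := by
    rw [← h, vs_tr]
    simp
  rw [vs_tr] at v1
  simp only [mem_insert, mem_singleton] at v1
  tauto

/-- two triangles of `D` with exactly one common edge -/
private lemma ClS_getsq {D : Finset (Finset (Sym2 V))} (hD : Fam D) {u v t m : V} (d : Dist4 u t v m)
    (hT : tr u v t ∈ D) (hM : tr u v m ∈ D) : sq u t v m ∈ D := by
  obtain ⟨g1, g2, g3, g4, g5, g6⟩ := id d
  exact ClS_excsq d (hD.ex _ hT _ hM (ClS_trne g2 g1 g4.symm g5) (ClS_one g2 g1 g4.symm g3 g6 g5))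

private lemma ClS_both {D : Finset (Finset (Sym2 V))} (hD : Fam D)
    (h : ∀ Q ∈ D, ∀ R ∈ D, IsSq Q → IsSq R → Q ≠ R → Disjoint Q R) {x a y b : V} (d : Dist4 x a y b)
    (hQ : sq x a y b ∈ D) (h1 : tr x y a ∈ D) (h2 : tr a b x ∈ D) : False := by
  obtain ⟨g1, g2, g3, g4, g5, g6⟩ := id d
  -- the triangles x a y and x a b
  have d' : Dist4 x y a b := ⟨g2, g1, g3, g4.symm, g6, g5⟩
  have hs : sq x y a b ∈ D := by
    refine ClS_getsq hD d' ?_ ?_
    · rw [tr_swap, tr_rot]; exact h1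
    · rw [tr_rot]; exact h2
  have hne : sq x a y b ≠ sq x y a b := by
    intro hh
    have : s(x, y) ∈ sq x a y b := by rw [hh]; simp [sq]
    simp [sq, g1, g2, g3, g4, g5, g6, g1.symm, g2.symm, g3.symm, g4.symm, g5.symm, g6.symm] at this
  have := h _ hQ _ hs ⟨_, _, _, _, d, rfl⟩ ⟨_, _, _, _, d', rfl⟩ hne
  exact disjoint_left.1 this (show s(b, x) ∈ sq x a y b by simp [sq]) (by simp [sq])

private lemma ClS_main {D : Finset (Finset (Sym2 V))} (hD : Fam D)
    (h : ∀ Q ∈ D, ∀ R ∈ D, IsSq Q → IsSq R → Q ≠ R → Disjoint Q R) {x a y b : V} (d : Dist4 x a y b)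
    (hQ : sq x a y b ∈ D) (h1 : tr x y a ∈ D) : Step D := by
  classical
  obtain ⟨g1, g2, g3, g4, g5, g6⟩ := id d
  have isQ : IsSq (sq x a y b) := ⟨_, _, _, _, d, rfl⟩
  have n1 : tr a b x ∉ D := fun h2 => ClS_both hD h d hQ h1 h2
  have n2 : tr a b y ∉ D := by
    intro h2
    obtain ⟨d', e'⟩ := Clus_sq_cen d
    exact ClS_both hD h d' (by rw [← e']; exact hQ) (by rw [tr_swap]; exact h1) h2
  have hk : ∀ e, e ∈ (Clu.k3 x y {a, b} : Clu V).edges ↔
      e = s(x, y) ∨ e ∈ sq x a y b := by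
    intro e
    have e1 : s(a, y) = s(y, a) := Sym2.eq_swap
    have e2 : s(b, x) = s(x, b) := Sym2.eq_swap
    show e ∈ insert s(x, y) (TFC.Clu.k2 x y {a, b}).edges ↔ _
    simp only [TFC.Clu.edges, sq, mem_insert, mem_union, mem_image, mem_singleton, e1, e2]
    constructor
    · rintro (h | ⟨l, rfl | rfl, rfl⟩ | ⟨l, rfl | rfl, rfl⟩) <;> simp_all
    · rintro (h | rfl | rfl | rfl | rfl)
      · exact Or.inl h
      · exact Or.inr (Or.inl ⟨a, Or.inl rfl, rfl⟩)
      · exact Or.inr (Or.inr ⟨a, Or.inl rfl, rfl⟩)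
      · exact Or.inr (Or.inr ⟨b, Or.inr rfl, rfl⟩)
      · exact Or.inr (Or.inl ⟨b, Or.inr rfl, rfl⟩)
  refine ⟨Clu.k3 x y {a, b}, D.filter (fun S => S = sq x a y b ∨ S = tr x y a ∨ S = tr x y b), filter_subset _ _,
    ⟨sq x a y b, mem_filter.2 ⟨hQ, Or.inl rfl⟩⟩, ⟨g2, by simp [g1, g3], by simp [g4.symm, g6], ⟨a, by simp⟩⟩, ?_, ?_, ?_⟩
  · intro S hS e he
    rw [hk]
    rcases (mem_filter.1 hS).2 with rfl | rfl | rfl
    · exact Or.inr he
    · simp only [tr, mem_insert, mem_singleton] at he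
      rcases he with rfl | rfl | rfl
      · exact Or.inl rfl
      · right; rw [Sym2.eq_swap]; simp [sq]
      · right; rw [Sym2.eq_swap]; simp [sq]
    · simp only [tr, mem_insert, mem_singleton] at he
      rcases he with rfl | rfl | rfl
      · exact Or.inl rfl
      · right; simp [sq]
      · right; simp [sq]
  · intro e he
    rw [mem_biUnion]
    rcases (hk e).1 he with rfl | he
    · exact ⟨_, mem_filter.2 ⟨h1, Or.inr (Or.inl rfl)⟩, by simp [tr]⟩
    · exact ⟨_, mem_filter.2 ⟨hQ, Or.inl rfl⟩, he⟩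
  · intro T hT hTn e heT heK
    have t1 : T ≠ sq x a y b := fun hh => hTn (mem_filter.2 ⟨hT, Or.inl hh⟩)
    have t2 : T ≠ tr x y a := fun hh => hTn (mem_filter.2 ⟨hT, Or.inr (Or.inl hh)⟩)
    have t3 : T ≠ tr x y b := fun hh => hTn (mem_filter.2 ⟨hT, Or.inr (Or.inr hh)⟩)
    rcases (hk e).1 heK with rfl | heQ
    · rcases hD.sh T hT with hTr | hTs
      · obtain ⟨t, k1, k2, k3, eT⟩ := isTr_first hTr heT
        have hta : t ≠ a := fun hh => t2 (by rw [eT, hh])
        have htb : t ≠ b := fun hh => t3 (by rw [eT, hh])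
        have d' : Dist4 x t y a := ⟨k2, g2, g1, k3.symm, hta, g4.symm⟩
        have hs : sq x t y a ∈ D := ClS_getsq hD d' (by rw [← eT]; exact hT) h1
        have hne : sq x a y b ≠ sq x t y a := by
          intro hh
          have : s(x, t) ∈ sq x a y b := by rw [hh]; simp [sq]
          simp [sq, g1, g2, g3, g4, g5, g6, g1.symm, g2.symm, g3.symm, g4.symm, g5.symm, g6.symm, hta, htb, k1, k2, k3,
            k1.symm, k2.symm, k3.symm] at this
        have := h _ hQ _ hs isQ ⟨_, _, _, _, d', rfl⟩ hne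
        exact disjoint_left.1 this (show s(x, a) ∈ sq x a y b by simp [sq]) (by rw [Sym2.eq_swap]; simp [sq])
      · have isT : IsTr (tr x y a) := ⟨_, _, _, g2, g1, g4.symm, rfl⟩
        obtain ⟨e', f1, f2, f3⟩ := Clus_second (ClS_ne1' hD hT h1 hTs isT) heT (by simp [tr])
        have hdis := h _ hT _ hQ hTs isQ t1
        simp only [tr, mem_insert, mem_singleton] at f2
        rcases f2 with rfl | rfl | rfl
        · exact f3 rfl
        · exact disjoint_left.1 hdis f1 (by rw [Sym2.eq_swap]; simp [sq])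
        · exact disjoint_left.1 hdis f1 (by rw [Sym2.eq_swap]; simp [sq])
    · rcases hD.sh T hT with hTr | hTs
      · rcases ClS_tri hD hT hTr d hQ heT heQ with hh | hh | hh | hh
        · exact t2 hh
        · exact t3 hh
        · exact n1 (by rw [← hh]; exact hT)
        · exact n2 (by rw [← hh]; exact hT)
      · exact disjoint_left.1 (h _ hT _ hQ hTs isQ t1) heT heQ

theorem sq_step {D : Finset (Finset (Sym2 V))} (hD : Fam D)
    (h : ∀ Q ∈ D, ∀ R ∈ D, IsSq Q → IsSq R → Q ≠ R → Disjoint Q R) {Q : Finset (Sym2 V)} (hQ : Q ∈ D)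
    (sQ : IsSq Q) : Step D := by
  classical
  obtain ⟨x, a, y, b, d, rfl⟩ := id sQ
  obtain ⟨dl, el⟩ := Clus_sq_leaf d
  have dr : Dist4 a y b x := Dist4.rot d
  have er : sq x a y b = sq a y b x := sq_rot _ _ _ _
  obtain ⟨drl, erl⟩ := Clus_sq_leaf dr
  by_cases c1 : tr x y a ∈ D
  · exact ClS_main hD h d hQ c1
  by_cases c2 : tr x y b ∈ D
  · exact ClS_main hD h dl (by rw [← el]; exact hQ) c2
  by_cases c3 : tr a b x ∈ D
  · exact ClS_main hD h drl (by rw [← erl, ← er]; exact hQ) c3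
  by_cases c4 : tr a b y ∈ D
  · exact ClS_main hD h dr (by rw [← er]; exact hQ) c4
  obtain ⟨g1, g2, g3, g4, g5, g6⟩ := id d
  have hk : (Clu.k2 x y {a, b} : Clu V).edges = sq x a y b := by
    ext e
    have e1 : s(a, y) = s(y, a) := Sym2.eq_swap
    have e2 : s(b, x) = s(x, b) := Sym2.eq_swap
    show e ∈ (TFC.Clu.k2 x y {a, b}).edges ↔ _
    simp only [TFC.Clu.edges, sq, mem_insert, mem_union, mem_image, mem_singleton, e1, e2]
    constructor
    · rintro (⟨l, rfl | rfl, rfl⟩ | ⟨l, rfl | rfl, rfl⟩) <;> simp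
    · rintro (rfl | rfl | rfl | rfl)
      · exact Or.inl ⟨a, Or.inl rfl, rfl⟩
      · exact Or.inr ⟨a, Or.inl rfl, rfl⟩
      · exact Or.inr ⟨b, Or.inr rfl, rfl⟩
      · exact Or.inl ⟨b, Or.inr rfl, rfl⟩
  refine ⟨Clu.k2 x y {a, b}, {sq x a y b}, by simpa using hQ, ⟨_, mem_singleton_self _⟩,
    ⟨g2, by simp [g1, g3], by simp [g4.symm, g6], ?_⟩, ?_, ?_, ?_⟩
  · rw [card_pair g5]
  · intro S hS
    rw [mem_singleton] at hS
    rw [hS, hk]
  · rw [hk]
    intro e he
    rw [mem_biUnion]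
    exact ⟨_, mem_singleton_self _, he⟩
  · intro T hT hTn e heT heK
    rw [hk] at heK
    have hne : T ≠ sq x a y b := fun hh => hTn (by rw [hh]; exact mem_singleton_self _)
    rcases hD.sh T hT with hTr | hTs
    · rcases ClS_tri hD hT hTr d hQ heT heK with hh | hh | hh | hh
      · exact c1 (by rw [← hh]; exact hT)
      · exact c2 (by rw [← hh]; exact hT)
      · exact c3 (by rw [← hh]; exact hT)
      · exact c4 (by rw [← hh]; exact hT)
    · exact disjoint_left.1 (h _ hT _ hQ hTs sQ hne) heT heK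

theorem tr_step {D : Finset (Finset (Sym2 V))} (hD : Fam D) (h : ∀ Q ∈ D, IsTr Q) {Q : Finset (Sym2 V)}
    (hQ : Q ∈ D) : Step D := by
  classical
  obtain ⟨x, y, p, g1, g2, g3, rfl⟩ := id (h Q hQ)
  have hk : (Clu.k3 x y {p} : Clu V).edges = tr x y p := by
    ext e
    have e1 : s(p, x) = s(x, p) := Sym2.eq_swap
    show e ∈ insert s(x, y) (TFC.Clu.k2 x y {p}).edges ↔ _
    simp only [TFC.Clu.edges, tr, mem_insert, mem_union, mem_image, mem_singleton, e1]
    constructor
    · rintro (h | ⟨l, rfl, rfl⟩ | ⟨l, rfl, rfl⟩) <;> simp_all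
    · rintro (h | rfl | rfl)
      · exact Or.inl h
      · exact Or.inr (Or.inr ⟨p, rfl, rfl⟩)
      · exact Or.inr (Or.inl ⟨p, rfl, rfl⟩)
  refine ⟨Clu.k3 x y {p}, {tr x y p}, by simpa using hQ, ⟨_, mem_singleton_self _⟩,
    ⟨g1, by simp [g2], by simp [g3], ⟨p, by simp⟩⟩, ?_, ?_, ?_⟩
  · intro S hS
    rw [mem_singleton] at hS
    rw [hS, hk]
  · rw [hk]
    intro e he
    rw [mem_biUnion]
    exact ⟨_, mem_singleton_self _, he⟩
  · intro T hT hTn e heT heK
    rw [hk] at heK
    have hne : T ≠ tr x y p := fun hh => hTn (by rw [hh]; exact mem_singleton_self _)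
    have hcard : #(T ∩ tr x y p) ≠ 1 := by
      intro hc
      obtain ⟨x', y', p', r', d, -, -, hs⟩ := hD.ex T hT _ hQ hne hc
      have h1 := ClS_cardT (h _ hs)
      have h2 := ClS_card d
      omega
    obtain ⟨e', f1, f2, f3⟩ := Clus_second hcard heT heK
    induction e using Sym2.ind with
    | _ u v =>
      obtain ⟨r, k1, k2, k3, eT⟩ := isTr_first (h T hT) heT
      obtain ⟨m, q1, q2, q3, eQ⟩ := isTr_first (h _ hQ) heK
      apply hne
      rw [eT, eQ]
      congr 1
      rw [eT] at f1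
      rw [eQ] at f2
      simp only [tr, mem_insert, mem_singleton] at f1 f2
      rcases f1 with rfl | rfl | rfl
      · exact absurd rfl f3
      · rcases f2 with f2 | f2 | f2
        · exact absurd f2 f3
        · rcases Sym2.eq_iff.1 f2 with ⟨-, h2⟩ | ⟨h1, -⟩
          · exact h2
          · exact absurd h1 q3
        · rcases Sym2.eq_iff.1 f2 with ⟨h1, -⟩ | ⟨h1, -⟩
          · exact absurd h1 q3
          · exact absurd h1.symm k1
      · rcases f2 with f2 | f2 | f2
        · exact absurd f2 f3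
        · rcases Sym2.eq_iff.1 f2 with ⟨h1, -⟩ | ⟨-, h2⟩
          · exact absurd h1.symm k3
          · exact absurd h2 k1
        · rcases Sym2.eq_iff.1 f2 with ⟨h1, -⟩ | ⟨h1, -⟩
          · exact h1
          · exact absurd h1.symm k2

end Pool.Agent.TFC.SH
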