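import Pool.Agent.SQ34.ClK4
import Pool.Agent.SQ34.ClK2
import Pool.Agent.SQ34.ClS

set_option autoImplicit false
set_option linter.unusedSectionVars false

/-! [SQ34-Cl] Theorem 4', assembly. See `Clus_step` and `clusters` at the end of Pool/Agent/TFC/Clus.lean.

PROOF of `exists_step`: D nonempty.
 1. There are squares Q ≠ R in D with vs Q = vs R: `k4_step`.
 2. Otherwise, there are squares Q ≠ R in D which are not disjoint: they do not share exactly one edge (`Fam.ex`, cards 4 and 3), so they share two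
    edges e, e'. If e, e' are opposite edges of Q then vs Q = vs R, excluded (see `Clus_step`). So e, e' are adjacent: Q = sq u v w t,
    R = sq u v w t' with t ≠ t' (`Clus_adj2`), after rotation `k2_step` with x = u, a = v, y = w, b = t, c = t'.
 3. Otherwise, there is a square in D: `sq_step`. 4. Otherwise `tr_step`.
PROOF of `clusters`: strong induction on D (`Finset.strongInduction`), as in TFC/Clus.lean. With (c, D') from `exists_step`, apply the
induction hypothesis to D \ D'. It satisfies Fam: Q, R ∈ D \ D', #(Q ∩ R) = 1: Exc D Q R gives x y p r, Q = tr x y p, sq x p y r ∈ D. If sq x p y r ∈ D' then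
s(x, p) ∈ c.edges, and s(x, p) ∈ Q, Q ∉ D': contradiction to the last clause of `Step`. So sq x p y r ∈ D \ D'. -/

namespace Pool.Agent.TFC.SH

open Finset

variable {V : Type*} [DecidableEq V]

theorem exists_step {D : Finset (Finset (Sym2 V))} (hD : Fam D) (hne : D.Nonempty) : Step D := by
  classical
  by_cases c1 : ∃ Q ∈ D, ∃ R ∈ D, IsSq Q ∧ IsSq R ∧ Q ≠ R ∧ vs Q = vs R
  · obtain ⟨Q, hQ, R, hR, sQ, sR, hne, hv⟩ := c1
    exact k4_step hD hQ hR sQ sR hne hv
  by_cases c2 : ∃ Q ∈ D, ∃ R ∈ D, IsSq Q ∧ IsSq R ∧ Q ≠ R ∧ ¬ Disjoint Q R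
  · obtain ⟨Q, hQ, R, hR, sQ, sR, hne, hdis⟩ := c2
    have hcard : #(Q ∩ R) ≠ 1 := by
      intro h
      have h1 := (ClK4_exc (hD.ex Q hQ R hR hne h)).1
      have h2 := ClK4_card_sq sQ
      omega
    obtain ⟨e, heQ, he⟩ := not_disjoint_iff.1 hdis
    have oQ := ClK4_on sQ
    have oR := ClK4_on sR
    obtain ⟨e', he1, he2, he3⟩ := Clus_second hcard heQ he
    -- adjacent common edges
    have adj : ∀ u v w, u ≠ w → s(u, v) ∈ Q → s(v, w) ∈ Q → s(u, v) ∈ R → s(v, w) ∈ R → Step D := by
      intro u v w huw q1 q2 r1 r2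
      obtain ⟨t, dQ, eQ, -⟩ := Clus_adj2 oQ q1 q2 huw
      obtain ⟨t', dR, eR, -⟩ := Clus_adj2 oR r1 r2 huw
      have htt : t ≠ t' := by
        rintro rfl
        exact hne (by rw [eQ, eR])
      exact k2_step hD dQ dR htt (by rw [← eQ]; exact hQ) (by rw [← eR]; exact hR)
    induction e using Sym2.ind with
    | _ u v =>
      obtain ⟨w, t, hF⟩ := Clus_adj oQ heQ
      obtain ⟨⟨h1, h2, h3, h4, h5, h6⟩, eQ, eX⟩ := id hF
      rw [eQ] at he1
      simp only [sq, mem_insert, mem_singleton] at he1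
      rcases he1 with rfl | rfl | rfl | rfl
      · exact absurd rfl he3
      · exact adj u v w h2 heQ (by rw [eQ]; simp [sq]) he he2
      · exfalso
        obtain ⟨c, d, ⟨g1, g2, g3, g4, g5, g6⟩, eR, eX'⟩ := Clus_adj oR he
        have he2' := he2
        rw [eR] at he2'
        simp only [sq, mem_insert, mem_singleton, Sym2.eq_iff] at he2'
        have hcd : (w = c ∧ t = d) ∨ (w = d ∧ t = c) := by
          rcases he2' with (⟨e1, e2⟩ | ⟨e1, e2⟩) | (⟨e1, e2⟩ | ⟨e1, e2⟩) | (⟨e1, e2⟩ | ⟨e1, e2⟩) |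
            (⟨e1, e2⟩ | ⟨e1, e2⟩)
          · exact absurd e1.symm h2
          · exact absurd e1.symm h4
          · exact absurd e1.symm h4
          · exact absurd e2.symm h5
          · exact Or.inl ⟨e1, e2⟩
          · exact Or.inr ⟨e1, e2⟩
          · exact absurd e2.symm h3
          · exact absurd e1.symm h2
        apply c1
        refine ⟨Q, hQ, R, hR, sQ, sR, hne, ?_⟩
        rw [eX, eX']
        rcases hcd with ⟨rfl, rfl⟩ | ⟨rfl, rfl⟩
        · rfl
        · ext z
          simp only [mem_insert, mem_singleton]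
          tauto
      · exact adj t u v h5.symm (by rw [eQ]; simp [sq]) heQ he2 he
  by_cases c3 : ∃ Q ∈ D, IsSq Q
  · obtain ⟨Q, hQ, sQ⟩ := c3
    refine sq_step hD ?_ hQ sQ
    intro Q hQ R hR sQ sR hne
    by_contra hdis
    exact c2 ⟨Q, hQ, R, hR, sQ, sR, hne, hdis⟩
  · obtain ⟨Q, hQ⟩ := hne
    refine tr_step hD ?_ hQ
    intro Q hQ
    exact (hD.sh Q hQ).resolve_right fun h => c3 ⟨Q, hQ, h⟩

/-- **Theorem 4'** -/
theorem clusters (D : Finset (Finset (Sym2 V))) (hD : Fam D) :
    ∃ C : List (Clu V), (∀ c ∈ C, c.Valid) ∧ (C.Pairwise fun c c' => Disjoint c.edges c'.edges) ∧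
      (∀ c ∈ C, c.edges ⊆ D.biUnion id) ∧ ∀ Q ∈ D, ∃ c ∈ C, Q ⊆ c.edges := by
  classical
  induction D using Finset.strongInduction with
  | H D ih =>
    rcases D.eq_empty_or_nonempty with rfl | hne
    · exact ⟨[], by simp, List.Pairwise.nil, by simp, by simp⟩
    · obtain ⟨c, D', hD'D, ⟨Q, hQD'⟩, hval, hin, hcov, hdis⟩ := exists_step hD hne
      have hss : D \ D' ⊂ D := by
        refine sdiff_ssubset hD'D ⟨Q, hQD'⟩
      have hfam : Fam (D \ D') := by
        refine ⟨fun Q hQ => hD.sh Q (sdiff_subset hQ), fun Q hQ R hR hne h1 => ?_⟩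
        obtain ⟨x, y, p, r, h2, rfl, rfl, h3⟩ := hD.ex Q (sdiff_subset hQ) R (sdiff_subset hR) hne h1
        refine ⟨x, y, p, r, h2, rfl, rfl, ?_⟩
        rw [mem_sdiff]
        refine ⟨h3, fun h4 => ?_⟩
        rw [mem_sdiff] at hQ
        refine hdis _ hQ.1 hQ.2 s(p, x) (by simp [tr]) (hin _ h4 ?_)
        rw [Sym2.eq_swap]
        simp [sq]
      obtain ⟨C, h1, h2, h3, h4⟩ := ih (D \ D') hss hfam
      refine ⟨c :: C, ?_, ?_, ?_, ?_⟩
      · intro c' hc'
        rcases List.mem_cons.1 hc' with rfl | h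
        · exact hval
        · exact h1 c' h
      · rw [List.pairwise_cons]
        refine ⟨fun c' hc' => ?_, h2⟩
        rw [disjoint_left]
        intro e he he'
        have := h3 c' hc' he'
        rw [mem_biUnion] at this
        obtain ⟨T, hT, heT⟩ := this
        rw [mem_sdiff] at hT
        exact hdis T hT.1 hT.2 e heT he
      · intro c' hc'
        rcases List.mem_cons.1 hc' with rfl | h
        · exact hcov.trans (biUnion_subset_biUnion_of_subset_left _ hD'D)
        · exact (h3 c' h).trans (biUnion_subset_biUnion_of_subset_left _ sdiff_subset)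
      · intro R hR
        by_cases hRD : R ∈ D'
        · exact ⟨c, List.mem_cons_self .., hin R hRD⟩
        · obtain ⟨c', hc', hs⟩ := h4 R (mem_sdiff.2 ⟨hR, hRD⟩)
          exact ⟨c', List.mem_cons_of_mem _ hc', hs⟩

end Pool.Agent.TFC.SH
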