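import Pool.Agent.SQ34.Main
import Pool.Agent.TF34.Cl

/-!
Theorem 7' for the clusters `CC34` of the list level.
-/

set_option autoImplicit false
set_option linter.unusedSectionVars false

namespace TF34

open Finset Pool.Agent.TFC
open scoped Pointwise

variable {V : Type} [DecidableEq V]

/-- translation of clusters -/
def Conv_to : SH.CC V → CC34 V
  | .k4 a b c v => .k4 a b c v
  | .k2 w w' c L => .k2 w w' c (L.erase c)
  | .k3b w w' L => .k11b w w' L
  | .k3c x y c L => .k11c x y c (L.erase c)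

/-- translation of clusters -/
def Conv_from : CC34 V → SH.CC V
  | .k4 a b c v => .k4 a b c v
  | .k2 w w' c L => .k2 w w' c (insert c L)
  | .k11b w w' L => .k3b w w' L
  | .k11c x y c L => .k3c x y c (insert c L)

/-- the two clusters have the same edges and units, and both are valid -/
def Conv_Same (a : SH.CC V) (b : CC34 V) : Prop :=
  a.Valid ∧ b.Valid ∧ a.clu.edges = b.edges ∧ a.units = b.units

private lemma Conv_k4 {a b c v : V} (h : Dist4 a b c v) :
    (SH.Clu.k4 ({a, b, c, v} : Finset V)).edges = (CC34.k4 a b c v).edges := by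
  obtain ⟨h1, h2, h3, h4, h5, h6⟩ := h
  ext e
  induction e using Sym2.ind with
  | _ x y =>
    simp only [SH.Clu.edges, Clu.edges, CC34.edges, mem_filter, mk_mem_sym2_iff, Sym2.mk_isDiag_iff,
      mem_insert, mem_singleton, Sym2.eq_iff]
    constructor
    · rintro ⟨⟨hx, hy⟩, hxy⟩
      rcases hx with rfl | rfl | rfl | rfl <;> rcases hy with rfl | rfl | rfl | rfl <;>
        first | exact absurd rfl hxy | simp
    · rintro ((⟨rfl, rfl⟩ | ⟨rfl, rfl⟩) | (⟨rfl, rfl⟩ | ⟨rfl, rfl⟩) | (⟨rfl, rfl⟩ | ⟨rfl, rfl⟩) |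
        (⟨rfl, rfl⟩ | ⟨rfl, rfl⟩) | (⟨rfl, rfl⟩ | ⟨rfl, rfl⟩) | (⟨rfl, rfl⟩ | ⟨rfl, rfl⟩)) <;>
        simp_all [eq_comm]

lemma Conv_to_same {c : SH.CC V} (hc : c.Valid) : Conv_Same c (Conv_to c) := by
  cases c with
  | k4 a b c v => exact ⟨hc, hc, Conv_k4 hc, rfl⟩
  | k2 w w' c L =>
    obtain ⟨h1, h2, h3, h4, h5⟩ := id hc
    have h6 : w ≠ c := fun h => h2 (h ▸ h5)
    have h7 : w' ≠ c := fun h => h3 (h ▸ h5)
    refine ⟨hc, ⟨h1, h6, h7, fun h => h2 (mem_of_mem_erase h), fun h => h3 (mem_of_mem_erase h),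
      notMem_erase _ _, ?_⟩, ?_, ?_⟩
    · rw [← card_pos, card_erase_of_mem h5]; omega
    · show (Clu.k2 w w' L).edges = hubs w w' (insert c (L.erase c))
      rw [insert_erase h5]; rfl
    · show _ = (CC34.k2 w w' c (L.erase c)).units
      simp only [SH.CC.units, CC34.units, insert_erase h5]
  | k3b w w' L => exact ⟨hc, hc, rfl, rfl⟩
  | k3c x y c L =>
    obtain ⟨h1, h2, h3, h5⟩ := id hc
    have h6 : x ≠ c := fun h => h2 (h ▸ h5)
    have h7 : y ≠ c := fun h => h3 (h ▸ h5)
    refine ⟨hc, ⟨h1, h6, h7, fun h => h2 (mem_of_mem_erase h), fun h => h3 (mem_of_mem_erase h),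
      notMem_erase _ _⟩, ?_, ?_⟩
    · show insert s(x, y) (Clu.k2 x y L).edges = insert s(x, y) (hubs x y (insert c (L.erase c)))
      rw [insert_erase h5]; rfl
    · show _ = (CC34.k11c x y c (L.erase c)).units
      simp only [SH.CC.units, CC34.units, insert_comm c y, insert_erase h5]

lemma Conv_from_same {c : CC34 V} (hc : c.Valid) : Conv_Same (Conv_from c) c := by
  cases c with
  | k4 a b c v => exact ⟨hc, hc, Conv_k4 hc, rfl⟩
  | k2 w w' c L =>
    obtain ⟨h1, h2, h3, h4, h5, h6, h7⟩ := id hc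
    refine ⟨⟨h1, ?_, ?_, ?_, mem_insert_self _ _⟩, hc, rfl, ?_⟩
    · rw [mem_insert]; rintro (h | h)
      · exact h2 h
      · exact h4 h
    · rw [mem_insert]; rintro (h | h)
      · exact h3 h
      · exact h5 h
    · rw [card_insert_of_notMem h6]
      have := card_pos.2 h7
      omega
    · show (SH.CC.k2 w w' c (insert c L)).units = _
      simp only [SH.CC.units, CC34.units, erase_insert h6]
  | k11b w w' L => exact ⟨hc, hc, rfl, rfl⟩
  | k11c x y c L =>
    obtain ⟨h1, h2, h3, h4, h5, h6⟩ := id hc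
    refine ⟨⟨h1, ?_, ?_, mem_insert_self _ _⟩, hc, rfl, ?_⟩
    · rw [mem_insert]; rintro (h | h)
      · exact h2 h
      · exact h4 h
    · rw [mem_insert]; rintro (h | h)
      · exact h3 h
      · exact h5 h
    · show (SH.CC.k3c x y c (insert c L)).units = _
      simp only [SH.CC.units, CC34.units, erase_insert h6, insert_comm c y]

theorem main_thm34 [Fintype V] (E : Finset (Sym2 V)) (hE : NoLoop E) :
    (¬ ∃ F ⊆ E, TF F ∧ SH.ShFree F) ↔
    ∃ C : List (CC34 V), (∀ c ∈ C, c.Valid ∧ c.edges ⊆ E) ∧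
      (C.Pairwise fun c c' => Disjoint c.edges c'.edges) ∧
      two ∉ sumU (C.flatMap CC34.units) +
        ∑ e ∈ E.filter (fun e => ∀ c ∈ C, e ∉ c.edges), Ue e := by
  rw [SH.main_thm E hE]
  constructor
  · rintro ⟨C, h1, h2, h3⟩
    have hs : ∀ c ∈ C, Conv_Same c (Conv_to c) := fun c hc => Conv_to_same (h1 c hc).1
    refine ⟨C.map Conv_to, ?_, ?_, ?_⟩
    · intro c hc
      obtain ⟨c', hc', rfl⟩ := List.mem_map.1 hc
      obtain ⟨-, b1, b2, -⟩ := hs c' hc'
      exact ⟨b1, b2 ▸ (h1 c' hc').2⟩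
    · rw [List.pairwise_map]
      refine List.Pairwise.imp_of_mem ?_ h2
      intro a b ha hb hab
      rw [← (hs a ha).2.2.1, ← (hs b hb).2.2.1]
      exact hab
    · have e1 : (C.map Conv_to).flatMap CC34.units = C.flatMap SH.CC.units := by
        rw [List.flatMap_map]
        exact List.flatMap_congr fun c hc => (hs c hc).2.2.2.symm
      obtain ⟨C', hC'⟩ : ∃ C' : List (CC34 V), C' = C.map Conv_to := ⟨_, rfl⟩
      have e2 : E.filter (fun e => ∀ c ∈ C', e ∉ c.edges) =
          E.filter (fun e => ∀ c ∈ C, e ∉ c.clu.edges) := by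
        subst hC'
        refine filter_congr fun e _ => ?_
        constructor
        · intro h c hc
          rw [(hs c hc).2.2.1]
          exact h _ (List.mem_map_of_mem hc)
        · intro h c hc
          obtain ⟨c', hc', rfl⟩ := List.mem_map.1 hc
          rw [← (hs c' hc').2.2.1]
          exact h c' hc'
      rw [e1, ← hC', e2]
      exact h3
  · rintro ⟨C, h1, h2, h3⟩
    have hs : ∀ c ∈ C, Conv_Same (Conv_from c) c := fun c hc => Conv_from_same (h1 c hc).1
    refine ⟨C.map Conv_from, ?_, ?_, ?_⟩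
    · intro c hc
      obtain ⟨c', hc', rfl⟩ := List.mem_map.1 hc
      obtain ⟨b1, -, b2, -⟩ := hs c' hc'
      exact ⟨b1, b2 ▸ (h1 c' hc').2⟩
    · rw [List.pairwise_map]
      refine List.Pairwise.imp_of_mem ?_ h2
      intro a b ha hb hab
      rw [(hs a ha).2.2.1, (hs b hb).2.2.1]
      exact hab
    · have e1 : (C.map Conv_from).flatMap SH.CC.units = C.flatMap CC34.units := by
        rw [List.flatMap_map]
        exact List.flatMap_congr fun c hc => (hs c hc).2.2.2
      obtain ⟨C', hC'⟩ : ∃ C' : List (SH.CC V), C' = C.map Conv_from := ⟨_, rfl⟩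
      have e2 : E.filter (fun e => ∀ c ∈ C', e ∉ c.clu.edges) =
          E.filter (fun e => ∀ c ∈ C, e ∉ c.edges) := by
        subst hC'
        refine filter_congr fun e _ => ?_
        constructor
        · intro h c hc
          rw [← (hs c hc).2.2.1]
          exact h _ (List.mem_map_of_mem hc)
        · intro h c hc
          obtain ⟨c', hc', rfl⟩ := List.mem_map.1 hc
          rw [(hs c' hc').2.2.1]
          exact h c' hc'
      rw [e1, ← hC', e2]
      exact h3

end TF34
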