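import Pool.Agent.TFC.Defs

/-!
2-factors without cycles of length 3 and 4: basic definitions.
-/

set_option autoImplicit false

namespace Pool.Agent.TFC.SH

open Finset
open scoped Pointwise

variable {V : Type*} [DecidableEq V]

/-- the edge set of the triangle `a b c` -/
def tr (a b c : V) : Finset (Sym2 V) := {s(a, b), s(b, c), s(c, a)}

/-- `Q` is the edge set of a triangle -/
def IsTr (Q : Finset (Sym2 V)) : Prop := ∃ a b c, a ≠ b ∧ a ≠ c ∧ b ≠ c ∧ Q = tr a b c

/-- short cycles: triangles and squares -/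
def IsSh (Q : Finset (Sym2 V)) : Prop := IsTr Q ∨ IsSq Q

/-- `z` contains no triangle and no square -/
def ShFree (z : Finset (Sym2 V)) : Prop := ∀ Z, IsSh Z → ¬ Z ⊆ z

/-- all short cycles of `z` are allowed by `al` -/
def Good (al : Finset (Sym2 V) → Prop) (z : Finset (Sym2 V)) : Prop := ∀ Z, IsSh Z → Z ⊆ z → al Z

/-- no short cycle allowed -/
def non : Finset (Sym2 V) → Prop := fun _ => False

/-- degree vectors of the 2-matchings contained in `E` all of whose short cycles are allowed -/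
def JS (E : Finset (Sym2 V)) (al : Finset (Sym2 V) → Prop) : Set (V → ℤ) :=
  {x | ∃ z ⊆ E, M2 z ∧ Good al z ∧ x = dv z}

/-- the vertices of an edge set -/
def vs (Z : Finset (Sym2 V)) : Finset V := Z.biUnion Sym2.toFinset

/-- clusters: a complete graph on 4 vertices; all edges between two centres and a set of leaves; the same together with
the edge between the two centres -/
inductive Clu (V : Type*) where
  | k4 (X : Finset V)
  | k2 (x y : V) (L : Finset V)
  | k3 (x y : V) (L : Finset V)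

/-- the edges of a cluster -/
def Clu.edges : Clu V → Finset (Sym2 V)
  | .k4 X => (TFC.Clu.k4 X).edges
  | .k2 x y L => (TFC.Clu.k2 x y L).edges
  | .k3 x y L => insert s(x, y) (TFC.Clu.k2 x y L).edges

/-- non-degenerate cluster -/
def Clu.Valid : Clu V → Prop
  | .k4 X => #X = 4
  | .k2 x y L => x ≠ y ∧ x ∉ L ∧ y ∉ L ∧ 2 ≤ #L
  | .k3 x y L => x ≠ y ∧ x ∉ L ∧ y ∉ L ∧ L.Nonempty

/-- clusters with a choice -/
inductive CC (V : Type*) where
  | k4 (a b c v : V)
  | k2 (w w' c : V) (L : Finset V)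
  | k3b (w w' : V) (L : Finset V)
  | k3c (x y c : V) (L : Finset V)

/-- forget the choice -/
def CC.clu : CC V → Clu V
  | .k4 a b c v => .k4 {a, b, c, v}
  | .k2 w w' _ L => .k2 w w' L
  | .k3b w w' L => .k3 w w' L
  | .k3c x y _ L => .k3 x y L

/-- non-degenerate cluster with a choice -/
def CC.Valid : CC V → Prop
  | .k4 a b c v => Dist4 a b c v
  | .k2 w w' c L => w ≠ w' ∧ w ∉ L ∧ w' ∉ L ∧ 2 ≤ #L ∧ c ∈ L
  | .k3b w w' L => w ≠ w' ∧ w ∉ L ∧ w' ∉ L ∧ L.Nonempty
  | .k3c x y c L => x ≠ y ∧ x ∉ L ∧ y ∉ L ∧ c ∈ L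

/-- the units of a cluster -/
noncomputable def CC.units : CC V → List (Finset V × Finset V)
  | .k4 a b c v => [({a}, {v}), ({b}, {a, b, v}), ({c}, {a, b, c, v})]
  | .k2 w w' c L => (L.erase c).toList.map (fun l => ({l}, {w, w'})) ++ [({w}, L), ({w'}, {c})]
  | .k3b w w' L => L.toList.map (fun l => ({l}, {w, w'})) ++ [({w}, insert w' L)]
  | .k3c x y c L => (L.erase c).toList.map (fun l => ({l}, {x, y})) ++ [({x}, insert y L), ({y}, {c, x})]

end Pool.Agent.TFC.SH
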