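import Pool.Agent.SQ34.CE

set_option autoImplicit false
set_option linter.unusedSectionVars false

/-! [SQ34-H] Theorem 3'. Adapt Pool/Agent/TFC/Helly.lean (the same for squares only).

PROOF. D inclusion-minimal (e.g. minimal cardinality) among the subsets of S meeting all 2-factors. Q, R ∈ D, Q ≠ R, #(Q ∩ R) = 1:
F with Q the only member of D in F, N with R the only member of D in N. M of `conflict_elim` contains some Z ∈ D; Z is short; Z ⊆ F gives Z = Q,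
not contained in M; Z ⊆ N gives Z = R, same; so Z is the exceptional square, and Z ∈ D. -/

namespace Pool.Agent.TFC.SH

open Finset

variable {V : Type*} [DecidableEq V]

/-- **Theorem 3'** -/
theorem helly (E : Finset (Sym2 V)) (S : Finset (Finset (Sym2 V))) (hS : ∀ Q ∈ S, IsSh Q)
    (h : ∀ F ⊆ E, TF F → ∃ Q ∈ S, Q ⊆ F) :
    ∃ D ⊆ S, (∀ F ⊆ E, TF F → ∃ Q ∈ D, Q ⊆ F) ∧
      ∀ Q ∈ D, ∀ R ∈ D, Q ≠ R → #(Q ∩ R) = 1 → Exc D Q R := by
  classical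
  have hne : (S.powerset.filter fun D => ∀ F ⊆ E, TF F → ∃ Q ∈ D, Q ⊆ F).Nonempty :=
    ⟨S, mem_filter.mpr ⟨mem_powerset.mpr Subset.rfl, h⟩⟩
  obtain ⟨D, hD, hmin⟩ := exists_min_image _ card hne
  rw [mem_filter, mem_powerset] at hD
  obtain ⟨hDS, hDh⟩ := hD
  -- a member of `D` is the only one in some 2-factor
  have key : ∀ Q ∈ D, ∃ F ⊆ E, TF F ∧ Q ⊆ F ∧ ∀ Z ∈ D, Z ⊆ F → Z = Q := by
    intro Q hQ
    have hnot : ¬ ∀ F ⊆ E, TF F → ∃ Z ∈ D.erase Q, Z ⊆ F := by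
      intro hall
      have h1 := hmin (D.erase Q) (mem_filter.mpr
        ⟨mem_powerset.mpr ((erase_subset _ _).trans hDS), hall⟩)
      have h2 := card_erase_lt_of_mem hQ
      omega
    push Not at hnot
    obtain ⟨F, hFE, hF, hFD⟩ := hnot
    obtain ⟨Z, hZ, hZF⟩ := hDh F hFE hF
    have only : ∀ Z ∈ D, Z ⊆ F → Z = Q := by
      intro Z hZ hZF
      by_contra hne
      exact hFD Z (mem_erase.mpr ⟨hne, hZ⟩) hZF
    have hZQ := only Z hZ hZF
    subst hZQ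
    exact ⟨F, hFE, hF, hZF, only⟩
  refine ⟨D, hDS, hDh, ?_⟩
  intro Q hQ R hR _ h1
  obtain ⟨F, hFE, hF, hQF, hFo⟩ := key Q hQ
  obtain ⟨N, hNE, hN, hRN, hNo⟩ := key R hR
  obtain ⟨M, hM, hMT, hQM, hRM, hall⟩ := conflict_elim hF hN (hS Q (hDS hQ)) (hS R (hDS hR)) hQF hRN h1
  obtain ⟨Z, hZ, hZM⟩ := hDh M (hM.trans (union_subset hFE hNE)) hMT
  rcases hall Z (hS Z (hDS hZ)) hZM with h2 | h2 | ⟨x, y, p, r, h2, h3, h4, h5⟩
  · have h3 := hFo Z hZ h2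
    subst h3
    exact absurd hZM hQM
  · have h3 := hNo Z hZ h2
    subst h3
    exact absurd hZM hRM
  · exact ⟨x, y, p, r, h2, h3, h4, h5 ▸ hZ⟩

end Pool.Agent.TFC.SH
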