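import Pool.Agent.SQ34.RJ

set_option autoImplicit false
set_option linter.unusedSectionVars false

/-! [SQ34-K4b] the units of a cluster `K4`: ({a}, {v}), ({b}, {a, b, v}), ({c}, {a, b, c, v}). f = ![a, b, c, v].

PROOF. An element of sumU units is u1 + u2 + u3 (+ 0) with u1 ∈ {0, e_a + e_v}, u2 ∈ {0, e_b + e_a, e_b + e_b, e_b + e_v},
u3 ∈ {0, e_c + e_a, e_c + e_b, e_c + e_c, e_c + e_v}: 40 explicit vectors, all of the form put f ![..].
`units_k4_le`: k ≤ 2. Those of the 40 vectors with all entries ≤ 2: either some entry is 1 (J4: the sum is even), or it is 0, 2e_b, 2e_c or 2e_b + 2e_c, so q 3 = 0.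
`J4_units`: for each of the 26 vectors q with J4 q (order of the coordinates a, b, c, v; x-y means that the unit of x joins y):
 0000 nothing. 1100 b-a. 1010 c-a. 1001 a-v. 0110 c-b. 0101 b-v. 0011 c-v. 1111 a-v, c-b.
 1102 a-v, b-v. 1012 a-v, c-v. 0112 b-v, c-v. 2110 b-a, c-a. 2101 a-v, b-a. 2011 a-v, c-a. 1210 b-a, c-b. 1201 a-v, b-b. 0211 b-v, c-b.
 1120 b-a, c-c. 1021 a-v, c-c. 0121 b-v, c-c. 1122 a-v, b-v, c-c. 1212 a-v, b-b, c-v. 1221 a-v, b-b, c-c. 2112 a-v, b-a, c-v. 2121 a-v, b-a, c-c.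
 2211 a-v, b-a, c-b.  -/

namespace Pool.Agent.TFC.SH

open Finset

variable {V : Type*} [DecidableEq V]

/-- the options of the first unit -/
def K4b_A : Fin 2 → Fin 4 → ℕ := ![![0, 0, 0, 0], ![1, 0, 0, 1]]

/-- the options of the second unit -/
def K4b_B : Fin 4 → Fin 4 → ℕ := ![![0, 0, 0, 0], ![1, 1, 0, 0], ![0, 2, 0, 0], ![0, 1, 0, 1]]

/-- the options of the third unit -/
def K4b_C : Fin 5 → Fin 4 → ℕ :=
  ![![0, 0, 0, 0], ![1, 0, 1, 0], ![0, 1, 1, 0], ![0, 0, 2, 0], ![0, 0, 1, 1]]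

/-- the sum of the options -/
def K4b_S (o1 : Fin 2) (o2 : Fin 4) (o3 : Fin 5) (i : Fin 4) : ℕ :=
  K4b_A o1 i + K4b_B o2 i + K4b_C o3 i

lemma K4b_put (a b c v : V) (q : Fin 4 → ℤ) :
    put ![a, b, c, v] q = q 0 • ev a + q 1 • ev b + q 2 • ev c + q 3 • ev v := by
  funext u
  have h : ∀ i, (if ![a, b, c, v] i = u then q i else 0) = q i * ev (![a, b, c, v] i) u := by
    intro i
    rw [ev_apply]
    by_cases hv : ![a, b, c, v] i = u
    · simp [hv]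
    · rw [if_neg hv, if_neg (fun h => hv h.symm)]; simp
  simp only [put, h, Fin.sum_univ_four, Pi.add_apply, Pi.smul_apply, smul_eq_mul]
  rfl

lemma K4b_UA (a b c v : V) (x : V → ℤ) : x ∈ Un ({a} : Finset V) {v} ↔
    ∃ o : Fin 2, x = put ![a, b, c, v] (fun i => (K4b_A o i : ℤ)) := by
  have e0 : put ![a, b, c, v] (fun i => (K4b_A 0 i : ℤ)) = 0 := by
    rw [K4b_put]; simp [K4b_A]
  have e1 : put ![a, b, c, v] (fun i => (K4b_A 1 i : ℤ)) = ev a + ev v := by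
    rw [K4b_put]; simp [K4b_A]
  constructor
  · rintro (rfl | ⟨s, hs, t, ht, rfl⟩)
    · exact ⟨0, e0.symm⟩
    · rw [mem_singleton] at hs ht
      subst hs ht
      exact ⟨1, e1.symm⟩
  · rintro ⟨o, rfl⟩
    fin_cases o
    · exact Or.inl e0
    · exact Or.inr ⟨a, by simp, v, by simp, e1⟩

lemma K4b_UB (a b c v : V) (x : V → ℤ) : x ∈ Un ({b} : Finset V) {a, b, v} ↔
    ∃ o : Fin 4, x = put ![a, b, c, v] (fun i => (K4b_B o i : ℤ)) := by
  have e0 : put ![a, b, c, v] (fun i => (K4b_B 0 i : ℤ)) = 0 := by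
    rw [K4b_put]; simp [K4b_B]
  have e1 : put ![a, b, c, v] (fun i => (K4b_B 1 i : ℤ)) = ev b + ev a := by
    rw [K4b_put]; simp [K4b_B, add_comm]
  have e2 : put ![a, b, c, v] (fun i => (K4b_B 2 i : ℤ)) = ev b + ev b := by
    rw [K4b_put]
    show ((0 : ℕ) : ℤ) • ev a + ((2 : ℕ) : ℤ) • ev b + ((0 : ℕ) : ℤ) • ev c +
      ((0 : ℕ) : ℤ) • ev v = _
    push_cast
    module
  have e3 : put ![a, b, c, v] (fun i => (K4b_B 3 i : ℤ)) = ev b + ev v := by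
    rw [K4b_put]; simp [K4b_B]
  constructor
  · rintro (rfl | ⟨s, hs, t, ht, rfl⟩)
    · exact ⟨0, e0.symm⟩
    · rw [mem_singleton] at hs
      subst hs
      simp only [mem_insert, mem_singleton] at ht
      rcases ht with rfl | rfl | rfl
      · exact ⟨1, e1.symm⟩
      · exact ⟨2, e2.symm⟩
      · exact ⟨3, e3.symm⟩
  · rintro ⟨o, rfl⟩
    fin_cases o
    · exact Or.inl e0
    · exact Or.inr ⟨b, by simp, a, by simp, e1⟩
    · exact Or.inr ⟨b, by simp, b, by simp, e2⟩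
    · exact Or.inr ⟨b, by simp, v, by simp, e3⟩

lemma K4b_UC (a b c v : V) (x : V → ℤ) : x ∈ Un ({c} : Finset V) {a, b, c, v} ↔
    ∃ o : Fin 5, x = put ![a, b, c, v] (fun i => (K4b_C o i : ℤ)) := by
  have e0 : put ![a, b, c, v] (fun i => (K4b_C 0 i : ℤ)) = 0 := by
    rw [K4b_put]; simp [K4b_C]
  have e1 : put ![a, b, c, v] (fun i => (K4b_C 1 i : ℤ)) = ev c + ev a := by
    rw [K4b_put]; simp [K4b_C, add_comm]
  have e2 : put ![a, b, c, v] (fun i => (K4b_C 2 i : ℤ)) = ev c + ev b := by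
    rw [K4b_put]; simp [K4b_C, add_comm]
  have e3 : put ![a, b, c, v] (fun i => (K4b_C 3 i : ℤ)) = ev c + ev c := by
    rw [K4b_put]
    show ((0 : ℕ) : ℤ) • ev a + ((0 : ℕ) : ℤ) • ev b + ((2 : ℕ) : ℤ) • ev c +
      ((0 : ℕ) : ℤ) • ev v = _
    push_cast
    module
  have e4 : put ![a, b, c, v] (fun i => (K4b_C 4 i : ℤ)) = ev c + ev v := by
    rw [K4b_put]; simp [K4b_C]
  constructor
  · rintro (rfl | ⟨s, hs, t, ht, rfl⟩)
    · exact ⟨0, e0.symm⟩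
    · rw [mem_singleton] at hs
      subst hs
      simp only [mem_insert, mem_singleton] at ht
      rcases ht with rfl | rfl | rfl | rfl
      · exact ⟨1, e1.symm⟩
      · exact ⟨2, e2.symm⟩
      · exact ⟨3, e3.symm⟩
      · exact ⟨4, e4.symm⟩
  · rintro ⟨o, rfl⟩
    fin_cases o
    · exact Or.inl e0
    · exact Or.inr ⟨c, by simp, a, by simp, e1⟩
    · exact Or.inr ⟨c, by simp, b, by simp, e2⟩
    · exact Or.inr ⟨c, by simp, c, by simp, e3⟩
    · exact Or.inr ⟨c, by simp, v, by simp, e4⟩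

lemma K4b_sum (f : Fin 4 → V) (o1 : Fin 2) (o2 : Fin 4) (o3 : Fin 5) :
    put f (fun i => (K4b_S o1 o2 o3 i : ℤ)) = put f (fun i => (K4b_A o1 i : ℤ)) +
      (put f (fun i => (K4b_B o2 i : ℤ)) + (put f (fun i => (K4b_C o3 i : ℤ)) + 0)) := by
  rw [add_zero, ← put_add, ← put_add]
  congr 1
  funext i
  simp only [K4b_S, Pi.add_apply]
  push_cast
  ring

open scoped Pointwise in
lemma K4b_mem (a b c v : V) (k : V → ℤ) : k ∈ sumU (CC.k4 a b c v).units ↔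
    ∃ o1 o2 o3, k = put ![a, b, c, v] (fun i => (K4b_S o1 o2 o3 i : ℤ)) := by
  rw [CC.units, sumU, sumU, sumU, sumU]
  constructor
  · intro hk
    obtain ⟨x, hx, r, hr, rfl⟩ := Set.mem_add.mp hk
    obtain ⟨y, hy, r', hr', rfl⟩ := Set.mem_add.mp hr
    obtain ⟨z, hz, w, hw, rfl⟩ := Set.mem_add.mp hr'
    rw [Set.mem_singleton_iff] at hw
    subst hw
    obtain ⟨o1, rfl⟩ := (K4b_UA a b c v x).mp hx
    obtain ⟨o2, rfl⟩ := (K4b_UB a b c v y).mp hy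
    obtain ⟨o3, rfl⟩ := (K4b_UC a b c v z).mp hz
    exact ⟨o1, o2, o3, (K4b_sum _ o1 o2 o3).symm⟩
  · rintro ⟨o1, o2, o3, rfl⟩
    rw [K4b_sum]
    exact Set.add_mem_add ((K4b_UA a b c v _).mpr ⟨o1, rfl⟩) (Set.add_mem_add
      ((K4b_UB a b c v _).mpr ⟨o2, rfl⟩) (Set.add_mem_add
      ((K4b_UC a b c v _).mpr ⟨o3, rfl⟩) (Set.mem_singleton _)))

set_option maxRecDepth 100000 in
lemma K4b_dec1 : ∀ r0 r1 r2 r3 : Fin 3, (r0.val + r1.val + r2.val + r3.val) % 2 = 0 →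
    (r0.val = 1 ∨ r1.val = 1 ∨ r2.val = 1 ∨ r3.val = 1) →
    ∃ (o1 : Fin 2) (o2 : Fin 4) (o3 : Fin 5), K4b_S o1 o2 o3 0 = r0.val ∧
      K4b_S o1 o2 o3 1 = r1.val ∧ K4b_S o1 o2 o3 2 = r2.val ∧ K4b_S o1 o2 o3 3 = r3.val := by
  decide

set_option maxRecDepth 100000 in
lemma K4b_dec2 : ∀ (o1 : Fin 2) (o2 : Fin 4) (o3 : Fin 5), (∀ i, K4b_S o1 o2 o3 i ≤ 2) →
    (∃ i, K4b_S o1 o2 o3 i = 1) ∨
      ((∀ i, K4b_S o1 o2 o3 i = 0 ∨ K4b_S o1 o2 o3 i = 2) ∧ K4b_S o1 o2 o3 3 = 0) := by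
  decide

set_option maxRecDepth 100000 in
lemma K4b_dec3 : ∀ (o1 : Fin 2) (o2 : Fin 4) (o3 : Fin 5),
    (K4b_S o1 o2 o3 0 + K4b_S o1 o2 o3 1 + K4b_S o1 o2 o3 2 + K4b_S o1 o2 o3 3) % 2 = 0 := by
  decide

lemma K4b_fin {x : ℤ} (h : x = 0 ∨ x = 1 ∨ x = 2) : ∃ r : Fin 3, x = (r.val : ℤ) := by
  rcases h with rfl | rfl | rfl
  · exact ⟨0, rfl⟩
  · exact ⟨1, rfl⟩
  · exact ⟨2, rfl⟩

lemma K4b_inj {a b c v : V} (h : Dist4 a b c v) : Function.Injective ![a, b, c, v] := by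
  obtain ⟨h1, h2, h3, h4, h5, h6⟩ := h
  intro i j hij
  fin_cases i <;> fin_cases j <;> first | rfl | (exfalso; simp at hij; first
    | exact h1 hij | exact h2 hij | exact h3 hij | exact h4 hij | exact h5 hij
    | exact h6 hij | exact h1 hij.symm | exact h2 hij.symm | exact h3 hij.symm
    | exact h4 hij.symm | exact h5 hij.symm | exact h6 hij.symm)

theorem J4_units {a b c v : V} (h : Dist4 a b c v) {q : Fin 4 → ℤ} (hq : J4 q) :
    put ![a, b, c, v] q ∈ sumU (CC.k4 a b c v).units := by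
  rw [K4b_mem]
  rcases hq with rfl | ⟨h1, h2, h3⟩
  · refine ⟨0, 0, 0, ?_⟩
    congr 1
    funext i
    fin_cases i <;> rfl
  · obtain ⟨r0, hr0⟩ := K4b_fin (h1 0)
    obtain ⟨r1, hr1⟩ := K4b_fin (h1 1)
    obtain ⟨r2, hr2⟩ := K4b_fin (h1 2)
    obtain ⟨r3, hr3⟩ := K4b_fin (h1 3)
    have e1 : (r0.val + r1.val + r2.val + r3.val) % 2 = 0 := by
      rw [Fin.sum_univ_four, hr0, hr1, hr2, hr3] at h2
      have h4 : Even (r0.val + r1.val + r2.val + r3.val) := by exact_mod_cast h2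
      exact Nat.even_iff.mp h4
    have e2 : r0.val = 1 ∨ r1.val = 1 ∨ r2.val = 1 ∨ r3.val = 1 := by
      obtain ⟨i, hi⟩ := h3
      fin_cases i
      · left
        have : ((r0.val : ℕ) : ℤ) = 1 := by rw [← hr0]; exact hi
        exact_mod_cast this
      · right; left
        have : ((r1.val : ℕ) : ℤ) = 1 := by rw [← hr1]; exact hi
        exact_mod_cast this
      · right; right; left
        have : ((r2.val : ℕ) : ℤ) = 1 := by rw [← hr2]; exact hi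
        exact_mod_cast this
      · right; right; right
        have : ((r3.val : ℕ) : ℤ) = 1 := by rw [← hr3]; exact hi
        exact_mod_cast this
    obtain ⟨o1, o2, o3, g0, g1, g2, g3⟩ := K4b_dec1 r0 r1 r2 r3 e1 e2
    refine ⟨o1, o2, o3, ?_⟩
    congr 1
    funext i
    fin_cases i
    · exact hr0.trans (by exact_mod_cast g0.symm)
    · exact hr1.trans (by exact_mod_cast g1.symm)
    · exact hr2.trans (by exact_mod_cast g2.symm)
    · exact hr3.trans (by exact_mod_cast g3.symm)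

theorem units_k4_le {a b c v : V} (h : Dist4 a b c v) {k : V → ℤ} (hk : k ∈ sumU (CC.k4 a b c v).units)
    (h2 : ∀ u, k u ≤ 2) : ∃ q, k = put ![a, b, c, v] q ∧ (J4 q ∨ ((∀ i, q i = 0 ∨ q i = 2) ∧ q 3 = 0)) := by
  rw [K4b_mem] at hk
  obtain ⟨o1, o2, o3, rfl⟩ := hk
  refine ⟨_, rfl, ?_⟩
  have h3 : ∀ i, K4b_S o1 o2 o3 i ≤ 2 := by
    intro i
    have h4 := h2 (![a, b, c, v] i)
    rw [put_apply (K4b_inj h)] at h4
    exact_mod_cast h4
  rcases K4b_dec2 o1 o2 o3 h3 with ⟨i, hi⟩ | ⟨h4, h5⟩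
  · left
    right
    refine ⟨fun j => ?_, ?_, i, ?_⟩
    · have h5 := h3 j
      have h6 : K4b_S o1 o2 o3 j = 0 ∨ K4b_S o1 o2 o3 j = 1 ∨ K4b_S o1 o2 o3 j = 2 := by omega
      show ((K4b_S o1 o2 o3 j : ℕ) : ℤ) = 0 ∨ ((K4b_S o1 o2 o3 j : ℕ) : ℤ) = 1 ∨
        ((K4b_S o1 o2 o3 j : ℕ) : ℤ) = 2
      rcases h6 with h6 | h6 | h6
      · left; exact_mod_cast h6
      · right; left; exact_mod_cast h6
      · right; right; exact_mod_cast h6
    · rw [Fin.sum_univ_four]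
      have h5 : Even (K4b_S o1 o2 o3 0 + K4b_S o1 o2 o3 1 + K4b_S o1 o2 o3 2 +
          K4b_S o1 o2 o3 3) := Nat.even_iff.mpr (K4b_dec3 o1 o2 o3)
      exact_mod_cast h5
    · show ((K4b_S o1 o2 o3 i : ℕ) : ℤ) = 1
      exact_mod_cast hi
  · right
    refine ⟨fun j => ?_, by exact_mod_cast h5⟩
    rcases h4 j with h6 | h6
    · left; exact_mod_cast h6
    · right; exact_mod_cast h6

end Pool.Agent.TFC.SH
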