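import Pool.Agent.SQ34.K4a
import Pool.Agent.SQ34.K4b

set_option autoImplicit false
set_option linter.unusedSectionVars false

/-! [SQ34-K4] relaxation of a cluster `K4`.

PROOF of `JS_units_k4`: `mem_JS_k4`, `J4_units`.
PROOF of `relax_k4`: X = {x0, x1, x2, x3} (`card_eq_four`), f = ![x0, x1, x2, x3]. P := {q | two - put f q ∈ A} is a jump set (`Jump.pull_neg`), and J4 q → q ∉ P
(`mem_JS_k4`, h). `jump_k4` gives j. By symmetry of the roles choose a, b, c, v with {a, b, c, v} = X and v = x_j (four cases: (x1,x2,x3,x0), (x0,x2,x3,x1),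
(x0,x1,x3,x2), (x0,x1,x2,x3); or first apply everything to a permuted enumeration). cc = k4 a b c v. For k ∈ sumU units, k ≤ 2, two - k ∈ A: `units_k4_le` gives
k = put ![a,b,c,v] q; J4 q is impossible by `mem_JS_k4` and h; otherwise the entries are 0 or 2 and q 3 = 0, i.e. k v = 0; k = put f q' with q' the permuted
vector, q' ∈ P, q' entries 0 or 2, q' j = 0 ≠ 2, contradiction to `jump_k4`. -/

namespace Pool.Agent.TFC.SH

open Finset

variable {V : Type*} [DecidableEq V]

private lemma K4_dist {g : Fin 4 → V} (hg : Function.Injective g) : Dist4 (g 0) (g 1) (g 2) (g 3) :=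
  ⟨hg.ne (by decide), hg.ne (by decide), hg.ne (by decide), hg.ne (by decide), hg.ne (by decide),
    hg.ne (by decide)⟩

private lemma K4_eta (g : Fin 4 → V) : ![g 0, g 1, g 2, g 3] = g := by
  funext i
  fin_cases i <;> rfl

private lemma K4_set (g : Fin 4 → V) : ({g 0, g 1, g 2, g 3} : Finset V) = Finset.univ.image g := by
  ext u
  simp only [mem_insert, mem_singleton, mem_image, mem_univ, true_and]
  constructor
  · rintro (rfl | rfl | rfl | rfl)
    · exact ⟨0, rfl⟩
    · exact ⟨1, rfl⟩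
    · exact ⟨2, rfl⟩
    · exact ⟨3, rfl⟩
  · rintro ⟨i, rfl⟩
    fin_cases i <;> simp

private lemma K4_perm (f : Fin 4 → V) (σ : Equiv.Perm (Fin 4)) (q : Fin 4 → ℤ) :
    put (f ∘ σ) q = put f (q ∘ σ.symm) := by
  funext u
  unfold put
  rw [← Equiv.sum_comp σ (fun i => if f i = u then (q ∘ σ.symm) i else 0)]
  simp

theorem JS_units_k4 {a b c v : V} (h : (CC.k4 a b c v).Valid) :
    JS (CC.k4 a b c v).clu.edges non ⊆ sumU (CC.k4 a b c v).units := by
  intro k hk
  obtain ⟨q, hq, rfl⟩ := (mem_JS_k4 h k).1 hk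
  exact J4_units h hq

theorem relax_k4 {X : Finset V} (hX : (Clu.k4 X).Valid) {A : Set (V → ℤ)} (hA : Jump A)
    (h : ∀ k ∈ JS (Clu.k4 X).edges non, two - k ∉ A) :
    ∃ cc : CC V, cc.Valid ∧ cc.clu.edges = (Clu.k4 X).edges ∧
      ∀ k ∈ sumU cc.units, (∀ v, k v ≤ 2) → two - k ∉ A := by
  classical
  have hX4 : #X = 4 := hX
  let e : X ≃ Fin 4 := X.equivFinOfCardEq hX4
  let f : Fin 4 → V := fun i => (e.symm i : V)
  have hf : Function.Injective f := fun i j hij => e.symm.injective (Subtype.ext hij)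
  have hfX : Finset.univ.image f = X := by
    ext u
    simp only [mem_image, mem_univ, true_and]
    constructor
    · rintro ⟨i, rfl⟩
      exact (e.symm i).2
    · intro hu
      refine ⟨e ⟨u, hu⟩, ?_⟩
      show ((e.symm (e ⟨u, hu⟩) : X) : V) = u
      rw [Equiv.symm_apply_apply]
  have key : ∀ (g : Fin 4 → V), Function.Injective g → Finset.univ.image g = X → ∀ q, J4 q →
      two - put g q ∉ A := by
    intro g hg hgX q hq
    apply h
    have h1 := (mem_JS_k4 (K4_dist hg) (put g q)).2 ⟨q, hq, by rw [K4_eta]⟩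
    rw [K4_set g, hgX] at h1
    exact h1
  obtain ⟨j, hj⟩ := jump_k4 (Jump.pull_neg hf two hA) fun q hq => key f hf hfX q hq
  let σ : Equiv.Perm (Fin 4) := Equiv.swap 3 j
  have hσ : σ.symm j = 3 := by
    show (Equiv.swap 3 j).symm j = 3
    rw [Equiv.symm_swap, Equiv.swap_apply_right]
  have hg : Function.Injective (f ∘ σ) := hf.comp σ.injective
  have hgX : Finset.univ.image (f ∘ σ) = X := by
    rw [← hfX]
    ext u
    simp only [mem_image, mem_univ, true_and, Function.comp_apply]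
    constructor
    · rintro ⟨i, rfl⟩
      exact ⟨σ i, rfl⟩
    · rintro ⟨i, rfl⟩
      exact ⟨σ.symm i, by rw [Equiv.apply_symm_apply]⟩
  refine ⟨CC.k4 ((f ∘ σ) 0) ((f ∘ σ) 1) ((f ∘ σ) 2) ((f ∘ σ) 3), K4_dist hg, ?_, ?_⟩
  · show (Clu.k4 {(f ∘ σ) 0, (f ∘ σ) 1, (f ∘ σ) 2, (f ∘ σ) 3}).edges = (Clu.k4 X).edges
    rw [K4_set (f ∘ σ), hgX]
  · intro k hk hk2 hkA
    obtain ⟨q, rfl, hq⟩ := units_k4_le (K4_dist hg) hk hk2
    rw [K4_eta] at hkA
    rcases hq with hq | ⟨hq1, hq2⟩
    · exact key (f ∘ σ) hg hgX q hq hkA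
    · rw [K4_perm] at hkA
      have h1 := hj (q ∘ σ.symm) hkA fun i => hq1 (σ.symm i)
      rw [Function.comp_apply, hσ, hq2] at h1
      exact absurd h1 (by decide)

end Pool.Agent.TFC.SH
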