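import Pool.Agent.SQ34.RJ

set_option autoImplicit false
set_option linter.unusedSectionVars false

/-! [SQ34-K4a] the jump set of a cluster `K4`. `put` is in Pool/Agent/TFC/Mink.lean (`put_apply`, `put_of_not`), `put4` in CE0.lean can be copied.

PROOF. Let f = ![a, b, c, v] (injective).
Transfer to `Fin 4` is convenient: for z' : Finset (Sym2 (Fin 4)) without loops put z := z'.image (Sym2.map f). Then
dg z (f i) = dg z' i and dg z u = 0 for u not in the range, so dv z = put f (dv z'); z ⊆ (Clu.k4 {a,b,c,v}).edges; z is without loops; a triangle / a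
square of z is the image of one of z'. Every z ⊆ (Clu.k4 ..).edges is of this form.
So both directions reduce to statements on the 2^6 sets of edges of the complete graph on Fin 4, which `decide` can check, e.g.
  (→) ∀ z' ∈ powerset of the 6 edges, all degrees ≤ 2 → no triangle, no square → J4 (degree vector); (if some degree is odd everything is clear
      since the sum of the degrees is even; if all degrees are 0 or 2 and z' ≠ ∅ then z' has exactly 3 or 4 edges and is a triangle or a square);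
  (←) for each of the 26 vectors q with J4 q there is z': 0: ∅; two entries 1, others 0: the edge; all four entries 1: two disjoint edges; entries
      1, 1, 2, 0: the path with two edges, centre the entry 2; entries 1, 1, 2, 2: the path with three edges.
Any other proof is fine as well (e.g. by hand with `Sym2` cases; `R4_card_le` in Pool/Agent/TFC/R4.lean shows a way). -/

namespace Pool.Agent.TFC.SH

open Finset

variable {V : Type*} [DecidableEq V]


private lemma K4a_mem_edges {X : Finset V} {a b : V} :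
    s(a, b) ∈ (Clu.k4 X).edges ↔ a ∈ X ∧ b ∈ X ∧ a ≠ b := by
  simp only [Clu.edges, TFC.Clu.edges, mem_filter, mk_mem_sym2_iff, Sym2.mk_isDiag_iff, and_assoc]

/-- the vector of an edge -/
private def K4a_es : Sym2 V → (V → ℤ) := Sym2.lift ⟨fun a b => ev a + ev b, fun _ _ => add_comm _ _⟩

private lemma K4a_es_mk (a b : V) : K4a_es s(a, b) = ev a + ev b := rfl

private lemma K4a_dv_empty : dv (∅ : Finset (Sym2 V)) = 0 := by
  funext v; simp [dv, dg]

private lemma K4a_dv_eq_sum {z : Finset (Sym2 V)} (hz : NoLoop z) : dv z = ∑ e ∈ z, K4a_es e := by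
  induction z using Finset.induction_on with
  | empty => simp [K4a_dv_empty]
  | insert e z he ih =>
    induction e using Sym2.ind with
    | _ a b =>
      have hab : a ≠ b := hz.ne (mem_insert_self _ _)
      rw [dv_insert hab he, sum_insert he, ih (hz.mono (subset_insert _ _)), K4a_es_mk]
      abel

private lemma K4a_put4 (f : Fin 4 → V) (k : Fin 4 → ℤ) (v : V) :
    put f k v = k 0 * ev (f 0) v + k 1 * ev (f 1) v + k 2 * ev (f 2) v + k 3 * ev (f 3) v := by
  have h : ∀ i, (if f i = v then k i else 0) = k i * ev (f i) v := by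
    intro i
    rw [ev_apply]
    by_cases hv : f i = v
    · simp [hv]
    · rw [if_neg hv, if_neg (fun h => hv h.symm)]; simp
  simp only [put, h, Fin.sum_univ_four]

/-- the six edges -/
private def K4a_e (a b c v : V) : Fin 6 → Sym2 V :=
  ![s(a, b), s(a, c), s(a, v), s(b, c), s(b, v), s(c, v)]

private lemma K4a_inj {a b c v : V} (h : Dist4 a b c v) : Function.Injective (K4a_e a b c v) := by
  obtain ⟨hab, hac, had, hbc, hbd, hcd⟩ := h
  intro i j hij
  fin_cases i <;> fin_cases j <;>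
    simp [K4a_e, hab, hac, had, hbc, hbd, hcd, hab.symm, hac.symm, had.symm, hbc.symm,
      hbd.symm, hcd.symm] at hij ⊢

/-- the edge set of the bits -/
private def K4a_z (a b c v : V) (β : Fin 6 → Bool) : Finset (Sym2 V) :=
  (univ.filter (fun i => β i = true)).image (K4a_e a b c v)

/-- the degrees of the bits -/
private def K4a_d (β : Fin 6 → Bool) : Fin 4 → ℕ :=
  ![(β 0).toNat + (β 1).toNat + (β 2).toNat, (β 0).toNat + (β 3).toNat + (β 4).toNat,
    (β 1).toNat + (β 3).toNat + (β 5).toNat, (β 2).toNat + (β 4).toNat + (β 5).toNat]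

private lemma K4a_mem {a b c v : V} (h : Dist4 a b c v) (β : Fin 6 → Bool) (i : Fin 6) :
    K4a_e a b c v i ∈ K4a_z a b c v β ↔ β i = true := by
  unfold K4a_z
  rw [mem_image]
  constructor
  · rintro ⟨j, hj, hji⟩
    rw [mem_filter] at hj
    rw [← K4a_inj h hji]
    exact hj.2
  · intro hi
    exact ⟨i, by simp [hi], rfl⟩

private lemma K4a_e_mem {a b c v : V} (h : Dist4 a b c v) (i : Fin 6) :
    K4a_e a b c v i ∈ (Clu.k4 {a, b, c, v}).edges := by
  obtain ⟨hab, hac, had, hbc, hbd, hcd⟩ := h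
  fin_cases i <;> simp [K4a_e, K4a_mem_edges, hab, hac, had, hbc, hbd, hcd]

private lemma K4a_sub {a b c v : V} (h : Dist4 a b c v) (β : Fin 6 → Bool) :
    K4a_z a b c v β ⊆ (Clu.k4 {a, b, c, v}).edges := by
  intro e he
  obtain ⟨i, -, rfl⟩ := mem_image.mp he
  exact K4a_e_mem h i

private lemma K4a_ex {a b c v : V} (h : Dist4 a b c v) {z : Finset (Sym2 V)}
    (hz : z ⊆ (Clu.k4 {a, b, c, v}).edges) : ∃ β, z = K4a_z a b c v β := by
  refine ⟨fun i => decide (K4a_e a b c v i ∈ z), ?_⟩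
  ext e
  constructor
  · intro he
    have h1 := hz he
    have h2 : ∃ i, K4a_e a b c v i = e := by
      induction e using Sym2.ind with
      | _ p q =>
        rw [K4a_mem_edges] at h1
        obtain ⟨hu, hv, huv⟩ := h1
        simp only [mem_insert, mem_singleton] at hu hv
        have e0 : K4a_e a b c v 0 = s(a, b) := rfl
        have e1 : K4a_e a b c v 1 = s(a, c) := rfl
        have e2 : K4a_e a b c v 2 = s(a, v) := rfl
        have e3 : K4a_e a b c v 3 = s(b, c) := rfl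
        have e4 : K4a_e a b c v 4 = s(b, v) := rfl
        have e5 : K4a_e a b c v 5 = s(c, v) := rfl
        rcases hu with rfl | rfl | rfl | rfl <;> rcases hv with rfl | rfl | rfl | rfl <;>
          first
          | exact absurd rfl huv
          | exact ⟨0, e0⟩
          | exact ⟨1, e1⟩
          | exact ⟨2, e2⟩
          | exact ⟨3, e3⟩
          | exact ⟨4, e4⟩
          | exact ⟨5, e5⟩
          | exact ⟨0, e0.trans Sym2.eq_swap⟩
          | exact ⟨1, e1.trans Sym2.eq_swap⟩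
          | exact ⟨2, e2.trans Sym2.eq_swap⟩
          | exact ⟨3, e3.trans Sym2.eq_swap⟩
          | exact ⟨4, e4.trans Sym2.eq_swap⟩
          | exact ⟨5, e5.trans Sym2.eq_swap⟩
    obtain ⟨i, rfl⟩ := h2
    rw [K4a_mem h]
    simpa using he
  · intro he
    obtain ⟨i, hi, rfl⟩ := mem_image.mp he
    rw [mem_filter] at hi
    simpa using hi.2

private lemma K4a_noLoop {a b c v : V} (h : Dist4 a b c v) (β : Fin 6 → Bool) :
    NoLoop (K4a_z a b c v β) := by
  intro e he
  have := K4a_sub h β he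
  exact (mem_filter.mp this).2

private lemma K4a_dv {a b c v : V} (h : Dist4 a b c v) (β : Fin 6 → Bool) :
    dv (K4a_z a b c v β) = put ![a, b, c, v] (fun j => ((K4a_d β j : ℕ) : ℤ)) := by
  rw [K4a_dv_eq_sum (K4a_noLoop h β)]
  unfold K4a_z
  rw [sum_image (fun i _ j _ hij => K4a_inj h hij), sum_filter]
  funext u
  rw [K4a_put4, Finset.sum_apply]
  have hb : ∀ i, (if β i = true then K4a_es (K4a_e a b c v i) else 0 : V → ℤ) u =
      ((β i).toNat : ℤ) * K4a_es (K4a_e a b c v i) u := by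
    intro i
    cases β i <;> simp
  simp only [hb, Fin.sum_univ_six]
  simp only [K4a_e, K4a_d, Matrix.cons_val, K4a_es_mk, Pi.add_apply]
  push_cast
  ring

private lemma K4a_bits1 (b0 b1 b2 b3 b4 b5 : Bool)
    (d0 : b0.toNat + b1.toNat + b2.toNat ≤ 2) (d1 : b0.toNat + b3.toNat + b4.toNat ≤ 2)
    (d2 : b1.toNat + b3.toNat + b5.toNat ≤ 2) (d3 : b2.toNat + b4.toNat + b5.toNat ≤ 2)
    (t0 : ¬ (b0 = true ∧ b3 = true ∧ b1 = true)) (t1 : ¬ (b0 = true ∧ b4 = true ∧ b2 = true))
    (t2 : ¬ (b1 = true ∧ b5 = true ∧ b2 = true)) (t3 : ¬ (b3 = true ∧ b5 = true ∧ b4 = true))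
    (s0 : ¬ (b0 = true ∧ b3 = true ∧ b5 = true ∧ b2 = true))
    (s1 : ¬ (b0 = true ∧ b4 = true ∧ b5 = true ∧ b1 = true))
    (s2 : ¬ (b1 = true ∧ b3 = true ∧ b4 = true ∧ b2 = true)) :
    (b0 = false ∧ b1 = false ∧ b2 = false ∧ b3 = false ∧ b4 = false ∧ b5 = false) ∨
      b0.toNat + b1.toNat + b2.toNat = 1 ∨ b0.toNat + b3.toNat + b4.toNat = 1 ∨
      b1.toNat + b3.toNat + b5.toNat = 1 ∨ b2.toNat + b4.toNat + b5.toNat = 1 := by
  cases b0 <;> cases b1 <;> cases b2 <;> cases b3 <;> cases b4 <;> cases b5 <;> simp_all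

private lemma K4a_dec1 (β : Fin 6 → Bool) (hd : ∀ j, K4a_d β j ≤ 2)
    (t0 : ¬ (β 0 = true ∧ β 3 = true ∧ β 1 = true)) (t1 : ¬ (β 0 = true ∧ β 4 = true ∧ β 2 = true))
    (t2 : ¬ (β 1 = true ∧ β 5 = true ∧ β 2 = true)) (t3 : ¬ (β 3 = true ∧ β 5 = true ∧ β 4 = true))
    (s0 : ¬ (β 0 = true ∧ β 3 = true ∧ β 5 = true ∧ β 2 = true))
    (s1 : ¬ (β 0 = true ∧ β 4 = true ∧ β 5 = true ∧ β 1 = true))
    (s2 : ¬ (β 1 = true ∧ β 3 = true ∧ β 4 = true ∧ β 2 = true)) :
    (∀ j, K4a_d β j = 0) ∨ ∃ j, K4a_d β j = 1 := by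
  rcases K4a_bits1 (β 0) (β 1) (β 2) (β 3) (β 4) (β 5) (hd 0) (hd 1) (hd 2) (hd 3) t0 t1 t2 t3 s0 s1 s2 with
    ⟨h0, h1, h2, h3, h4, h5⟩ | h | h | h | h
  · left
    intro j
    fin_cases j <;> simp [K4a_d, h0, h1, h2, h3, h4, h5]
  · exact Or.inr ⟨0, h⟩
  · exact Or.inr ⟨1, h⟩
  · exact Or.inr ⟨2, h⟩
  · exact Or.inr ⟨3, h⟩

private lemma K4a_dec2 : ∀ q0 q1 q2 q3 : Fin 3,
    Even ((q0 : ℕ) + q1 + q2 + q3) → ((q0 : ℕ) = 1 ∨ (q1 : ℕ) = 1 ∨ (q2 : ℕ) = 1 ∨ (q3 : ℕ) = 1) →
    ∃ β : Fin 6 → Bool, K4a_d β 0 = q0 ∧ K4a_d β 1 = q1 ∧ K4a_d β 2 = q2 ∧ K4a_d β 3 = q3 := by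
  decide

/-- a 2-matching of the complete graph on four vertices with a vertex of degree 1 has no short cycle -/
private lemma K4a_good {a b c v : V} {z : Finset (Sym2 V)}
    (hz : z ⊆ (Clu.k4 {a, b, c, v}).edges) (hM : M2 z) {u : V} (hu : dg z u = 1) : Good non z := by
  intro Z hZ hs
  obtain ⟨w, hw⟩ := exists_nbr (z := z) (v := u) (by omega)
  have huZ : u ∉ vs Z := by
    intro h1
    obtain ⟨p, q, hpq, hp, hq⟩ := hZ.two h1
    have := dg_ge_two (hs hp) (hs hq) hpq
    omega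
  have hwZ : w ∉ vs Z := fun h1 => huZ (hZ.closed' hM hs h1 (msw hw))
  obtain ⟨hu4, hw4, huw⟩ := K4a_mem_edges.mp (hz hw)
  have hsub : vs Z ⊆ (({a, b, c, v} : Finset V).erase u).erase w := by
    intro x hx
    rw [mem_erase, mem_erase]
    refine ⟨fun h => hwZ (h ▸ hx), fun h => huZ (h ▸ hx), ?_⟩
    obtain ⟨y, hy⟩ := mem_vs.1 hx
    exact (K4a_mem_edges.mp (hz (hs hy))).1
  have hc1 := card_le_card hsub
  rw [card_erase_of_mem (mem_erase.2 ⟨huw.symm, hw4⟩), card_erase_of_mem hu4] at hc1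
  have hc2 : #({a, b, c, v} : Finset V) ≤ 4 := card_le_four
  have hc3 : 3 ≤ #(vs Z) := by
    rcases hZ with ⟨p, q, r, h1, h2, h3, rfl⟩ | ⟨p, q, r, t, ⟨h1, h2, h3, h4, h5, h6⟩, rfl⟩
    · rw [vs_tr, card_eq_three.2 ⟨p, q, r, h1, h2, h3, rfl⟩]
    · rw [vs_sq]
      have : #({p, q, r} : Finset V) ≤ #({p, q, r, t} : Finset V) := card_le_card (by
        intro x hx; simp only [mem_insert, mem_singleton] at hx ⊢; tauto)
      rwa [card_eq_three.2 ⟨p, q, r, h1, h2, h4, rfl⟩] at this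
  omega

theorem mem_JS_k4 {a b c v : V} (h : Dist4 a b c v) (k : V → ℤ) :
    k ∈ JS (Clu.k4 {a, b, c, v}).edges non ↔ ∃ q, J4 q ∧ k = put ![a, b, c, v] q := by
  have hf : Function.Injective ![a, b, c, v] := by
    obtain ⟨hab, hac, had, hbc, hbd, hcd⟩ := h
    intro i j hij
    fin_cases i <;> fin_cases j <;>
      simp [hab, hac, had, hbc, hbd, hcd, hab.symm, hac.symm, had.symm, hbc.symm,
        hbd.symm, hcd.symm] at hij ⊢
  constructor
  · rintro ⟨z, hz, hM, hG, rfl⟩
    obtain ⟨β, rfl⟩ := K4a_ex h hz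
    refine ⟨_, ?_, K4a_dv h β⟩
    have hd : ∀ j, K4a_d β j ≤ 2 := by
      intro j
      have h1 := hM.le (![a, b, c, v] j)
      have h2 := congrFun (K4a_dv h β) (![a, b, c, v] j)
      rw [put_apply hf, dv_apply] at h2
      omega
    have hmem : ∀ i, β i = true → K4a_e a b c v i ∈ K4a_z a b c v β := fun i hi => (K4a_mem h β i).2 hi
    obtain ⟨hab, hac, had, hbc, hbd, hcd⟩ := h
    have hsq : ∀ {p q r t : V}, Dist4 p q r t → s(p, q) ∈ K4a_z a b c v β →
        s(q, r) ∈ K4a_z a b c v β → s(r, t) ∈ K4a_z a b c v β → s(t, p) ∈ K4a_z a b c v β → False := by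
      intro p q r t hd4 h1 h2 h3 h4
      refine hG (sq p q r t) (Or.inr ⟨p, q, r, t, hd4, rfl⟩) ?_
      simp [sq, insert_subset_iff, h1, h2, h3, h4]
    have htr : ∀ {p q r : V}, p ≠ q → p ≠ r → q ≠ r → s(p, q) ∈ K4a_z a b c v β →
        s(q, r) ∈ K4a_z a b c v β → s(r, p) ∈ K4a_z a b c v β → False := by
      intro p q r n1 n2 n3 h1 h2 h3
      refine hG (tr p q r) (Or.inl ⟨p, q, r, n1, n2, n3, rfl⟩) ?_
      simp [tr, insert_subset_iff, h1, h2, h3]
    have key := K4a_dec1 β hd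
      (fun h => htr hab hac hbc (hmem 0 h.1) (hmem 3 h.2.1) (msw (hmem 1 h.2.2)))
      (fun h => htr hab had hbd (hmem 0 h.1) (hmem 4 h.2.1) (msw (hmem 2 h.2.2)))
      (fun h => htr hac had hcd (hmem 1 h.1) (hmem 5 h.2.1) (msw (hmem 2 h.2.2)))
      (fun h => htr hbc hbd hcd (hmem 3 h.1) (hmem 5 h.2.1) (msw (hmem 4 h.2.2)))
      (fun h => hsq ⟨hab, hac, had, hbc, hbd, hcd⟩ (hmem 0 h.1) (hmem 3 h.2.1) (hmem 5 h.2.2.1)
        (msw (hmem 2 h.2.2.2)))
      (fun h => hsq ⟨hab, had, hac, hbd, hbc, hcd.symm⟩ (hmem 0 h.1) (hmem 4 h.2.1)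
        (msw (hmem 5 h.2.2.1)) (msw (hmem 1 h.2.2.2)))
      (fun h => hsq ⟨hac, hab, had, hbc.symm, hcd, hbd⟩ (hmem 1 h.1) (msw (hmem 3 h.2.1))
        (hmem 4 h.2.2.1) (msw (hmem 2 h.2.2.2)))
    rcases key with h0 | ⟨j, hj⟩
    · left
      funext j
      rw [h0 j]
      rfl
    · right
      refine ⟨fun i => ?_, ?_, j, ?_⟩
      · have := hd i
        show ((K4a_d β i : ℕ) : ℤ) = 0 ∨ ((K4a_d β i : ℕ) : ℤ) = 1 ∨ ((K4a_d β i : ℕ) : ℤ) = 2
        omega
      · rw [Fin.sum_univ_four]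
        simp only [K4a_d, Matrix.cons_val]
        push_cast
        refine ⟨(β 0).toNat + (β 1).toNat + (β 2).toNat + (β 3).toNat + (β 4).toNat + (β 5).toNat, ?_⟩
        ring
      · show ((K4a_d β j : ℕ) : ℤ) = 1
        rw [hj]; rfl
  · rintro ⟨q, hq, rfl⟩
    rcases hq with rfl | ⟨h1, h2, h3⟩
    · refine ⟨∅, empty_subset _, ⟨fun e he => absurd he (notMem_empty e), fun u => by simp [dg]⟩, ?_, ?_⟩
      · intro Z hZ hs
        have hne : ∃ e, e ∈ Z := by
          rcases hZ with ⟨a, b, c, -, -, -, rfl⟩ | ⟨a, b, c, d, -, rfl⟩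
          · exact ⟨s(a, b), by simp [tr]⟩
          · exact ⟨s(a, b), by simp [sq]⟩
        obtain ⟨e, he⟩ := hne
        exact absurd (hs he) (notMem_empty e)
      · rw [K4a_dv_empty]
        funext u
        simp [put]
    · have hn : ∀ i, ∃ m : Fin 3, q i = ((m : ℕ) : ℤ) := by
        intro i
        rcases h1 i with h | h | h
        · exact ⟨0, by rw [h]; rfl⟩
        · exact ⟨1, by rw [h]; rfl⟩
        · exact ⟨2, by rw [h]; rfl⟩
      choose m hm using hn
      rw [Fin.sum_univ_four, hm 0, hm 1, hm 2, hm 3] at h2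
      have h2' : Even ((m 0 : ℕ) + m 1 + m 2 + m 3) := by
        have : Even ((((m 0 : ℕ) + m 1 + m 2 + m 3 : ℕ)) : ℤ) := by push_cast; exact h2
        exact (Int.even_coe_nat _).1 this
      have h3' : (m 0 : ℕ) = 1 ∨ (m 1 : ℕ) = 1 ∨ (m 2 : ℕ) = 1 ∨ (m 3 : ℕ) = 1 := by
        obtain ⟨i, hi⟩ := h3
        rw [hm i] at hi
        have hi' : (m i : ℕ) = 1 := by exact_mod_cast hi
        fin_cases i
        · exact Or.inl hi'
        · exact Or.inr (Or.inl hi')
        · exact Or.inr (Or.inr (Or.inl hi'))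
        · exact Or.inr (Or.inr (Or.inr hi'))
      obtain ⟨β, b0, b1, b2, b3⟩ := K4a_dec2 (m 0) (m 1) (m 2) (m 3) h2' h3'
      have hqβ : q = fun j => ((K4a_d β j : ℕ) : ℤ) := by
        funext j
        rw [hm j]
        fin_cases j
        · exact congrArg _ b0.symm
        · exact congrArg _ b1.symm
        · exact congrArg _ b2.symm
        · exact congrArg _ b3.symm
      have hdv : dv (K4a_z a b c v β) = put ![a, b, c, v] q := by rw [K4a_dv h β, hqβ]
      have hM : M2 (K4a_z a b c v β) := by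
        refine ⟨K4a_noLoop h β, fun u => ?_⟩
        have hu := congrFun hdv u
        rw [dv_apply] at hu
        by_cases hex : ∃ i, ![a, b, c, v] i = u
        · obtain ⟨i, rfl⟩ := hex
          rw [put_apply hf] at hu
          have := h1 i
          omega
        · rw [put_of_not q (fun i hi => hex ⟨i, hi⟩)] at hu
          omega
      obtain ⟨i, hi⟩ := h3
      have hdi : dg (K4a_z a b c v β) (![a, b, c, v] i) = 1 := by
        have hu := congrFun hdv (![a, b, c, v] i)
        rw [dv_apply, put_apply hf, hi] at hu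
        exact_mod_cast hu
      exact ⟨K4a_z a b c v β, K4a_sub h β, hM, K4a_good (K4a_sub h β) hM hdi, hdv.symm⟩

end Pool.Agent.TFC.SH
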