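import Pool.Agent.SQ34.Base
import Pool.Agent.TFC.R2
import Pool.Agent.TFC.Unit

set_option autoImplicit false
set_option linter.unusedSectionVars false

/-! [SQ34-R2] clusters `K2`: everything from the version for squares only.

PROOF of `JS_k2`: the graph with the edges xl, yl (l ∈ L; x, y ∉ L, x ≠ y) is bipartite with sides {x, y} and L (each edge has exactly one end in {x, y}), so
it contains no triangle tr a b c (three edges ab, bc, ca with exactly one end in {x,y} each: impossible). So for z ⊆ edges: `Good non z` (no short cycle) iff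
`TFC.Good none4 z` (no square; `sq a b c d ⊆ z` with Dist4 iff `Sq z a b c d`, for z without loops).
`JS_units_k2`: `TFC.JS_subset_units_k2` (the units are the same lists). `relax_k2`: `TFC.relax_k2` gives w, w', c; take cc = k2 w w' c L
(for w = y, w' = x: `union_comm`); for k ∈ sumU units, k ≤ 2: `TFC.units_k2_le`: k ∈ TFC.JS .. (then h), or k = 2 • ev w + 2 • ev l, l ≠ c (then `TFC.relax_k2`). See
`main_relax_one` in Pool/Agent/TFC/Main.lean. -/

namespace Pool.Agent.TFC.SH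

open Finset

variable {V : Type*} [DecidableEq V]

private lemma R2_edge {x y u w : V} {L : Finset V} (h : s(u, w) ∈ (Clu.k2 x y L).edges) :
    ((u = x ∨ u = y) ∧ w ∈ L) ∨ ((w = x ∨ w = y) ∧ u ∈ L) := by
  change s(u, w) ∈ L.image (fun l => s(x, l)) ∪ L.image (fun l => s(y, l)) at h
  simp only [mem_union, mem_image, Sym2.eq_iff] at h
  rcases h with ⟨l, hl, (⟨rfl, rfl⟩ | ⟨rfl, rfl⟩)⟩ | ⟨l, hl, (⟨rfl, rfl⟩ | ⟨rfl, rfl⟩)⟩ <;> simp [hl]

theorem JS_k2 {x y : V} {L : Finset V} (hv : (Clu.k2 x y L).Valid) :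
    JS (Clu.k2 x y L).edges non = TFC.JS (TFC.Clu.k2 x y L).edges none4 := by
  obtain ⟨hxy, hx, hy, hL⟩ := hv
  have notri : ∀ Z, IsTr Z → ¬ Z ⊆ (Clu.k2 x y L).edges := by
    rintro Z ⟨a, b, c, -, -, -, rfl⟩ hZ
    have h1 := R2_edge (hZ (by simp [tr] : s(a, b) ∈ tr a b c))
    have h2 := R2_edge (hZ (by simp [tr] : s(b, c) ∈ tr a b c))
    have h3 := R2_edge (hZ (by simp [tr] : s(c, a) ∈ tr a b c))
    have n : ∀ u, (u = x ∨ u = y) → u ∉ L := by
      rintro u (rfl | rfl)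
      · exact hx
      · exact hy
    rcases h1 with ⟨h1, h1'⟩ | ⟨h1, h1'⟩ <;> rcases h2 with ⟨h2, h2'⟩ | ⟨h2, h2'⟩ <;>
      rcases h3 with ⟨h3, h3'⟩ | ⟨h3, h3'⟩
    all_goals first
      | exact n _ h1 h2'
      | exact n _ h1 h3'
      | exact n _ h2 h1'
      | exact n _ h2 h3'
      | exact n _ h3 h1'
      | exact n _ h3 h2'
  ext k
  constructor
  · rintro ⟨z, hz, hM, hg, rfl⟩
    refine ⟨z, hz, hM, ?_, rfl⟩
    intro a b c d hs
    exact hg _ (Or.inr ⟨a, b, c, d, hs.dist4 hM.nl, rfl⟩) (by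
      intro e he
      simp only [sq, mem_insert, mem_singleton] at he
      rcases he with rfl | rfl | rfl | rfl
      · exact hs.ab
      · exact hs.bc
      · exact hs.cd
      · exact hs.da)
  · rintro ⟨z, hz, hM, hg, rfl⟩
    refine ⟨z, hz, hM, ?_, rfl⟩
    rintro Z (hZ | ⟨a, b, c, d, ⟨h1, h2, h3, h4, h5, h6⟩, rfl⟩) hZz
    · exact notri Z hZ (hZz.trans hz)
    · exact hg a b c d ⟨h2, h5, hZz (by simp [sq]), hZz (by simp [sq]), hZz (by simp [sq]),
        hZz (by simp [sq])⟩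

theorem JS_units_k2 {w w' c : V} {L : Finset V} (hv : (CC.k2 w w' c L).Valid) :
    JS (CC.k2 w w' c L).clu.edges non ⊆ sumU (CC.k2 w w' c L).units := by
  have hv' : (Clu.k2 w w' L).Valid := ⟨hv.1, hv.2.1, hv.2.2.1, hv.2.2.2.1⟩
  intro k hk
  change k ∈ JS (Clu.k2 w w' L).edges non at hk
  rw [JS_k2 hv'] at hk
  exact JS_subset_units_k2 (c := c) hv hk

theorem relax_k2 {x y : V} {L : Finset V} (hv : (Clu.k2 x y L).Valid) {A : Set (V → ℤ)} (hA : Jump A)
    (h : ∀ k ∈ JS (Clu.k2 x y L).edges non, two - k ∉ A) :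
    ∃ cc : CC V, cc.Valid ∧ cc.clu.edges = (Clu.k2 x y L).edges ∧
      ∀ k ∈ sumU cc.units, (∀ v, k v ≤ 2) → two - k ∉ A := by
  rw [JS_k2 hv] at h
  obtain ⟨w, w', c, hw, hcL, h1⟩ := TFC.relax_k2 hv hA h
  obtain ⟨hxy, hx, hy, hL⟩ := hv
  have hv2 : (CC.k2 w w' c L).Valid := by
    rcases hw with ⟨rfl, rfl⟩ | ⟨rfl, rfl⟩
    · exact ⟨hxy, hx, hy, hL, hcL⟩
    · exact ⟨hxy.symm, hy, hx, hL, hcL⟩
  have he : (CC.k2 w w' c L).clu.edges = (Clu.k2 x y L).edges := by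
    rcases hw with ⟨rfl, rfl⟩ | ⟨rfl, rfl⟩
    · rfl
    · exact union_comm _ _
  refine ⟨.k2 w w' c L, hv2, he, ?_⟩
  intro k hk hle hk2
  rcases units_k2_le (c := c) hv2 hk hle with h2 | ⟨l, hl, hlc, rfl⟩
  · have he' : (TFC.CC.k2 w w' c L).clu.edges = (TFC.Clu.k2 x y L).edges := he
    rw [he'] at h2
    exact h k h2 hk2
  · refine h1 l hl hlc ?_
    rwa [← sub_sub] at hk2

end Pool.Agent.TFC.SH
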