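import Pool.Agent.SQ34.R3

set_option autoImplicit false
set_option linter.unusedSectionVars false

/-! [SQ34-R3c] the units of `k3c x y c L`: ({l}, {x, y}) (l ∈ L, l ≠ c), ({x}, insert y L), ({y}, {c, x}). Use `mem_leafUnits`, `mem_JS_k3` and the lemmas on
`fan` in R3.lean; compare `JS_subset_units_k2`, `units_k2_le` in Pool/Agent/TFC/R2.lean.

So k ∈ sumU units iff k = fan x y P Q 0 + u1 + u2 with disjoint P, Q ⊆ L \ c, u1 = 0 or ev x + ev t (t ∈ L ∪ {y}), u2 = 0 or ev y + ev s (s ∈ {c, x}).
`JS_units_k3c`: k = fan x y A B h, FanOK.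
 h = 1 (A, B disjoint, #A, #B ≤ 1): c ∉ A ∪ B: P = A, Q = B, t = y, no u2. A = {c}: P = ∅, Q = B, t = c, s = x. B = {c}: P = A, Q = ∅, s = c, t = y.
 h = 0, c ∉ A: s = c if c ∈ B (else no u2), Q = B \ c; if A ∩ B = {l} (l ≠ c): P = A \ l, t = l; if A ∩ B = ∅: P = A, no u1.
 h = 0, c ∈ A ∩ B: then A ∩ B = {c}: P = A \ c, Q = B \ c, t = c, s = c.
 h = 0, c ∈ A \ B: if A ∩ B = ∅: P = A \ c, Q = B, t = c, no u2. If A ∩ B = {l}: A = {c, l}; P = {l}, Q = B \ l, t = l, s = c: the sum is
   fan x y {l} (B \ l) 0 + (ev x + ev l) + (ev y + ev c) = fan x y {c, l} B 0 (x: 2, l: 2, c: 1, y: #B).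
`units_k3c_le`:
 no u2 or s = c: put B = Q resp. insert c Q (P, B disjoint). no u1: fan x y P B 0. t = y: fan x y P B 1 (disjoint). t ∈ L \ P: fan x y (insert t P) B 0. All FanOK (cards from
   k x ≤ 2, k y ≤ 2). t ∈ P: P = {t}, t ≠ c, t ∉ B; B = ∅: 2 • ev x + 2 • ev t; m ∈ B: fan x y {t, m} (insert t (B.erase m)) 0, FanOK.
 s = x: u2 = ev y + ev x: fan x y P Q 1 + u1. no u1: FanOK (disjoint). t = y: k x = #P + 2 ≤ 2, k y = #Q + 2 ≤ 2, so P = Q = ∅, k = 2 • ev x + 2 • ev y.
   t ∈ L: k x = #P + 2 ≤ 2 so P = ∅, #Q ≤ 1. t ∈ Q: Q = {t} and k = 2 • ev x + 2 • ev y + 2 • ev t, t ≠ c. t ∉ Q: fan x y {t} Q 1, FanOK (disjoint). -/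

namespace Pool.Agent.TFC.SH

open Finset

variable {V : Type*} [DecidableEq V]

private lemma R3c_eraseA {x y t : V} {A B : Finset V} (h : ℕ) (ht : t ∈ A) :
    fan x y A B h = fan x y (A.erase t) B h + (ev x + ev t) := by
  rw [fan_insA h (notMem_erase t A), insert_erase ht]

private lemma R3c_eraseB {x y t : V} {A B : Finset V} (h : ℕ) (ht : t ∈ B) :
    fan x y A B h = fan x y A (B.erase t) h + (ev y + ev t) := by
  rw [fan_insB h (notMem_erase t B), insert_erase ht]

open scoped Pointwise in
private lemma R3c_mem_units {x y c : V} {L P Q : Finset V} {u1 u2 : V → ℤ}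
    (hP : P ⊆ L.erase c) (hQ : Q ⊆ L.erase c) (hd : Disjoint P Q)
    (h1 : u1 = 0 ∨ ∃ t, (t = y ∨ t ∈ L) ∧ u1 = ev x + ev t)
    (h2 : u2 = 0 ∨ u2 = ev y + ev c ∨ u2 = ev y + ev x) :
    fan x y P Q 0 + u1 + u2 ∈ sumU (CC.k3c x y c L).units := by
  rw [CC.units, sumU_append, add_assoc]
  refine Set.add_mem_add ?_ ?_
  · refine (mem_leafUnits _ (nodup_toList _) _).mpr ⟨P, Q, ?_, ?_, hd, rfl⟩
    · intro u hu; rw [mem_toList]; exact hP hu
    · intro u hu; rw [mem_toList]; exact hQ hu
  · rw [sumU, sumU, sumU]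
    refine Set.add_mem_add ?_ ?_
    · rcases h1 with rfl | ⟨t, ht, rfl⟩
      · exact Or.inl rfl
      · exact Or.inr ⟨x, mem_singleton_self x, t, mem_insert.mpr ht, rfl⟩
    · rw [← add_zero u2]
      refine Set.add_mem_add ?_ (Set.mem_singleton _)
      rcases h2 with rfl | rfl | rfl
      · exact Or.inl rfl
      · exact Or.inr ⟨y, mem_singleton_self y, c, by simp, rfl⟩
      · exact Or.inr ⟨y, mem_singleton_self y, x, by simp, rfl⟩

open scoped Pointwise in
private lemma R3c_of_mem_units {x y c : V} {L : Finset V} {k : V → ℤ}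
    (hk : k ∈ sumU (CC.k3c x y c L).units) :
    ∃ (P Q : Finset V) (u1 u2 : V → ℤ), P ⊆ L.erase c ∧ Q ⊆ L.erase c ∧ Disjoint P Q ∧
      (u1 = 0 ∨ ∃ t, (t = y ∨ t ∈ L) ∧ u1 = ev x + ev t) ∧
      (u2 = 0 ∨ u2 = ev y + ev c ∨ u2 = ev y + ev x) ∧
      k = fan x y P Q 0 + u1 + u2 := by
  rw [CC.units, sumU_append] at hk
  obtain ⟨a, ha, b, hb, rfl⟩ := Set.mem_add.mp hk
  obtain ⟨P, Q, hP, hQ, hd, rfl⟩ := (mem_leafUnits _ (nodup_toList _) a).mp ha
  rw [sumU, sumU, sumU] at hb
  obtain ⟨u1, hu1, r, hr, rfl⟩ := Set.mem_add.mp hb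
  obtain ⟨u2, hu2, z, hz, rfl⟩ := Set.mem_add.mp hr
  rw [Set.mem_singleton_iff] at hz
  subst hz
  refine ⟨P, Q, u1, u2, ?_, ?_, hd, ?_, ?_, ?_⟩
  · intro u hu; exact mem_toList.mp (hP u hu)
  · intro u hu; exact mem_toList.mp (hQ u hu)
  · rcases hu1 with rfl | ⟨s, hs, t, ht, rfl⟩
    · exact Or.inl rfl
    · rw [mem_singleton] at hs
      subst hs
      exact Or.inr ⟨t, mem_insert.mp ht, rfl⟩
  · rcases hu2 with rfl | ⟨s, hs, t, ht, rfl⟩
    · exact Or.inl rfl
    · rw [mem_singleton] at hs
      subst hs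
      rw [mem_insert, mem_singleton] at ht
      rcases ht with rfl | rfl
      · exact Or.inr (Or.inl rfl)
      · exact Or.inr (Or.inr rfl)
  · rw [add_zero]; abel

private lemma R3c_ok {x y : V} {L A B : Finset V} {h : ℕ} (h1 : x ≠ y) (h2 : x ∉ L) (h3 : y ∉ L)
    (hok : FanOK L A B h) : fan x y A B h ∈ JS (Clu.k3 x y L).edges non :=
  (mem_JS_k3 h1 h2 h3 _).mpr ⟨A, B, h, hok, rfl⟩

theorem JS_units_k3c {x y c : V} {L : Finset V} (hv : (CC.k3c x y c L).Valid) :
    JS (CC.k3c x y c L).clu.edges non ⊆ sumU (CC.k3c x y c L).units := by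
  obtain ⟨h1, h2, h3, hc⟩ := hv
  intro k hk
  obtain ⟨A, B, h, ⟨hA, hB, cA, cB, cAB, hh, hdis⟩, rfl⟩ := (mem_JS_k3 h1 h2 h3 k).mp hk
  have hAc : A.erase c ⊆ L.erase c := erase_subset_erase c hA
  have hBc : B.erase c ⊆ L.erase c := erase_subset_erase c hB
  have hh' : h = 0 ∨ h = 1 := by omega
  rcases hh' with rfl | rfl
  · -- `xy` not used
    have hBB : ∃ u2 : V → ℤ, (u2 = 0 ∨ u2 = ev y + ev c ∨ u2 = ev y + ev x) ∧
        ∀ P : Finset V, fan x y P B 0 = fan x y P (B.erase c) 0 + u2 := by
      by_cases hcB : c ∈ B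
      · exact ⟨_, Or.inr (Or.inl rfl), fun P => R3c_eraseB 0 hcB⟩
      · exact ⟨0, Or.inl rfl, fun P => by rw [erase_eq_of_notMem hcB, add_zero]⟩
    obtain ⟨u2, hu2, hB2⟩ := hBB
    by_cases hcA : c ∈ A
    · by_cases hcB : c ∈ B
      · have hd : Disjoint (A.erase c) (B.erase c) := by
          rw [Finset.disjoint_left]
          intro u hu hu'
          rw [mem_erase] at hu hu'
          exact hu.1 (card_le_one.mp cAB u (mem_inter.mpr ⟨hu.2, hu'.2⟩) c
            (mem_inter.mpr ⟨hcA, hcB⟩))
        have h5 := R3c_mem_units hAc hBc hd (u1 := ev x + ev c) (u2 := u2)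
          (Or.inr ⟨c, Or.inr hc, rfl⟩) hu2
        have h6 : fan x y A B 0 = fan x y (A.erase c) (B.erase c) 0 + (ev x + ev c) + u2 := by
          rw [R3c_eraseA 0 hcA, hB2]
          abel
        rw [h6]
        exact h5
      · have hBL : B ⊆ L.erase c := by
          intro u hu
          rw [mem_erase]
          exact ⟨fun h => hcB (h ▸ hu), hB hu⟩
        by_cases he : A ∩ B = ∅
        · have hd : Disjoint (A.erase c) B :=
            (disjoint_iff_inter_eq_empty.mpr he).mono_left (erase_subset _ _)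
          have h5 := R3c_mem_units hAc hBL hd (u1 := ev x + ev c) (u2 := 0)
            (Or.inr ⟨c, Or.inr hc, rfl⟩) (Or.inl rfl) (x := x) (y := y)
          rw [add_zero] at h5
          rw [R3c_eraseA 0 hcA]
          exact h5
        · obtain ⟨l, hl⟩ := nonempty_iff_ne_empty.mpr he
          rw [mem_inter] at hl
          have hlc : l ≠ c := fun h => hcB (h ▸ hl.2)
          have hAl : A.erase c = {l} := by
            have h5 : l ∈ A.erase c := mem_erase.mpr ⟨hlc, hl.1⟩
            have h6 : #(A.erase c) ≤ 1 := by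
              have := card_erase_add_one hcA
              omega
            exact eq_singleton_iff_unique_mem.mpr ⟨h5, fun u hu => card_le_one.mp h6 u hu l h5⟩
          have hd : Disjoint ({l} : Finset V) (B.erase l) := by simp
          have hBl : B.erase l ⊆ L.erase c := (erase_subset _ _).trans hBL
          have hll : ({l} : Finset V) ⊆ L.erase c := by
            rw [← hAl]; exact hAc
          have h5 := R3c_mem_units hll hBl hd (u1 := ev x + ev l) (u2 := ev y + ev c)
            (Or.inr ⟨l, Or.inr (hA hl.1), rfl⟩) (Or.inr (Or.inl rfl)) (x := x) (y := y)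
          have h6 : fan x y A B 0 =
              fan x y {l} (B.erase l) 0 + (ev x + ev l) + (ev y + ev c) := by
            rw [R3c_eraseA 0 hcA, hAl, R3c_eraseB 0 hl.2]
            abel
          rw [h6]
          exact h5
    · have hAL : A ⊆ L.erase c := by
        intro u hu
        rw [mem_erase]
        exact ⟨fun h => hcA (h ▸ hu), hA hu⟩
      by_cases he : A ∩ B = ∅
      · have hd : Disjoint A (B.erase c) :=
          (disjoint_iff_inter_eq_empty.mpr he).mono_right (erase_subset _ _)
        have h5 := R3c_mem_units (x := x) hAL hBc hd (u1 := 0) (u2 := u2) (Or.inl rfl) hu2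
        rw [add_zero] at h5
        rw [hB2]
        exact h5
      · obtain ⟨t, ht⟩ := nonempty_iff_ne_empty.mpr he
        have ht' := mem_inter.mp ht
        have hd : Disjoint (A.erase t) (B.erase c) := by
          rw [Finset.disjoint_left]
          intro u hu hu'
          rw [mem_erase] at hu hu'
          exact hu.1 (card_le_one.mp cAB u (mem_inter.mpr ⟨hu.2, hu'.2⟩) t ht)
        have h5 := R3c_mem_units ((erase_subset t A).trans hAL) hBc hd (u1 := ev x + ev t)
          (u2 := u2) (Or.inr ⟨t, Or.inr (hA ht'.1), rfl⟩) hu2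
        have h6 : fan x y A B 0 = fan x y (A.erase t) (B.erase c) 0 + (ev x + ev t) + u2 := by
          rw [R3c_eraseA 0 ht'.1, hB2]
          abel
        rw [h6]
        exact h5
  · -- `xy` used
    have hd0 := hdis rfl
    rw [← fan_hub]
    by_cases hcA : c ∈ A
    · have hcB : c ∉ B := Finset.disjoint_left.mp hd0 hcA
      have hBL : B ⊆ L.erase c := by
        intro u hu
        rw [mem_erase]
        exact ⟨fun h => hcB (h ▸ hu), hB hu⟩
      have hd : Disjoint (A.erase c) B := hd0.mono_left (erase_subset _ _)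
      have h5 := R3c_mem_units hAc hBL hd (u1 := ev x + ev c) (u2 := ev y + ev x)
        (Or.inr ⟨c, Or.inr hc, rfl⟩) (Or.inr (Or.inr rfl)) (x := x) (y := y)
      have h6 : fan x y A B 0 + (ev x + ev y) =
          fan x y (A.erase c) B 0 + (ev x + ev c) + (ev y + ev x) := by
        rw [R3c_eraseA 0 hcA]
        abel
      rw [h6]
      exact h5
    · have hAL : A ⊆ L.erase c := by
        intro u hu
        rw [mem_erase]
        exact ⟨fun h => hcA (h ▸ hu), hA hu⟩
      by_cases hcB : c ∈ B
      · have hd : Disjoint A (B.erase c) := hd0.mono_right (erase_subset _ _)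
        have h5 := R3c_mem_units hAL hBc hd (u1 := ev x + ev y) (u2 := ev y + ev c)
          (Or.inr ⟨y, Or.inl rfl, rfl⟩) (Or.inr (Or.inl rfl)) (x := x) (y := y)
        have h6 : fan x y A B 0 + (ev x + ev y) =
            fan x y A (B.erase c) 0 + (ev x + ev y) + (ev y + ev c) := by
          rw [R3c_eraseB 0 hcB]
          abel
        rw [h6]
        exact h5
      · have hBL : B ⊆ L.erase c := by
          intro u hu
          rw [mem_erase]
          exact ⟨fun h => hcB (h ▸ hu), hB hu⟩
        have h5 := R3c_mem_units hAL hBL hd0 (u1 := ev x + ev y) (u2 := 0)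
          (Or.inr ⟨y, Or.inl rfl, rfl⟩) (Or.inl rfl) (x := x) (y := y)
        rw [add_zero] at h5
        exact h5

theorem units_k3c_le {x y c : V} {L : Finset V} (hv : (CC.k3c x y c L).Valid) {k : V → ℤ}
    (hk : k ∈ sumU (CC.k3c x y c L).units) (h2 : ∀ v, k v ≤ 2) :
    k ∈ JS (Clu.k3 x y L).edges non ∨ (∃ l ∈ L, l ≠ c ∧ k = 2 • ev x + 2 • ev l) ∨
      k = 2 • ev x + 2 • ev y ∨ ∃ l ∈ L, l ≠ c ∧ k = 2 • ev x + 2 • ev y + 2 • ev l := by
  obtain ⟨h1, hxL, hyL, hc⟩ := hv
  obtain ⟨P, Q, u1, u2, hP, hQ, hd, hu1, hu2, rfl⟩ := R3c_of_mem_units hk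
  have hcP : c ∉ P := fun h => (mem_erase.mp (hP h)).1 rfl
  have hcQ : c ∉ Q := fun h => (mem_erase.mp (hQ h)).1 rfl
  have hPL : P ⊆ L := hP.trans (erase_subset _ _)
  have hQL : Q ⊆ L := hQ.trans (erase_subset _ _)
  by_cases hux : u2 = ev y + ev x
  · -- `u2 = ev y + ev x`
    subst hux
    have hk2 : fan x y P Q 0 + u1 + (ev y + ev x) = fan x y P Q 1 + u1 := by
      rw [← fan_hub]; abel
    rw [hk2] at h2 ⊢
    have hx := h2 x
    have hy := h2 y
    rw [Pi.add_apply, fan_x h1 hxL hPL hQL] at hx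
    rw [Pi.add_apply, fan_y h1 hyL hPL hQL] at hy
    push_cast at hx hy
    rcases hu1 with rfl | ⟨t, rfl | htL, rfl⟩
    · left
      rw [Pi.zero_apply] at hx hy
      rw [add_zero]
      refine R3c_ok h1 hxL hyL ⟨hPL, hQL, ?_, ?_, ?_, le_rfl, fun _ => hd⟩
      · omega
      · omega
      · rw [disjoint_iff_inter_eq_empty.mp hd]; simp
    · right; right; left
      rw [Pi.add_apply, ev_self, ev_ne h1] at hx
      rw [Pi.add_apply, ev_self, ev_ne h1.symm] at hy
      have hP0 : P = ∅ := by rw [← card_eq_zero]; omega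
      have hQ0 : Q = ∅ := by rw [← card_eq_zero]; omega
      subst hP0 hQ0
      rw [fan, ind, sum_empty, card_empty]
      push_cast
      module
    · have hxt : x ≠ t := fun h => hxL (h ▸ htL)
      have hyt : y ≠ t := fun h => hyL (h ▸ htL)
      rw [Pi.add_apply, ev_self, ev_ne hxt] at hx
      rw [Pi.add_apply, ev_ne hyt, ev_ne h1.symm] at hy
      have hP0 : P = ∅ := by rw [← card_eq_zero]; omega
      have hQ1 : #Q ≤ 1 := by omega
      subst hP0
      by_cases htQ : t ∈ Q
      · right; right; right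
        have hQt : Q = {t} :=
          eq_singleton_iff_unique_mem.mpr ⟨htQ, fun u hu => card_le_one.mp hQ1 u hu t htQ⟩
        refine ⟨t, htL, fun h => hcQ (h ▸ htQ), ?_⟩
        subst hQt
        rw [fan, ind, ind, sum_empty, card_empty, sum_singleton, card_singleton]
        push_cast
        module
      · left
        rw [fan_insA 1 (notMem_empty t)]
        refine R3c_ok h1 hxL hyL ⟨?_, hQL, ?_, ?_, ?_, le_rfl, fun _ => ?_⟩
        · exact insert_subset htL hPL
        · simp
        · omega
        · have : insert t (∅ : Finset V) ∩ Q = ∅ := by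
            rw [insert_inter_of_notMem htQ, empty_inter]
          rw [this]; simp
        · rw [disjoint_insert_left]
          exact ⟨htQ, hd⟩
  · -- absorb `u2`
    obtain ⟨B, hBL, hdB, hB⟩ : ∃ B : Finset V, B ⊆ L ∧ Disjoint P B ∧
        ∀ A : Finset V, fan x y A Q 0 + u2 = fan x y A B 0 := by
      rcases hu2 with rfl | rfl | h
      · exact ⟨Q, hQL, hd, fun A => add_zero _⟩
      · refine ⟨insert c Q, insert_subset hc hQL, ?_, fun A => fan_insB 0 hcQ⟩
        rw [disjoint_insert_right]; exact ⟨hcP, hd⟩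
      · exact absurd h hux
    have hk2 : fan x y P Q 0 + u1 + u2 = fan x y P B 0 + u1 := by
      rw [← hB P]; abel
    rw [hk2] at h2 ⊢
    have hPB : #(P ∩ B) ≤ 1 := by
      rw [disjoint_iff_inter_eq_empty.mp hdB]; simp
    have hx := h2 x
    have hy := h2 y
    rw [Pi.add_apply, fan_x h1 hxL hPL hBL] at hx
    rw [Pi.add_apply, fan_y h1 hyL hPL hBL] at hy
    push_cast at hx hy
    rcases hu1 with rfl | ⟨t, rfl | htL, rfl⟩
    · left
      rw [Pi.zero_apply] at hx hy
      rw [add_zero]
      exact R3c_ok h1 hxL hyL ⟨hPL, hBL, by omega, by omega, hPB, by omega, by omega⟩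
    · left
      rw [Pi.add_apply, ev_self, ev_ne h1] at hx
      rw [Pi.add_apply, ev_self, ev_ne h1.symm] at hy
      rw [fan_hub]
      exact R3c_ok h1 hxL hyL ⟨hPL, hBL, by omega, by omega, hPB, le_rfl, fun _ => hdB⟩
    · have hxt : x ≠ t := fun h => hxL (h ▸ htL)
      have hyt : y ≠ t := fun h => hyL (h ▸ htL)
      rw [Pi.add_apply, ev_self, ev_ne hxt] at hx
      rw [Pi.add_apply, ev_ne hyt, ev_ne h1.symm] at hy
      by_cases htP : t ∈ P
      · -- `t ∈ P`
        have hP1 : P = {t} := by
          have h6 : #P ≤ 1 := by omega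
          exact eq_singleton_iff_unique_mem.mpr ⟨htP, fun u hu => card_le_one.mp h6 u hu t htP⟩
        have hB2 : #B ≤ 2 := by omega
        have htB : t ∉ B := Finset.disjoint_left.mp hdB htP
        have htc : t ≠ c := fun h => hcP (h ▸ htP)
        subst hP1
        by_cases hB0 : B = ∅
        · right; left
          subst hB0
          refine ⟨t, htL, htc, ?_⟩
          rw [fan, ind, ind, sum_singleton, sum_empty, card_singleton, card_empty]
          push_cast
          module
        · left
          obtain ⟨m, hm⟩ := nonempty_iff_ne_empty.mpr hB0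
          have htm : t ≠ m := fun h => htB (h ▸ hm)
          have hmt : m ∉ ({t} : Finset V) := by simpa using htm.symm
          have htB' : t ∉ B.erase m := fun h => htB (mem_of_mem_erase h)
          -- move `m` from `B` to `A`, put `t` in both
          have e1 : fan x y {t} B 0 + (ev x + ev t) =
              fan x y (insert m {t}) (insert t (B.erase m)) 0 := by
            rw [← fan_insA 0 hmt, ← fan_insB 0 htB', R3c_eraseB 0 hm]
            abel
          rw [e1]
          refine R3c_ok h1 hxL hyL ⟨?_, ?_, ?_, ?_, ?_, by omega, by omega⟩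
          · exact insert_subset (hBL hm) (by simpa using htL)
          · exact insert_subset htL ((erase_subset _ _).trans hBL)
          · rw [add_zero]
            exact card_le_two
          · rw [add_zero, card_insert_of_notMem htB', card_erase_add_one hm]
            exact hB2
          · rw [card_le_one]
            have : ∀ u ∈ insert m {t} ∩ insert t (B.erase m), u = t := by
              intro u hu
              rw [mem_inter, mem_insert, mem_singleton, mem_insert, mem_erase] at hu
              rcases hu.1 with rfl | h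
              · rcases hu.2 with h | h
                · exact h
                · exact absurd rfl h.1
              · exact h
            intro u hu v hv
            rw [this u hu, this v hv]
      · left
        rw [fan_insA 0 htP]
        have hAL : insert t P ⊆ L := insert_subset htL hPL
        refine R3c_ok h1 hxL hyL ⟨hAL, hBL, ?_, ?_, ?_, by omega, by omega⟩
        · rw [card_insert_of_notMem htP]
          omega
        · omega
        · rw [card_le_one]
          have : ∀ u ∈ insert t P ∩ B, u = t := by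
            intro u hu
            rw [mem_inter, mem_insert] at hu
            rcases hu.1 with h | h
            · exact h
            · exact absurd hu.2 (Finset.disjoint_left.mp hdB h)
          intro u hu v hv
          rw [this u hu, this v hv]

end Pool.Agent.TFC.SH
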