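import Pool.Agent.SQ34.Base
import Pool.Agent.TFC.Mink

set_option autoImplicit false
set_option linter.unusedSectionVars false

/-! [SQ34-RJ] three facts on jump sets in small dimension (see Pool/Agent/TFC/Four.lean for the style).

`three_tri`. From ![2,2,0] towards ![2,0,2], first step -1 at index 1, second step: -1 at index 1: ![2,0,0] ∈ P, or +1 at index 2: ![2,1,1] ∈ P.
 If ![2,0,0] ∈ P: towards ![0,2,2], first step -1 at index 0, second step: -1 at 0: ![0,0,0]; +1 at 1: ![1,1,0]; +1 at 2: ![1,0,1].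
`four_fan`. From ![2,2,0,2] towards ![2,0,2,0], first step -1 at index 1; second step: -1 at 1: ![2,0,0,2]; +1 at 2: ![2,1,1,2];
 -1 at 3: ![2,1,0,1].
`jump_k4`. `J4 q`: q = 0, or all entries in {0,1,2}, even sum, some entry 1. Let S = {q ∈ P | all entries 0 or 2}.
 (i) q, q' ∈ S, i: Function.update q i (q' i) ∈ S if q i ≠ q' i: from q towards q' step ε at i (q i + ε = 1); second step (j, δ) towards q':
   if j ≠ i then the new vector has entries 1 at i and at j and 0/2 elsewhere (δ goes from q j ∈ {0,2} towards q' j ∈ {0,2}, q j ≠ q' j), so it satisfies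
   J4, contradiction to h; so j = i, δ = ε and the new vector is q with q i replaced by q' i (entries 0 or 2).
 (ii) Suppose for each j there is q^(j) ∈ S with q^(j) j ≠ 2, i.e. = 0 (and q^(j) ≠ 0; not needed). Start with q := q^(0); for j = 1, 2, 3 replace q by
   Function.update q j 0 ∈ S (if q j = 0 nothing changes, else (i) with q' = q^(j)). At the end q = 0 ∈ P, contradiction to h 0. -/

namespace Pool.Agent.TFC.SH

open Finset

private lemma RJ_step {n : ℕ} {P : Set (Fin n → ℤ)} (hP : Jump P) {a b : Fin n → ℤ} (ha : a ∈ P)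
    (hb : b ∈ P) (i : Fin n) (ε : ℤ) (hε : ε = 1 ∨ ε = -1) (h : 0 < ε * (b i - a i)) (c : Fin n → ℤ)
    (hc : a + Pi.single i ε = c) :
    ∃ j : Fin n, (c j < b j ∧ c + Pi.single j 1 ∈ P) ∨ (b j < c j ∧ c + Pi.single j (-1) ∈ P) := by
  obtain ⟨j, δ, hδ, hj, hm⟩ := hP a ha b hb i ε hε h
  rw [hc] at hj hm
  refine ⟨j, ?_⟩
  rcases hδ with rfl | rfl
  · exact Or.inl ⟨by linarith, hm⟩
  · exact Or.inr ⟨by linarith, hm⟩

private lemma RJ_eq {n : ℕ} {P : Set (Fin n → ℤ)} {a b : Fin n → ℤ} (h : a ∈ P) (e : a = b) : b ∈ P := e ▸ h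

theorem three_tri {P : Set (Fin 3 → ℤ)} (hP : Jump P) (h1 : ![2, 2, 0] ∈ P) (h2 : ![2, 0, 2] ∈ P)
    (h3 : ![0, 2, 2] ∈ P) :
    ![2, 1, 1] ∈ P ∨ ![0, 0, 0] ∈ P ∨ ![1, 1, 0] ∈ P ∨ ![1, 0, 1] ∈ P := by
  have s1 : ![2, 0, 0] ∈ P ∨ ![2, 1, 1] ∈ P := by
    obtain ⟨j, h⟩ := RJ_step hP h1 h2 1 (-1) (Or.inr rfl) (by decide) ![2, 1, 0] (by decide)
    fin_cases j
    · rcases h with ⟨h, -⟩ | ⟨h, -⟩
      · exact absurd h (by decide)
      · exact absurd h (by decide)
    · rcases h with ⟨h, -⟩ | ⟨-, h⟩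
      · exact absurd h (by decide)
      · exact Or.inl (RJ_eq h (by decide))
    · rcases h with ⟨-, h⟩ | ⟨h, -⟩
      · exact Or.inr (RJ_eq h (by decide))
      · exact absurd h (by decide)
  rcases s1 with k1 | k1
  · obtain ⟨j, h⟩ := RJ_step hP k1 h3 0 (-1) (Or.inr rfl) (by decide) ![1, 0, 0] (by decide)
    fin_cases j
    · rcases h with ⟨h, -⟩ | ⟨-, h⟩
      · exact absurd h (by decide)
      · exact Or.inr (Or.inl (RJ_eq h (by decide)))
    · rcases h with ⟨-, h⟩ | ⟨h, -⟩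
      · exact Or.inr (Or.inr (Or.inl (RJ_eq h (by decide))))
      · exact absurd h (by decide)
    · rcases h with ⟨-, h⟩ | ⟨h, -⟩
      · exact Or.inr (Or.inr (Or.inr (RJ_eq h (by decide))))
      · exact absurd h (by decide)
  · exact Or.inl k1

theorem four_fan {P : Set (Fin 4 → ℤ)} (hP : Jump P) (h1 : ![2, 2, 0, 2] ∈ P) (h2 : ![2, 0, 2, 0] ∈ P) :
    ![2, 0, 0, 2] ∈ P ∨ ![2, 1, 1, 2] ∈ P ∨ ![2, 1, 0, 1] ∈ P := by
  obtain ⟨j, h⟩ := RJ_step hP h1 h2 1 (-1) (Or.inr rfl) (by decide) ![2, 1, 0, 2] (by decide)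
  fin_cases j
  · rcases h with ⟨h, -⟩ | ⟨h, -⟩
    · exact absurd h (by decide)
    · exact absurd h (by decide)
  · rcases h with ⟨h, -⟩ | ⟨-, h⟩
    · exact absurd h (by decide)
    · exact Or.inl (RJ_eq h (by decide))
  · rcases h with ⟨-, h⟩ | ⟨h, -⟩
    · exact Or.inr (Or.inl (RJ_eq h (by decide)))
    · exact absurd h (by decide)
  · rcases h with ⟨h, -⟩ | ⟨-, h⟩
    · exact absurd h (by decide)
    · exact Or.inr (Or.inr (RJ_eq h (by decide)))

/-- the degree vectors of the linear forests in the complete graph on four vertices -/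
def J4 (q : Fin 4 → ℤ) : Prop :=
  q = 0 ∨ ((∀ i, q i = 0 ∨ q i = 1 ∨ q i = 2) ∧ Even (∑ i, q i) ∧ ∃ i, q i = 1)

private lemma RJ_even {q : Fin 4 → ℤ} (h : ∀ i, q i = 0 ∨ q i = 2) : Even (∑ i, q i) := by
  refine Finset.even_sum _ fun i _ => ?_
  rcases h i with h | h <;> rw [h]
  · exact Even.zero
  · exact even_two

/-- one coordinate -/
private lemma RJ_upd {P : Set (Fin 4 → ℤ)} (hP : Jump P) (h : ∀ q, J4 q → q ∉ P) {q q' : Fin 4 → ℤ}
    (hq : q ∈ P) (hq' : q' ∈ P) (eq : ∀ i, q i = 0 ∨ q i = 2) (eq' : ∀ i, q' i = 0 ∨ q' i = 2) (i : Fin 4)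
    (hi : q' i = 0) : Function.update q i 0 ∈ P := by
  rcases eq i with h0 | h0
  · rw [show Function.update q i 0 = q by rw [← h0, Function.update_eq_self]]
    exact hq
  obtain ⟨j, δ, hδ, hj, hm⟩ := hP q hq q' hq' i (-1) (Or.inr rfl) (by rw [h0, hi]; norm_num)
  by_cases hji : j = i
  · subst hji
    have hc : (q + Pi.single j (-1) : Fin 4 → ℤ) j = 1 := by
      rw [Pi.add_apply, Pi.single_eq_same, h0]; norm_num
    rw [hc, hi] at hj
    have hδ1 : δ = -1 := by rcases hδ with rfl | rfl <;> omega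
    subst hδ1
    have e : q + Pi.single j (-1) + Pi.single j (-1) = Function.update q j 0 := by
      funext u
      by_cases hu : u = j
      · subst hu
        rw [Pi.add_apply, hc, Pi.single_eq_same, Function.update_self]; norm_num
      · rw [Function.update_of_ne hu, Pi.add_apply, Pi.add_apply, Pi.single_eq_of_ne hu]; simp
    rw [← e]
    exact hm
  · exfalso
    have hc : (q + Pi.single i (-1) : Fin 4 → ℤ) j = q j := by
      rw [Pi.add_apply, Pi.single_eq_of_ne hji]; simp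
    rw [hc] at hj
    have hv : ∀ u, (q + Pi.single i (-1) + Pi.single j δ : Fin 4 → ℤ) u =
        q u + (if u = i then -1 else 0) + (if u = j then δ else 0) := by
      intro u
      rw [Pi.add_apply, Pi.add_apply, Pi.single_apply, Pi.single_apply]
    have hj1 : q j + δ = 1 := by
      rcases eq j with e | e <;> rcases eq' j with e' | e' <;> rw [e, e'] at hj <;>
        rcases hδ with rfl | rfl <;> omega
    refine h _ (Or.inr ⟨?_, ?_, i, ?_⟩) hm
    · intro u
      rw [hv]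
      by_cases h1 : u = i
      · subst h1
        rw [if_pos rfl, if_neg (fun h => hji h.symm), h0]; right; left; norm_num
      · by_cases h2 : u = j
        · subst h2
          rw [if_neg h1, if_pos rfl]; right; left; omega
        · rw [if_neg h1, if_neg h2]
          rcases eq u with e | e <;> rw [e] <;> norm_num
    · have e1 : (∑ u, (q + Pi.single i (-1) + Pi.single j δ : Fin 4 → ℤ) u) = (∑ u, q u) + (-1) + δ := by
        simp only [hv, Finset.sum_add_distrib, Finset.sum_ite_eq', Finset.mem_univ, if_true]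
      rw [e1]
      have e2 := RJ_even eq
      rcases hδ with rfl | rfl
      · have : (∑ u, q u) + -1 + 1 = ∑ u, q u := by ring
        rw [this]; exact e2
      · have : (∑ u, q u) + -1 + -1 = (∑ u, q u) - 2 := by ring
        rw [this]; exact e2.sub even_two
    · rw [hv, if_pos rfl, if_neg (fun h => hji h.symm), h0]; norm_num

theorem jump_k4 {P : Set (Fin 4 → ℤ)} (hP : Jump P) (h : ∀ q, J4 q → q ∉ P) :
    ∃ j : Fin 4, ∀ q ∈ P, (∀ i, q i = 0 ∨ q i = 2) → q j = 2 := by
  by_contra hcon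
  push Not at hcon
  have key : ∀ j : Fin 4, ∃ q ∈ P, (∀ i, q i = 0 ∨ q i = 2) ∧ q j = 0 := by
    intro j
    obtain ⟨q, hq, h1, h2⟩ := hcon j
    exact ⟨q, hq, h1, (h1 j).resolve_right h2⟩
  have upd : ∀ (q : Fin 4 → ℤ) (j : Fin 4), q ∈ P → (∀ i, q i = 0 ∨ q i = 2) →
      ∃ q' ∈ P, (∀ i, q' i = 0 ∨ q' i = 2) ∧ q' j = 0 ∧ ∀ i, q i = 0 → q' i = 0 := by
    intro q j hq h1
    obtain ⟨r, hr, h2, h3⟩ := key j
    refine ⟨_, RJ_upd hP h hq hr h1 h2 j h3, ?_, Function.update_self _ _ _, ?_⟩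
    · intro i
      by_cases hi : i = j
      · subst hi; left; exact Function.update_self _ _ _
      · rw [Function.update_of_ne hi]; exact h1 i
    · intro i hi
      by_cases hij : i = j
      · subst hij; exact Function.update_self _ _ _
      · rw [Function.update_of_ne hij]; exact hi
  obtain ⟨q0, m0, a0, b0⟩ := key 0
  obtain ⟨q1, m1, a1, b1, c1⟩ := upd q0 1 m0 a0
  obtain ⟨q2, m2, a2, b2, c2⟩ := upd q1 2 m1 a1
  obtain ⟨q3, m3, a3, b3, c3⟩ := upd q2 3 m2 a2
  refine h q3 (Or.inl ?_) m3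
  funext i
  fin_cases i
  · exact c3 _ (c2 _ (c1 _ b0))
  · exact c3 _ (c2 _ b1)
  · exact c3 _ b2
  · exact b3

end Pool.Agent.TFC.SH
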