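import Pool.Agent.SQ34.R3b
import Pool.Agent.SQ34.R3c
import Pool.Agent.SQ34.RJ
import Pool.Agent.TFC.Unit

set_option autoImplicit false
set_option linter.unusedSectionVars false

/-! [SQ34-R3x] relaxation of a cluster `K3(x, y; L)`. `opp_digon`, `relax_k2` in Pool/Agent/TFC/Unit.lean show how to use `Jump.pull_neg`, `put`.

Write P(k) for two - k ∈ A. h: P(k) fails for k ∈ JS (k3 x y L).edges non.
 (i) P(2e_x + 2e_l), P(2e_y + 2e_m), l ≠ m in L: impossible (`opp_digon` gives z ⊂ sq x l y m with two - dv z ∈ A; z is a 2-matching contained in the edges, with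
    fewer than 4 edges and without triangle (the square x l y m contains no triangle: e.g. a triangle has an edge between two neighbours..; or by `mem_JS_k3`:
    dv z is a fan), so dv z ∈ JS, contradiction; see the proof of `relax_k2` in Pool/Agent/TFC/Unit.lean).
 (ii) X := {l ∈ L | P(2e_x + 2e_l)}, Y := {l ∈ L | P(2e_y + 2e_l)}. If X = ∅: cc = k3b x y L works (`units_k3b_le`, two - (2e_x+2e_l) = two - 2e_x - 2e_l).
    If Y = ∅: cc = k3b y x L works (the edges are the same: `Sym2.eq_swap`, `union_comm`). Otherwise by (i) X = Y = {c}.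
 (iii) cc = k3c x y c L works: let k ∈ sumU units, k ≤ 2, P(k). `units_k3c_le`:
    k ∈ JS: h. k = 2e_x + 2e_l with l ≠ c: l ∈ X = {c}. 
    k = 2e_x + 2e_y: `three_tri` for the jump set {q : Fin 3 → ℤ | two - put ![x, y, c] q ∈ A} (`Jump.pull_neg`): it contains ![2,2,0], ![2,0,2], ![0,2,2], so it
      contains ![2,1,1] (= edges xy, xc), ![0,0,0], ![1,1,0] (edge xy) or ![1,0,1] (edge xc): all in JS by `mem_JS_k3`
      (fan x y {c} ∅ 1, fan x y ∅ ∅ 0, fan x y ∅ ∅ 1, fan x y {c} ∅ 0).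
    k = 2e_x + 2e_y + 2e_t, t ≠ c: `four_fan` for ![x, y, c, t]: ![2,2,0,2] and ![2,0,2,0] (c ∈ X) are in the set, so ![2,0,0,2] (then t ∈ X = {c}), or
      ![2,1,1,2] (= fan x y {c, t} {t} 0) or ![2,1,0,1] (= fan x y {t} ∅ 1): in JS. -/

namespace Pool.Agent.TFC.SH

open Finset

variable {V : Type*} [DecidableEq V]

private lemma R3x_ev (s v : V) : ev s v = if v = s then 1 else 0 := by
  unfold ev
  rw [Pi.single_apply]

private lemma R3x_put3 (x y c : V) (p q r : ℤ) :
    put ![x, y, c] ![p, q, r] = p • ev x + q • ev y + r • ev c := by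
  funext v
  simp only [put, Fin.sum_univ_three, Pi.add_apply, Pi.smul_apply, R3x_ev, smul_eq_mul]
  change (if x = v then p else 0) + (if y = v then q else 0) + (if c = v then r else 0) = _
  simp only [mul_ite, mul_one, mul_zero, eq_comm (b := v)]

/-- two opposite digons are impossible -/
private theorem R3x_key {x y : V} {L : Finset V} (hv : (Clu.k3 x y L).Valid) {A : Set (V → ℤ)} (hA : Jump A)
    (h : ∀ k ∈ JS (Clu.k3 x y L).edges non, two - k ∉ A) {l m : V} (hl : l ∈ L) (hm : m ∈ L) (hlm : l ≠ m)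
    (h1 : two - 2 • ev x - 2 • ev l ∈ A) (h2 : two - 2 • ev y - 2 • ev m ∈ A) : False := by
  obtain ⟨hxy, hxL, hyL, hL⟩ := hv
  have hxl : x ≠ l := fun e => hxL (e ▸ hl)
  have hxm : x ≠ m := fun e => hxL (e ▸ hm)
  have hyl : y ≠ l := fun e => hyL (e ▸ hl)
  have hym : y ≠ m := fun e => hyL (e ▸ hm)
  have h4 : Dist4 x l y m := ⟨hxl, hxy, hxm, hyl.symm, hlm, hym⟩
  obtain ⟨z, hz, hzA⟩ := opp_digon hA h4 h1 h2
  have hM := Unit_sq_M2 h4
  have hbip : ∀ a b : V, s(a, b) ∈ sq x l y m → ((a = x ∨ a = y) ↔ ¬ (b = x ∨ b = y)) := by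
    intro a b hab
    simp only [sq, mem_insert, mem_singleton, Sym2.eq_iff] at hab
    rcases hab with (⟨rfl, rfl⟩ | ⟨rfl, rfl⟩) | (⟨rfl, rfl⟩ | ⟨rfl, rfl⟩) | (⟨rfl, rfl⟩ | ⟨rfl, rfl⟩) |
      (⟨rfl, rfl⟩ | ⟨rfl, rfl⟩) <;> simp [hxl, hxl.symm, hxm, hxm.symm, hyl, hyl.symm, hym, hym.symm]
  refine h (dv z) ⟨z, ?_, hM.mono hz.1, ?_, rfl⟩ hzA
  · refine hz.1.trans ?_
    intro e he
    simp only [sq, mem_insert, mem_singleton] at he
    simp only [Clu.edges, TFC.Clu.edges, mem_insert, mem_union, mem_image]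
    right
    rcases he with rfl | rfl | rfl | rfl
    · exact Or.inl ⟨l, hl, rfl⟩
    · exact Or.inr ⟨l, hl, Sym2.eq_swap⟩
    · exact Or.inr ⟨m, hm, rfl⟩
    · exact Or.inl ⟨m, hm, Sym2.eq_swap⟩
  · intro Z hZ hZz
    rcases hZ with ⟨a, b, c, hab, hac, hbc, rfl⟩ | ⟨a, b, c, d, hd, rfl⟩
    · have t1 := hbip a b (hz.1 (hZz (by simp [tr])))
      have t2 := hbip b c (hz.1 (hZz (by simp [tr])))
      have t3 := hbip c a (hz.1 (hZz (by simp [tr])))
      tauto
    · have t1 := card_le_card hZz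
      have t2 := card_lt_card hz
      rw [Unit_card_sq h4] at t2
      rw [Unit_card_sq hd] at t1
      omega

theorem relax_k3 {x y : V} {L : Finset V} (hv : (Clu.k3 x y L).Valid) {A : Set (V → ℤ)} (hA : Jump A)
    (h : ∀ k ∈ JS (Clu.k3 x y L).edges non, two - k ∉ A) :
    ∃ cc : CC V, cc.Valid ∧ cc.clu.edges = (Clu.k3 x y L).edges ∧
      ∀ k ∈ sumU cc.units, (∀ v, k v ≤ 2) → two - k ∉ A := by
  have hv' := hv
  obtain ⟨hxy, hxL, hyL, hL⟩ := hv
  have key := fun l hl m hm hlm => R3x_key (l := l) (m := m) hv' hA h hl hm hlm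
  have esub : ∀ u v : V, (two - (2 • ev u + 2 • ev v) : V → ℤ) = two - 2 • ev u - 2 • ev v := by
    intro u v
    abel
  by_cases hX : ∃ l ∈ L, two - 2 • ev x - 2 • ev l ∈ A
  swap
  · refine ⟨CC.k3b x y L, ⟨hxy, hxL, hyL, hL⟩, rfl, ?_⟩
    intro k hk h2 hkA
    rcases units_k3b_le ⟨hxy, hxL, hyL, hL⟩ hk h2 with h3 | ⟨l, hl, rfl⟩
    · exact h k h3 hkA
    · rw [esub] at hkA
      exact hX ⟨l, hl, hkA⟩
  by_cases hY : ∃ l ∈ L, two - 2 • ev y - 2 • ev l ∈ A
  swap
  · have hedge : (Clu.k3 y x L).edges = (Clu.k3 x y L).edges := by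
      simp only [Clu.edges, TFC.Clu.edges]
      rw [Sym2.eq_swap, union_comm]
    refine ⟨CC.k3b y x L, ⟨hxy.symm, hyL, hxL, hL⟩, hedge, ?_⟩
    intro k hk h2 hkA
    rcases units_k3b_le ⟨hxy.symm, hyL, hxL, hL⟩ hk h2 with h3 | ⟨l, hl, rfl⟩
    · rw [hedge] at h3
      exact h k h3 hkA
    · rw [esub] at hkA
      exact hY ⟨l, hl, hkA⟩
  obtain ⟨c, hcL, hcX⟩ := hX
  obtain ⟨c', hcL', hcY⟩ := hY
  obtain rfl : c = c' := by
    by_contra hne
    exact key c hcL c' hcL' hne hcX hcY
  have hX1 : ∀ l ∈ L, l ≠ c → two - 2 • ev x - 2 • ev l ∉ A := fun l hl hlc h1 => key l hl c hcL hlc h1 hcY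
  have hxc : x ≠ c := fun e => hxL (e ▸ hcL)
  have hyc : y ≠ c := fun e => hyL (e ▸ hcL)
  have hJ := fun k => mem_JS_k3 hxy hxL hyL (L := L) k
  have hc1 : ({c} : Finset V) ⊆ L := by simpa using hcL
  refine ⟨CC.k3c x y c L, ⟨hxy, hxL, hyL, hcL⟩, rfl, ?_⟩
  intro k hk h2 hkA
  rcases units_k3c_le ⟨hxy, hxL, hyL, hcL⟩ hk h2 with h3 | ⟨l, hl, hlc, rfl⟩ | rfl | ⟨t, ht, htc, rfl⟩
  · exact h k h3 hkA
  · rw [esub] at hkA
    exact hX1 l hl hlc hkA
  · -- `2 e_x + 2 e_y`
    have hf : Function.Injective (![x, y, c] : Fin 3 → V) := by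
      intro i j hij
      fin_cases i <;> fin_cases j <;> first | rfl | (exfalso; simp at hij; first
        | exact hxy hij | exact hxc hij | exact hyc hij | exact hxy hij.symm | exact hxc hij.symm
        | exact hyc hij.symm)
    have hP := Jump.pull_neg hf two hA
    have key3 : ∀ p q r : ℤ, ![p, q, r] ∈ {k : Fin 3 → ℤ | two - put ![x, y, c] k ∈ A} ↔
        two - (p • ev x + q • ev y + r • ev c) ∈ A := by
      intro p q r
      rw [← R3x_put3]
      exact Iff.rfl
    have m1 : ![2, 2, 0] ∈ {k : Fin 3 → ℤ | two - put ![x, y, c] k ∈ A} := by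
      rw [key3]
      refine (congrArg (fun u => two - u ∈ A) ?_).mpr hkA
      module
    have m2 : ![2, 0, 2] ∈ {k : Fin 3 → ℤ | two - put ![x, y, c] k ∈ A} := by
      rw [key3]
      have e : two - ((2 : ℤ) • ev x + (0 : ℤ) • ev y + (2 : ℤ) • ev c) = two - 2 • ev x - 2 • ev c := by module
      rw [e]
      exact hcX
    have m3 : ![0, 2, 2] ∈ {k : Fin 3 → ℤ | two - put ![x, y, c] k ∈ A} := by
      rw [key3]
      have e : two - ((0 : ℤ) • ev x + (2 : ℤ) • ev y + (2 : ℤ) • ev c) = two - 2 • ev y - 2 • ev c := by module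
      rw [e]
      exact hcY
    rcases three_tri hP m1 m2 m3 with h5 | h5 | h5 | h5
    · rw [key3] at h5
      refine h _ ((hJ _).2 ⟨{c}, ∅, 1, ⟨hc1, empty_subset _, by simp, by simp, by simp, by omega, by simp⟩, ?_⟩) h5
      rw [fan, ind, ind, sum_singleton, sum_empty, card_singleton, card_empty]
      push_cast
      module
    · rw [key3] at h5
      refine h _ ((hJ _).2 ⟨∅, ∅, 0, ⟨empty_subset _, empty_subset _, by simp, by simp, by simp, by omega, by simp⟩, ?_⟩) h5
      rw [fan, ind, sum_empty, card_empty]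
      push_cast
      module
    · rw [key3] at h5
      refine h _ ((hJ _).2 ⟨∅, ∅, 1, ⟨empty_subset _, empty_subset _, by simp, by simp, by simp, by omega, by simp⟩, ?_⟩) h5
      rw [fan, ind, sum_empty, card_empty]
      push_cast
      module
    · rw [key3] at h5
      refine h _ ((hJ _).2 ⟨{c}, ∅, 0, ⟨hc1, empty_subset _, by simp, by simp, by simp, by omega, by simp⟩, ?_⟩) h5
      rw [fan, ind, ind, sum_singleton, sum_empty, card_singleton, card_empty]
      push_cast
      module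
  · -- `2 e_x + 2 e_y + 2 e_t`
    have hxt : x ≠ t := fun e => hxL (e ▸ ht)
    have hyt : y ≠ t := fun e => hyL (e ▸ ht)
    have hct : c ≠ t := htc.symm
    have ht1 : ({t} : Finset V) ⊆ L := by simpa using ht
    have hf : Function.Injective (![x, y, c, t] : Fin 4 → V) := by
      intro i j hij
      fin_cases i <;> fin_cases j <;> first | rfl | (exfalso; simp at hij; first
        | exact hxy hij | exact hxc hij | exact hyc hij | exact hxy hij.symm | exact hxc hij.symm
        | exact hyc hij.symm | exact hxt hij | exact hyt hij | exact hct hij | exact hxt hij.symm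
        | exact hyt hij.symm | exact hct hij.symm)
    have hP := Jump.pull_neg hf two hA
    have key4 : ∀ p q r s : ℤ, ![p, q, r, s] ∈ {k : Fin 4 → ℤ | two - put ![x, y, c, t] k ∈ A} ↔
        two - (p • ev x + q • ev y + r • ev c + s • ev t) ∈ A := by
      intro p q r s
      rw [← Unit_put]
      exact Iff.rfl
    have m1 : ![2, 2, 0, 2] ∈ {k : Fin 4 → ℤ | two - put ![x, y, c, t] k ∈ A} := by
      rw [key4]
      refine (congrArg (fun u => two - u ∈ A) ?_).mpr hkA
      module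
    have m2 : ![2, 0, 2, 0] ∈ {k : Fin 4 → ℤ | two - put ![x, y, c, t] k ∈ A} := by
      rw [key4]
      have e : two - ((2 : ℤ) • ev x + (0 : ℤ) • ev y + (2 : ℤ) • ev c + (0 : ℤ) • ev t) =
          two - 2 • ev x - 2 • ev c := by module
      rw [e]
      exact hcX
    rcases four_fan hP m1 m2 with h5 | h5 | h5
    · rw [key4] at h5
      refine hX1 t ht htc ?_
      have e : two - ((2 : ℤ) • ev x + (0 : ℤ) • ev y + (0 : ℤ) • ev c + (2 : ℤ) • ev t) =
          two - 2 • ev x - 2 • ev t := by module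
      rwa [e] at h5
    · rw [key4] at h5
      have hct' : c ∉ ({t} : Finset V) := by simpa using hct
      refine h _ ((hJ _).2 ⟨{c, t}, {t}, 0, ⟨insert_subset hcL ht1, ht1, ?_, by simp, ?_, by omega, by simp⟩, ?_⟩) h5
      · rw [add_zero]
        exact card_le_two
      · refine (card_le_card inter_subset_right).trans ?_
        simp
      · rw [fan, ind, ind, sum_insert hct', sum_singleton, card_insert_of_notMem hct', card_singleton]
        push_cast
        module
    · rw [key4] at h5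
      refine h _ ((hJ _).2 ⟨{t}, ∅, 1, ⟨ht1, empty_subset _, by simp, by simp, by simp, by omega, by simp⟩, ?_⟩) h5
      rw [fan, ind, ind, sum_singleton, sum_empty, card_singleton, card_empty]
      push_cast
      module

end Pool.Agent.TFC.SH
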