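import Pool.Agent.SQ34.Helly
import Pool.Agent.SQ34.Clus
import Pool.Agent.SQ34.K4
import Pool.Agent.SQ34.R2
import Pool.Agent.SQ34.R3x
import Pool.Agent.TFC.Plain

/-!
Theorem 7': unit systems characterise the absence of 2-factors without cycles of length 3 and 4.
-/

set_option autoImplicit false
set_option linter.unusedSectionVars false

namespace Pool.Agent.TFC.SH

open Finset
open scoped Pointwise

variable {V : Type*} [DecidableEq V]

/-- the ordinary part: sums of the ordinary edges in a set -/
private noncomputable def mainOS (s : Finset (Sym2 V)) : Set (V → ℤ) := ∑ e ∈ s, Ue e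

/-- the sum of the jump sets of the clusters of a list -/
private noncomputable def mainSJ : List (Clu V) → Set (V → ℤ)
  | [] => {0}
  | c :: cs => JS c.edges non + mainSJ cs

private lemma main_jump_SJ [Finite V] (L : List (Clu V)) : Jump (mainSJ L) := by
  induction L with
  | nil => exact jump_zero
  | cons c cs ih => exact Jump.add (jump_JS non _) ih

private lemma main_jump_OS [Finite V] (s : Finset (Sym2 V)) : Jump (mainOS s) := by
  induction s using Finset.induction_on with
  | empty => simpa [mainOS, Set.singleton_zero] using (jump_zero (V := V))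
  | insert a s ha ih =>
    unfold mainOS at ih ⊢
    rw [Finset.sum_insert ha]
    exact Jump.add (jump_Ue a) ih

private lemma main_ev_nonneg (a v : V) : 0 ≤ ev a v := by
  rw [ev_apply]; split_ifs <;> norm_num

private def mainNN (A : Set (V → ℤ)) : Prop := ∀ k ∈ A, ∀ v, 0 ≤ k v

private lemma main_NN_add {A B : Set (V → ℤ)} (hA : mainNN A) (hB : mainNN B) : mainNN (A + B) := by
  rintro k hk v
  obtain ⟨a, ha, b, hb, rfl⟩ := Set.mem_add.mp hk
  exact add_nonneg (hA a ha v) (hB b hb v)

private lemma main_NN_zero : mainNN ({0} : Set (V → ℤ)) := by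
  rintro k hk v
  rw [Set.mem_singleton_iff] at hk
  simp [hk]

private lemma main_NN_sumU (us : List (Finset V × Finset V)) : mainNN (sumU us) := by
  induction us with
  | nil => exact main_NN_zero
  | cons u us ih =>
    refine main_NN_add ?_ ih
    rintro k hk v
    rcases hk with rfl | ⟨s, -, t, -, rfl⟩
    · simp
    · exact add_nonneg (main_ev_nonneg _ _) (main_ev_nonneg _ _)

private lemma main_NN_SJ (L : List (Clu V)) : mainNN (mainSJ L) := by
  induction L with
  | nil => exact main_NN_zero
  | cons c cs ih =>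
    refine main_NN_add ?_ ih
    rintro k ⟨z, -, -, -, rfl⟩ v
    simp [dv]

private lemma main_NN_OS (s : Finset (Sym2 V)) : mainNN (mainOS s) := by
  induction s using Finset.induction_on with
  | empty => simpa [mainOS, Set.singleton_zero] using (main_NN_zero (V := V))
  | insert a s ha ih =>
    unfold mainOS at ih ⊢
    rw [Finset.sum_insert ha]
    refine main_NN_add ?_ ih
    rintro k hk v
    rcases hk with rfl | ⟨s, t, -, rfl⟩
    · simp
    · exact add_nonneg (main_ev_nonneg _ _) (main_ev_nonneg _ _)

private lemma main_dv_empty : dv (∅ : Finset (Sym2 V)) = 0 := by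
  funext v; simp [dv, dg]

private lemma main_dv_union {s t : Finset (Sym2 V)} (h : Disjoint s t) : dv (s ∪ t) = dv s + dv t := by
  funext v
  simp only [dv, dg, Pi.add_apply]
  rw [filter_union, card_union_of_disjoint (disjoint_filter_filter h)]
  push_cast
  rfl

/-- all edges of the clusters of a list -/
private def mainAllE : List (Clu V) → Finset (Sym2 V)
  | [] => ∅
  | c :: cs => c.edges ∪ mainAllE cs

private lemma main_mem_allE {L : List (Clu V)} {e : Sym2 V} : e ∈ mainAllE L ↔ ∃ c ∈ L, e ∈ c.edges := by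
  induction L with
  | nil => simp [mainAllE]
  | cons c cs ih => simp [mainAllE, ih]

private lemma main_disj_allE {c : Clu V} {L : List (Clu V)} (h : ∀ c' ∈ L, Disjoint c.edges c'.edges) :
    Disjoint c.edges (mainAllE L) := by
  rw [Finset.disjoint_left]
  intro e he h2
  obtain ⟨c', hc', h3⟩ := main_mem_allE.mp h2
  exact Finset.disjoint_left.mp (h c' hc') he h3

private lemma main_JS_units {c : CC V} (hc : c.Valid) : JS c.clu.edges non ⊆ sumU c.units := by
  cases c with
  | k4 a b c v => exact JS_units_k4 hc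
  | k2 w w' c L => exact JS_units_k2 hc
  | k3b w w' L => exact JS_units_k3b hc
  | k3c x y c L => exact JS_units_k3c hc

private lemma main_units_of_sqfree {F : Finset (Sym2 V)} (hF : M2 F) (hs : ShFree F) :
    ∀ C : List (CC V), (∀ c ∈ C, c.Valid) →
      (C.Pairwise fun c c' => Disjoint c.clu.edges c'.clu.edges) →
      dv (F ∩ mainAllE (C.map CC.clu)) ∈ sumU (C.flatMap CC.units) := by
  intro C
  induction C with
  | nil => intro _ _; simp [mainAllE, sumU, main_dv_empty]
  | cons c C ih =>
    intro hv hp
    rw [List.pairwise_cons] at hp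
    have h1 := ih (fun c' hc' => hv c' (List.mem_cons_of_mem _ hc')) hp.2
    rw [List.flatMap_cons, sumU_append, List.map_cons]
    have hd : Disjoint c.clu.edges (mainAllE (C.map CC.clu)) := by
      apply main_disj_allE
      intro c' hc'
      obtain ⟨c'', h'', rfl⟩ := List.mem_map.mp hc'
      exact hp.1 _ h''
    have h2 : dv (F ∩ mainAllE (c.clu :: C.map CC.clu)) =
        dv (F ∩ c.clu.edges) + dv (F ∩ mainAllE (C.map CC.clu)) := by
      rw [← main_dv_union (hd.mono inter_subset_right inter_subset_right), ← inter_union_distrib_left]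
      rfl
    rw [h2]
    refine Set.add_mem_add (main_JS_units (hv c List.mem_cons_self) ?_) h1
    refine ⟨F ∩ c.clu.edges, inter_subset_right, hF.mono inter_subset_left, ?_, rfl⟩
    exact fun Z hZ h => hs Z hZ (h.trans inter_subset_left)

private lemma main_dv_TF [Fintype V] {F : Finset (Sym2 V)} (hF : TF F) : dv F = two := by
  funext v
  simp [dv, two, hF.eq v]

private lemma main_TF_m2 {F : Finset (Sym2 V)} (hF : TF F) : M2 F := ⟨hF.nl, fun v => (hF.eq v).le⟩

/-- representation of an element of the sum of the jump sets of clusters -/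
private lemma main_mem_SJ_rep : ∀ L : List (Clu V), (L.Pairwise fun c c' => Disjoint c.edges c'.edges) →
    ∀ k ∈ mainSJ L, ∃ z ⊆ mainAllE L, k = dv z ∧ ∀ c ∈ L, ShFree (z ∩ c.edges) := by
  intro L
  induction L with
  | nil =>
    intro _ k hk
    exact ⟨∅, by simp, by rw [Set.mem_singleton_iff.mp hk, main_dv_empty], by simp⟩
  | cons c L ih =>
    intro hp k hk
    rw [List.pairwise_cons] at hp
    obtain ⟨a, ha, b, hb, rfl⟩ := Set.mem_add.mp hk
    obtain ⟨z, hz, h1, h2⟩ := ih hp.2 b hb
    obtain ⟨y, hy, -, hyg, rfl⟩ := ha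
    have hd : Disjoint c.edges (mainAllE L) := main_disj_allE hp.1
    refine ⟨y ∪ z, union_subset_union hy hz, ?_, ?_⟩
    · rw [main_dv_union (hd.mono hy hz), h1]
    · intro c' hc'
      rcases List.mem_cons.mp hc' with rfl | hc'
      · have : (y ∪ z) ∩ c'.edges = y := by
          ext e
          simp only [mem_inter, mem_union]
          constructor
          · rintro ⟨h | h, h'⟩
            · exact h
            · exact absurd (hz h) (Finset.disjoint_left.mp hd h')
          · intro h; exact ⟨Or.inl h, hy h⟩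
        rw [this]
        exact fun Z hZ h => hyg Z hZ h
      · have : (y ∪ z) ∩ c'.edges = z ∩ c'.edges := by
          ext e
          simp only [mem_inter, mem_union]
          constructor
          · rintro ⟨h | h, h'⟩
            · exact absurd h' (Finset.disjoint_left.mp (hp.1 c' hc') (hy h))
            · exact ⟨h, h'⟩
          · rintro ⟨h, h'⟩; exact ⟨Or.inr h, h'⟩
        rw [this]
        exact h2 c' hc'

/-- the ordinary edges of a list of clusters -/
private def mainRest (E : Finset (Sym2 V)) (L : List (Clu V)) : Finset (Sym2 V) := E \ mainAllE L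

private lemma main_rest_congr {E : Finset (Sym2 V)} {L L' : List (Clu V)}
    (h : ∀ e, (∃ c ∈ L, e ∈ c.edges) ↔ ∃ c ∈ L', e ∈ c.edges) : mainRest E L = mainRest E L' := by
  ext e
  simp only [mainRest, mem_sdiff, main_mem_allE, h e]

private lemma main_OS_union {s t : Finset (Sym2 V)} (h : Disjoint s t) : mainOS (s ∪ t) = mainOS s + mainOS t := by
  unfold mainOS
  exact Finset.sum_union h

/-- the relaxation step for one cluster: a choice of units -/
private lemma main_relax_one {c : Clu V} (hc : c.Valid) {A : Set (V → ℤ)} (hA : Jump A) (hN : mainNN A)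
    (h : ∀ k ∈ JS c.edges non, two - k ∉ A) :
    ∃ cc : CC V, cc.Valid ∧ cc.clu.edges = c.edges ∧ ∀ k ∈ sumU cc.units, two - k ∉ A := by
  have hle : ∀ k, two - k ∈ A → ∀ v, k v ≤ 2 := by
    intro k hk v
    have := hN _ hk v
    simp only [Pi.sub_apply, two] at this
    linarith
  have h1 : ∃ cc : CC V, cc.Valid ∧ cc.clu.edges = c.edges ∧
      ∀ k ∈ sumU cc.units, (∀ v, k v ≤ 2) → two - k ∉ A := by
    cases c with
    | k4 X => exact relax_k4 hc hA h
    | k2 x y L => exact relax_k2 hc hA h
    | k3 x y L => exact relax_k3 hc hA h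
  obtain ⟨cc, h2, h3, h4⟩ := h1
  exact ⟨cc, h2, h3, fun k hk hk2 => h4 k hk (hle k hk2) hk2⟩

private lemma main_step [Finite V] (E : Finset (Sym2 V)) : ∀ (L : List (Clu V)) (C : List (CC V)),
    (∀ c ∈ C, c.Valid ∧ c.clu.edges ⊆ E) → (∀ c ∈ L, c.Valid ∧ c.edges ⊆ E) →
    ((C.map CC.clu ++ L).Pairwise fun c c' => Disjoint c.edges c'.edges) →
    two ∉ sumU (C.flatMap CC.units) + (mainSJ L + mainOS (mainRest E (C.map CC.clu ++ L))) →
    ∃ C' : List (CC V), (∀ c ∈ C', c.Valid ∧ c.clu.edges ⊆ E) ∧
      (C'.Pairwise fun c c' => Disjoint c.clu.edges c'.clu.edges) ∧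
      two ∉ sumU (C'.flatMap CC.units) + mainOS (mainRest E (C'.map CC.clu)) := by
  intro L
  induction L with
  | nil =>
    intro C hC _ hp h
    refine ⟨C, hC, ?_, ?_⟩
    · rw [List.append_nil, List.pairwise_map] at hp
      exact hp
    · rw [List.append_nil] at h
      have h0 : mainSJ ([] : List (Clu V)) = 0 := rfl
      rwa [h0, zero_add] at h
  | cons c L ih =>
    intro C hC hL hp h
    have hc := hL c List.mem_cons_self
    have hL' : ∀ c' ∈ L, c'.Valid ∧ c'.edges ⊆ E := fun c' hc' => hL c' (List.mem_cons_of_mem _ hc')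
    have hp1 : (c :: (C.map CC.clu ++ L)).Pairwise fun c c' => Disjoint c.edges c'.edges :=
      (List.pairwise_middle (fun h => h.symm)).mp hp
    have hp2 := List.pairwise_cons.mp hp1
    set R := mainOS (mainRest E (C.map CC.clu ++ c :: L)) with hR
    set A := sumU (C.flatMap CC.units) + (mainSJ L + R) with hA
    have hAJ : Jump A :=
      Jump.add (jump_sumU _) (Jump.add (main_jump_SJ L) (main_jump_OS _))
    have hAN : mainNN A := main_NN_add (main_NN_sumU _) (main_NN_add (main_NN_SJ L) (main_NN_OS _))
    have hk : ∀ k ∈ JS c.edges non, two - k ∉ A := by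
      intro k hk hk2
      apply h
      obtain ⟨u, hu, t, ht, hut⟩ := Set.mem_add.mp hk2
      obtain ⟨s, hs, o, ho, rfl⟩ := Set.mem_add.mp ht
      have : two = u + ((k + s) + o) := by
        have : two = k + (two - k) := by abel
        rw [this, ← hut]; abel
      rw [this]
      exact Set.add_mem_add hu (Set.add_mem_add (Set.add_mem_add hk hs) ho)
    obtain ⟨cc, hcc, hce, h1⟩ := main_relax_one hc.1 hAJ hAN hk
    refine ih (cc :: C) ?_ hL' ?_ ?_
    · intro c' hc'
      rcases List.mem_cons.mp hc' with rfl | hc'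
      · exact ⟨hcc, by rw [hce]; exact hc.2⟩
      · exact hC c' hc'
    · rw [List.map_cons, List.cons_append, List.pairwise_cons]
      refine ⟨?_, hp2.2⟩
      intro c' hc'
      rw [hce]
      exact hp2.1 c' hc'
    · intro h2
      have hr : mainRest E ((cc :: C).map CC.clu ++ L) = mainRest E (C.map CC.clu ++ c :: L) := by
        apply main_rest_congr
        intro e
        simp only [List.map_cons, List.cons_append, List.mem_cons, List.mem_append]
        constructor
        · rintro ⟨c', (rfl | h | h), he⟩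
          · exact ⟨c, Or.inr (Or.inl rfl), by rwa [← hce]⟩
          · exact ⟨c', Or.inl h, he⟩
          · exact ⟨c', Or.inr (Or.inr h), he⟩
        · rintro ⟨c', (h | rfl | h), he⟩
          · exact ⟨c', Or.inr (Or.inl h), he⟩
          · exact ⟨cc.clu, Or.inl rfl, by rwa [hce]⟩
          · exact ⟨c', Or.inr (Or.inr h), he⟩
      rw [hr, List.flatMap_cons, sumU_append] at h2
      obtain ⟨u, hu, t, ht, hut⟩ := Set.mem_add.mp h2
      obtain ⟨k, hk', u', hu', rfl⟩ := Set.mem_add.mp hu
      refine h1 k hk' ?_
      have : two - k = u' + t := by rw [← hut]; abel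
      rw [this]
      exact Set.add_mem_add hu' ht

theorem main_thm [Fintype V] (E : Finset (Sym2 V)) (hE : NoLoop E) :
    (¬ ∃ F ⊆ E, TF F ∧ ShFree F) ↔
    ∃ C : List (CC V), (∀ c ∈ C, c.Valid ∧ c.clu.edges ⊆ E) ∧
      (C.Pairwise fun c c' => Disjoint c.clu.edges c'.clu.edges) ∧
      two ∉ sumU (C.flatMap CC.units) +
        ∑ e ∈ E.filter (fun e => ∀ c ∈ C, e ∉ c.clu.edges), Ue e := by
  have hfil : ∀ C : List (CC V), E.filter (fun e => ∀ c ∈ C, e ∉ c.clu.edges) =
      mainRest E (C.map CC.clu) := by
    intro C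
    ext e
    simp only [mainRest, mem_filter, mem_sdiff, main_mem_allE, List.mem_map]
    constructor
    · rintro ⟨h1, h2⟩
      refine ⟨h1, ?_⟩
      rintro ⟨c, ⟨c', hc', rfl⟩, h⟩
      exact h2 c' hc' h
    · rintro ⟨h1, h2⟩
      exact ⟨h1, fun c hc h => h2 ⟨c.clu, ⟨c, hc, rfl⟩, h⟩⟩
  constructor
  · intro hno
    classical
    obtain ⟨D, hDS, hD, hDp⟩ := helly E (E.powerset.filter IsSh)
      (fun Q hQ => (mem_filter.mp hQ).2) (by
        intro F hFE hF
        by_contra hcon
        push Not at hcon
        apply hno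
        refine ⟨F, hFE, hF, ?_⟩
        intro Z hZ h
        exact hcon _ (mem_filter.mpr ⟨mem_powerset.mpr (h.trans hFE), hZ⟩) h)
    obtain ⟨L, hv, hp, hsub, hcov⟩ := clusters D ⟨fun Q hQ => (mem_filter.mp (hDS hQ)).2, hDp⟩
    have hE' : ∀ c ∈ L, c.edges ⊆ E := by
      intro c hc e he
      obtain ⟨Q, hQ, heQ⟩ := mem_biUnion.mp (hsub c hc he)
      exact mem_powerset.mp (mem_filter.mp (hDS hQ)).1 heQ
    have hstart : two ∉ sumU (([] : List (CC V)).flatMap CC.units) +
        (mainSJ L + mainOS (mainRest E (([] : List (CC V)).map CC.clu ++ L))) := by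
      intro h
      have h0 : sumU (([] : List (CC V)).flatMap CC.units) = 0 := rfl
      rw [h0, zero_add, List.map_nil, List.nil_append] at h
      obtain ⟨s, hs, o, ho, hso⟩ := Set.mem_add.mp h
      obtain ⟨z, hz, rfl, hzs⟩ := main_mem_SJ_rep L hp s hs
      have hnl : NoLoop (mainRest E L) := hE.mono sdiff_subset
      obtain ⟨y, hy, rfl⟩ := (mem_sum_Ue (mainRest E L) hnl o).mp ho
      have hd : Disjoint z y := by
        rw [Finset.disjoint_left]
        intro e he1 he2
        exact (mem_sdiff.mp (hy he2)).2 (hz he1)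
      have hzE : z ⊆ E := by
        intro e he
        obtain ⟨c, hc, h'⟩ := main_mem_allE.mp (hz he)
        exact hE' c hc h'
      have hFE : z ∪ y ⊆ E := union_subset hzE (hy.trans sdiff_subset)
      rw [← main_dv_union hd] at hso
      have hTF : TF (z ∪ y) := by
        refine ⟨hE.mono hFE, ?_⟩
        intro v
        have := congrFun hso v
        simp only [dv, two] at this
        exact_mod_cast this
      obtain ⟨Q, hQD, hQ⟩ := hD _ hFE hTF
      obtain ⟨c, hc, hQc⟩ := hcov Q hQD
      refine hzs c hc Q (mem_filter.mp (hDS hQD)).2 ?_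
      intro e he
      rw [mem_inter]
      refine ⟨?_, hQc he⟩
      rcases mem_union.mp (hQ he) with h' | h'
      · exact h'
      · exact absurd (main_mem_allE.mpr ⟨c, hc, hQc he⟩) (mem_sdiff.mp (hy h')).2
    obtain ⟨C, h1, h2, h3⟩ := main_step E L [] (by simp) (fun c hc => ⟨hv c hc, hE' c hc⟩)
      (by simpa using hp) hstart
    refine ⟨C, h1, h2, ?_⟩
    rw [hfil]
    exact h3
  · rintro ⟨C, hC, hp, h⟩ ⟨F, hFE, hF, hFs⟩
    apply h
    rw [hfil]
    have h1 := main_units_of_sqfree (main_TF_m2 hF) hFs C (fun c hc => (hC c hc).1) hp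
    have hnl : NoLoop (mainRest E (C.map CC.clu)) := hE.mono sdiff_subset
    have h2 := (mem_sum_Ue (mainRest E (C.map CC.clu)) hnl (dv (F ∩ mainRest E (C.map CC.clu)))).mpr
      ⟨_, inter_subset_right, rfl⟩
    have hd : Disjoint (F ∩ mainAllE (C.map CC.clu)) (F ∩ mainRest E (C.map CC.clu)) := by
      rw [Finset.disjoint_left]
      intro e he1 he2
      exact (mem_sdiff.mp (mem_inter.mp he2).2).2 (mem_inter.mp he1).2
    have h3 : two = dv (F ∩ mainAllE (C.map CC.clu)) + dv (F ∩ mainRest E (C.map CC.clu)) := by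
      rw [← main_dv_union hd, ← main_dv_TF hF]
      congr 1
      ext e
      simp only [mem_union, mem_inter, mainRest, mem_sdiff]
      constructor
      · intro he
        by_cases h' : e ∈ mainAllE (C.map CC.clu)
        · exact Or.inl ⟨he, h'⟩
        · exact Or.inr ⟨he, hFE he, h'⟩
      · rintro (⟨he, -⟩ | ⟨he, -⟩) <;> exact he
    rw [h3]
    exact Set.add_mem_add h1 h2

end Pool.Agent.TFC.SH
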