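import Pool.Agent.SQ34.Base
import Pool.Agent.TFC.Mink

set_option autoImplicit false
set_option linter.unusedSectionVars false

/-! [SQ34-R3] the jump set of a cluster `K3(x, y; L)` (edges xl, yl, xy), in terms of A = leaves joined to x, B = leaves joined to y, h = (xy used).
Adapt the first half of Pool/Agent/TFC/R2.lean (`r2ind`, `r2st`, `r2_dv`, `r2_mem_JS`, `r2_of_mem_JS`).

`fan x y A B h` is the degree vector of {xa | a ∈ A} ∪ {yb | b ∈ B} ∪ (if h then {xy}).
PROOF of `mem_JS_k3`. (→) z ⊆ edges a 2-matching without triangle and square: A := {l ∈ L | xl ∈ z}, B := {l ∈ L | yl ∈ z}, h := [xy ∈ z]. dg z x = #A + h ≤ 2,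
 dg z y = #B + h ≤ 2; two different l, m ∈ A ∩ B would give the square x l y m; l ∈ A ∩ B and h would give the triangle x y l.
 (←) z := {xa | a ∈ A} ∪ {yb | b ∈ B} ∪ (if h then {xy}). Degrees: a leaf has degree ≤ 2. No triangle: a triangle in edges has the three vertices not all leaves; two
 leaves are not adjacent, so it is x y l: then xy, xl, yl ∈ z, so h and l ∈ A ∩ B, impossible. No square: the edges of a square with a leaf l: its two
 neighbours are x and y, which are opposite; the fourth vertex is adjacent to x and y and ≠ l, so it is a leaf m ≠ l; then l, m ∈ A ∩ B, impossible. Each square has a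
 leaf (it has 4 vertices). -/

namespace Pool.Agent.TFC.SH

open Finset
open scoped Pointwise

variable {V : Type*} [DecidableEq V]

/-- indicator vector -/
def ind (S : Finset V) : V → ℤ := ∑ l ∈ S, ev l

/-- degree vector of the edges from `x` to `A` and from `y` to `B` (and `xy` if `h = 1`) -/
def fan (x y : V) (A B : Finset V) (h : ℕ) : V → ℤ :=
  ind A + ind B + ((#A + h : ℕ) : ℤ) • ev x + ((#B + h : ℕ) : ℤ) • ev y

/-- the conditions for a linear forest -/
def FanOK (L A B : Finset V) (h : ℕ) : Prop :=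
  A ⊆ L ∧ B ⊆ L ∧ #A + h ≤ 2 ∧ #B + h ≤ 2 ∧ #(A ∩ B) ≤ 1 ∧ h ≤ 1 ∧ (h = 1 → Disjoint A B)

/-! values -/

lemma ind_apply (S : Finset V) (v : V) : ind S v = if v ∈ S then 1 else 0 := by
  simp only [ind, Finset.sum_apply, ev_apply]
  rw [Finset.sum_ite_eq]

lemma fan_x {x y : V} {L A B : Finset V} (h1 : x ≠ y) (h2 : x ∉ L) (hA : A ⊆ L) (hB : B ⊆ L) (h : ℕ) :
    fan x y A B h x = #A + h := by
  have h4 : x ∉ A := fun h => h2 (hA h)
  have h5 : x ∉ B := fun h => h2 (hB h)
  simp [fan, ind_apply, h4, h5, ev_apply, h1]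

lemma fan_y {x y : V} {L A B : Finset V} (h1 : x ≠ y) (h2 : y ∉ L) (hA : A ⊆ L) (hB : B ⊆ L) (h : ℕ) :
    fan x y A B h y = #B + h := by
  have h4 : y ∉ A := fun h => h2 (hA h)
  have h5 : y ∉ B := fun h => h2 (hB h)
  simp [fan, ind_apply, h4, h5, ev_apply, h1.symm]

private lemma R3_ins {t : V} {A : Finset V} (ht : t ∉ A) : ind (insert t A) = ind A + ev t := by
  rw [ind, ind, Finset.sum_insert ht, add_comm]

lemma fan_insA {x y t : V} {A B : Finset V} (h : ℕ) (ht : t ∉ A) :
    fan x y A B h + (ev x + ev t) = fan x y (insert t A) B h := by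
  have h2 : ((#(insert t A) + h : ℕ) : ℤ) = ((#A + h : ℕ) : ℤ) + 1 := by
    rw [card_insert_of_notMem ht]; push_cast; ring
  rw [fan, fan, h2, R3_ins ht, add_smul, one_smul]
  abel

lemma fan_insB {x y t : V} {A B : Finset V} (h : ℕ) (ht : t ∉ B) :
    fan x y A B h + (ev y + ev t) = fan x y A (insert t B) h := by
  have h2 : ((#(insert t B) + h : ℕ) : ℤ) = ((#B + h : ℕ) : ℤ) + 1 := by
    rw [card_insert_of_notMem ht]; push_cast; ring
  rw [fan, fan, h2, R3_ins ht, add_smul, one_smul]
  abel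

lemma fan_hub {x y : V} {A B : Finset V} : fan x y A B 0 + (ev x + ev y) = fan x y A B 1 := by
  have h1 : ((#A + 1 : ℕ) : ℤ) = ((#A + 0 : ℕ) : ℤ) + 1 := by push_cast; ring
  have h2 : ((#B + 1 : ℕ) : ℤ) = ((#B + 0 : ℕ) : ℤ) + 1 := by push_cast; ring
  rw [fan, fan, h1, h2, add_smul, add_smul, one_smul, one_smul]
  abel

lemma fan_swap (x y : V) (A B : Finset V) (h : ℕ) : fan x y A B h = fan y x B A h := by
  rw [fan, fan]; abel

private lemma R3_other {x y v : V} {A B : Finset V} {h : ℕ} (h1 : v ≠ x) (h2 : v ≠ y) :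
    fan x y A B h v ≤ 2 := by
  simp only [fan, Pi.add_apply, ind_apply, Pi.smul_apply, ev_apply, h1, h2, if_false, smul_zero,
    add_zero]
  split_ifs <;> norm_num

/-! the edge set -/

private def R3_st (w : V) (A : Finset V) : Finset (Sym2 V) := A.image (fun l => s(w, l))

private lemma R3_mem_st {w x y : V} {A : Finset V} :
    s(x, y) ∈ R3_st w A ↔ (x = w ∧ y ∈ A) ∨ (y = w ∧ x ∈ A) := by
  simp only [R3_st, mem_image, Sym2.eq_iff]
  constructor
  · rintro ⟨a, ha, (⟨rfl, rfl⟩ | ⟨rfl, rfl⟩)⟩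
    · exact Or.inl ⟨rfl, ha⟩
    · exact Or.inr ⟨rfl, ha⟩
  · rintro (⟨rfl, h⟩ | ⟨rfl, h⟩)
    · exact ⟨y, h, Or.inl ⟨rfl, rfl⟩⟩
    · exact ⟨x, h, Or.inr ⟨rfl, rfl⟩⟩

private lemma R3_dv_st {w : V} {A : Finset V} (hw : w ∉ A) :
    dv (R3_st w A) = ind A + (#A : ℤ) • ev w := by
  induction A using Finset.induction_on with
  | empty => funext v; simp [R3_st, ind, dv, dg]
  | insert a A ha ih =>
    rw [mem_insert, not_or] at hw
    have h1 : R3_st w (insert a A) = insert s(w, a) (R3_st w A) := by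
      simp [R3_st, image_insert]
    rw [h1, dv_insert hw.1, ih hw.2, card_insert_of_notMem ha]
    · rw [R3_ins ha]
      push_cast
      rw [add_smul, one_smul]
      abel
    · rw [R3_mem_st]
      rintro (⟨-, h⟩ | ⟨h, -⟩)
      · exact ha h
      · exact hw.1 h.symm

private lemma R3_dv_union {s t : Finset (Sym2 V)} (h : Disjoint s t) :
    dv (s ∪ t) = dv s + dv t := by
  funext v
  simp only [dv, dg, Pi.add_apply]
  rw [filter_union, card_union_of_disjoint (disjoint_filter_filter h)]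
  push_cast
  rfl

private lemma R3_dv0 {x y : V} {L A B : Finset V} (h1 : x ≠ y) (h2 : x ∉ L) (h3 : y ∉ L)
    (hA : A ⊆ L) (hB : B ⊆ L) : dv (R3_st x A ∪ R3_st y B) = fan x y A B 0 := by
  have hd : Disjoint (R3_st x A) (R3_st y B) := by
    rw [Finset.disjoint_left]
    intro e
    induction e using Sym2.ind with
    | _ u v =>
      rw [R3_mem_st, R3_mem_st]
      rintro (⟨rfl, h⟩ | ⟨rfl, h⟩) (⟨h4, h5⟩ | ⟨h4, h5⟩)
      · exact h1 h4
      · exact h3 (h4 ▸ hA h)
      · exact h3 (h4 ▸ hA h)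
      · exact h1 h4
  rw [R3_dv_union hd, R3_dv_st (fun h => h2 (hA h)), R3_dv_st (fun h => h3 (hB h)), fan]
  simp only [add_zero]
  abel

private lemma R3_not_mem {x y : V} {L A B : Finset V} (h1 : x ≠ y) (h2 : x ∉ L) (h3 : y ∉ L)
    (hA : A ⊆ L) (hB : B ⊆ L) : s(x, y) ∉ R3_st x A ∪ R3_st y B := by
  rw [mem_union, R3_mem_st, R3_mem_st]
  rintro ((⟨-, h⟩ | ⟨h, -⟩) | (⟨h, -⟩ | ⟨-, h⟩))
  · exact h3 (hA h)
  · exact h1 h.symm
  · exact h1 h
  · exact h2 (hB h)

private lemma R3_dv1 {x y : V} {L A B : Finset V} (h1 : x ≠ y) (h2 : x ∉ L) (h3 : y ∉ L)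
    (hA : A ⊆ L) (hB : B ⊆ L) :
    dv (insert s(x, y) (R3_st x A ∪ R3_st y B)) = fan x y A B 1 := by
  rw [dv_insert h1 (R3_not_mem h1 h2 h3 hA hB), R3_dv0 h1 h2 h3 hA hB, ← fan_hub]
  abel

/-- an edge set all of whose edges meet `{x, y}` -/
private lemma R3_free_x {x y : V} {z : Finset (Sym2 V)} (hxy : x ≠ y)
    (hc : ∀ u v, s(u, v) ∈ z → u = x ∨ u = y ∨ v = x ∨ v = y)
    (hs : ∀ u v, u ≠ v → s(x, u) ∈ z → s(y, u) ∈ z → s(x, v) ∈ z → s(y, v) ∈ z → False)
    (ht : ∀ u, s(x, y) ∈ z → s(x, u) ∈ z → s(y, u) ∈ z → False)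
    {Z : Finset (Sym2 V)} (hZ : IsSh Z) (hZz : Z ⊆ z) (hx : x ∈ vs Z) : False := by
  obtain ⟨w, hw⟩ := mem_vs.1 hx
  rcases isSh_first hZ hw with ⟨p, h1, h2, h3, rfl⟩ | ⟨q, p, ⟨h1, h2, h3, h4, h5, h6⟩, rfl⟩
  · have e1 : s(x, w) ∈ z := hZz (by simp [tr])
    have e2 : s(w, p) ∈ z := hZz (by simp [tr])
    have e3 : s(p, x) ∈ z := hZz (by simp [tr])
    rcases hc _ _ e2 with h | h | h | h
    · exact h1 h.symm
    · subst h
      exact ht p e1 (msw e3) e2
    · exact h2 h.symm
    · subst h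
      exact ht w (msw e3) e1 (msw e2)
  · have e1 : s(x, w) ∈ z := hZz (by simp [sq])
    have e2 : s(w, q) ∈ z := hZz (by simp [sq])
    have e3 : s(q, p) ∈ z := hZz (by simp [sq])
    have e4 : s(p, x) ∈ z := hZz (by simp [sq])
    have hq : q = y := by
      rcases hc _ _ e2 with h | h | h | h
      · exact absurd h.symm h1
      · rcases hc _ _ e3 with h' | h' | h' | h'
        · exact absurd h'.symm h2
        · exact h'
        · exact absurd h'.symm h3
        · exact absurd (h.trans h'.symm) h5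
      · exact absurd h.symm h2
      · exact h
    subst hq
    exact hs w p h5 e1 (msw e2) (msw e4) e3

private lemma R3_free {x y : V} {z : Finset (Sym2 V)} (hxy : x ≠ y)
    (hc : ∀ u v, s(u, v) ∈ z → u = x ∨ u = y ∨ v = x ∨ v = y)
    (hs : ∀ u v, u ≠ v → s(x, u) ∈ z → s(y, u) ∈ z → s(x, v) ∈ z → s(y, v) ∈ z → False)
    (ht : ∀ u, s(x, y) ∈ z → s(x, u) ∈ z → s(y, u) ∈ z → False) :
    Good non z := by
  intro Z hZ hZz
  exfalso
  have hx : x ∉ vs Z := fun h => R3_free_x hxy hc hs ht hZ hZz h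
  have hy : y ∉ vs Z := fun h => R3_free_x hxy.symm
    (fun u v he => by rcases hc u v he with h | h | h | h <;> tauto)
    (fun u v huv h1 h2 h3 h4 => hs u v huv h2 h1 h4 h3)
    (fun u h1 h2 h3 => ht u (msw h1) h3 h2) hZ hZz h
  have hne : ∃ u w, s(u, w) ∈ Z := by
    rcases hZ with ⟨a, b, c, -, -, -, rfl⟩ | ⟨a, b, c, d, -, rfl⟩
    · exact ⟨a, b, by simp [tr]⟩
    · exact ⟨a, b, by simp [sq]⟩
  obtain ⟨u, w, huw⟩ := hne
  rcases hc u w (hZz huw) with rfl | rfl | rfl | rfl
  · exact hx (mem_vs' huw).1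
  · exact hy (mem_vs' huw).1
  · exact hx (mem_vs' huw).2
  · exact hy (mem_vs' huw).2

/-- the edge set of the fan -/
private def R3_F (x y : V) (A B : Finset V) (h : ℕ) : Finset (Sym2 V) :=
  if h = 1 then insert s(x, y) (R3_st x A ∪ R3_st y B) else R3_st x A ∪ R3_st y B

private lemma R3_mem_F {x y u v : V} {A B : Finset V} {h : ℕ} :
    s(u, v) ∈ R3_F x y A B h ↔ (h = 1 ∧ s(u, v) = s(x, y)) ∨ (u = x ∧ v ∈ A) ∨ (v = x ∧ u ∈ A) ∨
      (u = y ∧ v ∈ B) ∨ (v = y ∧ u ∈ B) := by
  unfold R3_F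
  split_ifs with h1
  · rw [mem_insert, mem_union, R3_mem_st, R3_mem_st]
    tauto
  · rw [mem_union, R3_mem_st, R3_mem_st]
    tauto

private lemma R3_dv {x y : V} {L A B : Finset V} (h1 : x ≠ y) (h2 : x ∉ L) (h3 : y ∉ L)
    (hA : A ⊆ L) (hB : B ⊆ L) {h : ℕ} (hh : h ≤ 1) : dv (R3_F x y A B h) = fan x y A B h := by
  unfold R3_F
  split_ifs with h4
  · subst h4
    exact R3_dv1 h1 h2 h3 hA hB
  · have : h = 0 := by omega
    subst this
    exact R3_dv0 h1 h2 h3 hA hB

private lemma R3_sub {x y : V} {L A B : Finset V} (hA : A ⊆ L) (hB : B ⊆ L) {h : ℕ} :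
    R3_F x y A B h ⊆ (Clu.k3 x y L).edges := by
  have h1 : R3_st x A ∪ R3_st y B ⊆ (TFC.Clu.k2 x y L).edges :=
    union_subset_union (image_subset_image hA) (image_subset_image hB)
  unfold R3_F
  split_ifs with h4
  · exact insert_subset_insert _ h1
  · exact h1.trans (subset_insert _ _)

theorem mem_JS_k3 {x y : V} {L : Finset V} (h1 : x ≠ y) (h2 : x ∉ L) (h3 : y ∉ L) (k : V → ℤ) :
    k ∈ JS (Clu.k3 x y L).edges non ↔ ∃ A B h, FanOK L A B h ∧ k = fan x y A B h := by
  constructor
  · rintro ⟨z, hz, hM, hg, rfl⟩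
    set A := L.filter (fun l => s(x, l) ∈ z) with hA
    set B := L.filter (fun l => s(y, l) ∈ z) with hB
    have hAL : A ⊆ L := filter_subset _ _
    have hBL : B ⊆ L := filter_subset _ _
    set h : ℕ := if s(x, y) ∈ z then 1 else 0 with hh
    have hle : h ≤ 1 := by rw [hh]; split_ifs <;> omega
    have hh1 : h = 1 ↔ s(x, y) ∈ z := by
      rw [hh]; split_ifs with h' <;> simp [h']
    have hzz : z = R3_F x y A B h := by
      ext e
      induction e using Sym2.ind with
      | _ u v =>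
        rw [R3_mem_F]
        constructor
        · intro he
          have h4 := hz he
          simp only [Clu.edges, TFC.Clu.edges, mem_insert, mem_union, mem_image] at h4
          rcases h4 with h4 | ⟨l, hl, h4⟩ | ⟨l, hl, h4⟩
          · exact Or.inl ⟨hh1.2 (h4 ▸ he), h4⟩
          · have hl' : l ∈ A := mem_filter.mpr ⟨hl, h4 ▸ he⟩
            rw [Sym2.eq_iff] at h4
            rcases h4 with ⟨rfl, rfl⟩ | ⟨rfl, rfl⟩
            · exact Or.inr (Or.inl ⟨rfl, hl'⟩)
            · exact Or.inr (Or.inr (Or.inl ⟨rfl, hl'⟩))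
          · have hl' : l ∈ B := mem_filter.mpr ⟨hl, h4 ▸ he⟩
            rw [Sym2.eq_iff] at h4
            rcases h4 with ⟨rfl, rfl⟩ | ⟨rfl, rfl⟩
            · exact Or.inr (Or.inr (Or.inr (Or.inl ⟨rfl, hl'⟩)))
            · exact Or.inr (Or.inr (Or.inr (Or.inr ⟨rfl, hl'⟩)))
        · rintro (⟨h4, h5⟩ | ⟨rfl, h4⟩ | ⟨rfl, h4⟩ | ⟨rfl, h4⟩ | ⟨rfl, h4⟩)
          · rw [h5]; exact hh1.1 h4
          · exact (mem_filter.mp h4).2
          · exact msw (mem_filter.mp h4).2
          · exact (mem_filter.mp h4).2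
          · exact msw (mem_filter.mp h4).2
    have hdv : dv z = fan x y A B h := by
      rw [← R3_dv h1 h2 h3 hAL hBL hle, ← hzz]
    refine ⟨A, B, h, ⟨hAL, hBL, ?_, ?_, ?_, hle, ?_⟩, hdv⟩
    · have h4 := congrFun hdv x
      rw [fan_x h1 h2 hAL hBL, dv_apply] at h4
      have h5 := hM.le x
      have : dg z x = #A + h := by exact_mod_cast h4
      omega
    · have h4 := congrFun hdv y
      rw [fan_y h1 h3 hAL hBL, dv_apply] at h4
      have h5 := hM.le y
      have : dg z y = #B + h := by exact_mod_cast h4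
      omega
    · by_contra hcon
      push Not at hcon
      obtain ⟨a, ha, b, hb, hab⟩ := one_lt_card.mp hcon
      rw [mem_inter] at ha hb
      have a1 := (mem_filter.mp ha.1).2
      have a2 := (mem_filter.mp ha.2).2
      have b1 := (mem_filter.mp hb.1).2
      have b2 := (mem_filter.mp hb.2).2
      have haL := hAL ha.1
      have hbL := hAL hb.1
      have hxa : x ≠ a := fun h => h2 (h ▸ haL)
      have hxb : x ≠ b := fun h => h2 (h ▸ hbL)
      have hya : y ≠ a := fun h => h3 (h ▸ haL)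
      have hyb : y ≠ b := fun h => h3 (h ▸ hbL)
      refine hg (sq x a y b) (Or.inr ⟨x, a, y, b, ⟨hxa, h1, hxb, hya.symm, hab, hyb⟩, rfl⟩) ?_
      intro e he
      simp only [sq, mem_insert, mem_singleton] at he
      rcases he with rfl | rfl | rfl | rfl
      · exact a1
      · exact msw a2
      · exact b2
      · exact msw b1
    · intro h4
      rw [Finset.disjoint_left]
      intro a ha hb
      have a1 := (mem_filter.mp ha).2
      have a2 := (mem_filter.mp hb).2
      have haL := hAL ha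
      have hxa : x ≠ a := fun h => h2 (h ▸ haL)
      have hya : y ≠ a := fun h => h3 (h ▸ haL)
      refine hg (tr x y a) (Or.inl ⟨x, y, a, h1, hxa, hya, rfl⟩) ?_
      intro e he
      simp only [tr, mem_insert, mem_singleton] at he
      rcases he with rfl | rfl | rfl
      · exact hh1.1 h4
      · exact a2
      · exact msw a1
  · rintro ⟨A, B, h, ⟨hA, hB, cA, cB, cAB, hh, hd⟩, rfl⟩
    refine ⟨R3_F x y A B h, R3_sub hA hB, ?_, ?_, (R3_dv h1 h2 h3 hA hB hh).symm⟩
    · refine M2.of_dv ?_ ?_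
      · intro e he
        induction e using Sym2.ind with
        | _ u v =>
          rw [R3_mem_F] at he
          rw [Sym2.mk_isDiag_iff]
          rintro rfl
          rcases he with ⟨-, h5⟩ | ⟨rfl, h4⟩ | ⟨rfl, h4⟩ | ⟨rfl, h4⟩ | ⟨rfl, h4⟩
          · rw [Sym2.eq_iff] at h5
            rcases h5 with ⟨rfl, h5⟩ | ⟨rfl, h5⟩
            · exact h1 h5
            · exact h1 h5.symm
          · exact h2 (hA h4)
          · exact h2 (hA h4)
          · exact h3 (hB h4)
          · exact h3 (hB h4)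
      · intro v
        rw [R3_dv h1 h2 h3 hA hB hh]
        by_cases hw : v = x
        · subst hw; rw [fan_x h1 h2 hA hB]; exact_mod_cast cA
        by_cases hw' : v = y
        · subst hw'; rw [fan_y h1 h3 hA hB]; exact_mod_cast cB
        exact R3_other hw hw'
    · have mx : ∀ u, u ≠ y → s(x, u) ∈ R3_F x y A B h → u ∈ A := by
        intro u huy hu
        rw [R3_mem_F] at hu
        rcases hu with ⟨-, h5⟩ | ⟨-, h4⟩ | ⟨rfl, h4⟩ | ⟨h5, -⟩ | ⟨h5, -⟩
        · exact absurd (sym2_inj_left h5) huy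
        · exact h4
        · exact h4
        · exact absurd h5 h1
        · exact absurd h5 huy
      have my : ∀ u, u ≠ x → s(y, u) ∈ R3_F x y A B h → u ∈ B := by
        intro u hux hu
        rw [R3_mem_F] at hu
        rcases hu with ⟨-, h5⟩ | ⟨h5, h4⟩ | ⟨h5, h4⟩ | ⟨-, h5⟩ | ⟨rfl, h5⟩
        · rw [Sym2.eq_iff] at h5
          rcases h5 with ⟨h5, -⟩ | ⟨-, h5⟩
          · exact absurd h5.symm h1
          · exact absurd h5 hux
        · exact absurd h5.symm h1
        · exact absurd h5 hux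
        · exact h5
        · exact h5
      have hloop : ∀ u, s(u, u) ∈ R3_F x y A B h → False := by
        intro u he
        rw [R3_mem_F] at he
        rcases he with ⟨-, h5⟩ | ⟨rfl, h4⟩ | ⟨rfl, h4⟩ | ⟨rfl, h4⟩ | ⟨rfl, h4⟩
        · rw [Sym2.eq_iff] at h5
          rcases h5 with ⟨rfl, h5⟩ | ⟨rfl, h5⟩
          · exact h1 h5
          · exact h1 h5.symm
        · exact h2 (hA h4)
        · exact h2 (hA h4)
        · exact h3 (hB h4)
        · exact h3 (hB h4)
      refine R3_free h1 ?_ ?_ ?_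
      · intro u v he
        rw [R3_mem_F, Sym2.eq_iff] at he
        tauto
      · intro u v huv e1 e2 e3 e4
        have hux : u ≠ x := by rintro rfl; exact hloop _ e1
        have huy : u ≠ y := by rintro rfl; exact hloop _ e2
        have hvx : v ≠ x := by rintro rfl; exact hloop _ e3
        have hvy : v ≠ y := by rintro rfl; exact hloop _ e4
        exact huv (card_le_one.mp cAB u (mem_inter.mpr ⟨mx u huy e1, my u hux e2⟩) v
          (mem_inter.mpr ⟨mx v hvy e3, my v hvx e4⟩))
      · intro u e0 e1 e2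
        have hux : u ≠ x := by rintro rfl; exact hloop _ e1
        have huy : u ≠ y := by rintro rfl; exact hloop _ e2
        have hh1 : h = 1 := by
          rw [R3_mem_F] at e0
          rcases e0 with ⟨h5, -⟩ | ⟨-, h4⟩ | ⟨h5, h4⟩ | ⟨h5, -⟩ | ⟨-, h5⟩
          · exact h5
          · exact absurd (hA h4) h3
          · exact absurd h5.symm h1
          · exact absurd h5 h1
          · exact absurd (hB h5) h2
        exact Finset.disjoint_left.mp (hd hh1) (mx u huy e1) (my u hux e2)

private lemma R3_list_mem {x y : V} : ∀ (l : List V), l.Nodup → ∀ P Q : Finset V,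
    (∀ u ∈ P, u ∈ l) → (∀ u ∈ Q, u ∈ l) → Disjoint P Q →
    fan x y P Q 0 ∈ sumU (l.map (fun l => (({l} : Finset V), ({x, y} : Finset V)))) := by
  intro l
  induction l with
  | nil =>
    intro _ P Q hP hQ _
    have h1 : P = ∅ := by
      rw [eq_empty_iff_forall_notMem]; intro x hx; simpa using hP x hx
    have h2 : Q = ∅ := by
      rw [eq_empty_iff_forall_notMem]; intro x hx; simpa using hQ x hx
    subst h1 h2
    simp [sumU, fan, ind]
  | cons a l ih =>
    intro hn P Q hP hQ hd
    rw [List.nodup_cons] at hn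
    rw [List.map_cons, sumU]
    by_cases haP : a ∈ P
    · have haQ : a ∉ Q := Finset.disjoint_left.mp hd haP
      have e : fan x y P Q 0 = (ev x + ev a) + fan x y (P.erase a) Q 0 := by
        rw [add_comm, fan_insA 0 (notMem_erase a P), insert_erase haP]
      rw [e]
      refine Set.add_mem_add ?_ ?_
      · refine Or.inr ⟨a, mem_singleton_self a, x, by simp, add_comm _ _⟩
      · refine ih hn.2 _ _ ?_ ?_ (hd.mono_left (erase_subset _ _))
        · intro x hx
          rw [mem_erase] at hx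
          exact (List.mem_cons.mp (hP x hx.2)).resolve_left hx.1
        · intro x hx
          refine (List.mem_cons.mp (hQ x hx)).resolve_left ?_
          rintro rfl; exact haQ hx
    · by_cases haQ : a ∈ Q
      · have e : fan x y P Q 0 = (ev y + ev a) + fan x y P (Q.erase a) 0 := by
          rw [add_comm, fan_insB 0 (notMem_erase a Q), insert_erase haQ]
        rw [e]
        refine Set.add_mem_add ?_ ?_
        · refine Or.inr ⟨a, mem_singleton_self a, y, by simp, add_comm _ _⟩
        · refine ih hn.2 _ _ ?_ ?_ (hd.mono_right (erase_subset _ _))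
          · intro x hx
            refine (List.mem_cons.mp (hP x hx)).resolve_left ?_
            rintro rfl; exact haP hx
          · intro x hx
            rw [mem_erase] at hx
            exact (List.mem_cons.mp (hQ x hx.2)).resolve_left hx.1
      · rw [← zero_add (fan x y P Q 0)]
        refine Set.add_mem_add (Or.inl rfl) ?_
        refine ih hn.2 _ _ ?_ ?_ hd
        · intro x hx
          refine (List.mem_cons.mp (hP x hx)).resolve_left ?_
          rintro rfl; exact haP hx
        · intro x hx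
          refine (List.mem_cons.mp (hQ x hx)).resolve_left ?_
          rintro rfl; exact haQ hx

private lemma R3_of_list_mem {x y : V} : ∀ (l : List V), l.Nodup → ∀ k : V → ℤ,
    k ∈ sumU (l.map (fun l => (({l} : Finset V), ({x, y} : Finset V)))) →
    ∃ P Q : Finset V, (∀ u ∈ P, u ∈ l) ∧ (∀ u ∈ Q, u ∈ l) ∧ Disjoint P Q ∧ k = fan x y P Q 0 := by
  intro l
  induction l with
  | nil =>
    intro _ k hk
    refine ⟨∅, ∅, by simp, by simp, by simp, ?_⟩
    rw [List.map_nil, sumU, Set.mem_singleton_iff] at hk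
    simp [hk, fan, ind]
  | cons a l ih =>
    intro hn k hk
    rw [List.nodup_cons] at hn
    rw [List.map_cons, sumU] at hk
    obtain ⟨u, hu, t, ht, rfl⟩ := Set.mem_add.mp hk
    obtain ⟨P, Q, hP, hQ, hd, rfl⟩ := ih hn.2 t ht
    have haP : a ∉ P := fun h => hn.1 (hP a h)
    have haQ : a ∉ Q := fun h => hn.1 (hQ a h)
    rcases hu with rfl | ⟨s, hs, t, ht', rfl⟩
    · refine ⟨P, Q, fun x hx => List.mem_cons_of_mem _ (hP x hx),
        fun x hx => List.mem_cons_of_mem _ (hQ x hx), hd, by rw [zero_add]⟩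
    · have hs' : s = a := mem_singleton.mp hs
      subst hs'
      have ht'' : t = x ∨ t = y := by simpa using ht'
      rcases ht'' with rfl | rfl
      · refine ⟨insert s P, Q, ?_, fun x hx => List.mem_cons_of_mem _ (hQ x hx), ?_, ?_⟩
        · intro x hx
          rcases mem_insert.mp hx with rfl | hx
          · exact List.mem_cons_self
          · exact List.mem_cons_of_mem _ (hP x hx)
        · rw [disjoint_insert_left]; exact ⟨haQ, hd⟩
        · rw [← fan_insA 0 haP]; abel
      · refine ⟨P, insert s Q, fun x hx => List.mem_cons_of_mem _ (hP x hx), ?_, ?_, ?_⟩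
        · intro x hx
          rcases mem_insert.mp hx with rfl | hx
          · exact List.mem_cons_self
          · exact List.mem_cons_of_mem _ (hQ x hx)
        · rw [disjoint_insert_right]; exact ⟨haP, hd⟩
        · rw [← fan_insB 0 haQ]; abel

/-- the sums of the units of the leaves -/
theorem mem_leafUnits {x y : V} (l : List V) (hl : l.Nodup) (k : V → ℤ) :
    k ∈ sumU (l.map (fun l => (({l} : Finset V), ({x, y} : Finset V)))) ↔
    ∃ P Q : Finset V, (∀ u ∈ P, u ∈ l) ∧ (∀ u ∈ Q, u ∈ l) ∧ Disjoint P Q ∧ k = fan x y P Q 0 := by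
  constructor
  · exact R3_of_list_mem l hl k
  · rintro ⟨P, Q, hP, hQ, hd, rfl⟩
    exact R3_list_mem l hl P Q hP hQ hd

end Pool.Agent.TFC.SH
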