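import Pool.Agent.SQ34.R3

set_option autoImplicit false
set_option linter.unusedSectionVars false

/-! [SQ34-R3b] the units of `k3b w w' L`: ({l}, {w, w'}) (l ∈ L) and ({w}, insert w' L). Use `mem_leafUnits`, `mem_JS_k3` and the lemmas on `fan` in R3.lean;
compare `JS_subset_units_k2`, `units_k2_le` in Pool/Agent/TFC/R2.lean.

So k ∈ sumU units iff there are disjoint P, Q ⊆ L with k = fan w w' P Q 0 + u, u = 0 or u = ev w + ev t, t ∈ L ∪ {w'}.
`JS_units_k3b`: k = fan w w' A B h. h = 1: A, B disjoint, fan w w' A B 1 = fan w w' A B 0 + (ev w + ev w') (`fan_hub`). h = 0: A ∩ B = ∅: u = 0. A ∩ B = {l}: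
 fan w w' A B 0 = fan w w' (A \ l) B 0 + (ev w + ev l), A \ l and B disjoint.
`units_k3b_le`: u = 0: FanOK L P Q 0 (#P ≤ 2 from k w ≤ 2, #Q ≤ 2 from k w' ≤ 2). t = w': k = fan w w' P Q 1, FanOK. t ∈ L \ P: k = fan w w' (insert t P) Q 0,
 FanOK (#(insert t P ∩ Q) ≤ 1). t ∈ P: k w = #P + 1 ≤ 2 so P = {t}; t ∉ Q. Q = ∅: k = 2 • ev w + 2 • ev t. Q ∋ m: m ≠ t,
 k = fan w w' {t, m} (insert t (Q.erase m)) 0, FanOK: #{t, m} = 2, #(insert t (Q.erase m)) = #Q ≤ 2, the intersection is {t}. -/

namespace Pool.Agent.TFC.SH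

open Finset

variable {V : Type*} [DecidableEq V]

private theorem R3b_mem {w w' : V} {L : Finset V} {k : V → ℤ} :
    k ∈ sumU (CC.k3b w w' L).units ↔ ∃ P Q : Finset V, P ⊆ L ∧ Q ⊆ L ∧ Disjoint P Q ∧ ∃ u : V → ℤ,
      (u = 0 ∨ ∃ t ∈ insert w' L, u = ev w + ev t) ∧ k = fan w w' P Q 0 + u := by
  rw [CC.units, sumU_append, Set.mem_add]
  constructor
  · rintro ⟨a, ha, b, hb, rfl⟩
    rw [mem_leafUnits _ (nodup_toList L)] at ha
    obtain ⟨P, Q, hP, hQ, hd, rfl⟩ := ha
    rw [sumU, sumU, Set.mem_add] at hb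
    obtain ⟨u, hu, z, hz, rfl⟩ := hb
    rw [Set.mem_singleton_iff] at hz
    subst hz
    refine ⟨P, Q, fun x hx => mem_toList.1 (hP x hx), fun x hx => mem_toList.1 (hQ x hx), hd, u, ?_, by rw [add_zero]⟩
    rcases hu with rfl | ⟨s, hs, t, ht, rfl⟩
    · exact Or.inl rfl
    · rw [mem_singleton] at hs
      subst hs
      exact Or.inr ⟨t, ht, rfl⟩
  · rintro ⟨P, Q, hP, hQ, hd, u, hu, rfl⟩
    refine ⟨_, (mem_leafUnits _ (nodup_toList L) _).2 ⟨P, Q, fun x hx => mem_toList.2 (hP hx),
      fun x hx => mem_toList.2 (hQ hx), hd, rfl⟩, u, ?_, rfl⟩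
    rw [sumU, sumU, Set.mem_add]
    refine ⟨u, ?_, 0, rfl, add_zero _⟩
    rcases hu with rfl | ⟨t, ht, rfl⟩
    · exact Or.inl rfl
    · exact Or.inr ⟨w, mem_singleton_self _, t, ht, rfl⟩

private lemma R3b_ev_self (v : V) : ev v v = 1 := by
  rw [ev, Pi.single_eq_same]

private lemma R3b_ev_ne {v w : V} (h : v ≠ w) : ev v w = 0 := by
  rw [ev, Pi.single_eq_of_ne h.symm]

theorem JS_units_k3b {w w' : V} {L : Finset V} (hv : (CC.k3b w w' L).Valid) :
    JS (CC.k3b w w' L).clu.edges non ⊆ sumU (CC.k3b w w' L).units := by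
  obtain ⟨h1, h2, h3, hL⟩ := hv
  intro k hk
  obtain ⟨A, B, h, ⟨hA, hB, cA, cB, cAB, hh, hd⟩, rfl⟩ := (mem_JS_k3 h1 h2 h3 k).1 hk
  rw [R3b_mem]
  obtain rfl | rfl : h = 0 ∨ h = 1 := by omega
  · by_cases he : A ∩ B = ∅
    · exact ⟨A, B, hA, hB, disjoint_iff_inter_eq_empty.2 he, 0, Or.inl rfl, by rw [add_zero]⟩
    · obtain ⟨l, hl⟩ := nonempty_iff_ne_empty.2 he
      have hl' := mem_inter.1 hl
      refine ⟨A.erase l, B, (erase_subset _ _).trans hA, hB, ?_, ev w + ev l,
        Or.inr ⟨l, mem_insert_of_mem (hA hl'.1), rfl⟩, ?_⟩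
      · rw [Finset.disjoint_left]
        intro x hx hx'
        rw [mem_erase] at hx
        exact hx.1 (card_le_one.1 cAB x (mem_inter.2 ⟨hx.2, hx'⟩) l hl)
      · rw [fan_insA 0 (notMem_erase l A), insert_erase hl'.1]
  · exact ⟨A, B, hA, hB, hd rfl, ev w + ev w', Or.inr ⟨w', mem_insert_self _ _, rfl⟩, fan_hub.symm⟩

theorem units_k3b_le {w w' : V} {L : Finset V} (hv : (CC.k3b w w' L).Valid) {k : V → ℤ}
    (hk : k ∈ sumU (CC.k3b w w' L).units) (h2 : ∀ v, k v ≤ 2) :
    k ∈ JS (Clu.k3 w w' L).edges non ∨ ∃ l ∈ L, k = 2 • ev w + 2 • ev l := by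
  obtain ⟨h1, h3, h4, hL⟩ := hv
  obtain ⟨P, Q, hP, hQ, hd, u, hu, rfl⟩ := R3b_mem.1 hk
  have fx : ∀ A B h, A ⊆ L → B ⊆ L → fan w w' A B h w = #A + h := fun A B h hA hB => fan_x h1 h3 hA hB h
  have fy : ∀ A B h, A ⊆ L → B ⊆ L → fan w w' A B h w' = #B + h := fun A B h hA hB => fan_y h1 h4 hA hB h
  have hPQ0 : #(P ∩ Q) ≤ 1 := by
    rw [disjoint_iff_inter_eq_empty.1 hd]
    simp
  have hin := mem_JS_k3 h1 h3 h4 (L := L)
  rcases hu with rfl | ⟨t, ht, rfl⟩
  · left
    rw [add_zero] at h2 ⊢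
    refine (hin _).2 ⟨P, Q, 0, ⟨hP, hQ, ?_, ?_, hPQ0, by omega, fun h => by omega⟩, rfl⟩
    · have h5 := h2 w
      rw [fx P Q 0 hP hQ] at h5
      omega
    · have h5 := h2 w'
      rw [fy P Q 0 hP hQ] at h5
      omega
  · rw [mem_insert] at ht
    rcases ht with rfl | ht
    · left
      rw [fan_hub] at h2 ⊢
      refine (hin _).2 ⟨P, Q, 1, ⟨hP, hQ, ?_, ?_, hPQ0, by omega, fun _ => hd⟩, rfl⟩
      · have h5 := h2 w
        rw [fx P Q 1 hP hQ] at h5
        omega
      · have h5 := h2 t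
        rw [fy P Q 1 hP hQ] at h5
        omega
    · have htw : t ≠ w := fun h => h3 (h ▸ ht)
      have htw' : t ≠ w' := fun h => h4 (h ▸ ht)
      by_cases htP : t ∈ P
      · have hP1 : P = {t} := by
          have h5 := h2 w
          rw [Pi.add_apply, Pi.add_apply, fx P Q 0 hP hQ, R3b_ev_self, R3b_ev_ne htw] at h5
          have h6 : #P ≤ 1 := by omega
          exact eq_singleton_iff_unique_mem.2 ⟨htP, fun x hx => card_le_one.1 h6 x hx t htP⟩
        have hQ2 : #Q ≤ 2 := by
          have h5 := h2 w'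
          rw [Pi.add_apply, Pi.add_apply, fy P Q 0 hP hQ, R3b_ev_ne h1, R3b_ev_ne htw'] at h5
          omega
        have htQ : t ∉ Q := Finset.disjoint_left.1 hd htP
        subst hP1
        by_cases hQ0 : Q = ∅
        · right
          subst hQ0
          refine ⟨t, ht, ?_⟩
          rw [fan, ind, ind, sum_singleton, sum_empty, card_singleton, card_empty, two_smul, two_smul]
          push_cast
          rw [one_smul, zero_smul]
          abel
        · left
          obtain ⟨m, hm⟩ := nonempty_iff_ne_empty.2 hQ0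
          have htm : t ≠ m := fun h => htQ (h ▸ hm)
          have hmt : m ∉ ({t} : Finset V) := by simpa using htm.symm
          have htQ' : t ∉ Q.erase m := fun h => htQ (mem_of_mem_erase h)
          have e1 : fan w w' {t} Q 0 + (ev w + ev t) = fan w w' (insert m {t}) (insert t (Q.erase m)) 0 := by
            have e2 : fan w w' {t} Q 0 = fan w w' {t} (Q.erase m) 0 + (ev w' + ev m) := by
              rw [fan_insB 0 (notMem_erase m Q), insert_erase hm]
            rw [← fan_insA 0 hmt, ← fan_insB 0 htQ', e2]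
            abel
          rw [e1]
          refine (hin _).2 ⟨_, _, 0, ⟨?_, ?_, ?_, ?_, ?_, by omega, fun h => by omega⟩, rfl⟩
          · exact insert_subset (hQ hm) hP
          · exact insert_subset ht ((erase_subset _ _).trans hQ)
          · rw [add_zero]
            exact card_le_two
          · rw [card_insert_of_notMem htQ', card_erase_add_one hm]
            exact hQ2
          · rw [card_le_one]
            have h7 : ∀ x ∈ insert m {t} ∩ insert t (Q.erase m), x = t := by
              intro x hx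
              rw [mem_inter, mem_insert, mem_singleton, mem_insert, mem_erase] at hx
              rcases hx.1 with rfl | h
              · rcases hx.2 with h | h
                · exact h
                · exact absurd rfl h.1
              · exact h
            intro x hx y hy
            rw [h7 x hx, h7 y hy]
      · left
        rw [fan_insA 0 htP] at h2 ⊢
        have hPt : insert t P ⊆ L := insert_subset ht hP
        refine (hin _).2 ⟨_, _, 0, ⟨hPt, hQ, ?_, ?_, ?_, by omega, fun h => by omega⟩, rfl⟩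
        · have h5 := h2 w
          rw [fx _ Q 0 hPt hQ] at h5
          omega
        · have h5 := h2 w'
          rw [fy _ Q 0 hPt hQ] at h5
          omega
        · rw [card_le_one]
          have h7 : ∀ x ∈ insert t P ∩ Q, x = t := by
            intro x hx
            rw [mem_inter, mem_insert] at hx
            rcases hx.1 with h | h
            · exact h
            · exact absurd hx.2 (Finset.disjoint_left.1 hd h)
          intro x hx y hy
          rw [h7 x hx, h7 y hy]

end Pool.Agent.TFC.SH
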